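import Pool.Agent.H30.PM.WE

/-!
# H30/RG/Basic: spaces on which every operator attains its norm (MP_8d0949_an, Theorem R)

Definitions used by all modules `Pool.Agent.H30.RG.*`. `Pool.H30.PM.Reflexive`,
`Pool.H30.PM.Attains`, `Pool.H30.PM.avgOp`, `Pool.H30.PM.weak_extract` come from `H30/PM`.
-/

namespace Pool.H30.RG

open Filter Topology MeasureTheory

/-- Every bounded operator on `X` attains its norm. -/
def AllAttain (𝕜 : Type*) [RCLike 𝕜] (X : Type*) [NormedAddCommGroup X] [NormedSpace 𝕜 X] : Prop :=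
  ∀ T : X →L[𝕜] X, ∃ x : X, ‖x‖ = 1 ∧ ‖T x‖ = ‖T‖

/-- `IsRep μ U V C`: the real Banach space `X` and its dual are represented by integrable functions
on a measure space, the duality being given by integration. -/
def IsRep {X : Type*} [NormedAddCommGroup X] [NormedSpace ℝ X] {Ω : Type*} [MeasurableSpace Ω]
    (μ : Measure Ω) (U : X →L[ℝ] (Ω →₁[μ] ℝ)) (V : (X →L[ℝ] ℝ) →L[ℝ] (Ω →₁[μ] ℝ)) (C : ℝ) : Prop :=
  (∀ (x : X) (f : X →L[ℝ] ℝ), Integrable (fun ω => U x ω * V f ω) μ) ∧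
  (∀ (x : X) (f : X →L[ℝ] ℝ), ∫ ω, |U x ω * V f ω| ∂μ ≤ C * ‖x‖ * ‖f‖) ∧
  (∀ (x : X) (f : X →L[ℝ] ℝ), ∫ ω, U x ω * V f ω ∂μ = f x)

/-- The space of bounded measurable real functions. -/
def BM (Ω : Type*) [MeasurableSpace Ω] : Submodule ℝ (Ω → ℝ) where
  carrier := {g | Measurable g ∧ ∃ c : ℝ, ∀ ω, |g ω| ≤ c}
  add_mem' := by
    rintro f g ⟨hf, a, ha⟩ ⟨hg, b, hb⟩
    exact ⟨hf.add hg, a + b, fun ω => (abs_add_le _ _).trans (add_le_add (ha ω) (hb ω))⟩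
  zero_mem' := ⟨measurable_zero, 0, fun ω => by simp⟩
  smul_mem' := by
    rintro r g ⟨hg, b, hb⟩
    refine ⟨hg.const_smul r, |r| * b, fun ω => ?_⟩
    rw [Pi.smul_apply, smul_eq_mul, abs_mul]
    exact mul_le_mul_of_nonneg_left (hb ω) (abs_nonneg r)

/-- The square of a bounded measurable function. -/
def BM.sq {Ω : Type*} [MeasurableSpace Ω] (g : BM Ω) : BM Ω :=
  ⟨fun ω => (g : Ω → ℝ) ω ^ 2, g.2.1.pow_const 2, by
    obtain ⟨c, hc⟩ := g.2.2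
    refine ⟨c ^ 2, fun ω => ?_⟩
    have h1 : |(g : Ω → ℝ) ω ^ 2| = |(g : Ω → ℝ) ω| ^ 2 := abs_pow _ _
    show |(g : Ω → ℝ) ω ^ 2| ≤ c ^ 2
    rw [h1]
    exact pow_le_pow_left₀ (abs_nonneg _) (hc ω) 2⟩

/-- The product of bounded measurable functions. -/
def BM.mul {Ω : Type*} [MeasurableSpace Ω] (g h : BM Ω) : BM Ω :=
  ⟨fun ω => (g : Ω → ℝ) ω * (h : Ω → ℝ) ω, g.2.1.mul h.2.1, by
    obtain ⟨c, hc⟩ := g.2.2
    obtain ⟨d, hd⟩ := h.2.2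
    refine ⟨c * d, fun ω => ?_⟩
    rw [abs_mul]
    exact mul_le_mul (hc ω) (hd ω) (abs_nonneg _) ((abs_nonneg _).trans (hc ω))⟩

end Pool.H30.RG
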