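import Pool.Agent.H30.RG.VL

/-!
# [H30 RG CH] Lattice homomorphisms of an Archimedean vector lattice with order unit

`E` a vector lattice, `e ≥ 0` an order unit, `E` Archimedean. If `z ≤ c e` fails, there is a lattice
homomorphism `κ : E → ℝ` (linear, `κ |w| = |κ w|`) with `κ e = 1` and `κ z > c`.

PROOF.  Lemmas of `VL.lean`: `vl_smul_sup`, `vl_abs_smul`, `vl_smul_le_smul`. (0) There is `c' > c` such that
`z ≤ c' e` fails: otherwise `n (z - c e) ≤ e` for all `n ≥ 1` (take `c' = c + 1/n`; for `n = 0` use `0 ≤ e`), so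
`z - c e ≤ 0` by the Archimedean hypothesis. Let `u = (z - c' e)⁺`, `v = (z - c' e)⁻`; `u ≠ 0`, `u ⊓ v = 0`.
(1) An ideal is a submodule `I` with: `|w| ≤ |m|`, `m ∈ I` imply `w ∈ I`. The set `J = {w | ∃ r : ℝ, |w| ≤ r v}`
is an ideal containing `v`, `e ∉ J`: if `e ≤ r v` (`r ≥ 0` without loss) then `u ⊓ e ≤ u ⊓ r v = 0` (for `r ≤ n`
natural, `u ⊓ n v ≤ n (u ⊓ v) = 0`), and `|u| ≤ k e` with a natural `k ≥ 1` gives
`u = u ⊓ k e ≤ k (u ⊓ e) = 0`, contradiction. (2) Zorn's lemma (`zorn_le_nonempty₀`): a maximal element `M`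
among the ideals which contain `J` and do not contain `e` (unions of chains). (3) `M` is prime: `a, b ≥ 0`,
`a ⊓ b = 0`, `a ∉ M` imply `b ∈ M`. The ideal generated by `M` and `a`, `{w | ∃ m ∈ M, r ≥ 0, |w| ≤ m + r a}`
(`m ≥ 0`), is larger than `M`, so contains `e`: `e ≤ m + n a`, `n` natural; then
`b ⊓ e ≤ b ⊓ m + n (b ⊓ a) ≤ m` (inequality `b ⊓ (x + y) ≤ b ⊓ x + b ⊓ y` for `x, y, b ≥ 0`), so `b ⊓ e ∈ M`, and
`b ≤ k e` gives `b = b ⊓ k e ≤ k (b ⊓ e)`, `b ∈ M`. (4) For `a ≥ 0`: if `(a - s e)⁺ ∈ M` for all `s > 0` then `a ∈ M`: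
otherwise `e ≤ m + n a` as in (3), `n ≥ 1`; with `s = 1/(2n)`: `a ≤ (a - s e)⁺ + s e`, so
`e ≤ m + n (a - s e)⁺ + e/2`, `e/2 ≤ m + n (a - s e)⁺ ∈ M`, `e ∈ M`, contradiction. (5) For every `w` there is a
unique `t` with `w - t e ∈ M`. Unique since `e ∉ M`. Existence: `A = {s | (w - s e)⁺ ∈ M}` is upward closed and
contains all large `s`, `B = {s | (w - s e)⁻ ∈ M}` is downward closed and contains all very negative `s`,
`A ∪ B` is everything by (3) (`x⁺ ⊓ x⁻ = 0`), and `s ∈ A`, `s' ∈ B`, `s < s'` is impossible, because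
`(s' - s) e ≤ (w - s e)⁺ + (w - s' e)⁻`. Let `t = inf A`. For every `η > 0`, `t + η ∈ A`, `t - η ∈ B`, so
`(|w - t e| - η e)⁺ ≤ (w - (t+η) e)⁺ + (w - (t-η) e)⁻` is in `M`; by (4) `|w - t e| ∈ M`. (6) `κ w = t` is linear
(uniqueness), `κ e = 1`, and `||w| - |t| e| ≤ |w - t e|` gives `κ |w| = |κ w|`. (7) `v ∈ J ⊆ M`, so `κ v = 0` and
`κ z - c' = κ (u - v) = κ u ≥ 0` (`κ u = κ |u| = |κ u|`), `κ z ≥ c' > c`.
-/

namespace Pool.H30.RG

section ch

variable {E : Type*} [AddCommGroup E] [Lattice E] [IsOrderedAddMonoid E]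
    [Module ℝ E] [PosSMulMono ℝ E]

private theorem ch_smul_inf {r : ℝ} (hr : 0 ≤ r) (a b : E) : r • a ⊓ r • b ≤ r • (a ⊓ b) := by
  rcases hr.eq_or_lt with h | h
  · rw [← h]
    simp
  · have hi : 0 ≤ r⁻¹ := (inv_pos.mpr h).le
    have h1 : r⁻¹ • (r • a ⊓ r • b) ≤ a ⊓ b := by
      refine le_inf ?_ ?_
      · have := smul_le_smul_of_nonneg_left (inf_le_left : r • a ⊓ r • b ≤ r • a) hi
        rwa [smul_smul, inv_mul_cancel₀ h.ne', one_smul] at this
      · have := smul_le_smul_of_nonneg_left (inf_le_right : r • a ⊓ r • b ≤ r • b) hi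
        rwa [smul_smul, inv_mul_cancel₀ h.ne', one_smul] at this
    have h2 := smul_le_smul_of_nonneg_left h1 hr
    rwa [smul_smul, mul_inv_cancel₀ h.ne', one_smul] at h2

private theorem ch_inf_smul {r : ℝ} (hr : 1 ≤ r) {a : E} (ha : 0 ≤ a) (b : E) :
    a ⊓ r • b ≤ r • (a ⊓ b) := by
  have h1 : a ≤ r • a := by
    have := vl_smul_le_smul hr ha
    rwa [one_smul] at this
  exact (inf_le_inf_right _ h1).trans (ch_smul_inf (by linarith) a b)

private theorem ch_inf_add {b x y : E} (hb : 0 ≤ b) (hx : 0 ≤ x) (hy : 0 ≤ y) :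
    b ⊓ (x + y) ≤ b ⊓ x + b ⊓ y := by
  rw [inf_add, add_inf, add_inf]
  refine le_inf (le_inf ?_ ?_) (le_inf ?_ ?_)
  · exact inf_le_left.trans (le_add_of_nonneg_left hb)
  · exact inf_le_left.trans (le_add_of_nonneg_right hy)
  · exact inf_le_left.trans (le_add_of_nonneg_left hx)
  · exact inf_le_right

private theorem ch_dec (z : E) : z ⊔ 0 - (-z) ⊔ 0 = z := by
  have h1 : (-z) ⊔ 0 = z ⊔ 0 - z := by
    rw [← sub_eq_zero]
    have h2 : (-z) ⊔ 0 + z = 0 ⊔ z := by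
      rw [sup_add]
      simp
    have h3 : (-z) ⊔ 0 - (z ⊔ 0 - z) = ((-z) ⊔ 0 + z) - z ⊔ 0 := by abel
    rw [h3, h2, sup_comm, sub_self]
  rw [h1]
  abel

private theorem ch_disj (x : E) : (x ⊔ 0) ⊓ ((-x) ⊔ 0) = 0 := by
  have h1 : (x ⊔ 0) ⊓ ((-x) ⊔ 0) = (x ⊔ 0) + (0 ⊓ (-x)) := by
    rw [add_inf, add_zero]
    congr 1
    have := ch_dec x
    calc (-x) ⊔ 0 = x ⊔ 0 - (x ⊔ 0 - (-x) ⊔ 0) := by abel
      _ = x ⊔ 0 - x := by rw [this]
      _ = x ⊔ 0 + -x := sub_eq_add_neg _ _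
  rw [h1]
  have h2 : (0 : E) ⊓ (-x) = -(x ⊔ 0) := by
    rw [neg_sup, neg_zero, inf_comm]
  rw [h2, add_neg_cancel]

/-- Ideals. -/
private def IsId (I : Submodule ℝ E) : Prop := ∀ w m : E, m ∈ I → |w| ≤ |m| → w ∈ I

private theorem IsId.abs {I : Submodule ℝ E} (hI : IsId I) {m : E} (hm : m ∈ I) : |m| ∈ I :=
  hI _ m hm (by rw [abs_abs])

private theorem IsId.of_nonneg_le {I : Submodule ℝ E} (hI : IsId I) {w m : E} (hm : m ∈ I)
    (hw : 0 ≤ w) (h : w ≤ m) : w ∈ I := by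
  refine hI w m hm ?_
  rw [abs_of_nonneg hw, abs_of_nonneg (hw.trans h)]
  exact h

/-- The ideal generated by an ideal `M` and a nonnegative element `a`. -/
private def genId (M : Submodule ℝ E) (a : E) (ha : 0 ≤ a) : Submodule ℝ E where
  carrier := {w | ∃ m ∈ M, 0 ≤ m ∧ ∃ r : ℝ, 0 ≤ r ∧ |w| ≤ m + r • a}
  add_mem' := by
    rintro x y ⟨m, hm, hm0, r, hr, hx⟩ ⟨m', hm', hm0', r', hr', hy⟩
    refine ⟨m + m', M.add_mem hm hm', add_nonneg hm0 hm0', r + r', add_nonneg hr hr', ?_⟩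
    refine (abs_add_le x y).trans ((add_le_add hx hy).trans ?_)
    rw [add_smul]
    exact le_of_eq (by abel)
  zero_mem' := ⟨0, M.zero_mem, le_rfl, 0, le_rfl, by simp⟩
  smul_mem' := by
    rintro c x ⟨m, hm, hm0, r, hr, hx⟩
    refine ⟨|c| • m, M.smul_mem _ hm, smul_nonneg (abs_nonneg c) hm0, |c| * r,
      mul_nonneg (abs_nonneg c) hr, ?_⟩
    rw [vl_abs_smul, mul_smul, ← smul_add]
    exact smul_le_smul_of_nonneg_left hx (abs_nonneg c)

private theorem genId_isId (M : Submodule ℝ E) (a : E) (ha : 0 ≤ a) : IsId (genId M a ha) := by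
  rintro w m ⟨m', hm', hm0, r, hr, h⟩ hw
  exact ⟨m', hm', hm0, r, hr, hw.trans h⟩

private theorem mem_genId_self (M : Submodule ℝ E) (a : E) (ha : 0 ≤ a) : a ∈ genId M a ha :=
  ⟨0, M.zero_mem, le_rfl, 1, zero_le_one, by rw [abs_of_nonneg ha, one_smul, zero_add]⟩

private theorem le_genId (M : Submodule ℝ E) (hM : IsId M) (a : E) (ha : 0 ≤ a) :
    M ≤ genId M a ha := by
  intro w hw
  exact ⟨|w|, hM.abs hw, abs_nonneg w, 0, le_rfl, by simp⟩

/-- What Zorn's lemma gives. -/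
private structure Good (e : E) (M : Submodule ℝ E) : Prop where
  isId : IsId M
  notMem : e ∉ M
  gen : ∀ a : E, 0 ≤ a → a ∉ M → ∃ m ∈ M, 0 ≤ m ∧ ∃ r : ℝ, 1 ≤ r ∧ e ≤ m + r • a

private theorem exists_good (e : E) (he : 0 ≤ e) (J : Submodule ℝ E) (hJ : IsId J) (heJ : e ∉ J) :
    ∃ M : Submodule ℝ E, J ≤ M ∧ Good e M := by
  obtain ⟨M, hJM, hM⟩ := zorn_le_nonempty₀ {I : Submodule ℝ E | IsId I ∧ e ∉ I} (by
    intro c hc hchain y hy
    have hne : c.Nonempty := ⟨y, hy⟩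
    have hdir : DirectedOn (· ≤ ·) c := hchain.directedOn
    refine ⟨sSup c, ⟨?_, ?_⟩, fun z hz => le_sSup hz⟩
    · intro w m hm hw
      rw [Submodule.mem_sSup_of_directed hne hdir] at hm ⊢
      obtain ⟨I, hI, hmI⟩ := hm
      exact ⟨I, hI, (hc hI).1 w m hmI hw⟩
    · intro h
      rw [Submodule.mem_sSup_of_directed hne hdir] at h
      obtain ⟨I, hI, heI⟩ := h
      exact (hc hI).2 heI) J ⟨hJ, heJ⟩
  refine ⟨M, hJM, hM.prop.1, hM.prop.2, ?_⟩
  intro a ha haM
  have h1 : e ∈ genId M a ha := by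
    by_contra h
    have h2 : genId M a ha ≤ M := hM.2 ⟨genId_isId M a ha, h⟩ (le_genId M hM.prop.1 a ha)
    exact haM (h2 (mem_genId_self M a ha))
  obtain ⟨m, hm, hm0, r, hr, h⟩ := h1
  refine ⟨m, hm, hm0, max r 1, le_max_right _ _, ?_⟩
  rw [abs_of_nonneg he] at h
  exact h.trans (add_le_add le_rfl (vl_smul_le_smul (le_max_left _ _) ha))

variable {e : E} (he : 0 ≤ e) (hu : ∀ z : E, ∃ c : ℝ, |z| ≤ c • e)

include he hu in
private theorem unit_ge_one (z : E) : ∃ k : ℝ, 1 ≤ k ∧ |z| ≤ k • e := by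
  obtain ⟨c, hc⟩ := hu z
  exact ⟨max c 1, le_max_right _ _, hc.trans (vl_smul_le_smul (le_max_left _ _) he)⟩

include he hu in
private theorem Good.prime {M : Submodule ℝ E} (hM : Good e M) {a b : E} (ha : 0 ≤ a) (hb : 0 ≤ b)
    (hab : a ⊓ b = 0) : a ∈ M ∨ b ∈ M := by
  by_contra hcon
  push Not at hcon
  obtain ⟨haM, hbM⟩ := hcon
  obtain ⟨m, hm, hm0, r, hr, h⟩ := hM.gen a ha haM
  apply hbM
  have h1 : b ⊓ e ≤ m := by
    have h2 : b ⊓ e ≤ b ⊓ (m + r • a) := inf_le_inf_left _ h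
    have h3 : b ⊓ (m + r • a) ≤ b ⊓ m + b ⊓ (r • a) :=
      ch_inf_add hb hm0 (smul_nonneg (by linarith) ha)
    have h4 : b ⊓ (r • a) ≤ r • (b ⊓ a) := ch_inf_smul hr hb a
    rw [inf_comm b a, hab, smul_zero] at h4
    calc b ⊓ e ≤ b ⊓ m + b ⊓ (r • a) := h2.trans h3
      _ ≤ m + 0 := add_le_add inf_le_right h4
      _ = m := add_zero m
  have h5 : b ⊓ e ∈ M := hM.isId.of_nonneg_le hm (le_inf hb he) h1
  obtain ⟨k, hk, hbk⟩ := unit_ge_one he hu b
  have h6 : b ≤ k • (b ⊓ e) := by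
    have : b ≤ b ⊓ k • e := le_inf le_rfl ((le_abs_self b).trans hbk)
    exact this.trans (ch_inf_smul hk hb e)
  exact hM.isId.of_nonneg_le (M.smul_mem k h5) hb h6

private theorem Good.arch {M : Submodule ℝ E} (hM : Good e M) {a : E} (ha : 0 ≤ a)
    (h : ∀ s : ℝ, 0 < s → (a - s • e) ⊔ 0 ∈ M) (he : 0 ≤ e) : a ∈ M := by
  by_contra haM
  obtain ⟨m, hm, hm0, r, hr, hle⟩ := hM.gen a ha haM
  have hr0 : 0 < r := by linarith
  have hs : (0 : ℝ) < 1 / (2 * r) := by positivity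
  have h1 : a ≤ (a - (1 / (2 * r)) • e) ⊔ 0 + (1 / (2 * r)) • e := by
    rw [← sub_le_iff_le_add]
    exact le_sup_left
  have h2 := smul_le_smul_of_nonneg_left h1 hr0.le
  rw [smul_add, smul_smul] at h2
  have h3 : r * (1 / (2 * r)) = 1 / 2 := by field_simp
  rw [h3] at h2
  have h4 : (1 / 2 : ℝ) • e ≤ m + r • ((a - (1 / (2 * r)) • e) ⊔ 0) := by
    have h5 : e ≤ m + (r • ((a - (1 / (2 * r)) • e) ⊔ 0) + (1 / 2 : ℝ) • e) :=
      hle.trans (add_le_add le_rfl h2)
    have h6 : (1 / 2 : ℝ) • e = e - (1 / 2 : ℝ) • e := by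
      have : e = (1 / 2 : ℝ) • e + (1 / 2 : ℝ) • e := by
        rw [← add_smul]
        norm_num
      nth_rewrite 2 [this]
      abel
    rw [h6, sub_le_iff_le_add]
    calc e ≤ m + (r • ((a - (1 / (2 * r)) • e) ⊔ 0) + (1 / 2 : ℝ) • e) := h5
      _ = _ := by abel
  have h7 : (1 / 2 : ℝ) • e ∈ M :=
    hM.isId.of_nonneg_le (M.add_mem hm (M.smul_mem r (h _ hs))) (smul_nonneg (by norm_num) he) h4
  have h8 := M.smul_mem (2 : ℝ) h7
  rw [smul_smul] at h8
  norm_num at h8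
  exact hM.notMem h8

include he hu in
private theorem Good.exists_value {M : Submodule ℝ E} (hM : Good e M) (w : E) :
    ∃ t : ℝ, w - t • e ∈ M := by
  set A : Set ℝ := {s | (w - s • e) ⊔ 0 ∈ M} with hA
  have hAmem : ∀ s, s ∈ A ↔ (w - s • e) ⊔ 0 ∈ M := fun s => Iff.rfl
  have hup : ∀ s s' : ℝ, s ∈ A → s ≤ s' → s' ∈ A := by
    intro s s' hs hss
    refine hM.isId.of_nonneg_le hs le_sup_right ?_
    exact sup_le_sup_right (sub_le_sub_left (vl_smul_le_smul hss he) w) 0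
  have hAB : ∀ s : ℝ, s ∈ A ∨ (-(w - s • e)) ⊔ 0 ∈ M := fun s =>
    hM.prime he hu le_sup_right le_sup_right (ch_disj _)
  have himp : ∀ s s' : ℝ, s ∈ A → (-(w - s' • e)) ⊔ 0 ∈ M → ¬ s < s' := by
    intro s s' hs hs' hlt
    have h1 : (s' - s) • e ≤ (w - s • e) ⊔ 0 + (-(w - s' • e)) ⊔ 0 := by
      calc (s' - s) • e = (w - s • e) + (-(w - s' • e)) := by
            rw [sub_smul]
            abel
        _ ≤ _ := add_le_add le_sup_left le_sup_left
    have h2 : (s' - s) • e ∈ M :=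
      hM.isId.of_nonneg_le (M.add_mem hs hs') (smul_nonneg (by linarith) he) h1
    have h3 := M.smul_mem (s' - s)⁻¹ h2
    rw [smul_smul, inv_mul_cancel₀ (by linarith : (s' - s) ≠ 0), one_smul] at h3
    exact hM.notMem h3
  obtain ⟨k, hk, hwk⟩ := unit_ge_one he hu w
  have hne : A.Nonempty := by
    refine ⟨k, ?_⟩
    have h1 : w - k • e ≤ 0 := sub_nonpos.mpr ((le_abs_self w).trans hwk)
    rw [hAmem, sup_eq_right.mpr h1]
    exact M.zero_mem
  have hbd : BddBelow A := by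
    refine ⟨-k, ?_⟩
    intro s hs
    by_contra hlt
    push Not at hlt
    have h1 : (-(w - (-k) • e)) ⊔ 0 ∈ M := by
      have h2 : -(w - (-k) • e) ≤ 0 := by
        rw [neg_sub, neg_smul, sub_nonpos, neg_le]
        exact (neg_le_abs w).trans hwk
      rw [sup_eq_right.mpr h2]
      exact M.zero_mem
    exact himp s (-k) hs h1 hlt
  refine ⟨sInf A, ?_⟩
  set t := sInf A with ht
  have hplus : ∀ η : ℝ, 0 < η → t + η ∈ A := by
    intro η hη
    obtain ⟨s, hs, hst⟩ := exists_lt_of_csInf_lt hne (by linarith : sInf A < t + η)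
    exact hup s _ hs hst.le
  have hminus : ∀ η : ℝ, 0 < η → (-(w - (t - η) • e)) ⊔ 0 ∈ M := by
    intro η hη
    rcases hAB (t - η) with h | h
    · exact absurd (csInf_le hbd h) (by linarith)
    · exact h
  have habs : |w - t • e| ∈ M := by
    refine hM.arch (abs_nonneg _) ?_ he
    intro η hη
    have h1 := M.add_mem (hplus η hη) (hminus η hη)
    refine hM.isId.of_nonneg_le h1 le_sup_right ?_
    refine sup_le ?_ (add_nonneg le_sup_right le_sup_right)
    rw [sub_le_iff_le_add]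
    refine abs_le'.mpr ⟨?_, ?_⟩
    · calc w - t • e = (w - (t + η) • e) + η • e := by
            rw [add_smul]
            abel
        _ ≤ _ := by
            refine add_le_add ?_ le_rfl
            exact le_add_of_le_of_nonneg le_sup_left le_sup_right
    · calc -(w - t • e) = (-(w - (t - η) • e)) + η • e := by
            rw [sub_smul]
            abel
        _ ≤ _ := by
            refine add_le_add ?_ le_rfl
            exact le_add_of_nonneg_of_le le_sup_right le_sup_left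
  exact hM.isId _ _ habs (by rw [abs_abs])

private theorem Good.unique {M : Submodule ℝ E} (hM : Good e M) {w : E} {s t : ℝ}
    (hs : w - s • e ∈ M) (ht : w - t • e ∈ M) : s = t := by
  by_contra hne
  have h1 := M.sub_mem hs ht
  have h2 : w - s • e - (w - t • e) = (t - s) • e := by
    rw [sub_smul]
    abel
  rw [h2] at h1
  have h3 := M.smul_mem (t - s)⁻¹ h1
  rw [smul_smul, inv_mul_cancel₀ (sub_ne_zero.mpr (Ne.symm hne)), one_smul] at h3
  exact hM.notMem h3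

end ch

theorem exists_character {E : Type*} [AddCommGroup E] [Lattice E] [IsOrderedAddMonoid E]
    [Module ℝ E] [PosSMulMono ℝ E] (e : E) (he : 0 ≤ e) (hu : ∀ z : E, ∃ c : ℝ, |z| ≤ c • e)
    (ha : ∀ z : E, (∀ n : ℕ, n • z ≤ e) → z ≤ 0) (z : E) (c : ℝ) (h : ¬ z ≤ c • e) :
    ∃ κ : E →ₗ[ℝ] ℝ, (∀ w, κ |w| = |κ w|) ∧ κ e = 1 ∧ c < κ z := by
  obtain ⟨c', hc', hz⟩ : ∃ c' : ℝ, c < c' ∧ ¬ z ≤ c' • e := by
    by_contra hcon
    push Not at hcon
    apply h
    rw [← sub_nonpos]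
    apply ha
    intro n
    rcases Nat.eq_zero_or_pos n with hn | hn
    · rw [hn, zero_smul]
      exact he
    · have hn' : (0 : ℝ) < n := by exact_mod_cast hn
      have h1 := hcon (c + (n : ℝ)⁻¹) (by have := inv_pos.mpr hn'; linarith)
      rw [add_smul] at h1
      have h2 : z - c • e ≤ (n : ℝ)⁻¹ • e := by
        rw [sub_le_iff_le_add, add_comm]
        exact h1
      have h3 := smul_le_smul_of_nonneg_left h2 hn'.le
      rw [smul_smul, mul_inv_cancel₀ hn'.ne', one_smul, Nat.cast_smul_eq_nsmul] at h3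
      exact h3
  set x := z - c' • e with hx
  set u := x ⊔ 0 with hudef
  set v := (-x) ⊔ 0 with hvdef
  have hu0 : 0 ≤ u := le_sup_right
  have hv0 : 0 ≤ v := le_sup_right
  have huv : u ⊓ v = 0 := ch_disj x
  have hune : ¬ u ≤ 0 := by
    intro h1
    apply hz
    have : x ≤ 0 := le_sup_left.trans h1
    rwa [hx, sub_nonpos] at this
  have hbot : IsId (⊥ : Submodule ℝ E) := by
    intro w m hm hw
    rw [Submodule.mem_bot] at hm ⊢
    rw [hm, abs_zero] at hw
    exact le_antisymm ((le_abs_self w).trans hw) (neg_nonpos.mp ((neg_le_abs w).trans hw))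
  have heJ : e ∉ genId (⊥ : Submodule ℝ E) v hv0 := by
    rintro ⟨m, hm, hm0, r, hr, hle⟩
    rw [Submodule.mem_bot] at hm
    rw [hm, zero_add, abs_of_nonneg he] at hle
    have h1 : e ≤ (max r 1) • v := hle.trans (vl_smul_le_smul (le_max_left _ _) hv0)
    have h2 : u ⊓ e ≤ 0 := by
      have h3 : u ⊓ e ≤ u ⊓ (max r 1) • v := inf_le_inf_left _ h1
      have h4 := ch_inf_smul (le_max_right r 1) hu0 v
      rw [huv, smul_zero] at h4
      exact h3.trans h4
    obtain ⟨k, hk, huk⟩ := unit_ge_one he hu u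
    apply hune
    have h5 : u ≤ u ⊓ k • e := le_inf le_rfl ((le_abs_self u).trans huk)
    have h6 : k • (u ⊓ e) ≤ k • (0 : E) := smul_le_smul_of_nonneg_left h2 (by linarith)
    rw [smul_zero] at h6
    exact h5.trans ((ch_inf_smul hk hu0 e).trans h6)
  obtain ⟨M, hJM, hM⟩ := exists_good e he _ (genId_isId _ v hv0) heJ
  have hvM : v ∈ M := hJM (mem_genId_self _ v hv0)
  choose κ hκ using fun w => hM.exists_value he hu w
  let K : E →ₗ[ℝ] ℝ :=
    { toFun := κ
      map_add' := by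
        intro a b
        refine hM.unique (hκ (a + b)) ?_
        have h1 := M.add_mem (hκ a) (hκ b)
        have h2 : a + b - (κ a + κ b) • e = (a - κ a • e) + (b - κ b • e) := by
          rw [add_smul]
          abel
        rw [h2]
        exact h1
      map_smul' := by
        intro r a
        refine hM.unique (hκ (r • a)) ?_
        have h1 := M.smul_mem r (hκ a)
        rw [smul_sub, smul_smul] at h1
        exact h1 }
  have hK : ∀ w, w - K w • e ∈ M := hκ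
  have hKe : K e = 1 := hM.unique (hK e) (by rw [one_smul, sub_self]; exact M.zero_mem)
  have hKabs : ∀ w, K |w| = |K w| := by
    intro w
    refine hM.unique (hK |w|) ?_
    refine hM.isId _ _ (hK w) ?_
    have h1 : |K w| • e = |K w • e| := by rw [vl_abs_smul, abs_of_nonneg he]
    rw [h1]
    refine abs_le'.mpr ⟨?_, ?_⟩
    · rw [sub_le_iff_le_add]
      calc |w| = |(w - K w • e) + K w • e| := by rw [sub_add_cancel]
        _ ≤ _ := abs_add_le _ _
    · rw [neg_sub, sub_le_iff_le_add]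
      calc |K w • e| = |(-(w - K w • e)) + w| := by
            congr 1
            abel
        _ ≤ |-(w - K w • e)| + |w| := abs_add_le _ _
        _ = _ := by rw [abs_neg]
  refine ⟨K, hKabs, hKe, ?_⟩
  have hKv : K v = 0 := hM.unique (hK v) (by rw [zero_smul, sub_zero]; exact hvM)
  have hKu : 0 ≤ K u := by
    have := hKabs u
    rw [abs_of_nonneg hu0] at this
    rw [this]
    exact abs_nonneg _
  have h1 : K x = K u - K v := by
    rw [← map_sub, hudef, hvdef, ch_dec]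
  have h2 : K x = K z - c' := by
    rw [hx, map_sub, map_smul, hKe, smul_eq_mul, mul_one]
  linarith

end Pool.H30.RG
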