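import Mathlib

/-!
# [H30 RG DU] Functionals on `L¹(μ)`, `μ` finite

A bounded functional `γ` on `L¹(μ)` is given by a bounded measurable function `g`, `|g| ≤ ‖γ‖`
everywhere.

PROOF.  Let `ι` be the inclusion of `L²(μ)` in `L¹(μ)` (finite measure; bounded; construct it as a linear
map `h ↦ ⟨h, _⟩`/`MemLp.toLp` of `MemLp.mono_exponent`, bounded by `sqrt (μ univ)`, or use that
`eLpNorm_le_eLpNorm_mul_rpow_measure_univ`). `γ ∘ ι` is a bounded functional on the Hilbert space `L²`, so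
(`InnerProductSpace.toDual`) there is `g0 ∈ L²` with `γ (ι h) = ∫ g0 h` for `h ∈ L²` (`L2.inner_def`). Then
`|g0| ≤ ‖γ‖` almost everywhere: for `A = {g0 > ‖γ‖ + η}`, `h = 1_A`:
`(‖γ‖ + η) μ(A) ≤ ∫_A g0 = γ (1_A) ≤ ‖γ‖ μ(A)`, so `μ(A) = 0` (`μ A < ∞`), similarly for `-g0`. Let `g` be a
measurable representative truncated: `g = max (-‖γ‖) (min g0 ‖γ‖)`. The functionals `γ` and `h ↦ ∫ g h` are
continuous on `L¹` and agree on the range of `ι`, which contains the indicator functions/simple functions and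
is dense in `L¹` (e.g. `Lp.induction`, or bounded functions, `MemLp.induction_dense`). So they agree.
-/

namespace Pool.H30.RG

open MeasureTheory ENNReal

private theorem one_le_two' : (1 : ℝ≥0∞) ≤ 2 := by norm_num

/-- the inclusion of `L²` in `L¹` -/
private noncomputable def duInc {Ω : Type*} [MeasurableSpace Ω] (μ : Measure Ω)
    [IsFiniteMeasure μ] (h : Lp ℝ 2 μ) : Ω →₁[μ] ℝ :=
  ((Lp.memLp h).mono_exponent one_le_two').toLp h

private theorem duInc_coe {Ω : Type*} [MeasurableSpace Ω] (μ : Measure Ω)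
    [IsFiniteMeasure μ] (h : Lp ℝ 2 μ) : duInc μ h =ᵐ[μ] h :=
  MemLp.coeFn_toLp _

private theorem duInc_add {Ω : Type*} [MeasurableSpace Ω] (μ : Measure Ω)
    [IsFiniteMeasure μ] (h k : Lp ℝ 2 μ) : duInc μ (h + k) = duInc μ h + duInc μ k := by
  apply Lp.ext
  filter_upwards [duInc_coe μ (h + k), duInc_coe μ h, duInc_coe μ k, Lp.coeFn_add h k,
    Lp.coeFn_add (duInc μ h) (duInc μ k)] with ω h1 h2 h3 h4 h5
  rw [h1, h4, h5, Pi.add_apply, Pi.add_apply, h2, h3]

private theorem duInc_smul {Ω : Type*} [MeasurableSpace Ω] (μ : Measure Ω)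
    [IsFiniteMeasure μ] (c : ℝ) (h : Lp ℝ 2 μ) : duInc μ (c • h) = c • duInc μ h := by
  apply Lp.ext
  filter_upwards [duInc_coe μ (c • h), duInc_coe μ h, Lp.coeFn_smul c h,
    Lp.coeFn_smul c (duInc μ h)] with ω h1 h2 h4 h5
  rw [h1, h4, h5, Pi.smul_apply, Pi.smul_apply, h2]

private theorem duInc_norm {Ω : Type*} [MeasurableSpace Ω] (μ : Measure Ω)
    [IsFiniteMeasure μ] (h : Lp ℝ 2 μ) :
    ‖duInc μ h‖ ≤ (μ Set.univ ^ (1 / (1 : ℝ≥0∞).toReal - 1 / (2 : ℝ≥0∞).toReal)).toReal * ‖h‖ := by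
  unfold duInc
  rw [Lp.norm_toLp, Lp.norm_def, mul_comm, ← ENNReal.toReal_mul]
  refine ENNReal.toReal_mono ?_ (eLpNorm_le_eLpNorm_mul_rpow_measure_univ one_le_two'
    (Lp.aestronglyMeasurable h))
  refine ENNReal.mul_ne_top (Lp.eLpNorm_ne_top h) (ENNReal.rpow_ne_top_of_nonneg ?_ ?_)
  · norm_num
  · exact measure_ne_top μ _

/-- multiplication by a bounded function, integrated -/
private theorem du_int {Ω : Type*} [MeasurableSpace Ω] {μ : Measure Ω} {g : Ω → ℝ} {C : ℝ}
    (hg : Measurable g) (hC : ∀ ω, |g ω| ≤ C) (h : Ω →₁[μ] ℝ) :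
    Integrable (fun ω => g ω * h ω) μ :=
  (L1.integrable_coeFn h).bdd_mul hg.aestronglyMeasurable
    (Filter.Eventually.of_forall fun ω => by rw [Real.norm_eq_abs]; exact hC ω)

private theorem du_cont {Ω : Type*} [MeasurableSpace Ω] {μ : Measure Ω} {g : Ω → ℝ} {C : ℝ}
    (hg : Measurable g) (hC : ∀ ω, |g ω| ≤ C) :
    Continuous (fun h : Ω →₁[μ] ℝ => ∫ ω, g ω * h ω ∂μ) := by
  let L : (Ω →₁[μ] ℝ) →ₗ[ℝ] ℝ :=
    { toFun := fun h => ∫ ω, g ω * h ω ∂μ
      map_add' := by
        intro h k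
        rw [← integral_add (du_int hg hC h) (du_int hg hC k)]
        refine integral_congr_ae ?_
        filter_upwards [Lp.coeFn_add h k] with ω h1
        rw [h1, Pi.add_apply]
        ring
      map_smul' := by
        intro c h
        rw [RingHom.id_apply, smul_eq_mul, ← integral_const_mul]
        refine integral_congr_ae ?_
        filter_upwards [Lp.coeFn_smul c h] with ω h1
        rw [h1, Pi.smul_apply, smul_eq_mul]
        ring }
  have hb : ∀ h, ‖L h‖ ≤ C * ‖h‖ := by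
    intro h
    show ‖∫ ω, g ω * h ω ∂μ‖ ≤ C * ‖h‖
    rw [L1.norm_eq_integral_norm, ← integral_const_mul]
    refine norm_integral_le_of_norm_le ((L1.integrable_coeFn h).norm.const_mul C) ?_
    refine Filter.Eventually.of_forall fun ω => ?_
    show ‖g ω * h ω‖ ≤ C * ‖h ω‖
    rw [norm_mul]
    exact mul_le_mul_of_nonneg_right (by rw [Real.norm_eq_abs]; exact hC ω) (norm_nonneg _)
  exact (L.mkContinuous C hb).continuous

theorem l1_dual {Ω : Type*} [MeasurableSpace Ω] (μ : Measure Ω) [IsFiniteMeasure μ]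
    (γ : (Ω →₁[μ] ℝ) →L[ℝ] ℝ) :
    ∃ g : Ω → ℝ, Measurable g ∧ (∀ ω, |g ω| ≤ ‖γ‖) ∧
      ∀ h : Ω →₁[μ] ℝ, γ h = ∫ ω, g ω * h ω ∂μ := by
  let T : Lp ℝ 2 μ →ₗ[ℝ] ℝ :=
    { toFun := fun h => γ (duInc μ h)
      map_add' := by
        intro h k
        rw [duInc_add, map_add]
      map_smul' := by
        intro c h
        rw [duInc_smul, map_smul, RingHom.id_apply] }
  let T' : Lp ℝ 2 μ →L[ℝ] ℝ := T.mkContinuous
    (‖γ‖ * (μ Set.univ ^ (1 / (1 : ℝ≥0∞).toReal - 1 / (2 : ℝ≥0∞).toReal)).toReal) (by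
      intro h
      show ‖γ (duInc μ h)‖ ≤ _
      refine (γ.le_opNorm _).trans ?_
      rw [mul_assoc]
      exact mul_le_mul_of_nonneg_left (duInc_norm μ h) (norm_nonneg _))
  let g0 : Lp ℝ 2 μ := (InnerProductSpace.toDual ℝ (Lp ℝ 2 μ)).symm T'
  have hg0 : ∀ h : Lp ℝ 2 μ, γ (duInc μ h) = ∫ ω, g0 ω * h ω ∂μ := by
    intro h
    have h1 : inner ℝ g0 h = T' h := InnerProductSpace.toDual_symm_apply
    have h2 : T' h = γ (duInc μ h) := rfl
    rw [← h2, ← h1, L2.inner_def]
    refine integral_congr_ae (Filter.Eventually.of_forall fun ω => ?_)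
    show inner ℝ (g0 ω) (h ω) = g0 ω * h ω
    simp [mul_comm]
  have hind : ∀ (s : Set Ω) (hs : MeasurableSet s) (c : ℝ),
      γ (indicatorConstLp 1 hs (measure_ne_top μ s) c) = c * ∫ ω in s, g0 ω ∂μ := by
    intro s hs c
    have h1 : duInc μ (indicatorConstLp 2 hs (measure_ne_top μ s) c) =
        indicatorConstLp 1 hs (measure_ne_top μ s) c := by
      apply Lp.ext
      filter_upwards [duInc_coe μ (indicatorConstLp 2 hs (measure_ne_top μ s) c),
        indicatorConstLp_coeFn (p := 2) (hs := hs) (hμs := measure_ne_top μ s) (c := c),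
        indicatorConstLp_coeFn (p := 1) (hs := hs) (hμs := measure_ne_top μ s) (c := c)]
        with ω h1 h2 h3
      rw [h1, h2, h3]
    rw [← h1, hg0, ← integral_indicator hs, ← integral_const_mul]
    refine integral_congr_ae ?_
    filter_upwards [indicatorConstLp_coeFn (p := 2) (hs := hs) (hμs := measure_ne_top μ s)
      (c := c)] with ω h2
    rw [h2]
    by_cases hω : ω ∈ s
    · rw [Set.indicator_of_mem hω, Set.indicator_of_mem hω]
      ring
    · rw [Set.indicator_of_notMem hω, Set.indicator_of_notMem hω]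
      ring
  have hbound : ∀ s : Set Ω, MeasurableSet s → |∫ ω in s, g0 ω ∂μ| ≤ ‖γ‖ * (μ s).toReal := by
    intro s hs
    have h1 := hind s hs 1
    rw [one_mul] at h1
    rw [← h1, ← Real.norm_eq_abs]
    refine (γ.le_opNorm _).trans (mul_le_mul_of_nonneg_left ?_ (norm_nonneg _))
    rw [norm_indicatorConstLp one_ne_zero one_ne_top]
    simp [Measure.real]
  have hgi : Integrable g0 μ := memLp_one_iff_integrable.1 ((Lp.memLp g0).mono_exponent one_le_two')
  have hup : ∀ᵐ ω ∂μ, g0 ω ≤ ‖γ‖ := by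
    refine ae_le_of_forall_setIntegral_le hgi (integrable_const _) fun s hs _ => ?_
    rw [setIntegral_const, smul_eq_mul, mul_comm]
    exact (le_abs_self _).trans (hbound s hs)
  have hlo : ∀ᵐ ω ∂μ, -‖γ‖ ≤ g0 ω := by
    refine ae_le_of_forall_setIntegral_le (integrable_const _) hgi fun s hs _ => ?_
    rw [setIntegral_const, smul_eq_mul]
    have h1 := (abs_le.1 (hbound s hs)).1
    have h2 : μ.real s * -‖γ‖ = -(‖γ‖ * (μ s).toReal) := by
      rw [Measure.real]
      ring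
    rw [h2]
    exact h1
  let g : Ω → ℝ := fun ω => max (-‖γ‖) (min (g0 ω) ‖γ‖)
  have hgm : Measurable g :=
    measurable_const.max ((Lp.stronglyMeasurable g0).measurable.min measurable_const)
  have hgb : ∀ ω, |g ω| ≤ ‖γ‖ := fun ω => abs_le.2 ⟨le_max_left _ _,
    max_le (by linarith [norm_nonneg γ]) (min_le_right _ _)⟩
  have hge : ∀ᵐ ω ∂μ, g ω = g0 ω := by
    filter_upwards [hup, hlo] with ω h1 h2
    show max (-‖γ‖) (min (g0 ω) ‖γ‖) = g0 ω
    rw [min_eq_left h1, max_eq_right h2]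
  refine ⟨g, hgm, hgb, ?_⟩
  intro h
  refine Lp.induction one_ne_top (motive := fun h : Ω →₁[μ] ℝ => γ h = ∫ ω, g ω * h ω ∂μ)
    ?_ ?_ ?_ h
  · intro c s hs hμs
    have h1 : ((Lp.simpleFunc.indicatorConst 1 hs hμs.ne c : Lp.simpleFunc ℝ 1 μ) :
        Lp ℝ 1 μ) = indicatorConstLp 1 hs (measure_ne_top μ s) c :=
      Lp.simpleFunc.coe_indicatorConst hs hμs.ne c
    rw [h1, hind, ← integral_indicator hs, ← integral_const_mul]
    refine integral_congr_ae ?_
    filter_upwards [indicatorConstLp_coeFn (p := 1) (hs := hs) (hμs := measure_ne_top μ s)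
      (c := c), hge] with ω h2 h3
    rw [h2, h3]
    by_cases hω : ω ∈ s
    · rw [Set.indicator_of_mem hω, Set.indicator_of_mem hω]
      ring
    · rw [Set.indicator_of_notMem hω, Set.indicator_of_notMem hω]
      ring
  · intro f k hf hk _ h1 h2
    rw [map_add, h1, h2, ← integral_add (du_int hgm hgb _) (du_int hgm hgb _)]
    refine integral_congr_ae ?_
    filter_upwards [Lp.coeFn_add (hf.toLp f) (hk.toLp k)] with ω h3
    rw [h3, Pi.add_apply]
    ring
  · exact isClosed_eq γ.continuous (du_cont hgm hgb)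

end Pool.H30.RG
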