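import Pool.Agent.H30.RG.SA

/-!
# [H30 RG EI] Equi-integrability of the products

PROOF.  `X` is reflexive. For a measurable set `A` there is (by `operator_of_bilin`, the bilinear form
`(x, f) ↦ ∫_A U x V f`, bounded by `C ‖x‖ ‖f‖`; `C ≥ 0` may be assumed, replace it by `max C 0`; linearity in
`x` from `U (x + y) =ᵐ U x + U y`, `Lp.coeFn_add` etc.) an operator `S A` with `f (S A x) = ∫_A U x V f`.
Suppose the claim fails for some `ε > 0`: for every `δ > 0` there are a measurable `A` with `μ A ≤ δ` and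
`x`, `f` with `|∫_A U x V f| > ε ‖x‖ ‖f‖`; then `x, f ≠ 0` and after scaling `‖x‖ = ‖f‖ = 1`. Choose
recursively `A n`, `x n`, `f n` with `|∫_{A n} U (x n) V (f n)| > ε` and `μ (A n)` so small that
`∫_{A n} |U (x k) V (f k)| ≤ ε / 2^(n+2)` for all `k < n` (absolute continuity of the integral of an integrable
function: `MeasureTheory.Integrable.…`, e.g. `exists_setIntegral_lt`-type lemma or
`MeasureTheory.tendsto_setIntegral_nhds_zero`/`tendsto_setLIntegral_zero`; one may first choose numbers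
`δ n` ; a convenient way is to choose the whole sequence by strong recursion on lists). Let
`D n = A n \ ⋃_{j > n} A j`. The sets `D n` are measurable and pairwise disjoint, and
`|∫_{D n} U (x n) V (f n)| ≥ ε - ∑_{j>n} ∫_{A j} |U (x n) V (f n)| ≥ ε - ε/2 = ε/2`
(`∫_{A n ∩ ⋃_{j>n} A j} |..| ≤ ∑_{j>n} ∫_{A j} |..|`). The operators `S (D n)` satisfy
`∑_{k<n} |f (S (D k) x)| ≤ ∑_{k<n} ∫_{D k} |U x V f| ≤ ∫ |U x V f| ≤ C ‖x‖ ‖f‖`, so
`‖S (D n)‖ → 0` by `strong_additivity`; but `|f n (S (D n) (x n))| ≥ ε/2`, contradiction.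
-/

namespace Pool.H30.RG

open Filter Topology MeasureTheory

section aux

variable {X : Type*} [NormedAddCommGroup X] [NormedSpace ℝ X] {Ω : Type*} [MeasurableSpace Ω]

/-- The operators given by the sets. -/
private theorem exists_op (hr : Pool.H30.PM.Reflexive ℝ X)
    (μ : Measure Ω) (U : X →L[ℝ] (Ω →₁[μ] ℝ))
    (V : (X →L[ℝ] ℝ) →L[ℝ] (Ω →₁[μ] ℝ)) (C : ℝ) (hrep : IsRep μ U V C) (A : Set Ω) :
    ∃ S : X →L[ℝ] X, ∀ (x : X) (f : X →L[ℝ] ℝ), f (S x) = ∫ ω in A, U x ω * V f ω ∂μ := by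
  let β : X →ₗ[ℝ] (X →L[ℝ] ℝ) →ₗ[ℝ] ℝ := LinearMap.mk₂ ℝ
    (fun x f => ∫ ω in A, U x ω * V f ω ∂μ)
    (by
      intro x y f
      rw [← integral_add (hrep.1 x f).integrableOn (hrep.1 y f).integrableOn]
      refine integral_congr_ae (ae_restrict_of_ae ?_)
      rw [map_add]
      filter_upwards [Lp.coeFn_add (U x) (U y)] with ω hω
      rw [hω, Pi.add_apply, add_mul])
    (by
      intro c x f
      rw [smul_eq_mul, ← integral_const_mul]
      refine integral_congr_ae (ae_restrict_of_ae ?_)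
      rw [map_smul]
      filter_upwards [Lp.coeFn_smul c (U x)] with ω hω
      rw [hω, Pi.smul_apply, smul_eq_mul, mul_assoc])
    (by
      intro x f g
      rw [← integral_add (hrep.1 x f).integrableOn (hrep.1 x g).integrableOn]
      refine integral_congr_ae (ae_restrict_of_ae ?_)
      rw [map_add]
      filter_upwards [Lp.coeFn_add (V f) (V g)] with ω hω
      rw [hω, Pi.add_apply, mul_add])
    (by
      intro c x f
      rw [smul_eq_mul, ← integral_const_mul]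
      refine integral_congr_ae (ae_restrict_of_ae ?_)
      rw [map_smul]
      filter_upwards [Lp.coeFn_smul c (V f)] with ω hω
      rw [hω, Pi.smul_apply, smul_eq_mul]
      ring)
  obtain ⟨S, -, hS⟩ := operator_of_bilin hr β |C| (abs_nonneg C) (by
    intro x f
    show ‖∫ ω in A, U x ω * V f ω ∂μ‖ ≤ |C| * ‖x‖ * ‖f‖
    calc ‖∫ ω in A, U x ω * V f ω ∂μ‖ ≤ ∫ ω in A, ‖U x ω * V f ω‖ ∂μ :=
          norm_integral_le_integral_norm _
      _ ≤ ∫ ω, ‖U x ω * V f ω‖ ∂μ :=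
          setIntegral_le_integral (hrep.1 x f).norm (Eventually.of_forall (fun _ => norm_nonneg _))
      _ ≤ C * ‖x‖ * ‖f‖ := hrep.2.1 x f
      _ ≤ |C| * ‖x‖ * ‖f‖ := by
          have := le_abs_self C
          gcongr)
  exact ⟨S, hS⟩

/-- Absolute continuity of the integral. -/
private theorem abs_cont (μ : Measure Ω) (G : Ω → ℝ) (hG : Integrable G μ) (η : ℝ) (hη : 0 < η) :
    ∃ δ : ℝ, 0 < δ ∧ ∀ A : Set Ω, μ A ≤ ENNReal.ofReal δ → ∫ ω in A, |G ω| ∂μ ≤ η := by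
  have h1 : ∫⁻ ω, ‖G ω‖ₑ ∂μ ≠ ⊤ := hG.2.ne
  obtain ⟨δ, hδ, hd⟩ := exists_pos_setLIntegral_lt_of_measure_lt h1
    (ε := ENNReal.ofReal η) (by simpa using hη)
  obtain ⟨δ', hδ', hδ''⟩ : ∃ δ' : ℝ, 0 < δ' ∧ ENNReal.ofReal δ' < δ := by
    obtain ⟨r, hr0, hr⟩ := ENNReal.lt_iff_exists_real_btwn.mp hδ
    obtain ⟨hr1, hr2⟩ := hr
    refine ⟨r, ?_, hr2⟩
    by_contra hle
    push Not at hle
    rw [ENNReal.ofReal_of_nonpos hle] at hr1
    exact lt_irrefl _ hr1
  refine ⟨δ', hδ', fun A hA => ?_⟩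
  have h2 := hd A (hA.trans_lt hδ'')
  have h3 : ∫ ω in A, |G ω| ∂μ = (∫⁻ ω in A, ‖G ω‖ₑ ∂μ).toReal := by
    rw [integral_eq_lintegral_of_nonneg_ae (Eventually.of_forall (fun _ => abs_nonneg _))
      hG.abs.aestronglyMeasurable.restrict]
    congr 1
    refine lintegral_congr (fun ω => ?_)
    rw [← Real.norm_eq_abs, ofReal_norm_eq_enorm]
  rw [h3]
  exact ENNReal.toReal_le_of_le_ofReal hη.le h2.le

end aux

theorem equi_integrable {X : Type*} [NormedAddCommGroup X] [NormedSpace ℝ X] [CompleteSpace X]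
    [TopologicalSpace.SeparableSpace X] (h : AllAttain ℝ X) {Ω : Type*} [MeasurableSpace Ω]
    (μ : Measure Ω) [IsFiniteMeasure μ] (U : X →L[ℝ] (Ω →₁[μ] ℝ))
    (V : (X →L[ℝ] ℝ) →L[ℝ] (Ω →₁[μ] ℝ)) (C : ℝ) (hrep : IsRep μ U V C) (ε : ℝ) (hε : 0 < ε) :
    ∃ δ : ℝ, 0 < δ ∧ ∀ A : Set Ω, MeasurableSet A → μ A ≤ ENNReal.ofReal δ →
      ∀ (x : X) (f : X →L[ℝ] ℝ), |∫ ω in A, U x ω * V f ω ∂μ| ≤ ε * ‖x‖ * ‖f‖ := by
  classical
  have hr := reflexive_of_allAttain h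
  by_contra hno
  push Not at hno
  -- normalised bad data
  have hbad : ∀ δ : ℝ, 0 < δ → ∃ (A : Set Ω) (x : X) (f : X →L[ℝ] ℝ), MeasurableSet A ∧
      μ A ≤ ENNReal.ofReal δ ∧ ‖x‖ ≤ 1 ∧ ‖f‖ ≤ 1 ∧ ε < |∫ ω in A, U x ω * V f ω ∂μ| := by
    intro δ hδ
    obtain ⟨A, hA, hμ, x, f, hxf⟩ := hno δ hδ
    obtain ⟨S, hS⟩ := exists_op hr μ U V C hrep A
    have hx0 : 0 < ‖x‖ := by
      rw [norm_pos_iff]
      rintro rfl
      rw [← hS] at hxf
      simp at hxf
    have hf0 : 0 < ‖f‖ := by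
      rw [norm_pos_iff]
      rintro rfl
      rw [← hS] at hxf
      simp at hxf
    refine ⟨A, ‖x‖⁻¹ • x, ‖f‖⁻¹ • f, hA, hμ, ?_, ?_, ?_⟩
    · rw [norm_smul, norm_inv, norm_norm, inv_mul_cancel₀ hx0.ne']
    · rw [norm_smul, norm_inv, norm_norm, inv_mul_cancel₀ hf0.ne']
    · rw [← hS] at hxf ⊢
      rw [map_smul, ContinuousLinearMap.smul_apply, map_smul, smul_eq_mul, smul_eq_mul, abs_mul,
        abs_mul, abs_of_pos (inv_pos.mpr hx0), abs_of_pos (inv_pos.mpr hf0)]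
      rw [← mul_assoc, ← mul_inv, ← div_eq_inv_mul, lt_div_iff₀ (by positivity)]
      calc ε * (‖f‖ * ‖x‖) = ε * ‖x‖ * ‖f‖ := by ring
        _ < _ := hxf
  choose! A x f hA hμ hx hf hbig using hbad
  have hac : ∀ (x : X) (f : X →L[ℝ] ℝ), ∃ δ : ℝ, 0 < δ ∧ ∀ A : Set Ω, μ A ≤ ENNReal.ofReal δ →
      ∫ ω in A, |U x ω * V f ω| ∂μ ≤ ε / 2 := fun x f =>
    abs_cont μ _ (hrep.1 x f) (ε / 2) (by positivity)
  choose κ hκ0 hκ using hac
  let δ : ℕ → ℝ := fun n => Nat.rec (1 : ℝ) (fun _ d => min d (κ (x d) (f d)) / 2) n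
  have hδs : ∀ n, δ (n + 1) = min (δ n) (κ (x (δ n)) (f (δ n))) / 2 := fun n => rfl
  have hδ0 : ∀ n, 0 < δ n := by
    intro n
    induction n with
    | zero => exact one_pos
    | succ n ih =>
      rw [hδs]
      have := hκ0 (x (δ n)) (f (δ n))
      positivity
  have hδhalf : ∀ n, δ (n + 1) ≤ δ n / 2 := by
    intro n
    rw [hδs]
    have := min_le_left (δ n) (κ (x (δ n)) (f (δ n)))
    linarith
  have hδκ : ∀ n, δ (n + 1) ≤ κ (x (δ n)) (f (δ n)) / 2 := by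
    intro n
    rw [hδs]
    have := min_le_right (δ n) (κ (x (δ n)) (f (δ n)))
    linarith
  have hgeo : ∀ n i, δ (n + i) ≤ δ n * (1 / 2) ^ i := by
    intro n i
    induction i with
    | zero => simp
    | succ i ih =>
      have h1 := hδhalf (n + i)
      calc δ (n + (i + 1)) = δ (n + i + 1) := rfl
        _ ≤ δ (n + i) / 2 := h1
        _ ≤ δ n * (1 / 2) ^ i / 2 := by linarith
        _ = δ n * (1 / 2) ^ (i + 1) := by ring
  -- the later sets
  let B : ℕ → Set Ω := fun n => ⋃ i : ℕ, A (δ (n + 1 + i))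
  have hBm : ∀ n, MeasurableSet (B n) := fun n => MeasurableSet.iUnion (fun i => hA _ (hδ0 _))
  have hBμ : ∀ n, μ (B n) ≤ ENNReal.ofReal (κ (x (δ n)) (f (δ n))) := by
    intro n
    have hsum : HasSum (fun i : ℕ => δ (n + 1) * (1 / 2 : ℝ) ^ i) (δ (n + 1) * 2) :=
      hasSum_geometric_two.mul_left _
    calc μ (B n) ≤ ∑' i, μ (A (δ (n + 1 + i))) := measure_iUnion_le _
      _ ≤ ∑' i, ENNReal.ofReal (δ (n + 1) * (1 / 2 : ℝ) ^ i) := by
          refine ENNReal.tsum_le_tsum (fun i => ?_)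
          exact (hμ _ (hδ0 _)).trans (ENNReal.ofReal_le_ofReal (hgeo (n + 1) i))
      _ = ENNReal.ofReal (∑' i, δ (n + 1) * (1 / 2 : ℝ) ^ i) := by
          rw [ENNReal.ofReal_tsum_of_nonneg _ hsum.summable]
          intro i
          have := hδ0 (n + 1)
          positivity
      _ = ENNReal.ofReal (δ (n + 1) * 2) := by rw [hsum.tsum_eq]
      _ ≤ _ := ENNReal.ofReal_le_ofReal (by linarith [hδκ n])
  let D : ℕ → Set Ω := fun n => A (δ n) \ B n
  have hDm : ∀ n, MeasurableSet (D n) := fun n => (hA _ (hδ0 _)).diff (hBm n)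
  have hdisj : ∀ n m, n < m → Disjoint (D n) (D m) := by
    intro n m hnm
    rw [Set.disjoint_left]
    rintro ω ⟨-, h1⟩ ⟨h2, -⟩
    refine h1 (Set.mem_iUnion.mpr ⟨m - (n + 1), ?_⟩)
    have e : n + 1 + (m - (n + 1)) = m := by omega
    rw [e]
    exact h2
  have hdisj' : Pairwise (Function.onFun Disjoint D) := by
    intro n m hnm
    rcases lt_or_gt_of_ne hnm with h1 | h1
    · exact hdisj n m h1
    · exact (hdisj m n h1).symm
  -- lower bound
  have hlow : ∀ n, ε / 2 ≤ |∫ ω in D n, U (x (δ n)) ω * V (f (δ n)) ω ∂μ| := by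
    intro n
    have hint := hrep.1 (x (δ n)) (f (δ n))
    have h1 := integral_inter_add_sdiff (s := A (δ n)) (hBm n) hint.integrableOn
    have h2 : |∫ ω in A (δ n) ∩ B n, U (x (δ n)) ω * V (f (δ n)) ω ∂μ| ≤ ε / 2 := by
      have h3 : |∫ ω in A (δ n) ∩ B n, U (x (δ n)) ω * V (f (δ n)) ω ∂μ| ≤
          ∫ ω in A (δ n) ∩ B n, |U (x (δ n)) ω * V (f (δ n)) ω| ∂μ :=
        abs_integral_le_integral_abs
      refine h3.trans (hκ _ _ _ ?_)
      exact (measure_mono Set.inter_subset_right).trans (hBμ n)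
    have h4 := hbig (δ n) (hδ0 n)
    rw [← h1] at h4
    have h5 := abs_add_le (∫ ω in A (δ n) ∩ B n, U (x (δ n)) ω * V (f (δ n)) ω ∂μ)
      (∫ ω in A (δ n) \ B n, U (x (δ n)) ω * V (f (δ n)) ω ∂μ)
    show ε / 2 ≤ |∫ ω in A (δ n) \ B n, U (x (δ n)) ω * V (f (δ n)) ω ∂μ|
    linarith
  choose S hS using fun n => exists_op hr μ U V C hrep (D n)
  have hadd := strong_additivity h S |C| (abs_nonneg C) (by
    intro y g n
    have hint := (hrep.1 y g).abs
    calc ∑ k ∈ Finset.range n, ‖g (S k y)‖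
        ≤ ∑ k ∈ Finset.range n, ∫ ω in D k, |U y ω * V g ω| ∂μ := by
          refine Finset.sum_le_sum (fun k _ => ?_)
          rw [hS]
          exact norm_integral_le_integral_norm _
      _ = ∫ ω in ⋃ k ∈ Finset.range n, D k, |U y ω * V g ω| ∂μ := by
          rw [integral_biUnion_finset _ (fun k _ => hDm k) (hdisj'.set_pairwise _)
            (fun k _ => hint.integrableOn)]
      _ ≤ ∫ ω, |U y ω * V g ω| ∂μ :=
          setIntegral_le_integral hint (Eventually.of_forall (fun _ => abs_nonneg _))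
      _ ≤ C * ‖y‖ * ‖g‖ := hrep.2.1 y g
      _ ≤ |C| * ‖y‖ * ‖g‖ := by
          have := le_abs_self C
          gcongr)
  have hlow2 : ∀ n, ε / 2 ≤ ‖S n‖ := by
    intro n
    have h1 := hlow n
    rw [← hS] at h1
    refine h1.trans ?_
    have hx1 := hx (δ n) (hδ0 n)
    have hf1 := hf (δ n) (hδ0 n)
    calc |f (δ n) (S n (x (δ n)))| ≤ ‖f (δ n)‖ * ‖S n (x (δ n))‖ := (f (δ n)).le_opNorm _
      _ ≤ 1 * (‖S n‖ * 1) := by
          refine mul_le_mul hf1 (((S n).le_opNorm _).trans ?_) (norm_nonneg _) one_pos.le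
          exact mul_le_mul_of_nonneg_left hx1 (norm_nonneg _)
      _ = ‖S n‖ := by ring
  have h3 : ε / 2 ≤ 0 := ge_of_tendsto hadd (Eventually.of_forall hlow2)
  linarith

end Pool.H30.RG
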