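import Pool.Agent.H30.RG.MF

/-!
# [H30 RG EX] A common order unit and a common dominating functional

PROOF.  (1) Let `x n` be dense in `X` (`TopologicalSpace.denseSeq`), `a n = 2^(-n) / (1 + ‖x n‖)`,
`e = ∑' n, a n |i (x n)|`, absolutely convergent (`‖|i (x n)|‖ = ‖i (x n)‖ ≤ ‖i‖ ‖x n‖`, `L` complete).
`e ≥ a n |i (x n)| ≥ 0` for each `n` (the cone is closed: partial sums, `OrderClosedTopology`), so
`|i (x n)| ≤ (a n)⁻¹ e` and `x n` belongs to the set. (2) The same in the dual: `f n` dense in the dual of `X`,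
`ψ n` from `modulus_functional` for the functional `f n ∘ P`, `‖ψ n‖ ≤ ‖f n‖ ‖P‖`,
`φ = ∑' n, 2^(-n) / (1 + ‖f n‖) ψ n`; `ψ n z ≤ (a n)⁻¹ φ z` for `z ≥ 0`, so `|f n (P z)| ≤ (a n)⁻¹ φ |z|`.
-/

namespace Pool.H30.RG

theorem exists_unit {L : Type*} [NormedAddCommGroup L] [Lattice L] [IsOrderedAddMonoid L]
    [HasSolidNorm L] [NormedSpace ℝ L] [PosSMulMono ℝ L] [CompleteSpace L] {X : Type*}
    [NormedAddCommGroup X] [NormedSpace ℝ X] [TopologicalSpace.SeparableSpace X]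
    (i : X →L[ℝ] L) : ∃ e : L, 0 ≤ e ∧ Dense {x : X | i x ∈ ordIdeal e} := by
  let x : ℕ → X := TopologicalSpace.denseSeq X
  have hx : DenseRange x := TopologicalSpace.denseRange_denseSeq X
  let a : ℕ → ℝ := fun n => (1 / 2 : ℝ) ^ n / (1 + ‖x n‖)
  have ha0 : ∀ n, 0 < a n := fun n => by
    have := norm_nonneg (x n)
    positivity
  have hnn : ∀ n, 0 ≤ a n • |i (x n)| := fun n => smul_nonneg (ha0 n).le (abs_nonneg _)
  have hsum : Summable (fun n => a n • |i (x n)|) := by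
    refine Summable.of_norm_bounded (g := fun n => ‖i‖ * (1 / 2 : ℝ) ^ n)
      (summable_geometric_two.mul_left _) (fun n => ?_)
    rw [norm_smul, norm_abs_eq_norm, Real.norm_of_nonneg (ha0 n).le]
    have h1 := i.le_opNorm (x n)
    have h2 := norm_nonneg (x n)
    calc a n * ‖i (x n)‖ ≤ (1 / 2 : ℝ) ^ n / (1 + ‖x n‖) * (‖i‖ * (1 + ‖x n‖)) := by
          refine mul_le_mul_of_nonneg_left (h1.trans ?_) (ha0 n).le
          exact mul_le_mul_of_nonneg_left (by linarith) (norm_nonneg _)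
      _ = ‖i‖ * (1 / 2 : ℝ) ^ n := by field_simp
  refine ⟨∑' n, a n • |i (x n)|, tsum_nonneg hnn, ?_⟩
  refine hx.mono ?_
  rintro _ ⟨n, rfl⟩
  refine ⟨(a n)⁻¹, ?_⟩
  have h1 : a n • |i (x n)| ≤ ∑' n, a n • |i (x n)| := hsum.le_tsum n (fun m _ => hnn m)
  have h2 := smul_le_smul_of_nonneg_left h1 (inv_pos.mpr (ha0 n)).le
  rwa [smul_smul, inv_mul_cancel₀ (ha0 n).ne', one_smul] at h2

theorem exists_phi {L : Type*} [NormedAddCommGroup L] [Lattice L] [IsOrderedAddMonoid L]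
    [HasSolidNorm L] [NormedSpace ℝ L] [PosSMulMono ℝ L] {X : Type*}
    [NormedAddCommGroup X] [NormedSpace ℝ X] [TopologicalSpace.SeparableSpace (X →L[ℝ] ℝ)]
    (P : L →L[ℝ] X) : ∃ φ : L →L[ℝ] ℝ, (∀ z, 0 ≤ z → 0 ≤ φ z) ∧
      Dense {f : X →L[ℝ] ℝ | ∃ c : ℝ, ∀ z : L, |f (P z)| ≤ c * φ |z|} := by
  let f : ℕ → (X →L[ℝ] ℝ) := TopologicalSpace.denseSeq (X →L[ℝ] ℝ)
  have hf : DenseRange f := TopologicalSpace.denseRange_denseSeq _
  choose ψ hψ1 hψ2 hψ3 using fun n => modulus_functional ((f n).comp P)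
  let a : ℕ → ℝ := fun n => (1 / 2 : ℝ) ^ n / (1 + ‖f n‖)
  have ha0 : ∀ n, 0 < a n := fun n => by
    have : 0 ≤ ‖f n‖ := norm_nonneg (f n)
    positivity
  have hsum : Summable (fun n => a n • ψ n) := by
    refine Summable.of_norm_bounded (g := fun n => ‖P‖ * (1 / 2 : ℝ) ^ n)
      (summable_geometric_two.mul_left _) (fun n => ?_)
    have e1 : ‖a n • ψ n‖ = a n * ‖ψ n‖ := by
      rw [norm_smul, Real.norm_of_nonneg (ha0 n).le]
    rw [e1]
    have h1 : ‖ψ n‖ ≤ ‖f n‖ * ‖P‖ := (hψ3 n).trans (ContinuousLinearMap.opNorm_comp_le _ _)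
    have h2 : 0 ≤ ‖f n‖ := norm_nonneg (f n)
    calc a n * ‖ψ n‖ ≤ (1 / 2 : ℝ) ^ n / (1 + ‖f n‖) * ((1 + ‖f n‖) * ‖P‖) := by
          refine mul_le_mul_of_nonneg_left (h1.trans ?_) (ha0 n).le
          exact mul_le_mul_of_nonneg_right (by linarith) (norm_nonneg _)
      _ = ‖P‖ * (1 / 2 : ℝ) ^ n := by field_simp
  have hs : ∀ z : L, HasSum (fun n => a n * ψ n z) ((∑' n, a n • ψ n : L →L[ℝ] ℝ) z) := by
    intro z
    have h1 := hsum.hasSum
    have h2 := h1.mapL (ContinuousLinearMap.apply ℝ ℝ z)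
    exact h2
  refine ⟨∑' n, a n • ψ n, ?_, ?_⟩
  · intro z hz
    exact (hs z).nonneg (fun n => mul_nonneg (ha0 n).le (hψ1 n z hz))
  · refine hf.mono ?_
    rintro _ ⟨n, rfl⟩
    refine ⟨(a n)⁻¹, fun z => ?_⟩
    have h1 : |f n (P z)| ≤ ψ n |z| := hψ2 n z
    have h2 : a n * ψ n |z| ≤ (∑' n, a n • ψ n : L →L[ℝ] ℝ) |z| :=
      le_hasSum (hs |z|) n (fun m _ => mul_nonneg (ha0 m).le (hψ1 m _ (abs_nonneg z)))
    calc |f n (P z)| ≤ ψ n |z| := h1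
      _ = (a n)⁻¹ * (a n * ψ n |z|) := by
          rw [← mul_assoc, inv_mul_cancel₀ (ha0 n).ne', one_mul]
      _ ≤ _ := mul_le_mul_of_nonneg_left h2 (inv_pos.mpr (ha0 n)).le

end Pool.H30.RG
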