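import Pool.Agent.H30.RG.VL

/-!
# [H30 RG RM] The representing measure

PROOF.  Define `F g` for `g ∈ C(K, ℝ)` by `F g = lim φ (z n)` for `R (z n) → g` uniformly: if
`|R z - R w| ≤ η` everywhere then `z - w ≤ η e` and `w - z ≤ η e` (hypothesis `hle`), so
`|φ z - φ w| ≤ η φ e` (`φ` positive). Hence `φ` factors through `R` and is uniformly continuous for the sup
distance on the dense subspace `range R`, and extends to a linear functional `F` on `C(K, ℝ)` (one can use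
`LinearMap.extend`/`DenseInducing.extend`, or define `F g` by choice of a sequence) with `F (R z) = φ z`,
`|F g| ≤ φ e ‖g‖`. `F` is positive: if `g ≥ 0` and `|R z - g| ≤ η` then `-R z ≤ η`, so `-z ≤ η e`, `φ z ≥ -η φ e`,
`F g ≥ -2 η φ e`. (If `K` is empty, `C(K, ℝ)` is trivial.) Take the Borel structure on `K` (`borel K`) and the
measure `RealRMK.rieszMeasure` of the positive functional on `C_c(K, ℝ)` given by `F`
(`K` compact: every continuous function has compact support): `RealRMK.integral_rieszMeasure`. It is regular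
(instance), and finite since `K` is compact (regular measures are finite on compact sets).
-/

set_option linter.unusedSectionVars false

namespace Pool.H30.RG

open MeasureTheory

private theorem rm_zero {a C : ℝ} (hC : 0 ≤ C) (h : ∀ ε : ℝ, 0 < ε → |a| ≤ ε * C) : a = 0 := by
  by_contra ha
  have h0 : 0 < |a| := abs_pos.2 ha
  have h1 := h (|a| / (2 * (C + 1))) (by positivity)
  have h2 : |a| / (2 * (C + 1)) * C = |a| * (C / (2 * (C + 1))) := by ring
  have h3 : C / (2 * (C + 1)) ≤ 1 / 2 := by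
    rw [div_le_iff₀ (by positivity)]
    linarith
  have h4 : |a| * (C / (2 * (C + 1))) ≤ |a| * (1 / 2) := mul_le_mul_of_nonneg_left h3 h0.le
  linarith

section

variable {E : Type*} [AddCommGroup E] [Lattice E] [IsOrderedAddMonoid E]
    [Module ℝ E] [PosSMulMono ℝ E] (e : E) {K : Type*}
    [TopologicalSpace K] [CompactSpace K] (R : E →ₗ[ℝ] C(K, ℝ)) (φ : E →ₗ[ℝ] ℝ)

/-- the extended functional -/
private noncomputable def rmF (g : C(K, ℝ)) : ℝ := sSup {t | ∃ z, (∀ k, R z k ≤ g k) ∧ φ z = t}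

variable {e R φ}

private theorem rm_mono (hφ : ∀ z, 0 ≤ z → 0 ≤ φ z) {z w : E} (h : z ≤ w) : φ z ≤ φ w := by
  have h1 := hφ (w - z) (sub_nonneg.2 h)
  rw [map_sub] at h1
  linarith

private theorem rm_le (hle : ∀ (z : E) (c : ℝ), (∀ k, R z k ≤ c) → z ≤ c • e)
    (hφ : ∀ z, 0 ≤ z → 0 ≤ φ z) {z w : E} {η : ℝ} (h : ∀ k, R z k ≤ R w k + η) :
    φ z ≤ φ w + η * φ e := by
  have h1 : z - w ≤ η • e := hle (z - w) η fun k => by
    rw [map_sub, ContinuousMap.sub_apply]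
    linarith [h k]
  have h2 := rm_mono hφ h1
  rw [map_sub, map_smul, smul_eq_mul] at h2
  linarith

private theorem rm_shift (hone : ∀ k, R e k = 1) (z : E) (η : ℝ) (k : K) :
    R (z - η • e) k = R z k - η := by
  rw [map_sub, map_smul, ContinuousMap.sub_apply, ContinuousMap.smul_apply, hone, smul_eq_mul,
    mul_one]

private theorem rm_bdd (hle : ∀ (z : E) (c : ℝ), (∀ k, R z k ≤ c) → z ≤ c • e)
    (hφ : ∀ z, 0 ≤ z → 0 ≤ φ z) {g : C(K, ℝ)} {z : E} {ε : ℝ}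
    (hz : ∀ k, |R z k - g k| ≤ ε) : ∀ t ∈ {t | ∃ z, (∀ k, R z k ≤ g k) ∧ φ z = t},
      t ≤ φ z + ε * φ e := by
  rintro t ⟨w, hw, rfl⟩
  exact rm_le hle hφ fun k => by
    have h1 := (abs_le.1 (hz k)).1
    linarith [hw k]

private theorem rm_key (hle : ∀ (z : E) (c : ℝ), (∀ k, R z k ≤ c) → z ≤ c • e)
    (hone : ∀ k, R e k = 1) (hφ : ∀ z, 0 ≤ z → 0 ≤ φ z) {g : C(K, ℝ)} {z : E} {ε : ℝ}
    (hz : ∀ k, |R z k - g k| ≤ ε) : |φ z - rmF R φ g| ≤ ε * φ e := by
  have hb := rm_bdd hle hφ hz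
  have hm : φ (z - ε • e) ∈ {t | ∃ z, (∀ k, R z k ≤ g k) ∧ φ z = t} := by
    refine ⟨z - ε • e, fun k => ?_, rfl⟩
    rw [rm_shift hone]
    have h1 := (abs_le.1 (hz k)).2
    linarith
  have h1 : rmF R φ g ≤ φ z + ε * φ e := csSup_le ⟨_, hm⟩ hb
  have h2 : φ (z - ε • e) ≤ rmF R φ g := le_csSup ⟨_, hb⟩ hm
  rw [map_sub, map_smul, smul_eq_mul] at h2
  exact abs_le.2 ⟨by linarith, by linarith⟩

private theorem rm_add (hle : ∀ (z : E) (c : ℝ), (∀ k, R z k ≤ c) → z ≤ c • e)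
    (hone : ∀ k, R e k = 1) (hφ : ∀ z, 0 ≤ z → 0 ≤ φ z) (he : 0 ≤ e)
    (hd : ∀ (g : C(K, ℝ)) (ε : ℝ), 0 < ε → ∃ z, ∀ k, |R z k - g k| ≤ ε) (g h : C(K, ℝ)) :
    rmF R φ (g + h) = rmF R φ g + rmF R φ h := by
  have h0 : rmF R φ (g + h) - (rmF R φ g + rmF R φ h) = 0 := by
    refine rm_zero (C := 4 * φ e) (by have := hφ e he; positivity) fun ε hε => ?_
    obtain ⟨z, hz⟩ := hd g ε hε
    obtain ⟨w, hw⟩ := hd h ε hε
    have h1 := abs_le.1 (rm_key hle hone hφ hz)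
    have h2 := abs_le.1 (rm_key hle hone hφ hw)
    have h3 : ∀ k, |R (z + w) k - (g + h) k| ≤ 2 * ε := by
      intro k
      rw [map_add, ContinuousMap.add_apply, ContinuousMap.add_apply]
      have h4 := abs_le.1 (hz k)
      have h5 := abs_le.1 (hw k)
      exact abs_le.2 ⟨by linarith, by linarith⟩
    have h4 := abs_le.1 (rm_key hle hone hφ h3)
    rw [map_add] at h4
    exact abs_le.2 ⟨by linarith [h4.1, h4.2, h1.1, h1.2, h2.1, h2.2],
      by linarith [h4.1, h4.2, h1.1, h1.2, h2.1, h2.2]⟩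
  linarith

private theorem rm_smul (hle : ∀ (z : E) (c : ℝ), (∀ k, R z k ≤ c) → z ≤ c • e)
    (hone : ∀ k, R e k = 1) (hφ : ∀ z, 0 ≤ z → 0 ≤ φ z) (he : 0 ≤ e)
    (hd : ∀ (g : C(K, ℝ)) (ε : ℝ), 0 < ε → ∃ z, ∀ k, |R z k - g k| ≤ ε) (c : ℝ) (g : C(K, ℝ)) :
    rmF R φ (c • g) = c * rmF R φ g := by
  have h0 : rmF R φ (c • g) - c * rmF R φ g = 0 := by
    refine rm_zero (C := 2 * |c| * φ e) (by have := hφ e he; positivity) fun ε hε => ?_
    obtain ⟨z, hz⟩ := hd g ε hε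
    have h1 := rm_key hle hone hφ hz
    have h3 : ∀ k, |R (c • z) k - (c • g) k| ≤ |c| * ε := by
      intro k
      rw [map_smul, ContinuousMap.smul_apply, ContinuousMap.smul_apply, smul_eq_mul, smul_eq_mul,
        ← mul_sub, abs_mul]
      exact mul_le_mul_of_nonneg_left (hz k) (abs_nonneg c)
    have h4 := rm_key hle hone hφ h3
    rw [map_smul, smul_eq_mul] at h4
    have h5 : |c * φ z - c * rmF R φ g| ≤ |c| * (ε * φ e) := by
      rw [← mul_sub, abs_mul]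
      exact mul_le_mul_of_nonneg_left h1 (abs_nonneg c)
    have h6 : rmF R φ (c • g) - c * rmF R φ g =
        (c * φ z - c * rmF R φ g) - (c * φ z - rmF R φ (c • g)) := by ring
    rw [h6]
    refine (abs_sub _ _).trans ?_
    calc |c * φ z - c * rmF R φ g| + |c * φ z - rmF R φ (c • g)|
        ≤ |c| * (ε * φ e) + |c| * ε * φ e := add_le_add h5 h4
      _ = ε * (2 * |c| * φ e) := by ring
  linarith

private theorem rm_nonneg (hle : ∀ (z : E) (c : ℝ), (∀ k, R z k ≤ c) → z ≤ c • e)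
    (hφ : ∀ z, 0 ≤ z → 0 ≤ φ z)
    (hd : ∀ (g : C(K, ℝ)) (ε : ℝ), 0 < ε → ∃ z, ∀ k, |R z k - g k| ≤ ε) {g : C(K, ℝ)}
    (hg : ∀ k, 0 ≤ g k) : 0 ≤ rmF R φ g := by
  obtain ⟨z, hz⟩ := hd g 1 one_pos
  refine le_csSup ⟨_, rm_bdd hle hφ hz⟩ ⟨0, fun k => ?_, map_zero φ⟩
  rw [map_zero, ContinuousMap.zero_apply]
  exact hg k

end

theorem representing_measure {E : Type*} [AddCommGroup E] [Lattice E] [IsOrderedAddMonoid E]
    [Module ℝ E] [PosSMulMono ℝ E] (e : E) (he : 0 ≤ e) {K : Type*}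
    [TopologicalSpace K] [CompactSpace K] [T2Space K] (R : E →ₗ[ℝ] C(K, ℝ))
    (hle : ∀ (z : E) (c : ℝ), (∀ k, R z k ≤ c) → z ≤ c • e) (hone : ∀ k, R e k = 1)
    (hd : ∀ (g : C(K, ℝ)) (ε : ℝ), 0 < ε → ∃ z, ∀ k, |R z k - g k| ≤ ε)
    (φ : E →ₗ[ℝ] ℝ) (hφ : ∀ z, 0 ≤ z → 0 ≤ φ z) :
    ∃ (_ : MeasurableSpace K) (_ : BorelSpace K) (μ : Measure K), IsFiniteMeasure μ ∧
      μ.Regular ∧ ∀ z, ∫ k, R z k ∂μ = φ z := by
  let mK : MeasurableSpace K := borel K
  let bK : BorelSpace K := ⟨rfl⟩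
  let Λ0 : CompactlySupportedContinuousMap K ℝ →ₗ[ℝ] ℝ :=
    { toFun := fun f => rmF R φ f.toContinuousMap
      map_add' := fun f g => by
        show rmF R φ (f + g).toContinuousMap = _
        exact rm_add hle hone hφ he hd f.toContinuousMap g.toContinuousMap
      map_smul' := fun c f => by
        show rmF R φ (c • f).toContinuousMap = _
        exact rm_smul hle hone hφ he hd c f.toContinuousMap }
  let Λ : PositiveLinearMap ℝ (CompactlySupportedContinuousMap K ℝ) ℝ :=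
    PositiveLinearMap.mk₀ Λ0 (fun f hf => rm_nonneg hle hφ hd (fun k => hf k))
  refine ⟨mK, bK, RealRMK.rieszMeasure Λ, inferInstance, inferInstance, fun z => ?_⟩
  let f : CompactlySupportedContinuousMap K ℝ :=
    { toContinuousMap := R z
      hasCompactSupport' := HasCompactSupport.of_compactSpace _ }
  have h1 : ∫ k, f k ∂(RealRMK.rieszMeasure Λ) = Λ f := RealRMK.integral_rieszMeasure Λ f
  have h2 : Λ f = rmF R φ (R z) := rfl
  have h3 : |φ z - rmF R φ (R z)| ≤ 0 * φ e :=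
    rm_key hle hone hφ (fun k => by rw [sub_self, abs_zero])
  rw [zero_mul] at h3
  have h4 : φ z - rmF R φ (R z) = 0 := abs_eq_zero.1 (le_antisymm h3 (abs_nonneg _))
  show ∫ k, f k ∂(RealRMK.rieszMeasure Λ) = φ z
  rw [h1, h2]
  linarith

end Pool.H30.RG
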