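import Pool.Agent.H30.RG.Basic

/-!
# [H30 RG SD] Density of the representation (Stone-Weierstrass for lattices)

PROOF.  The set `L = range R` is nonempty and closed under `⊓` and `⊔`:
`a ⊔ b = (1/2) (a + b + |a - b|)`, `a ⊓ b = (1/2) (a + b - |a - b|)` pointwise in `ℝ`
(`max_eq_half_add_abs…`, or `max_def`/`abs` case analysis), and `|R z - R w| = R |z - w|`. It separates points
strongly: given real values `a` at `k`, `b` at `l`, `k ≠ l`: choose `z` with `R z k ≠ R z l`; a suitable
`R (s z + t e)` takes the values `a` and `b` (linear `2 × 2` system); if `k = l` and `a = b` take `a e`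
(see the exact form of `Set.SeparatesPointsStrongly`). `ContinuousMap.sublattice_closure_eq_top` gives that
`L` is dense; `dist` on `C(K, ℝ)` is the sup distance (`ContinuousMap.dist_le`/`dist_apply_le…`).
-/

namespace Pool.H30.RG

theorem rep_dense {E : Type*} [AddCommGroup E] [Lattice E] [Module ℝ E] {K : Type*}
    [TopologicalSpace K] [CompactSpace K] [T2Space K] (R : E →ₗ[ℝ] C(K, ℝ)) (e : E)
    (habs : ∀ w k, R |w| k = |R w k|) (hone : ∀ k, R e k = 1)
    (hsep : ∀ k l : K, k ≠ l → ∃ z, R z k ≠ R z l) (g : C(K, ℝ)) (ε : ℝ) (hε : 0 < ε) :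
    ∃ z, ∀ k, |R z k - g k| ≤ ε := by
  have hmax : ∀ a b : ℝ, max a b = (1 / 2) * (a + b + |a - b|) := by
    intro a b
    rcases le_total a b with h | h
    · rw [max_eq_right h, abs_of_nonpos (by linarith)]
      ring
    · rw [max_eq_left h, abs_of_nonneg (by linarith)]
      ring
  have hmin : ∀ a b : ℝ, min a b = (1 / 2) * (a + b - |a - b|) := by
    intro a b
    rcases le_total a b with h | h
    · rw [min_eq_left h, abs_of_nonpos (by linarith)]
      ring
    · rw [min_eq_right h, abs_of_nonneg (by linarith)]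
      ring
  have hcl : closure (Set.range R) = ⊤ := by
    apply ContinuousMap.sublattice_closure_eq_top
    · exact ⟨R 0, 0, rfl⟩
    · rintro _ ⟨a, rfl⟩ _ ⟨b, rfl⟩
      refine ⟨(1 / 2 : ℝ) • (a + b - |a - b|), ?_⟩
      ext k
      rw [map_smul, map_sub, map_add, ContinuousMap.smul_apply, ContinuousMap.sub_apply,
        ContinuousMap.add_apply, habs, map_sub, ContinuousMap.sub_apply, ContinuousMap.inf_apply,
        smul_eq_mul]
      exact (hmin _ _).symm
    · rintro _ ⟨a, rfl⟩ _ ⟨b, rfl⟩
      refine ⟨(1 / 2 : ℝ) • (a + b + |a - b|), ?_⟩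
      ext k
      rw [map_smul, map_add, map_add, ContinuousMap.smul_apply, ContinuousMap.add_apply,
        ContinuousMap.add_apply, habs, map_sub, ContinuousMap.sub_apply, ContinuousMap.sup_apply,
        smul_eq_mul]
      exact (hmax _ _).symm
    · intro v x y
      by_cases hxy : x = y
      · subst hxy
        refine ⟨R (v x • e), ⟨_, rfl⟩, ?_, ?_⟩ <;>
          rw [map_smul, ContinuousMap.smul_apply, hone, smul_eq_mul, mul_one]
      · obtain ⟨z, hz⟩ := hsep x y hxy
        have hd : R z x - R z y ≠ 0 := sub_ne_zero.2 hz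
        refine ⟨R (((v x - v y) / (R z x - R z y)) • z +
          (v x - (v x - v y) / (R z x - R z y) * R z x) • e), ⟨_, rfl⟩, ?_, ?_⟩
        · rw [map_add, map_smul, map_smul, ContinuousMap.add_apply, ContinuousMap.smul_apply,
            ContinuousMap.smul_apply, hone, smul_eq_mul, smul_eq_mul]
          ring
        · rw [map_add, map_smul, map_smul, ContinuousMap.add_apply, ContinuousMap.smul_apply,
            ContinuousMap.smul_apply, hone, smul_eq_mul, smul_eq_mul]
          field_simp
          ring
  have hg : g ∈ closure (Set.range R) := by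
    rw [hcl]
    trivial
  obtain ⟨_, ⟨z, rfl⟩, hz⟩ := Metric.mem_closure_iff.1 hg ε hε
  refine ⟨z, fun k => ?_⟩
  have h1 := (ContinuousMap.dist_apply_le_dist (f := g) (g := R z) k).trans hz.le
  rw [dist_comm, Real.dist_eq] at h1
  exact h1

end Pool.H30.RG
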