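import Pool.Agent.H30.RG.KK
import Pool.Agent.H30.RG.SD
import Pool.Agent.H30.RG.RM

/-!
# [H30 RG FR] Representation of a vector lattice with order unit by functions

PROOF.  `kakutani`, `rep_dense`, `representing_measure` give `K`, `R`, `μ`; `Ω = K`, `ρ z ω = R z ω`. The
abs, unit and order properties are those of `R`; `R z` is continuous, so measurable. Products: the continuous
function `R z * R w` is approximated by `R u` within `ε` (`rep_dense`). Density in `L¹`: for `h` integrable there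
is a continuous `g` with `∫ |h - g| ≤ ε/2` (`MeasureTheory.Integrable.exists_hasCompactSupport_integral_sub_le`
or `Memℒp…exists_boundedContinuous…`, `μ` regular), and `z` with `|R z - g| ≤ ε / (2 (μ univ).toReal + 2)`.
-/

namespace Pool.H30.RG

open MeasureTheory

universe u

/-- `ρ` represents the vector lattice `E` (order unit `e`) by bounded measurable functions on the finite
measure space `(Ω, μ)`, the positive functional `φ` being given by integration. -/
structure FRep {E : Type*} [AddCommGroup E] [Lattice E] [Module ℝ E] (e : E) (φ : E →ₗ[ℝ] ℝ)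
    {Ω : Type*} [MeasurableSpace Ω] (μ : Measure Ω) (ρ : E →ₗ[ℝ] (Ω → ℝ)) : Prop where
  fin : IsFiniteMeasure μ
  abs : ∀ w ω, ρ |w| ω = |ρ w ω|
  one : ∀ ω, ρ e ω = 1
  meas : ∀ w, Measurable (ρ w)
  int : ∀ w, ∫ ω, ρ w ω ∂μ = φ w
  le : ∀ (z : E) (c : ℝ), (∀ ω, ρ z ω ≤ c) → z ≤ c • e
  mul : ∀ (z w : E) (ε : ℝ), 0 < ε → ∃ u, ∀ ω, |ρ u ω - ρ z ω * ρ w ω| ≤ ε
  dense : ∀ h : Ω → ℝ, Integrable h μ → ∀ ε : ℝ, 0 < ε → ∃ z, ∫ ω, |ρ z ω - h ω| ∂μ ≤ ε

theorem function_representation {E : Type u} [AddCommGroup E] [Lattice E] [IsOrderedAddMonoid E]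
    [Module ℝ E] [PosSMulMono ℝ E] (e : E) (he : 0 ≤ e) (hu : ∀ z : E, ∃ c : ℝ, |z| ≤ c • e)
    (ha : ∀ z : E, (∀ n : ℕ, n • z ≤ e) → z ≤ 0) (φ : E →ₗ[ℝ] ℝ) (hφ : ∀ z, 0 ≤ z → 0 ≤ φ z) :
    ∃ (Ω : Type u) (_ : MeasurableSpace Ω) (μ : Measure Ω) (ρ : E →ₗ[ℝ] (Ω → ℝ)),
      FRep e φ μ ρ := by
  obtain ⟨K, tK, cK, t2K, R, habs, hone, hle, hsep⟩ := kakutani e he hu ha
  have hd : ∀ (g : C(K, ℝ)) (ε : ℝ), 0 < ε → ∃ z, ∀ k, |R z k - g k| ≤ ε :=
    fun g ε hε => rep_dense R e habs hone hsep g ε hε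
  obtain ⟨mK, bK, μ, hfin, hreg, hint⟩ := representing_measure e he R hle hone hd φ hφ
  let ρ : E →ₗ[ℝ] (K → ℝ) :=
    { toFun := fun z k => R z k
      map_add' := by
        intro x y
        funext k
        rw [map_add, ContinuousMap.add_apply, Pi.add_apply]
      map_smul' := by
        intro r x
        funext k
        rw [map_smul, ContinuousMap.smul_apply, RingHom.id_apply, Pi.smul_apply] }
  have hcont : ∀ f : C(K, ℝ), Integrable f μ := by
    intro f
    exact Integrable.of_bound f.continuous.aestronglyMeasurable ‖f‖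
      (Filter.Eventually.of_forall fun k => f.norm_coe_le_norm k)
  refine ⟨K, mK, μ, ρ, ?_⟩
  constructor
  · exact hfin
  · exact fun w k => habs w k
  · exact fun k => hone k
  · exact fun w => (R w).continuous.measurable
  · exact fun w => hint w
  · exact fun z c h => hle z c h
  · intro z w ε hε
    obtain ⟨u, hu⟩ := hd (R z * R w) ε hε
    exact ⟨u, fun k => hu k⟩
  · intro h hh ε hε
    obtain ⟨g, -, hg, hgc, hgi⟩ :=
      hh.exists_hasCompactSupport_integral_sub_le (half_pos hε)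
    set m : ℝ := μ.real Set.univ with hm
    have hm0 : 0 ≤ m := measureReal_nonneg
    obtain ⟨z, hz⟩ := hd ⟨g, hgc⟩ (ε / (2 * (m + 1))) (by positivity)
    refine ⟨z, ?_⟩
    have hi1 : Integrable (fun k => R z k - g k) μ := (hcont (R z)).sub hgi
    have hi2 : Integrable (fun k => h k - g k) μ := hh.sub hgi
    have h1 : ∫ k, |ρ z k - h k| ∂μ ≤ ∫ k, (|R z k - g k| + |h k - g k|) ∂μ := by
      refine integral_mono ((hcont (R z)).sub hh).abs (hi1.abs.add hi2.abs) fun k => ?_
      show |R z k - h k| ≤ |R z k - g k| + |h k - g k|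
      have h2 := abs_sub_le (R z k) (g k) (h k)
      rw [abs_sub_comm (g k)] at h2
      exact h2
    have h2 : ∫ k, (|R z k - g k| + |h k - g k|) ∂μ =
        ∫ k, |R z k - g k| ∂μ + ∫ k, |h k - g k| ∂μ := integral_add hi1.abs hi2.abs
    have h3 : ∫ k, |R z k - g k| ∂μ ≤ (ε / (2 * (m + 1))) * m := by
      have h4 : ∫ k, |R z k - g k| ∂μ ≤ ∫ _, ε / (2 * (m + 1)) ∂μ :=
        integral_mono hi1.abs (integrable_const _) fun k => hz k
      rw [integral_const, smul_eq_mul, mul_comm] at h4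
      exact h4
    have h4 : (ε / (2 * (m + 1))) * m ≤ ε / 2 := by
      rw [div_mul_eq_mul_div, div_le_div_iff₀ (by positivity) (by positivity)]
      nlinarith
    have h5 : ∫ k, |h k - g k| ∂μ ≤ ε / 2 := hg
    linarith

end Pool.H30.RG
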