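import Pool.Agent.H30.RG.VN

/-!
# [H30 RG PB] The pairing

PROOF.  Let `C = ‖P‖ ‖i‖`. (1) For `z` in the ideal and `f` in the dual: `∫ |ρ z V f| ≤ ‖P‖ ‖f‖ ‖z‖` by
`l1_bound` (`g = V f` integrable, `D = ‖f‖ ‖P‖`, hypothesis `hV`). (2) For `x` with `i x` in the ideal
`U x = ρ (i x)` a.e., so `∫ |U x V f| ≤ C ‖x‖ ‖f‖`, `U x V f` is integrable (bounded times integrable) and
`∫ U x V f = f (P (i x)) = f x`. (3) For general `x` choose by density `x n → x` with `i (x n)` in the ideal.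
`U (x n) → U x` in `L¹`, so along a subsequence almost everywhere
(`MeasureTheory.TendstoInMeasure.exists_seq_tendsto_ae`); by Fatou's lemma (`lintegral_liminf_le`)
`∫ |U x V f| ≤ liminf ∫ |U (x n) V f| ≤ C ‖x‖ ‖f‖`; measurability: `U x`, `V f` are a.e. strongly measurable;
so `U x V f` is integrable with that bound for all `x`. (4) `|∫ (U x - U (x n)) V f| ≤ C ‖x - x n‖ ‖f‖ → 0` by
(3) applied to `x - x n`, and `∫ U (x n) V f = f (x n) → f x`; so `∫ U x V f = f x`.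
-/

namespace Pool.H30.RG

open MeasureTheory

section

variable {E : Type*} [AddCommGroup E] [Lattice E] [IsOrderedAddMonoid E] [Module ℝ E]
  {e : E} {φ : E →ₗ[ℝ] ℝ} {Ω : Type*} [MeasurableSpace Ω] {μ : Measure Ω}
  {ρ : E →ₗ[ℝ] (Ω → ℝ)}

private theorem pb_pos (hρ : FRep e φ μ ρ) {w : E} (hw : 0 ≤ w) (ω : Ω) : 0 ≤ ρ w ω := by
  have h1 := hρ.abs w ω
  rw [abs_of_nonneg hw] at h1
  rw [h1]
  exact abs_nonneg _

private theorem pb_bdd (hρ : FRep e φ μ ρ) {z : E} {c : ℝ} (hc : |z| ≤ c • e) (ω : Ω) :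
    |ρ z ω| ≤ c := by
  have h1 := pb_pos hρ (sub_nonneg.2 hc) ω
  rw [map_sub, map_smul, Pi.sub_apply, Pi.smul_apply, hρ.one, hρ.abs, smul_eq_mul, mul_one] at h1
  linarith

end

theorem pairing {L : Type*} [NormedAddCommGroup L] [Lattice L] [IsOrderedAddMonoid L]
    [HasSolidNorm L] [NormedSpace ℝ L] [PosSMulMono ℝ L] (e : L) (he : 0 ≤ e) (φ : L →L[ℝ] ℝ)
    {Ω : Type*} [MeasurableSpace Ω] (μ : Measure Ω) (ρ : ordIdeal e →ₗ[ℝ] (Ω → ℝ))
    (hρ : FRep (unitOf e he) ((φ : L →ₗ[ℝ] ℝ) ∘ₗ (ordIdeal e).subtype) μ ρ)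
    {X : Type*} [NormedAddCommGroup X] [NormedSpace ℝ X] (i : X →L[ℝ] L) (P : L →L[ℝ] X)
    (hPi : ∀ x, P (i x) = x) (hd : Dense {x : X | i x ∈ ordIdeal e})
    (U : X →L[ℝ] (Ω →₁[μ] ℝ))
    (hU : ∀ (x : X) (hx : i x ∈ ordIdeal e), (U x : Ω → ℝ) =ᵐ[μ] ρ ⟨i x, hx⟩)
    (V : (X →L[ℝ] ℝ) →L[ℝ] (Ω →₁[μ] ℝ))
    (hV : ∀ (f : X →L[ℝ] ℝ) (z : ordIdeal e), ∫ ω, ρ z ω * V f ω ∂μ = f (P z)) :
    IsRep μ U V (‖P‖ * ‖i‖) := by
  have hfin := hρ.fin
  -- elements of the ideal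
  have hmi : ∀ (z : ordIdeal e) (f : X →L[ℝ] ℝ), Integrable (fun ω => ρ z ω * V f ω) μ := by
    intro z f
    obtain ⟨c, hc⟩ := ordIdeal_unit e he z
    exact (L1.integrable_coeFn (V f)).bdd_mul (hρ.meas z).aestronglyMeasurable
      (Filter.Eventually.of_forall fun ω => by rw [Real.norm_eq_abs]; exact pb_bdd hρ hc ω)
  have hz : ∀ (z : ordIdeal e) (f : X →L[ℝ] ℝ),
      ∫ ω, |ρ z ω * V f ω| ∂μ ≤ (‖f‖ * ‖P‖) * ‖(z : L)‖ := by
    intro z f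
    refine l1_bound e he φ μ ρ hρ (V f) (L1.integrable_coeFn (V f)) _ (by positivity) ?_ z
    intro w
    rw [hV]
    refine (le_abs_self _).trans ((f.le_opNorm _).trans ?_)
    rw [mul_assoc]
    exact mul_le_mul_of_nonneg_left (P.le_opNorm _) (norm_nonneg _)
  -- vectors with image in the ideal
  have haeq : ∀ (x : X) (hx : i x ∈ ordIdeal e) (f : X →L[ℝ] ℝ),
      (fun ω => U x ω * V f ω) =ᵐ[μ] fun ω => ρ ⟨i x, hx⟩ ω * V f ω := by
    intro x hx f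
    filter_upwards [hU x hx] with ω h1
    rw [h1]
  have hint0 : ∀ (x : X) (_ : i x ∈ ordIdeal e) (f : X →L[ℝ] ℝ),
      Integrable (fun ω => U x ω * V f ω) μ := fun x hx f =>
    (hmi ⟨i x, hx⟩ f).congr (haeq x hx f).symm
  have hb0 : ∀ (x : X) (_ : i x ∈ ordIdeal e) (f : X →L[ℝ] ℝ),
      ∫ ω, |U x ω * V f ω| ∂μ ≤ ‖P‖ * ‖i‖ * ‖x‖ * ‖f‖ := by
    intro x hx f
    have h1 : ∫ ω, |U x ω * V f ω| ∂μ = ∫ ω, |ρ ⟨i x, hx⟩ ω * V f ω| ∂μ := by
      refine integral_congr_ae ?_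
      filter_upwards [hU x hx] with ω h1
      rw [h1]
    rw [h1]
    refine (hz _ f).trans ?_
    have h2 : ‖((⟨i x, hx⟩ : ordIdeal e) : L)‖ ≤ ‖i‖ * ‖x‖ := i.le_opNorm x
    calc (‖f‖ * ‖P‖) * ‖((⟨i x, hx⟩ : ordIdeal e) : L)‖ ≤ (‖f‖ * ‖P‖) * (‖i‖ * ‖x‖) :=
          mul_le_mul_of_nonneg_left h2 (by positivity)
      _ = ‖P‖ * ‖i‖ * ‖x‖ * ‖f‖ := by ring
  have hv0 : ∀ (x : X) (_ : i x ∈ ordIdeal e) (f : X →L[ℝ] ℝ),
      ∫ ω, U x ω * V f ω ∂μ = f x := by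
    intro x hx f
    rw [integral_congr_ae (haeq x hx f), hV]
    show f (P (i x)) = f x
    rw [hPi]
  have hmeas : ∀ (x : X) (f : X →L[ℝ] ℝ),
      AEStronglyMeasurable (fun ω => U x ω * V f ω) μ := fun x f =>
    (L1.integrable_coeFn (U x)).aestronglyMeasurable.mul
      (L1.integrable_coeFn (V f)).aestronglyMeasurable
  -- Fatou
  have hfatou : ∀ (x : X) (f : X →L[ℝ] ℝ) (a : ℝ), ‖P‖ * ‖i‖ * ‖x‖ * ‖f‖ < a →
      eLpNorm (fun ω => U x ω * V f ω) 1 μ ≤ ENNReal.ofReal a := by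
    intro x f a ha
    obtain ⟨xs, hxs, hlim⟩ := mem_closure_iff_seq_limit.1 (hd x)
    have h1 : Filter.Tendsto (fun n => U (xs n)) Filter.atTop (nhds (U x)) :=
      (U.continuous.tendsto x).comp hlim
    obtain ⟨ns, hns, hae⟩ := (tendstoInMeasure_of_tendsto_Lp h1).exists_seq_tendsto_ae
    have h2 : Filter.Tendsto (fun n => ‖P‖ * ‖i‖ * ‖xs (ns n)‖ * ‖f‖) Filter.atTop
        (nhds (‖P‖ * ‖i‖ * ‖x‖ * ‖f‖)) :=
      ((hlim.comp hns.tendsto_atTop).norm.const_mul (‖P‖ * ‖i‖)).mul_const ‖f‖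
    refine Lp.eLpNorm_le_of_ae_tendsto (u := Filter.atTop)
      (f := fun n ω => U (xs (ns n)) ω * V f ω) ?_ (fun n => hmeas _ f) ?_
    · filter_upwards [h2.eventually (gt_mem_nhds ha)] with n hn
      rw [eLpNorm_one_eq_lintegral_enorm,
        ← ofReal_integral_norm_eq_lintegral_enorm (hint0 _ (hxs (ns n)) f)]
      refine ENNReal.ofReal_le_ofReal ?_
      exact (hb0 _ (hxs (ns n)) f).trans hn.le
    · filter_upwards [hae] with ω hω
      exact hω.mul_const _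
  have hint : ∀ (x : X) (f : X →L[ℝ] ℝ), Integrable (fun ω => U x ω * V f ω) μ := by
    intro x f
    rw [← memLp_one_iff_integrable]
    exact ⟨hmeas x f, (hfatou x f _ (lt_add_one _)).trans_lt ENNReal.ofReal_lt_top⟩
  have hb : ∀ (x : X) (f : X →L[ℝ] ℝ),
      ∫ ω, |U x ω * V f ω| ∂μ ≤ ‖P‖ * ‖i‖ * ‖x‖ * ‖f‖ := by
    intro x f
    refine le_of_forall_gt_imp_ge_of_dense fun a ha => ?_
    have h1 := hfatou x f a ha
    rw [eLpNorm_one_eq_lintegral_enorm,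
      ← ofReal_integral_norm_eq_lintegral_enorm (hint x f)] at h1
    have ha0 : 0 ≤ a := le_trans (by positivity) ha.le
    exact (ENNReal.ofReal_le_ofReal_iff ha0).1 h1
  refine ⟨hint, hb, fun x f => ?_⟩
  obtain ⟨xs, hxs, hlim⟩ := mem_closure_iff_seq_limit.1 (hd x)
  have h1 : Filter.Tendsto (fun n => ∫ ω, U (xs n) ω * V f ω ∂μ) Filter.atTop
      (nhds (∫ ω, U x ω * V f ω ∂μ)) := by
    rw [tendsto_iff_norm_sub_tendsto_zero]
    have h2 : Filter.Tendsto (fun n => ‖P‖ * ‖i‖ * ‖xs n - x‖ * ‖f‖) Filter.atTop (nhds 0) := by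
      have h3 := (((tendsto_iff_norm_sub_tendsto_zero.1 hlim).const_mul (‖P‖ * ‖i‖)).mul_const ‖f‖)
      rw [mul_zero, zero_mul] at h3
      exact h3
    refine squeeze_zero (fun n => norm_nonneg _) (fun n => ?_) h2
    have h3 : ∫ ω, U (xs n) ω * V f ω ∂μ - ∫ ω, U x ω * V f ω ∂μ =
        ∫ ω, U (xs n - x) ω * V f ω ∂μ := by
      rw [← integral_sub (hint _ f) (hint _ f)]
      refine integral_congr_ae ?_
      rw [map_sub]
      filter_upwards [Lp.coeFn_sub (U (xs n)) (U x)] with ω h4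
      rw [h4, Pi.sub_apply]
      ring
    rw [h3]
    refine (norm_integral_le_integral_norm _).trans ?_
    exact hb (xs n - x) f
  have h2 : Filter.Tendsto (fun n => ∫ ω, U (xs n) ω * V f ω ∂μ) Filter.atTop (nhds (f x)) := by
    have h3 : (fun n => ∫ ω, U (xs n) ω * V f ω ∂μ) = fun n => f (xs n) := by
      funext n
      exact hv0 _ (hxs n) f
    rw [h3]
    exact (f.continuous.tendsto x).comp hlim
  exact tendsto_nhds_unique h1 h2

end Pool.H30.RG
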