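import Pool.Agent.H30.RG.UG

/-!
# [H30 RG PS] Finite peripheral spectrum

`A` a complete normed algebra, `T ∈ A` and suppose that for every scalar `l` of modulus one the
averages `n⁻¹ ∑_{j<n} (l T)^j` converge in norm to some `E` with `l T E = E (l T) = E E = E`. Then only
finitely many points of the spectrum of `T` have modulus one. (Corollary below: power bounded operators
on a space on which all operators attain their norm.)

PROOF.  Suppose infinitely many. The unit circle of `𝕜` is compact (`isCompact_sphere`), so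
the infinite set `{m ∈ σ(T), ‖m‖ = 1}` has an accumulation point `z`, `‖z‖ = 1`
(`Set.Infinite.exists_accPt_of_subset_isCompact`). Put `S = z⁻¹ T` and let `E` be the limit of the averages
`a n = n⁻¹ ∑_{j<n} S^j`. Choose `n ≥ 1` with `‖a n - E‖ ≤ 1/(8 (‖1‖+1))` and `‖E‖ / n ≤ 1/(8 (‖1‖+1))`.
Let `r(m) = n⁻¹ ∑_{j<n} m^j` for `m ∈ 𝕜`; `r` is continuous, `r(1) = 1`. Let `m ∈ σ(S)`, `m ≠ 1`, `m ≠ 0`. Claim:
`m ∈ σ(S (1 - E))`. Otherwise `G = (m - S(1-E))⁻¹` exists; it commutes with `S` and `E` (which commute), and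
`G' = G (1 - E) + (m - 1)⁻¹ E` satisfies `(m - S) G' = (m - S(1-E)) (1-E) G + (m - 1)(m-1)⁻¹ E = (1 - E) + E = 1`
(use `(m - S)(1-E) = (m - S(1-E))(1-E)` as `(1-E)` is idempotent and `(m - S) E = (m - 1) E`), and similarly on
the other side, so `m ∉ σ(S)`, contradiction. By the spectral mapping inclusion
(`spectrum.subset_polynomial_aeval`) `r(m) ∈ σ(n⁻¹ ∑_{j<n} (S(1-E))^j)`, and
`n⁻¹ ∑_{j<n} (S(1-E))^j = n⁻¹ E + a n - E` (because `(S(1-E))^j = S^j (1-E) = S^j - E` for `j ≥ 1`, `= 1` for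
`j = 0`), an element of norm `≤ 1/(4 (‖1‖+1))`, so `‖r(m)‖ ≤ 1/4` (`spectrum.norm_le_norm_mul_of_mem`). But
`m_k → z` in `σ(T)`, `m_k ≠ z`, gives `z⁻¹ m_k ∈ σ(S)`, `z⁻¹ m_k → 1`, and `r(z⁻¹ m_k) → 1`. Contradiction.
Corollary: `T` power bounded implies `z⁻¹ T` power bounded with the same bound; apply `uniform_ergodic`.
-/

namespace Pool.H30.RG

open Filter Topology

private theorem ps_unit {A : Type*} [Ring A] (M c S E G : A) (hM : ∀ x, M * x = x * M)
    (hc : ∀ x, c * x = x * c) (hcM : c * (M - 1) = 1) (hSE : S * E = E) (hES : E * S = E)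
    (hEE : E * E = E) (hG1 : (M - (S - E)) * G = 1) (hG2 : G * (M - (S - E)) = 1) :
    IsUnit (M - S) := by
  have e1 : (M - (S - E)) * E = M * E := by
    rw [sub_mul, sub_mul, hSE, hEE, sub_self, sub_zero]
  have e2 : E * (M - (S - E)) = M * E := by
    rw [mul_sub, mul_sub, hES, hEE, sub_self, sub_zero, hM]
  have e3 : G * E = E * G := by
    calc G * E = G * E * ((M - (S - E)) * G) := by rw [hG1, mul_one]
      _ = G * (E * (M - (S - E))) * G := by simp only [mul_assoc]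
      _ = G * ((M - (S - E)) * E) * G := by rw [e1, e2]
      _ = G * (M - (S - E)) * (E * G) := by simp only [mul_assoc]
      _ = E * G := by rw [hG2, one_mul]
  have e4 : G * (M * E) = E := by
    rw [← e1, ← mul_assoc, hG2, one_mul]
  have e5 : (M - S) * G = 1 - E * G := by
    rw [← hG1]
    noncomm_ring
  have e6 : G * (M - S) = 1 - G * E := by
    rw [← hG2]
    noncomm_ring
  have e7 : (M - S) * E = (M - 1) * E := by
    rw [sub_mul, sub_mul, hSE, one_mul]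
  have e8 : E * (M - S) = M * E - E := by
    rw [mul_sub, hES, hM]
  have e9 : E * G * E = E * G := by
    rw [mul_assoc, e3, ← mul_assoc, hEE]
  have e10 : c * ((M - 1) * E) = E := by
    rw [← mul_assoc, hcM, one_mul]
  refine isUnit_iff_exists.2 ⟨G * (1 - E) + c * E, ?_, ?_⟩
  · calc (M - S) * (G * (1 - E) + c * E) = (M - S) * G * (1 - E) + (M - S) * c * E := by
          rw [mul_add]
          simp only [mul_assoc]
      _ = (M - S) * G * (1 - E) + c * ((M - S) * E) := by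
          rw [← hc (M - S), mul_assoc c]
      _ = (1 - E * G) * (1 - E) + E := by
          rw [e5, e7, e10]
      _ = 1 - E * G + E * G * E := by noncomm_ring
      _ = 1 := by
          rw [e9, sub_add_cancel]
  · calc (G * (1 - E) + c * E) * (M - S) = G * (M - S) - G * (E * (M - S)) + c * (E * (M - S)) := by
          noncomm_ring
      _ = 1 - G * E - (E - G * E) + E := by
          rw [e6, e8, mul_sub, e4]
          have h1 : M * E - E = (M - 1) * E := by rw [sub_mul, one_mul]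
          rw [h1, e10]
      _ = 1 := by
          abel

private theorem ps_pow {A : Type*} [Ring A] (S E : A) (hSE : S * E = E) (hES : E * S = E)
    (hEE : E * E = E) : ∀ j : ℕ, (S - E) ^ (j + 1) = S ^ (j + 1) - E := by
  have hS : ∀ j : ℕ, S ^ j * E = E := by
    intro j
    induction j with
    | zero => rw [pow_zero, one_mul]
    | succ j ih => rw [pow_succ, mul_assoc, hSE, ih]
  intro j
  induction j with
  | zero => rw [zero_add, pow_one, pow_one]
  | succ j ih =>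
    rw [pow_succ, ih, sub_mul, mul_sub, mul_sub, hS, hES, hEE, ← pow_succ, sub_self, sub_zero]

theorem peripheral_finite {𝕜 : Type*} [RCLike 𝕜] {X : Type*} [NormedAddCommGroup X]
    [NormedSpace 𝕜 X] [CompleteSpace X] [TopologicalSpace.SeparableSpace X]
    (h : AllAttain 𝕜 X) (T : X →L[𝕜] X) (C : ℝ) (hC : ∀ n : ℕ, ‖T ^ n‖ ≤ C) :
    {m : 𝕜 | m ∈ spectrum 𝕜 T ∧ ‖m‖ = 1}.Finite := by
  by_contra hinf
  have hinf' : {m : 𝕜 | m ∈ spectrum 𝕜 T ∧ ‖m‖ = 1}.Infinite := hinf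
  obtain ⟨z, hz, hacc⟩ := hinf'.exists_accPt_of_subset_isCompact
    (isCompact_sphere (0 : 𝕜) 1) (fun m hm => by
      rw [mem_sphere_zero_iff_norm]
      exact hm.2)
  rw [mem_sphere_zero_iff_norm] at hz
  have hz0 : z ≠ 0 := by
    rw [← norm_ne_zero_iff, hz]
    exact one_ne_zero
  obtain ⟨S, hS⟩ : ∃ S : X →L[𝕜] X, S = z⁻¹ • T := ⟨_, rfl⟩
  have hSC : ∀ n : ℕ, ‖S ^ n‖ ≤ C := by
    intro n
    rw [hS, smul_pow, norm_smul, norm_pow, norm_inv, hz, inv_one, one_pow, one_mul]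
    exact hC n
  obtain ⟨E, hE, hSE, hES, hEE⟩ := uniform_ergodic h S C hSC
  have h1 : ∀ᶠ n : ℕ in atTop, ‖Pool.H30.PM.avgOp S n - E‖ < 1 / 8 := by
    have h2 := Metric.tendsto_nhds.1 hE (1 / 8) (by norm_num)
    simpa only [dist_eq_norm] using h2
  have h2 : ∀ᶠ n : ℕ in atTop, 8 * ‖E‖ + 1 ≤ (n : ℝ) :=
    tendsto_natCast_atTop_atTop.eventually_ge_atTop _
  obtain ⟨n, hn1, hn2⟩ := (h1.and h2).exists
  have hn0 : (0 : ℝ) < n := by
    have := norm_nonneg E
    linarith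
  have hnp : 1 ≤ n := by exact_mod_cast hn0
  have hn𝕜 : (n : 𝕜) ≠ 0 := by
    have : n ≠ 0 := by omega
    exact_mod_cast this
  -- the average of the powers of `S - E`
  have hav : ‖(n : 𝕜)⁻¹ • ∑ j ∈ Finset.range n, (S - E) ^ j‖ ≤ 1 / 4 := by
    have h3 : (n : 𝕜)⁻¹ • ∑ j ∈ Finset.range n, (S - E) ^ j =
        (Pool.H30.PM.avgOp S n - E) + (n : 𝕜)⁻¹ • E := by
      unfold Pool.H30.PM.avgOp
      obtain ⟨k, rfl⟩ : ∃ k, n = k + 1 := ⟨n - 1, by omega⟩
      rw [Finset.sum_range_succ' (fun j => (S - E) ^ j), Finset.sum_range_succ' (fun j => S ^ j),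
        Finset.sum_congr rfl fun j _ => ps_pow S E hSE hES hEE j, Finset.sum_sub_distrib,
        Finset.sum_const, Finset.card_range, pow_zero, pow_zero]
      have h4 : E = ((k + 1 : ℕ) : 𝕜)⁻¹ • (((k + 1 : ℕ) : 𝕜) • E) := by
        rw [smul_smul, inv_mul_cancel₀ hn𝕜, one_smul]
      have h5 : (((k + 1 : ℕ) : 𝕜) • E) = k • E + E := by
        rw [Nat.cast_smul_eq_nsmul, succ_nsmul]
      conv_rhs => enter [1, 2]; rw [h4, h5]
      rw [← smul_sub, ← smul_add]
      congr 1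
      abel
    rw [h3]
    refine (norm_add_le _ _).trans ?_
    have h4 : ‖(n : 𝕜)⁻¹ • E‖ ≤ 1 / 8 := by
      rw [norm_smul, norm_inv, RCLike.norm_natCast, inv_mul_le_iff₀ hn0]
      linarith
    linarith
  obtain ⟨r, hr⟩ : ∃ r : 𝕜 → 𝕜, r = fun m => (n : 𝕜)⁻¹ * ∑ j ∈ Finset.range n, m ^ j := ⟨_, rfl⟩
  have hrc : Continuous r := by
    rw [hr]
    fun_prop
  have hr1 : r 1 = 1 := by
    rw [hr]
    simp only [one_pow, Finset.sum_const, Finset.card_range, nsmul_eq_mul, mul_one]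
    exact inv_mul_cancel₀ hn𝕜
  have hrc1 : ContinuousAt r 1 := hrc.continuousAt
  obtain ⟨δ, hδ, hδr⟩ := Metric.continuousAt_iff.1 hrc1 (1 / 2 : ℝ) (by norm_num)
  obtain ⟨m, ⟨hm1, hm2⟩, hmz⟩ := accPt_iff_nhds.1 hacc _ (Metric.ball_mem_nhds z hδ)
  obtain ⟨w, hw⟩ : ∃ w : 𝕜, w = z⁻¹ * m := ⟨_, rfl⟩
  have hw1 : w ≠ 1 := by
    intro h3
    apply hmz
    rw [hw, inv_mul_eq_one₀ hz0] at h3
    exact h3.symm
  have hwd : dist w 1 < δ := by
    have h3 : w - 1 = z⁻¹ * (m - z) := by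
      rw [hw, mul_sub, inv_mul_cancel₀ hz0]
    rw [dist_eq_norm, h3, norm_mul, norm_inv, hz, inv_one, one_mul, ← dist_eq_norm]
    exact Metric.mem_ball.1 hm1
  have hrw := hδr hwd
  rw [hr1, dist_eq_norm] at hrw
  have hwS : w ∈ spectrum 𝕜 S := by
    have h3 := (spectrum.smul_mem_smul_iff (r := Units.mk0 z⁻¹ (inv_ne_zero hz0)) (s := m)
      (a := T)).2 hm2.1
    rw [hS, hw]
    exact h3
  have hwR : w ∈ spectrum 𝕜 (S - E) := by
    by_contra h3
    rw [spectrum.notMem_iff] at h3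
    obtain ⟨u, hu⟩ := h3
    apply (spectrum.mem_iff.1 hwS)
    refine ps_unit (algebraMap 𝕜 _ w) (algebraMap 𝕜 _ (w - 1)⁻¹) S E (↑u⁻¹)
      (fun x => Algebra.commutes w x) (fun x => Algebra.commutes _ x) ?_ hSE hES hEE ?_ ?_
    · rw [← map_one (algebraMap 𝕜 (X →L[𝕜] X)), ← map_sub, ← map_mul,
        inv_mul_cancel₀ (sub_ne_zero.2 hw1)]
    · rw [← hu]
      exact u.mul_inv
    · rw [← hu]
      exact u.inv_mul
  have hrR : r w ∈ spectrum 𝕜 ((n : 𝕜)⁻¹ • ∑ j ∈ Finset.range n, (S - E) ^ j) := by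
    have h3 := spectrum.subset_polynomial_aeval (S - E)
      (Polynomial.C (n : 𝕜)⁻¹ * ∑ j ∈ Finset.range n, Polynomial.X ^ j) ⟨w, hwR, rfl⟩
    have h4 : Polynomial.aeval (S - E) (Polynomial.C (n : 𝕜)⁻¹ *
        ∑ j ∈ Finset.range n, Polynomial.X ^ j) =
        (n : 𝕜)⁻¹ • ∑ j ∈ Finset.range n, (S - E) ^ j := by
      rw [map_mul, Polynomial.aeval_C, map_sum, ← Algebra.smul_def]
      congr 1
      exact Finset.sum_congr rfl fun j _ => by rw [map_pow, Polynomial.aeval_X]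
    have h5 : Polynomial.eval w (Polynomial.C (n : 𝕜)⁻¹ *
        ∑ j ∈ Finset.range n, Polynomial.X ^ j) = r w := by
      rw [Polynomial.eval_mul, Polynomial.eval_C, Polynomial.eval_finsetSum, hr]
      congr 1
      exact Finset.sum_congr rfl fun j _ => by rw [Polynomial.eval_pow, Polynomial.eval_X]
    rw [h4] at h3
    rw [← h5]
    exact h3
  have hrn : ‖r w‖ ≤ 1 / 4 := by
    refine (spectrum.norm_le_norm_mul_of_mem hrR).trans ?_
    have h3 : ‖(1 : X →L[𝕜] X)‖ ≤ 1 := ContinuousLinearMap.norm_id_le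
    calc ‖(n : 𝕜)⁻¹ • ∑ j ∈ Finset.range n, (S - E) ^ j‖ * ‖(1 : X →L[𝕜] X)‖ ≤ 1 / 4 * 1 :=
          mul_le_mul hav h3 (norm_nonneg _) (by norm_num)
      _ = 1 / 4 := mul_one _
  have h5 : ‖(1 : 𝕜)‖ ≤ ‖r w‖ + ‖r w - 1‖ := by
    have h6 := norm_sub_norm_le (1 : 𝕜) (r w)
    rw [norm_sub_rev] at h6
    linarith
  rw [norm_one] at h5
  linarith

end Pool.H30.RG
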