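import Pool.Agent.H30.RG.MZ

/-!
# [H30 RG SG] Strongly continuous semigroups are norm continuous

PROOF.  (i) Local boundedness: there are `δ > 0`, `M` with `‖S t‖ ≤ M` for `0 ≤ t ≤ δ`. Otherwise there are
`t n ↓ 0` (`t n > 0`) with `‖S (t n)‖ ≥ n`, but `S (t n) x → x` is bounded for every `x`, contradiction with
`banach_steinhaus`. (ii) For `x ∈ X` the function `t ↦ S t x` is continuous on `[0, δ/2]`: right continuity
at `t`: `S (t + r) x - S t x = S t (S r x - x)`; from the left: `S (t - r) x - S t x = S (t-r) (x - S r x)`, norm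
`≤ M ‖x - S r x‖`. (iii) For `0 < r ≤ δ/2` put `C r x = r⁻¹ ∫_0^r S t x dt` (interval integral), a bounded operator
with `‖C r‖ ≤ M`; `C r x → x` as `r → 0+` (`‖C r x - x‖ ≤ sup_{t ≤ r} ‖S t x - x‖`). For `0 < s ≤ r`,
`(S s - 1) (C r x) = r⁻¹ (∫_r^{r+s} S t x dt - ∫_0^s S t x dt)`
(`S s ∫ = ∫ S s (S t x)`, `ContinuousLinearMap.intervalIntegral_comp_comm`, change of variables), so
`‖(S s - 1) C r‖ ≤ 2 M s / r`. (iv) `mazur_wot` for the sequence `C (r n)`, `r n = δ/(2 (n+1))`, with limit `1`: a convex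
combination `D = ∑ w n C (r n)` with `‖D - 1‖ < 1/2`, so `D` is invertible (`Units.oneSub`/
`isUnit_of_norm_sub_one_lt` or Neumann series) with inverse `D'`, and
`‖S s - 1‖ = ‖(S s - 1) D D'‖ ≤ ∑ w n (2 M s / r n) ‖D'‖ → 0` as `s → 0+`.
-/

namespace Pool.H30.RG

open Filter Topology

private theorem sg_bdd {𝕜 : Type*} [RCLike 𝕜] {X : Type*} [NormedAddCommGroup X]
    [NormedSpace 𝕜 X] [CompleteSpace X] (S : ℝ → (X →L[𝕜] X)) (h0 : S 0 = 1)
    (hc : ∀ x, Tendsto (fun t => S t x) (𝓝[>] 0) (𝓝 x)) :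
    ∃ δ M : ℝ, 0 < δ ∧ 0 ≤ M ∧ ∀ t, 0 ≤ t → t ≤ δ → ‖S t‖ ≤ M := by
  by_contra hno
  push Not at hno
  have h1 : ∀ n : ℕ, ∃ t : ℝ, 0 < t ∧ t ≤ 1 / ((n : ℝ) + 1) ∧ (n : ℝ) + 1 < ‖S t‖ := by
    intro n
    obtain ⟨t, ht0, ht1, ht2⟩ := hno (1 / ((n : ℝ) + 1)) ((n : ℝ) + 1) (by positivity)
      (by positivity)
    refine ⟨t, lt_of_le_of_ne ht0 ?_, ht1, ht2⟩
    intro h
    rw [← h, h0] at ht2
    have h3 : ‖(1 : X →L[𝕜] X)‖ ≤ 1 := ContinuousLinearMap.norm_id_le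
    have h4 : (0 : ℝ) ≤ n := Nat.cast_nonneg n
    linarith
  choose t ht0 ht1 ht2 using h1
  have htt : Tendsto t atTop (𝓝[>] 0) := by
    rw [tendsto_nhdsWithin_iff]
    refine ⟨squeeze_zero (fun n => (ht0 n).le) ht1 tendsto_one_div_add_atTop_nhds_zero_nat, ?_⟩
    exact Eventually.of_forall fun n => ht0 n
  obtain ⟨C, hC⟩ := banach_steinhaus (g := fun n => S (t n)) (fun x => by
    have h2 : Tendsto (fun n => S (t n) x) atTop (𝓝 x) := (hc x).comp htt
    obtain ⟨C, hC⟩ := (h2.norm).bddAbove_range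
    exact ⟨C, fun n => hC ⟨n, rfl⟩⟩)
  obtain ⟨n, hn⟩ := exists_nat_gt C
  have h3 := hC n
  have h4 := ht2 n
  linarith

private theorem sg_core {𝕜 : Type*} [RCLike 𝕜] {X : Type*} [NormedAddCommGroup X]
    [NormedSpace 𝕜 X] [CompleteSpace X] (S : ℝ → (X →L[𝕜] X))
    (hadd : ∀ s t, 0 ≤ s → 0 ≤ t → S (s + t) = S s * S t)
    (hc : ∀ x, Tendsto (fun t => S t x) (𝓝[>] 0) (𝓝 x)) (δ M : ℝ) (hδ : 0 < δ) (hM : 0 ≤ M)
    (hb : ∀ t, 0 ≤ t → t ≤ δ → ‖S t‖ ≤ M) :
    ∃ C : ℝ → (X →L[𝕜] X), (∀ r, 0 < r → r ≤ δ / 2 → ‖C r‖ ≤ M) ∧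
      (∀ r s, 0 < r → r ≤ δ / 2 → 0 < s → s ≤ δ / 2 → ‖(S s - 1) * C r‖ ≤ 2 * M / r * s) ∧
      ∀ (x : X) (ε : ℝ), 0 < ε → ∃ η, 0 < η ∧ ∀ r, 0 < r → r ≤ η → ‖C r x - x‖ ≤ ε := by
  let _ : NormedSpace ℝ X := NormedSpace.restrictScalars ℝ 𝕜 X
  let _ : IsScalarTower ℝ 𝕜 X := RestrictScalars.isScalarTower ℝ 𝕜 X
  have hnear : ∀ (x : X) (ε : ℝ), 0 < ε → ∃ η, 0 < η ∧ ∀ r, 0 < r → r ≤ η → ‖S r x - x‖ ≤ ε := by
    intro x ε hε
    have h1 := (Metric.tendsto_nhds.1 (hc x)) ε hε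
    rw [eventually_nhdsWithin_iff, Metric.eventually_nhds_iff] at h1
    obtain ⟨η, hη, h2⟩ := h1
    refine ⟨η / 2, by positivity, fun r hr hr2 => ?_⟩
    have h3 := h2 (y := r) (by
      rw [Real.dist_eq, sub_zero, abs_of_pos hr]
      linarith) hr
    rw [dist_eq_norm] at h3
    exact h3.le
  have hcont : ∀ x : X, ContinuousOn (fun t => S t x) (Set.Icc 0 δ) := by
    intro x
    rw [Metric.continuousOn_iff]
    intro b hbb ε hε
    obtain ⟨η, hη, h1⟩ := hnear x (ε / (2 * (M + 1))) (by positivity)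
    have key : ∀ s t : ℝ, s ∈ Set.Icc 0 δ → t ∈ Set.Icc 0 δ → s < t → t - s ≤ η →
        ‖S t x - S s x‖ < ε := by
      intro s t hs ht hst hts
      have h2 : S t x - S s x = S s (S (t - s) x - x) := by
        have h3 := hadd s (t - s) hs.1 (by linarith)
        rw [add_sub_cancel] at h3
        rw [h3, map_sub]
        rfl
      rw [h2]
      have h4 := h1 (t - s) (by linarith) hts
      calc ‖S s (S (t - s) x - x)‖ ≤ ‖S s‖ * ‖S (t - s) x - x‖ := (S s).le_opNorm _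
        _ ≤ M * (ε / (2 * (M + 1))) :=
            mul_le_mul (hb s hs.1 hs.2) h4 (norm_nonneg _) hM
        _ < ε := by
            rw [mul_div_assoc', div_lt_iff₀ (by positivity)]
            nlinarith
    refine ⟨η, hη, fun a haa hab => ?_⟩
    rw [Real.dist_eq] at hab
    rw [dist_eq_norm]
    rcases lt_trichotomy a b with h2 | h2 | h2
    · rw [norm_sub_rev]
      refine key a b haa hbb h2 ?_
      rw [abs_of_neg (by linarith)] at hab
      linarith
    · rw [h2, sub_self, norm_zero]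
      exact hε
    · refine key b a hbb haa h2 ?_
      rw [abs_of_pos (by linarith)] at hab
      linarith
  have hii : ∀ (x : X) (a b : ℝ), 0 ≤ a → a ≤ δ → 0 ≤ b → b ≤ δ →
      IntervalIntegrable (fun t => S t x) MeasureTheory.volume a b := by
    intro x a b ha0 ha1 hb0 hb1
    refine ContinuousOn.intervalIntegrable ((hcont x).mono ?_)
    intro t ht
    rw [Set.mem_uIcc] at ht
    rw [Set.mem_Icc]
    rcases ht with ht | ht <;> constructor <;> linarith [ht.1, ht.2]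
  have hbd : ∀ (x : X) (a b : ℝ), 0 ≤ a → a ≤ b → b ≤ δ →
      ‖∫ t in a..b, S t x‖ ≤ M * ‖x‖ * (b - a) := by
    intro x a b ha hab hbδ
    have h1 := intervalIntegral.norm_integral_le_of_norm_le_const (a := a) (b := b)
      (f := fun t => S t x) (C := M * ‖x‖) (fun t ht => by
        rw [Set.uIoc_of_le hab, Set.mem_Ioc] at ht
        exact ((S t).le_opNorm x).trans (mul_le_mul_of_nonneg_right
          (hb t (by linarith) (by linarith)) (norm_nonneg x)))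
    rwa [abs_of_nonneg (by linarith)] at h1
  have hmain : ∀ r : ℝ, 0 < r → r ≤ δ / 2 → ∃ C : X →L[𝕜] X, ∀ x, C x =
      (r⁻¹ : ℝ) • ∫ t in (0 : ℝ)..r, S t x := by
    intro r hr hr2
    let L : X →ₗ[𝕜] X :=
      { toFun := fun x => (r⁻¹ : ℝ) • ∫ t in (0 : ℝ)..r, S t x
        map_add' := by
          intro x y
          have h1 : (∫ t in (0 : ℝ)..r, S t (x + y)) =
              (∫ t in (0 : ℝ)..r, S t x) + ∫ t in (0 : ℝ)..r, S t y := by
            rw [← intervalIntegral.integral_add (hii x 0 r le_rfl (by linarith) hr.le (by linarith))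
              (hii y 0 r le_rfl (by linarith) hr.le (by linarith))]
            simp only [map_add]
          rw [h1, smul_add]
        map_smul' := by
          intro c x
          have h1 : (∫ t in (0 : ℝ)..r, S t (c • x)) = c • ∫ t in (0 : ℝ)..r, S t x := by
            rw [← intervalIntegral.integral_smul]
            simp only [map_smul]
          rw [h1, RingHom.id_apply, smul_comm] }
    refine ⟨L.mkContinuous M ?_, fun x => rfl⟩
    intro x
    show ‖(r⁻¹ : ℝ) • ∫ t in (0 : ℝ)..r, S t x‖ ≤ M * ‖x‖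
    rw [norm_smul, Real.norm_of_nonneg (by positivity)]
    calc r⁻¹ * ‖∫ t in (0 : ℝ)..r, S t x‖ ≤ r⁻¹ * (M * ‖x‖ * (r - 0)) :=
          mul_le_mul_of_nonneg_left (hbd x 0 r le_rfl hr.le (by linarith)) (by positivity)
      _ = M * ‖x‖ := by
          field_simp
          ring
  classical
  have hall : ∀ r : ℝ, ∃ C : X →L[𝕜] X, (0 < r ∧ r ≤ δ / 2) → ∀ x, C x =
      (r⁻¹ : ℝ) • ∫ t in (0 : ℝ)..r, S t x := by
    intro r
    by_cases h : 0 < r ∧ r ≤ δ / 2
    · obtain ⟨C, hC⟩ := hmain r h.1 h.2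
      exact ⟨C, fun _ => hC⟩
    · exact ⟨0, fun h' => absurd h' h⟩
  choose C hC using hall
  refine ⟨C, ?_, ?_, ?_⟩
  · intro r hr hr2
    refine ContinuousLinearMap.opNorm_le_bound _ hM fun x => ?_
    rw [hC r ⟨hr, hr2⟩, norm_smul, Real.norm_of_nonneg (by positivity)]
    calc r⁻¹ * ‖∫ t in (0 : ℝ)..r, S t x‖ ≤ r⁻¹ * (M * ‖x‖ * (r - 0)) :=
          mul_le_mul_of_nonneg_left (hbd x 0 r le_rfl hr.le (by linarith)) (by positivity)
      _ = M * ‖x‖ := by
          field_simp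
          ring
  · intro r s hr hr2 hs hs2
    refine ContinuousLinearMap.opNorm_le_bound _ (by positivity) fun x => ?_
    have h1 : S s (∫ t in (0 : ℝ)..r, S t x) = ∫ t in s..(r + s), S t x := by
      rw [← ContinuousLinearMap.intervalIntegral_comp_comm (S s)
        (hii x 0 r le_rfl (by linarith) hr.le (by linarith))]
      have h2 : ∫ t in (0 : ℝ)..r, S s (S t x) = ∫ t in (0 : ℝ)..r, S (s + t) x := by
        refine intervalIntegral.integral_congr fun t ht => ?_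
        rw [Set.uIcc_of_le hr.le, Set.mem_Icc] at ht
        show S s (S t x) = S (s + t) x
        rw [hadd s t hs.le ht.1]
        rfl
      rw [h2, intervalIntegral.integral_comp_add_left (fun t => S t x) s, add_zero, add_comm s r]
    have h3 : ((S s - 1) * C r) x = (r⁻¹ : ℝ) •
        ((∫ t in r..(r + s), S t x) - ∫ t in (0 : ℝ)..s, S t x) := by
      have h4 : ((S s - 1) * C r) x = S s (C r x) - C r x := rfl
      rw [h4, hC r ⟨hr, hr2⟩]
      have h5 : S s ((r⁻¹ : ℝ) • ∫ t in (0 : ℝ)..r, S t x) =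
          (r⁻¹ : ℝ) • S s (∫ t in (0 : ℝ)..r, S t x) := by
        rw [RCLike.real_smul_eq_coe_smul (K := 𝕜), map_smul, ← RCLike.real_smul_eq_coe_smul]
      rw [h5, h1, ← smul_sub, intervalIntegral.integral_interval_sub_interval_comm'
        (hii x s (r + s) hs.le (by linarith) (by linarith) (by linarith))
        (hii x 0 r le_rfl (by linarith) hr.le (by linarith))
        (hii x s 0 hs.le (by linarith) le_rfl (by linarith))]
    rw [h3, norm_smul, Real.norm_of_nonneg (by positivity)]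
    have h6 := hbd x r (r + s) hr.le (by linarith) (by linarith)
    have h7 := hbd x 0 s le_rfl hs.le (by linarith)
    have h8 : ‖(∫ t in r..(r + s), S t x) - ∫ t in (0 : ℝ)..s, S t x‖ ≤ 2 * M * ‖x‖ * s := by
      refine (norm_sub_le _ _).trans ?_
      have e1 : M * ‖x‖ * (r + s - r) = M * ‖x‖ * s := by ring
      have e2 : M * ‖x‖ * (s - 0) = M * ‖x‖ * s := by ring
      rw [e1] at h6
      rw [e2] at h7
      linarith
    calc r⁻¹ * ‖(∫ t in r..(r + s), S t x) - ∫ t in (0 : ℝ)..s, S t x‖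
        ≤ r⁻¹ * (2 * M * ‖x‖ * s) := mul_le_mul_of_nonneg_left h8 (by positivity)
      _ = 2 * M / r * s * ‖x‖ := by ring
  · intro x ε hε
    obtain ⟨η, hη, h1⟩ := hnear x ε hε
    refine ⟨min η (δ / 2), lt_min hη (by positivity), fun r hr hr2 => ?_⟩
    have hr3 : r ≤ δ / 2 := hr2.trans (min_le_right _ _)
    rw [hC r ⟨hr, hr3⟩]
    have h2 : (r⁻¹ : ℝ) • (∫ t in (0 : ℝ)..r, S t x) - x =
        (r⁻¹ : ℝ) • ∫ t in (0 : ℝ)..r, (S t x - x) := by
      rw [intervalIntegral.integral_sub (hii x 0 r le_rfl (by linarith) hr.le (by linarith))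
        intervalIntegrable_const, intervalIntegral.integral_const, smul_sub, sub_zero, smul_smul,
        inv_mul_cancel₀ hr.ne', one_smul]
    rw [h2, norm_smul, Real.norm_of_nonneg (by positivity)]
    have h3 := intervalIntegral.norm_integral_le_of_norm_le_const (a := 0) (b := r)
      (f := fun t => S t x - x) (C := ε) (fun t ht => by
        rw [Set.uIoc_of_le hr.le, Set.mem_Ioc] at ht
        exact h1 t ht.1 (ht.2.trans (hr2.trans (min_le_left _ _))))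
    rw [sub_zero, abs_of_pos hr] at h3
    calc r⁻¹ * ‖∫ t in (0 : ℝ)..r, (S t x - x)‖ ≤ r⁻¹ * (ε * r) :=
          mul_le_mul_of_nonneg_left h3 (by positivity)
      _ = ε := by field_simp

theorem semigroup_norm_continuous {𝕜 : Type*} [RCLike 𝕜] {X : Type*} [NormedAddCommGroup X]
    [NormedSpace 𝕜 X] [CompleteSpace X] (h : AllAttain 𝕜 X) (S : ℝ → (X →L[𝕜] X))
    (h0 : S 0 = 1) (hadd : ∀ s t, 0 ≤ s → 0 ≤ t → S (s + t) = S s * S t)
    (hc : ∀ x, Tendsto (fun t => S t x) (𝓝[>] 0) (𝓝 x)) :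
    Tendsto S (𝓝[>] 0) (𝓝 1) := by
  obtain ⟨δ, M, hδ, hM, hb⟩ := sg_bdd S h0 hc
  obtain ⟨C, hC1, hC2, hC3⟩ := sg_core S hadd hc δ M hδ hM hb
  obtain ⟨r, hr⟩ : ∃ r : ℕ → ℝ, ∀ n, r n = δ / 2 * (1 / ((n : ℝ) + 1)) := ⟨_, fun n => rfl⟩
  have hr0 : ∀ n, 0 < r n := fun n => by
    rw [hr]
    positivity
  have hr1 : ∀ n, r n ≤ δ / 2 := fun n => by
    rw [hr]
    have h1 : 1 / ((n : ℝ) + 1) ≤ 1 := by
      rw [div_le_one (by positivity)]
      have : (0 : ℝ) ≤ n := Nat.cast_nonneg n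
      linarith
    calc δ / 2 * (1 / ((n : ℝ) + 1)) ≤ δ / 2 * 1 := mul_le_mul_of_nonneg_left h1 (by positivity)
      _ = δ / 2 := mul_one _
  have hrt : Tendsto r atTop (𝓝 0) := by
    have h1 : Tendsto (fun n : ℕ => δ / 2 * (1 / ((n : ℝ) + 1))) atTop (𝓝 (δ / 2 * 0)) :=
      tendsto_one_div_add_atTop_nhds_zero_nat.const_mul _
    rw [mul_zero] at h1
    exact h1.congr fun n => (hr n).symm
  have hx : ∀ x, Tendsto (fun n => C (r n) x) atTop (𝓝 x) := by
    intro x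
    rw [Metric.tendsto_atTop]
    intro ε hε
    obtain ⟨η, hη, h1⟩ := hC3 x (ε / 2) (by positivity)
    obtain ⟨N, hN⟩ := (Metric.tendsto_atTop.1 hrt) η hη
    refine ⟨N, fun n hn => ?_⟩
    have h2 := hN n hn
    rw [Real.dist_eq, sub_zero, abs_of_pos (hr0 n)] at h2
    have h3 := h1 (r n) (hr0 n) h2.le
    rw [dist_eq_norm]
    linarith
  obtain ⟨F, w, -, hw0, hw1, hD⟩ := mazur_wot h (fun n => C (r n)) 1 M
    (fun n => hC1 _ (hr0 n) (hr1 n)) (fun x f => (f.continuous.tendsto x).comp (hx x))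
    (1 / 2) (by norm_num) 0
  have hkey : ∀ s : ℝ, 0 < s → s ≤ δ / 2 →
      ‖S s - 1‖ ≤ 2 * (∑ n ∈ F, w n * (2 * M / r n)) * s := by
    intro s hs hs2
    have h1 : S s - 1 = (S s - 1) * (∑ n ∈ F, ((w n : ℝ) : 𝕜) • C (r n)) -
        (S s - 1) * ((∑ n ∈ F, ((w n : ℝ) : 𝕜) • C (r n)) - 1) := by
      rw [mul_sub, mul_one, sub_sub_cancel]
    have h2 : ‖(S s - 1) * (∑ n ∈ F, ((w n : ℝ) : 𝕜) • C (r n))‖ ≤
        (∑ n ∈ F, w n * (2 * M / r n)) * s := by
      rw [Finset.mul_sum, Finset.sum_mul]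
      refine (norm_sum_le _ _).trans (Finset.sum_le_sum fun n _ => ?_)
      rw [mul_smul_comm, norm_smul, RCLike.norm_ofReal, abs_of_nonneg (hw0 n), mul_assoc]
      exact mul_le_mul_of_nonneg_left (hC2 _ _ (hr0 n) (hr1 n) hs hs2) (hw0 n)
    have h3 : ‖(S s - 1) * ((∑ n ∈ F, ((w n : ℝ) : 𝕜) • C (r n)) - 1)‖ ≤ ‖S s - 1‖ * (1 / 2) :=
      (norm_mul_le _ _).trans (mul_le_mul_of_nonneg_left hD.le (norm_nonneg _))
    have h4 := norm_sub_le ((S s - 1) * (∑ n ∈ F, ((w n : ℝ) : 𝕜) • C (r n)))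
      ((S s - 1) * ((∑ n ∈ F, ((w n : ℝ) : 𝕜) • C (r n)) - 1))
    rw [← h1] at h4
    linarith
  rw [tendsto_iff_norm_sub_tendsto_zero]
  have hlim : Tendsto (fun s : ℝ => 2 * (∑ n ∈ F, w n * (2 * M / r n)) * s) (𝓝[>] 0) (𝓝 0) := by
    have h1 : Tendsto (fun s : ℝ => 2 * (∑ n ∈ F, w n * (2 * M / r n)) * s) (𝓝 0)
        (𝓝 (2 * (∑ n ∈ F, w n * (2 * M / r n)) * 0)) := tendsto_id.const_mul _
    rw [mul_zero] at h1
    exact h1.mono_left nhdsWithin_le_nhds
  refine squeeze_zero' (Eventually.of_forall fun s => norm_nonneg _) ?_ hlim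
  have h5 : ∀ᶠ s in 𝓝[>] (0 : ℝ), s ∈ Set.Ioc (0 : ℝ) (δ / 2) :=
    Ioc_mem_nhdsGT (by positivity)
  filter_upwards [h5] with s hs
  exact hkey s hs.1 hs.2

end Pool.H30.RG
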