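import Pool.Agent.H30.RG.FR

/-!
# [H30 RG UE] The map `U`

`e ≥ 0` in the Banach lattice `L`, `φ` a positive functional, `ρ` a function representation of the ideal
`ordIdeal e` for the functional `φ`, `i : X → L` bounded with `i x ∈ ordIdeal e` for a dense set of `x`.

PROOF.  `X0 = {x | i x ∈ ordIdeal e}` is a dense submodule of `X` (`Submodule.comap`). For `x ∈ X0` let
`U0 x ∈ L¹(μ)` be the class of the bounded measurable function `ρ (i x)` (bounded: `|i x| ≤ c e` gives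
`|ρ (i x) ω| = ρ |i x| ω ≤ c`, because `ρ` is monotone: `w ≥ 0` gives `ρ w = ρ |w| = |ρ w| ≥ 0`). `U0` is linear and
`‖U0 x‖ = ∫ |ρ (i x)| = ∫ ρ |i x| = φ |i x| ≤ ‖φ‖ ‖|i x|‖ ≤ ‖φ‖ ‖i‖ ‖x‖`. Extend `U0` to `X` by density
(`ContinuousLinearMap.extend` along the subtype inclusion of `X0`, which is uniform inducing with dense
range; `L¹` is complete).
-/

namespace Pool.H30.RG

open MeasureTheory

section

variable {E : Type*} [AddCommGroup E] [Lattice E] [IsOrderedAddMonoid E] [Module ℝ E]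
  {e : E} {φ : E →ₗ[ℝ] ℝ} {Ω : Type*} [MeasurableSpace Ω] {μ : Measure Ω}
  {ρ : E →ₗ[ℝ] (Ω → ℝ)}

private theorem ue_pos (hρ : FRep e φ μ ρ) {w : E} (hw : 0 ≤ w) (ω : Ω) : 0 ≤ ρ w ω := by
  have h1 := hρ.abs w ω
  rw [abs_of_nonneg hw] at h1
  rw [h1]
  exact abs_nonneg _

private theorem ue_bdd (hρ : FRep e φ μ ρ) {z : E} {c : ℝ} (hc : |z| ≤ c • e) (ω : Ω) :
    |ρ z ω| ≤ c := by
  have h1 := ue_pos hρ (sub_nonneg.2 hc) ω
  rw [map_sub, map_smul, Pi.sub_apply, Pi.smul_apply, hρ.one, hρ.abs, smul_eq_mul, mul_one] at h1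
  linarith

private theorem ue_int (hρ : FRep e φ μ ρ) {z : E} {c : ℝ} (hc : |z| ≤ c • e) :
    Integrable (ρ z) μ := by
  have := hρ.fin
  exact Integrable.of_bound (hρ.meas z).aestronglyMeasurable c
    (Filter.Eventually.of_forall fun ω => by rw [Real.norm_eq_abs]; exact ue_bdd hρ hc ω)

end

theorem exists_U {L : Type*} [NormedAddCommGroup L] [Lattice L] [IsOrderedAddMonoid L]
    [HasSolidNorm L] [NormedSpace ℝ L] [PosSMulMono ℝ L] (e : L) (he : 0 ≤ e) (φ : L →L[ℝ] ℝ)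
    {Ω : Type*} [MeasurableSpace Ω] (μ : Measure Ω) (ρ : ordIdeal e →ₗ[ℝ] (Ω → ℝ))
    (hρ : FRep (unitOf e he) ((φ : L →ₗ[ℝ] ℝ) ∘ₗ (ordIdeal e).subtype) μ ρ)
    {X : Type*} [NormedAddCommGroup X] [NormedSpace ℝ X] (i : X →L[ℝ] L)
    (hd : Dense {x : X | i x ∈ ordIdeal e}) :
    ∃ U : X →L[ℝ] (Ω →₁[μ] ℝ), ∀ (x : X) (hx : i x ∈ ordIdeal e),
      (U x : Ω → ℝ) =ᵐ[μ] ρ ⟨i x, hx⟩ := by
  have hint : ∀ z : ordIdeal e, Integrable (ρ z) μ := by
    intro z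
    obtain ⟨c, hc⟩ := ordIdeal_unit e he z
    exact ue_int hρ hc
  let X0 : Submodule ℝ X := (ordIdeal e).comap (i : X →ₗ[ℝ] L)
  let U0 : X0 →ₗ[ℝ] (Ω →₁[μ] ℝ) :=
    { toFun := fun x => (hint ⟨i x, x.2⟩).toL1 _
      map_add' := by
        intro x y
        apply Lp.ext
        have h0 : (⟨i (x + y : X0), (x + y).2⟩ : ordIdeal e) = ⟨i x, x.2⟩ + ⟨i y, y.2⟩ := by
          apply Subtype.ext
          show i ((x : X) + y) = i x + i y
          exact map_add i _ _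
        filter_upwards [(hint ⟨i (x + y : X0), (x + y).2⟩).coeFn_toL1,
          (hint ⟨i x, x.2⟩).coeFn_toL1, (hint ⟨i y, y.2⟩).coeFn_toL1,
          Lp.coeFn_add ((hint ⟨i x, x.2⟩).toL1 _) ((hint ⟨i y, y.2⟩).toL1 _)] with ω h1 h2 h3 h4
        rw [h1, h4, Pi.add_apply, h2, h3, h0, map_add, Pi.add_apply]
      map_smul' := by
        intro r x
        apply Lp.ext
        have h0 : (⟨i (r • x : X0), (r • x).2⟩ : ordIdeal e) = r • ⟨i x, x.2⟩ := by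
          apply Subtype.ext
          show i (r • (x : X)) = r • i x
          exact map_smul i _ _
        filter_upwards [(hint ⟨i (r • x : X0), (r • x).2⟩).coeFn_toL1,
          (hint ⟨i x, x.2⟩).coeFn_toL1,
          Lp.coeFn_smul r ((hint ⟨i x, x.2⟩).toL1 _)] with ω h1 h2 h4
        rw [h1, RingHom.id_apply, h4, Pi.smul_apply, h2, h0, map_smul, Pi.smul_apply] }
  have hb : ∀ x : X0, ‖U0 x‖ ≤ (‖φ‖ * ‖i‖) * ‖X0.subtype x‖ := by
    intro x
    have h1 : ‖U0 x‖ = ∫ ω, ‖ρ ⟨i x, x.2⟩ ω‖ ∂μ := by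
      rw [L1.norm_eq_integral_norm]
      refine integral_congr_ae ?_
      filter_upwards [(hint ⟨i x, x.2⟩).coeFn_toL1] with ω h2
      show ‖(hint ⟨i x, x.2⟩).toL1 _ ω‖ = _
      rw [h2]
    have h2 : ∫ ω, ‖ρ ⟨i x, x.2⟩ ω‖ ∂μ = ∫ ω, ρ |(⟨i x, x.2⟩ : ordIdeal e)| ω ∂μ := by
      refine integral_congr_ae (Filter.Eventually.of_forall fun ω => ?_)
      show ‖ρ ⟨i x, x.2⟩ ω‖ = ρ |(⟨i x, x.2⟩ : ordIdeal e)| ω
      rw [hρ.abs, Real.norm_eq_abs]
    have h3 : ∫ ω, ρ |(⟨i x, x.2⟩ : ordIdeal e)| ω ∂μ = φ |i x| := by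
      rw [hρ.int]
      show φ ((|(⟨i x, x.2⟩ : ordIdeal e)| : ordIdeal e) : L) = φ |i x|
      rw [coe_abs_ordIdeal]
    rw [h1, h2, h3]
    have h4 : φ |i x| ≤ ‖φ‖ * ‖i x‖ := by
      refine (le_abs_self _).trans ?_
      have h5 := φ.le_opNorm |i x|
      rw [norm_abs_eq_norm] at h5
      exact h5
    refine h4.trans ?_
    rw [mul_assoc]
    exact mul_le_mul_of_nonneg_left (i.le_opNorm _) (norm_nonneg _)
  have hdr : DenseRange X0.subtype := by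
    have h1 : Set.range X0.subtype = {x : X | i x ∈ ordIdeal e} := by
      ext x
      constructor
      · rintro ⟨y, rfl⟩
        exact y.2
      · intro hx
        exact ⟨⟨x, hx⟩, rfl⟩
    show Dense (Set.range X0.subtype)
    rw [h1]
    exact hd
  refine ⟨U0.extendOfNorm X0.subtype, fun x hx => ?_⟩
  have h1 := LinearMap.extendOfNorm_eq (f := U0) (e := X0.subtype) hdr ⟨_, hb⟩ ⟨x, hx⟩
  have h2 : X0.subtype ⟨x, hx⟩ = x := rfl
  rw [h2] at h1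
  rw [h1]
  exact (hint ⟨i x, hx⟩).coeFn_toL1

end Pool.H30.RG
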