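import Pool.Agent.H30.RG.VN
import Pool.Agent.H30.RG.DU

/-!
# [H30 RG VE] The map `V`

PROOF.  Let `D0 = {f | ∃ c, ∀ z : L, |f (P z)| ≤ c φ |z|}`, a submodule of the dual of `X`, dense by
hypothesis. (1) For `f ∈ D0` there is a bounded measurable `g` with `∫ ρ z g dμ = f (P z)` for all `z` in the
ideal: the functional `ℓ (class of ρ z) = f (P z)` is well defined and bounded by `c` on the subspace
`{class of ρ z}` of `L¹(μ)`, because `|f (P z)| ≤ c φ |z| = c ∫ ρ |z| = c ∫ |ρ z|`; extend it to `L¹` by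
Hahn-Banach (`exists_extension_norm_eq`; subspace = range of the linear map `z ↦ class of ρ z`) and apply
`l1_dual`. (2) By `l1_bound` with the unit `z = e` (`ρ e = 1`) and `D = ‖f‖ ‖P‖`
(`∫ ρ z g = f (P z) ≤ ‖f‖ ‖P‖ ‖z‖`): `∫ |g| ≤ ‖f‖ ‖P‖ ‖e‖`. (3) Uniqueness: if an integrable `g` satisfies
`∫ ρ z g = 0` for all `z` then `∫ |g| = 0` by `l1_bound` with `D = 0`, `g = 0` a.e. So `V0 f = class of g` is a linear
map on `D0` with `‖V0 f‖ ≤ ‖P‖ ‖e‖ ‖f‖`; extend it to the whole dual by density (`ContinuousLinearMap.extend`).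
The identity `∫ ρ z V f = f (P z)` extends by continuity in `f` (`ρ z` is bounded).
-/

namespace Pool.H30.RG

open MeasureTheory

section

variable {E : Type*} [AddCommGroup E] [Lattice E] [IsOrderedAddMonoid E] [Module ℝ E]
  {e : E} {φ : E →ₗ[ℝ] ℝ} {Ω : Type*} [MeasurableSpace Ω] {μ : Measure Ω}
  {ρ : E →ₗ[ℝ] (Ω → ℝ)}

private theorem ve_pos (hρ : FRep e φ μ ρ) {w : E} (hw : 0 ≤ w) (ω : Ω) : 0 ≤ ρ w ω := by
  have h1 := hρ.abs w ω
  rw [abs_of_nonneg hw] at h1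
  rw [h1]
  exact abs_nonneg _

private theorem ve_bdd (hρ : FRep e φ μ ρ) {z : E} {c : ℝ} (hc : |z| ≤ c • e) (ω : Ω) :
    |ρ z ω| ≤ c := by
  have h1 := ve_pos hρ (sub_nonneg.2 hc) ω
  rw [map_sub, map_smul, Pi.sub_apply, Pi.smul_apply, hρ.one, hρ.abs, smul_eq_mul, mul_one] at h1
  linarith

private theorem ve_int (hρ : FRep e φ μ ρ) {z : E} {c : ℝ} (hc : |z| ≤ c • e) :
    Integrable (ρ z) μ := by
  have := hρ.fin
  exact Integrable.of_bound (hρ.meas z).aestronglyMeasurable c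
    (Filter.Eventually.of_forall fun ω => by rw [Real.norm_eq_abs]; exact ve_bdd hρ hc ω)

end

private theorem ve_ext {Y F : Type*} [NormedAddCommGroup Y] [NormedSpace ℝ Y]
    [NormedAddCommGroup F] [NormedSpace ℝ F] [CompleteSpace F] (D0 : Submodule ℝ Y)
    (hD : Dense (D0 : Set Y)) (V0 : D0 →ₗ[ℝ] F) (C : ℝ)
    (hb : ∀ f : D0, ‖V0 f‖ ≤ C * ‖(f : Y)‖) :
    ∃ V : Y →L[ℝ] F, ∀ f : D0, V f = V0 f := by
  have hdr : DenseRange D0.subtype := by
    have h1 : Set.range D0.subtype = (D0 : Set Y) := by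
      ext x
      constructor
      · rintro ⟨y, rfl⟩
        exact y.2
      · intro hx
        exact ⟨⟨x, hx⟩, rfl⟩
    show Dense (Set.range D0.subtype)
    rw [h1]
    exact hD
  exact ⟨V0.extendOfNorm D0.subtype, fun f =>
    LinearMap.extendOfNorm_eq (f := V0) (e := D0.subtype) hdr ⟨C, hb⟩ f⟩

theorem exists_V {L : Type*} [NormedAddCommGroup L] [Lattice L] [IsOrderedAddMonoid L]
    [HasSolidNorm L] [NormedSpace ℝ L] [PosSMulMono ℝ L] (e : L) (he : 0 ≤ e) (φ : L →L[ℝ] ℝ)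
    {Ω : Type*} [MeasurableSpace Ω] (μ : Measure Ω) (ρ : ordIdeal e →ₗ[ℝ] (Ω → ℝ))
    (hρ : FRep (unitOf e he) ((φ : L →ₗ[ℝ] ℝ) ∘ₗ (ordIdeal e).subtype) μ ρ)
    {X : Type*} [NormedAddCommGroup X] [NormedSpace ℝ X] (P : L →L[ℝ] X)
    (hd : Dense {f : X →L[ℝ] ℝ | ∃ c : ℝ, ∀ z : L, |f (P z)| ≤ c * φ |z|}) :
    ∃ V : (X →L[ℝ] ℝ) →L[ℝ] (Ω →₁[μ] ℝ), ∀ (f : X →L[ℝ] ℝ) (z : ordIdeal e),
      ∫ ω, ρ z ω * V f ω ∂μ = f (P z) := by
  have hfin := hρ.fin
  have hbd : ∀ z : ordIdeal e, ∃ c : ℝ, ∀ ω, |ρ z ω| ≤ c := by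
    intro z
    obtain ⟨c, hc⟩ := ordIdeal_unit e he z
    exact ⟨c, fun ω => ve_bdd hρ hc ω⟩
  have hint : ∀ z : ordIdeal e, Integrable (ρ z) μ := by
    intro z
    obtain ⟨c, hc⟩ := ordIdeal_unit e he z
    exact ve_int hρ hc
  have hmi : ∀ (z : ordIdeal e) (g : Ω → ℝ), Integrable g μ →
      Integrable (fun ω => ρ z ω * g ω) μ := by
    intro z g hg
    obtain ⟨c, hc⟩ := hbd z
    exact hg.bdd_mul (hρ.meas z).aestronglyMeasurable
      (Filter.Eventually.of_forall fun ω => by rw [Real.norm_eq_abs]; exact hc ω)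
  -- classes of the representing functions
  let κ : ordIdeal e →ₗ[ℝ] (Ω →₁[μ] ℝ) :=
    { toFun := fun z => (hint z).toL1 _
      map_add' := by
        intro x y
        apply Lp.ext
        filter_upwards [(hint (x + y)).coeFn_toL1, (hint x).coeFn_toL1, (hint y).coeFn_toL1,
          Lp.coeFn_add ((hint x).toL1 _) ((hint y).toL1 _)] with ω h1 h2 h3 h4
        rw [h1, h4, Pi.add_apply, h2, h3, map_add, Pi.add_apply]
      map_smul' := by
        intro r x
        apply Lp.ext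
        filter_upwards [(hint (r • x)).coeFn_toL1, (hint x).coeFn_toL1,
          Lp.coeFn_smul r ((hint x).toL1 _)] with ω h1 h2 h4
        rw [h1, RingHom.id_apply, h4, Pi.smul_apply, h2, map_smul, Pi.smul_apply] }
  have hκ : ∀ z, (κ z : Ω → ℝ) =ᵐ[μ] ρ z := fun z => (hint z).coeFn_toL1
  have hκn : ∀ z, ‖κ z‖ = φ |(z : L)| := by
    intro z
    rw [L1.norm_eq_integral_norm]
    have h2 : ∫ ω, ‖κ z ω‖ ∂μ = ∫ ω, ρ |z| ω ∂μ := by
      refine integral_congr_ae ?_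
      filter_upwards [hκ z] with ω h1
      rw [h1, hρ.abs, Real.norm_eq_abs]
    rw [h2, hρ.int]
    show φ ((|z| : ordIdeal e) : L) = φ |(z : L)|
    rw [coe_abs_ordIdeal]
  -- the dense subspace
  let D0 : Submodule ℝ (X →L[ℝ] ℝ) :=
    { carrier := {f | ∃ c : ℝ, ∀ z : L, |f (P z)| ≤ c * φ |z|}
      add_mem' := by
        rintro f g ⟨a, ha⟩ ⟨b, hb⟩
        refine ⟨a + b, fun z => ?_⟩
        rw [ContinuousLinearMap.add_apply, add_mul]
        exact (abs_add_le _ _).trans (add_le_add (ha z) (hb z))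
      zero_mem' := ⟨0, fun z => by simp⟩
      smul_mem' := by
        rintro r f ⟨a, ha⟩
        refine ⟨|r| * a, fun z => ?_⟩
        rw [ContinuousLinearMap.smul_apply, smul_eq_mul, abs_mul, mul_assoc]
        exact mul_le_mul_of_nonneg_left (ha z) (abs_nonneg r) }
  -- existence on the dense subspace
  have hexist : ∀ f : D0, ∃ g : Ω → ℝ, Integrable g μ ∧
      ∀ z : ordIdeal e, ∫ ω, ρ z ω * g ω ∂μ = (f : X →L[ℝ] ℝ) (P z) := by
    rintro ⟨f, c, hc⟩
    have hker : ∀ z : ordIdeal e, κ z = 0 → f (P z) = 0 := by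
      intro z hz
      have h1 := hc z
      rw [← hκn, hz, norm_zero, mul_zero] at h1
      exact abs_nonpos_iff.1 h1
    let F : ordIdeal e →ₗ[ℝ] ℝ := (f : X →ₗ[ℝ] ℝ) ∘ₗ (P : L →ₗ[ℝ] X) ∘ₗ (ordIdeal e).subtype
    have hF : ∀ z, F z = f (P z) := fun z => rfl
    have hle : LinearMap.ker κ ≤ LinearMap.ker F := by
      intro z hz
      rw [LinearMap.mem_ker] at hz ⊢
      exact hker z hz
    -- the functional on the range
    let ℓ0 : LinearMap.range κ →ₗ[ℝ] ℝ :=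
      ((LinearMap.ker κ).liftQ F hle) ∘ₗ
        (κ.quotKerEquivRange.symm : LinearMap.range κ →ₗ[ℝ] (ordIdeal e ⧸ LinearMap.ker κ))
    have hℓ0 : ∀ z : ordIdeal e, ℓ0 ⟨κ z, z, rfl⟩ = f (P z) := by
      intro z
      have h1 : κ.quotKerEquivRange ((LinearMap.ker κ).mkQ z) = ⟨κ z, z, rfl⟩ := rfl
      show ((LinearMap.ker κ).liftQ F hle) (κ.quotKerEquivRange.symm ⟨κ z, z, rfl⟩) = f (P z)
      rw [← h1, LinearEquiv.symm_apply_apply]
      rfl
    have hb0 : ∀ y : LinearMap.range κ, ‖ℓ0 y‖ ≤ c * ‖y‖ := by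
      rintro ⟨_, z, rfl⟩
      rw [hℓ0]
      have h1 := hc z
      rw [← hκn] at h1
      exact h1
    obtain ⟨γ, hγ, -⟩ := exists_extension_norm_eq _ (ℓ0.mkContinuous _ hb0)
    obtain ⟨g, hgm, hgb, hg⟩ := l1_dual μ γ
    refine ⟨g, Integrable.of_bound hgm.aestronglyMeasurable ‖γ‖
      (Filter.Eventually.of_forall fun ω => by rw [Real.norm_eq_abs]; exact hgb ω), fun z => ?_⟩
    have h1 : γ (κ z) = f (P z) := by
      have h2 := hγ ⟨κ z, z, rfl⟩
      have h3 : ℓ0.mkContinuous c hb0 ⟨κ z, z, rfl⟩ = ℓ0 ⟨κ z, z, rfl⟩ := rfl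
      rw [h3, hℓ0] at h2
      exact h2
    rw [← h1, hg]
    refine integral_congr_ae ?_
    filter_upwards [hκ z] with ω h2
    rw [h2, mul_comm]
  -- the bound
  have hbound : ∀ (f : X →L[ℝ] ℝ) (g : Ω → ℝ), Integrable g μ →
      (∀ z : ordIdeal e, ∫ ω, ρ z ω * g ω ∂μ = f (P z)) →
      ∫ ω, |g ω| ∂μ ≤ (‖P‖ * ‖e‖) * ‖f‖ := by
    intro f g hg h
    have h1 := l1_bound e he φ μ ρ hρ g hg (‖f‖ * ‖P‖) (by positivity) (by
      intro z
      rw [h z]
      refine (le_abs_self _).trans ((f.le_opNorm _).trans ?_)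
      rw [mul_assoc]
      exact mul_le_mul_of_nonneg_left (P.le_opNorm _) (norm_nonneg _)) (unitOf e he)
    have h2 : ∫ ω, |ρ (unitOf e he) ω * g ω| ∂μ = ∫ ω, |g ω| ∂μ := by
      refine integral_congr_ae (Filter.Eventually.of_forall fun ω => ?_)
      show |ρ (unitOf e he) ω * g ω| = |g ω|
      rw [hρ.one, one_mul]
    rw [h2] at h1
    have h3 : ((unitOf e he : ordIdeal e) : L) = e := rfl
    rw [h3] at h1
    calc ∫ ω, |g ω| ∂μ ≤ ‖f‖ * ‖P‖ * ‖e‖ := h1
      _ = (‖P‖ * ‖e‖) * ‖f‖ := by ring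
  have huniq : ∀ (g h : Ω →₁[μ] ℝ),
      (∀ z : ordIdeal e, ∫ ω, ρ z ω * g ω ∂μ = ∫ ω, ρ z ω * h ω ∂μ) → g = h := by
    intro g h hgh
    have hi : Integrable (fun ω => g ω - h ω) μ :=
      (L1.integrable_coeFn g).sub (L1.integrable_coeFn h)
    have h1 := hbound 0 (fun ω => g ω - h ω) hi (by
      intro z
      have h2 : ∫ ω, ρ z ω * (g ω - h ω) ∂μ =
          ∫ ω, ρ z ω * g ω ∂μ - ∫ ω, ρ z ω * h ω ∂μ := by
        rw [← integral_sub (hmi z _ (L1.integrable_coeFn g)) (hmi z _ (L1.integrable_coeFn h))]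
        refine integral_congr_ae (Filter.Eventually.of_forall fun ω => ?_)
        show ρ z ω * (g ω - h ω) = ρ z ω * g ω - ρ z ω * h ω
        ring
      rw [h2, hgh z, sub_self]
      rfl)
    rw [norm_zero, mul_zero] at h1
    have h2 : ∫ ω, |g ω - h ω| ∂μ = 0 :=
      le_antisymm h1 (integral_nonneg fun ω => abs_nonneg _)
    have h3 := (integral_eq_zero_iff_of_nonneg (fun ω => abs_nonneg _) hi.abs).1 h2
    apply Lp.ext
    filter_upwards [h3] with ω h4
    have h5 : |g ω - h ω| = 0 := h4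
    exact sub_eq_zero.1 (abs_eq_zero.1 h5)
  choose G hGi hG using hexist
  have hGc : ∀ (f : D0) (z : ordIdeal e),
      ∫ ω, ρ z ω * (hGi f).toL1 (G f) ω ∂μ = (f : X →L[ℝ] ℝ) (P z) := by
    intro f z
    rw [← hG f z]
    refine integral_congr_ae ?_
    filter_upwards [(hGi f).coeFn_toL1] with ω h1
    rw [h1]
  let V0 : D0 →ₗ[ℝ] (Ω →₁[μ] ℝ) :=
    { toFun := fun f => (hGi f).toL1 (G f)
      map_add' := by
        intro f g
        apply huniq
        intro z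
        have h1 : ∫ ω, ρ z ω * ((hGi f).toL1 (G f) + (hGi g).toL1 (G g) : Ω →₁[μ] ℝ) ω ∂μ =
            ∫ ω, ρ z ω * (hGi f).toL1 (G f) ω ∂μ + ∫ ω, ρ z ω * (hGi g).toL1 (G g) ω ∂μ := by
          rw [← integral_add (hmi z _ (L1.integrable_coeFn _)) (hmi z _ (L1.integrable_coeFn _))]
          refine integral_congr_ae ?_
          filter_upwards [Lp.coeFn_add ((hGi f).toL1 (G f)) ((hGi g).toL1 (G g))] with ω h2
          rw [h2, Pi.add_apply]
          ring
        rw [h1, hGc, hGc, hGc]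
        rfl
      map_smul' := by
        intro r f
        apply huniq
        intro z
        have h1 : ∫ ω, ρ z ω * (r • (hGi f).toL1 (G f) : Ω →₁[μ] ℝ) ω ∂μ =
            r * ∫ ω, ρ z ω * (hGi f).toL1 (G f) ω ∂μ := by
          rw [← integral_const_mul]
          refine integral_congr_ae ?_
          filter_upwards [Lp.coeFn_smul r ((hGi f).toL1 (G f))] with ω h2
          rw [h2, Pi.smul_apply, smul_eq_mul]
          ring
        rw [RingHom.id_apply, h1, hGc, hGc]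
        rfl }
  have hb : ∀ f : D0, ‖V0 f‖ ≤ (‖P‖ * ‖e‖) * ‖(f : X →L[ℝ] ℝ)‖ := by
    intro f
    have h1 : ‖V0 f‖ = ∫ ω, |G f ω| ∂μ := by
      rw [L1.norm_eq_integral_norm]
      refine integral_congr_ae ?_
      filter_upwards [(hGi f).coeFn_toL1] with ω h2
      show ‖(hGi f).toL1 (G f) ω‖ = _
      rw [h2, Real.norm_eq_abs]
    rw [h1]
    exact hbound f (G f) (hGi f) (hG f)
  obtain ⟨V, hV⟩ := ve_ext D0 hd V0 _ hb
  refine ⟨V, fun f z => ?_⟩
  obtain ⟨c, hc⟩ := hbd z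
  have hcont : Continuous fun h : Ω →₁[μ] ℝ => ∫ ω, ρ z ω * h ω ∂μ := by
    let M : (Ω →₁[μ] ℝ) →ₗ[ℝ] ℝ :=
      { toFun := fun h => ∫ ω, ρ z ω * h ω ∂μ
        map_add' := by
          intro h k
          rw [← integral_add (hmi z _ (L1.integrable_coeFn _)) (hmi z _ (L1.integrable_coeFn _))]
          refine integral_congr_ae ?_
          filter_upwards [Lp.coeFn_add h k] with ω h2
          rw [h2, Pi.add_apply]
          ring
        map_smul' := by
          intro r h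
          rw [RingHom.id_apply, smul_eq_mul, ← integral_const_mul]
          refine integral_congr_ae ?_
          filter_upwards [Lp.coeFn_smul r h] with ω h2
          rw [h2, Pi.smul_apply, smul_eq_mul]
          ring }
    have hM : ∀ h, ‖M h‖ ≤ c * ‖h‖ := by
      intro h
      show ‖∫ ω, ρ z ω * h ω ∂μ‖ ≤ c * ‖h‖
      rw [L1.norm_eq_integral_norm, ← integral_const_mul]
      refine norm_integral_le_of_norm_le ((L1.integrable_coeFn h).norm.const_mul c) ?_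
      refine Filter.Eventually.of_forall fun ω => ?_
      show ‖ρ z ω * h ω‖ ≤ c * ‖h ω‖
      rw [norm_mul]
      exact mul_le_mul_of_nonneg_right (by rw [Real.norm_eq_abs]; exact hc ω) (norm_nonneg _)
    exact (M.mkContinuous c hM).continuous
  have hclosed : IsClosed {f : X →L[ℝ] ℝ | ∫ ω, ρ z ω * V f ω ∂μ = f (P z)} :=
    isClosed_eq (hcont.comp V.continuous) (ContinuousLinearMap.apply ℝ ℝ (P z)).continuous
  refine hd.induction (P := fun f => ∫ ω, ρ z ω * V f ω ∂μ = f (P z)) ?_ hclosed f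
  intro f0 hf0
  have h1 := hV ⟨f0, hf0⟩
  have h2 : V f0 = V0 ⟨f0, hf0⟩ := h1
  rw [h2]
  exact hGc ⟨f0, hf0⟩ z

end Pool.H30.RG
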