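import Pool.Agent.H30.RG.TB
import Pool.Agent.H30.RG.PS
import Pool.Agent.H30.RG.SG
import Pool.Agent.H30.RG.EX
import Pool.Agent.H30.RG.UE
import Pool.Agent.H30.RG.VE
import Pool.Agent.H30.RG.PB

/-!
# H30/RG/Fin: complemented subspaces of Banach lattices
-/

namespace Pool.H30.RG

open MeasureTheory

/-- If every operator on the separable space `X` attains its norm and `X` is isomorphic to a
complemented subspace of a Banach lattice, then `X` is finite dimensional. -/
theorem finite_of_lattice {X : Type*} [NormedAddCommGroup X] [NormedSpace ℝ X] [CompleteSpace X]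
    [TopologicalSpace.SeparableSpace X] (h : AllAttain ℝ X) {L : Type*} [NormedAddCommGroup L]
    [Lattice L] [IsOrderedAddMonoid L] [HasSolidNorm L] [NormedSpace ℝ L] [PosSMulMono ℝ L]
    [CompleteSpace L] (i : X →L[ℝ] L) (P : L →L[ℝ] X) (hPi : ∀ x, P (i x) = x) :
    FiniteDimensional ℝ X := by
  have hr := reflexive_of_allAttain h
  haveI := Pool.H30.PM.dual_separable (𝕜 := ℝ) (X := X) hr
  obtain ⟨e, he, hde⟩ := exists_unit i
  obtain ⟨φ, hφ, hdφ⟩ := exists_phi P
  obtain ⟨Ω, mΩ, μ, ρ, hρ⟩ := function_representation (unitOf e he)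
    (show (0 : ordIdeal e) ≤ unitOf e he from he) (ordIdeal_unit e he) (ordIdeal_arch e he)
    ((φ : L →ₗ[ℝ] ℝ) ∘ₗ (ordIdeal e).subtype) (fun z hz => hφ _ hz)
  haveI := hρ.fin
  obtain ⟨U, hU⟩ := exists_U e he φ μ ρ hρ i hde
  obtain ⟨V, hV⟩ := exists_V e he φ μ ρ hρ P hdφ
  exact finite_of_rep h μ U V _ (pairing e he φ μ ρ hρ i P hPi hde U hU V hV)

end Pool.H30.RG
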