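import Pool.Agent.H30.RG.GR
import Pool.Agent.H30.RG.Basic

/-!
# [H30 RG GF] Grothendieck's inequality for bilinear forms on bounded measurable functions

PROOF.  If `Ω` is empty then `BM Ω` is trivial and both sides are fine (`g k = 0`). Let `η > 0`. The map
`G = (g 0, ..., g (n-1)) : Ω → ℝ^n` is measurable with values in the closed unit ball. Partition the cube
`[-1,1]^n` in finitely many half-open boxes of side `≤ η`; this gives a finite measurable partition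
`(D i)` of `Ω` into nonempty sets with points `p i ∈ D i` and `|g k ω - g k (p i)| ≤ η` for `ω ∈ D i`
(for instance: `D` = fibres of the map `ω ↦ (k ↦ ⌊g k ω / η⌋)`, which has finite range, `Set.Finite`); the
same for `h` with points `q j`, sets `F j`. Let `g' k = ∑_i g k (p i) 1_{D i}`, `h' k = ∑_j h k (q j) 1_{F j}`, in
`BM Ω`; `|g k - g' k| ≤ η`, so `|β (g k) (h k) - β (g' k) (h' k)| ≤ A (η * 1 + (1) η)`, hence it is enough to bound
`|∑_k β (g' k) (h' k)|` by `100 A` and let `η → 0`. With `a i j = β 1_{D i} 1_{F j}`: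
`∑_k β (g' k) (h' k) = ∑_{ij} a i j ∑_k g k (p i) h k (q j)`, `∑_k (g k (p i))^2 ≤ 1`, and the hypothesis of
`grothendieck`: for `|s i|, |t j| ≤ 1`: `∑ a i j s i t j = β (∑ s i 1_{D i}) (∑ t j 1_{F j})`, both functions bounded by
`1` because the sets are disjoint.
-/

namespace Pool.H30.RG

private theorem gf_part {Ω : Type*} [MeasurableSpace Ω] {κ : Type} [Fintype κ] (f : κ → BM Ω)
    (hf : ∀ k ω, |(f k : Ω → ℝ) ω| ≤ 1) {η : ℝ} (hη : 0 < η) :
    ∃ (I : Type) (_ : Fintype I) (E : I → BM Ω) (p : I → Ω),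
      (∀ i ω, 0 ≤ (E i : Ω → ℝ) ω) ∧ (∀ ω, ∑ i, (E i : Ω → ℝ) ω = 1) ∧
      ∀ i ω, (E i : Ω → ℝ) ω ≠ 0 → ∀ k, |(f k : Ω → ℝ) ω - (f k : Ω → ℝ) (p i)| ≤ η := by
  classical
  obtain ⟨G, hG⟩ : ∃ G : Ω → κ → ℤ, G = fun ω k => ⌊(f k : Ω → ℝ) ω / η⌋ := ⟨_, rfl⟩
  have hGk : ∀ ω k, G ω k = ⌊(f k : Ω → ℝ) ω / η⌋ := by
    intro ω k
    rw [hG]
  have hGm : Measurable G := by
    rw [hG]
    exact measurable_pi_iff.2 fun k => ((f k).2.1.div_const η).floor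
  have hfin : (Set.range G).Finite := by
    refine Set.Finite.subset (Set.Finite.pi' fun _ : κ => Set.finite_Icc ⌊-1 / η⌋ ⌊1 / η⌋) ?_
    rintro _ ⟨ω, rfl⟩
    intro k
    rw [hG]
    have h1 := abs_le.1 (hf k ω)
    exact ⟨Int.floor_le_floor (div_le_div_of_nonneg_right h1.1 hη.le),
      Int.floor_le_floor (div_le_div_of_nonneg_right h1.2 hη.le)⟩
  refine ⟨Set.range G, hfin.fintype, fun v => ⟨fun ω => if G ω = v then 1 else 0,
    Measurable.ite (hGm (measurableSet_singleton (v : κ → ℤ))) measurable_const measurable_const,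
    1, fun ω => by
      show |if G ω = v then (1 : ℝ) else 0| ≤ 1
      split_ifs <;> simp⟩, fun v => v.2.choose, ?_, ?_, ?_⟩
  · intro v ω
    show (0 : ℝ) ≤ if G ω = v then 1 else 0
    split_ifs
    · exact zero_le_one
    · exact le_rfl
  · intro ω
    let _ := hfin.fintype
    show ∑ v : Set.range G, (if G ω = v then (1 : ℝ) else 0) = 1
    rw [Finset.sum_eq_single (⟨G ω, ω, rfl⟩ : Set.range G)]
    · rw [if_pos rfl]
    · intro v _ hv
      rw [if_neg]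
      intro h
      exact hv (Subtype.ext h.symm)
    · intro h
      exact absurd (Finset.mem_univ _) h
  · intro v ω hv k
    have h1 : G ω = v := by
      by_contra h
      exact hv (if_neg h)
    have h2 : G v.2.choose = v := v.2.choose_spec
    have h3 : ⌊(f k : Ω → ℝ) ω / η⌋ = ⌊(f k : Ω → ℝ) v.2.choose / η⌋ :=
      (hGk ω k).symm.trans ((congrFun (h1.trans h2.symm) k).trans (hGk _ k))
    have h5 := Int.abs_sub_lt_one_of_floor_eq_floor h3
    rw [← sub_div, abs_div, abs_of_pos hη, div_lt_one hη] at h5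
    exact h5.le

private theorem gf_sq {n : ℕ} (x : Fin n → ℝ) (h : ∑ k, x k ^ 2 ≤ 1) (k : Fin n) : |x k| ≤ 1 := by
  have h1 : x k ^ 2 ≤ 1 :=
    (Finset.single_le_sum (fun i _ => sq_nonneg (x i)) (Finset.mem_univ k)).trans h
  exact (sq_le_one_iff_abs_le_one _).1 h1

private theorem gf_coe {Ω : Type*} [MeasurableSpace Ω] {I : Type} [Fintype I] (E : I → BM Ω)
    (s : I → ℝ) (ω : Ω) : ((∑ i, s i • E i : BM Ω) : Ω → ℝ) ω = ∑ i, s i * (E i : Ω → ℝ) ω := by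
  rw [Submodule.coe_sum, Finset.sum_apply]
  rfl

private theorem gf_abs {Ω : Type*} [MeasurableSpace Ω] {I : Type} [Fintype I] (E : I → BM Ω)
    (hE0 : ∀ i ω, 0 ≤ (E i : Ω → ℝ) ω) (hE1 : ∀ ω, ∑ i, (E i : Ω → ℝ) ω = 1)
    (s : I → ℝ) (hs : ∀ i, |s i| ≤ 1) (ω : Ω) : |((∑ i, s i • E i : BM Ω) : Ω → ℝ) ω| ≤ 1 := by
  rw [gf_coe, ← hE1 ω]
  refine (Finset.abs_sum_le_sum_abs _ _).trans (Finset.sum_le_sum fun i _ => ?_)
  rw [abs_mul, abs_of_nonneg (hE0 i ω)]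
  exact mul_le_of_le_one_left (hE0 i ω) (hs i)

theorem groth_fun {Ω : Type*} [MeasurableSpace Ω] (β : BM Ω →ₗ[ℝ] BM Ω →ₗ[ℝ] ℝ) (A : ℝ)
    (hA : ∀ (g h : BM Ω) (a b : ℝ), 0 ≤ a → 0 ≤ b → (∀ ω, |(g : Ω → ℝ) ω| ≤ a) →
      (∀ ω, |(h : Ω → ℝ) ω| ≤ b) → |β g h| ≤ A * (a * b))
    (n : ℕ) (g h : Fin n → BM Ω) (hg : ∀ ω, ∑ k, (g k : Ω → ℝ) ω ^ 2 ≤ 1)
    (hh : ∀ ω, ∑ k, (h k : Ω → ℝ) ω ^ 2 ≤ 1) :
    |∑ k, β (g k) (h k)| ≤ 100 * A := by
  have hA0 : 0 ≤ A := by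
    have h1 := hA 0 0 1 1 zero_le_one zero_le_one (fun ω => by simp) (fun ω => by simp)
    rw [map_zero, abs_zero] at h1
    linarith
  refine le_of_forall_pos_le_add fun ε hε => ?_
  obtain ⟨η, hη⟩ : ∃ η : ℝ, η = ε / (2 * n * A + 1) := ⟨_, rfl⟩
  have hD : 0 < 2 * n * A + 1 := by positivity
  have hη0 : 0 < η := by
    rw [hη]
    positivity
  have hηε : n * (A * η + A * η) ≤ ε := by
    have h1 : η * (2 * n * A + 1) = ε := by
      rw [hη]
      field_simp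
    nlinarith
  have hg1 : ∀ k ω, |(g k : Ω → ℝ) ω| ≤ 1 := fun k ω => gf_sq _ (hg ω) k
  have hh1 : ∀ k ω, |(h k : Ω → ℝ) ω| ≤ 1 := fun k ω => gf_sq _ (hh ω) k
  obtain ⟨I, _, E, p, hE0, hE1, hE2⟩ := gf_part (κ := Fin n ⊕ Fin n) (Sum.elim g h) (by
    rintro (k | k) ω
    · exact hg1 k ω
    · exact hh1 k ω) hη0
  have hap : ∀ (f : BM Ω), (∀ i ω, (E i : Ω → ℝ) ω ≠ 0 →
      |(f : Ω → ℝ) ω - (f : Ω → ℝ) (p i)| ≤ η) →
      ∀ ω, |((f - ∑ i, (f : Ω → ℝ) (p i) • E i : BM Ω) : Ω → ℝ) ω| ≤ η := by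
    intro f hf ω
    have h1 : ((f - ∑ i, (f : Ω → ℝ) (p i) • E i : BM Ω) : Ω → ℝ) ω =
        ∑ i, ((f : Ω → ℝ) ω - (f : Ω → ℝ) (p i)) * (E i : Ω → ℝ) ω := by
      rw [Submodule.coe_sub, Pi.sub_apply, gf_coe]
      simp only [sub_mul]
      rw [Finset.sum_sub_distrib, ← Finset.mul_sum, hE1, mul_one]
    rw [h1]
    have h2 : η = ∑ i, η * (E i : Ω → ℝ) ω := by
      rw [← Finset.mul_sum, hE1, mul_one]
    rw [h2]
    refine (Finset.abs_sum_le_sum_abs _ _).trans (Finset.sum_le_sum fun i _ => ?_)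
    rw [abs_mul, abs_of_nonneg (hE0 i ω)]
    by_cases h3 : (E i : Ω → ℝ) ω = 0
    · rw [h3, mul_zero, mul_zero]
    · exact mul_le_mul_of_nonneg_right (hf i ω h3) (hE0 i ω)
  have hgr := grothendieck (fun i j => β (E i) (E j)) A (by
    intro s t hs ht
    have h1 : ∑ i, ∑ j, β (E i) (E j) * (s i * t j) = β (∑ i, s i • E i) (∑ j, t j • E j) := by
      rw [map_sum β, LinearMap.sum_apply]
      refine Finset.sum_congr rfl fun i _ => ?_
      rw [map_sum]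
      refine Finset.sum_congr rfl fun j _ => ?_
      rw [map_smul, map_smul β, LinearMap.smul_apply, smul_eq_mul, smul_eq_mul]
      ring
    rw [h1]
    have h2 := hA (∑ i, s i • E i) (∑ j, t j • E j) 1 1 zero_le_one zero_le_one
      (gf_abs E hE0 hE1 s hs) (gf_abs E hE0 hE1 t ht)
    rwa [mul_one, mul_one] at h2) n (fun i k => (g k : Ω → ℝ) (p i))
    (fun j k => (h k : Ω → ℝ) (p j)) (fun i => hg (p i)) (fun j => hh (p j))
  have hsum : ∑ i, ∑ j, β (E i) (E j) * ∑ k, (g k : Ω → ℝ) (p i) * (h k : Ω → ℝ) (p j) =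
      ∑ k, β (∑ i, (g k : Ω → ℝ) (p i) • E i) (∑ j, (h k : Ω → ℝ) (p j) • E j) := by
    have h1 : ∀ k, β (∑ i, (g k : Ω → ℝ) (p i) • E i) (∑ j, (h k : Ω → ℝ) (p j) • E j) =
        ∑ i, ∑ j, β (E i) (E j) * ((g k : Ω → ℝ) (p i) * (h k : Ω → ℝ) (p j)) := by
      intro k
      rw [map_sum β, LinearMap.sum_apply]
      refine Finset.sum_congr rfl fun i _ => ?_
      rw [map_sum]
      refine Finset.sum_congr rfl fun j _ => ?_
      rw [map_smul, map_smul β, LinearMap.smul_apply, smul_eq_mul, smul_eq_mul]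
      ring
    simp only [h1, Finset.mul_sum]
    calc ∑ i, ∑ j, ∑ k, β (E i) (E j) * ((g k : Ω → ℝ) (p i) * (h k : Ω → ℝ) (p j)) =
        ∑ i, ∑ k, ∑ j, β (E i) (E j) * ((g k : Ω → ℝ) (p i) * (h k : Ω → ℝ) (p j)) :=
          Finset.sum_congr rfl fun i _ => Finset.sum_comm
      _ = _ := Finset.sum_comm
  rw [hsum] at hgr
  have hdiff : |∑ k, β (g k) (h k) - ∑ k, β (∑ i, (g k : Ω → ℝ) (p i) • E i)
      (∑ j, (h k : Ω → ℝ) (p j) • E j)| ≤ n * (A * η + A * η) := by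
    rw [← Finset.sum_sub_distrib]
    refine (Finset.abs_sum_le_sum_abs _ _).trans ?_
    have h0 : ∀ k ∈ (Finset.univ : Finset (Fin n)), |β (g k) (h k) -
        β (∑ i, (g k : Ω → ℝ) (p i) • E i) (∑ j, (h k : Ω → ℝ) (p j) • E j)| ≤
        A * η + A * η := by
      intro k _
      have h1 : β (g k) (h k) - β (∑ i, (g k : Ω → ℝ) (p i) • E i)
          (∑ j, (h k : Ω → ℝ) (p j) • E j) =
          β (g k - ∑ i, (g k : Ω → ℝ) (p i) • E i) (h k) +
          β (∑ i, (g k : Ω → ℝ) (p i) • E i) (h k - ∑ j, (h k : Ω → ℝ) (p j) • E j) := by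
        rw [map_sub β, map_sub (β _), LinearMap.sub_apply]
        ring
      rw [h1]
      have h2 := hA (g k - ∑ i, (g k : Ω → ℝ) (p i) • E i) (h k) η 1 hη0.le zero_le_one
        (hap (g k) fun i ω hi => hE2 i ω hi (Sum.inl k)) (hh1 k)
      have h3 := hA (∑ i, (g k : Ω → ℝ) (p i) • E i) (h k - ∑ j, (h k : Ω → ℝ) (p j) • E j)
        1 η zero_le_one hη0.le (gf_abs E hE0 hE1 _ fun i => hg1 k (p i))
        (hap (h k) fun i ω hi => hE2 i ω hi (Sum.inr k))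
      rw [mul_one] at h2
      rw [one_mul] at h3
      exact (abs_add_le _ _).trans (add_le_add h2 h3)
    refine (Finset.sum_le_card_nsmul _ _ _ h0).trans ?_
    rw [Finset.card_univ, Fintype.card_fin, nsmul_eq_mul]
  have h1 := abs_sub_abs_le_abs_sub (∑ k, β (g k) (h k))
    (∑ k, β (∑ i, (g k : Ω → ℝ) (p i) • E i) (∑ j, (h k : Ω → ℝ) (p j) • E j))
  linarith

end Pool.H30.RG
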