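import Mathlib

/-!
# [H30 RG GR] Grothendieck's inequality for real matrices (some constant)

PROOF.  For finite dimensional vectors. Let `S` be the supremum of `∑_{ij} a i j ⟨x i, y j⟩` over all `N` and
all `x i, y j ∈ ℝ^N` of norm `≤ 1`; it is `≤ ∑ |a i j|` (Cauchy-Schwarz), so finite, and `≥ 0`; scaling gives:
if `‖x i‖ ≤ α`, `‖y j‖ ≤ β` then `|∑ a i j ⟨x i, y j⟩| ≤ α β S` (replace `x` by `-x` for the absolute value).
Given `x i, y j ∈ ℝ^N` of norm `≤ 1` let `X i (ε) = ∑_k ε_k x i k` for `ε ∈ {-1,1}^N` with the uniform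
probability (average over `Fin N → Bool` or over `Finset` powerset). `E X i Y j = ⟨x i, y j⟩`,
`E (X i)^2 = ‖x i‖^2 ≤ 1`, `E (X i)^4 ≤ 3 ‖x i‖^4 ≤ 3` (induction on `N`: `E (u + ε v)^4 = E u^4 + 6 v^2 E u^2 + v^4`).
Let `M = 7` and `X' = X` if `|X| ≤ M`, `0` otherwise. `E (X - X')^2 = E X^2 1_{|X| > M} ≤ E X^4 / M^2 ≤ 3/49 ≤ 1/16`.
`∑ a i j ⟨x i, y j⟩ = E ∑ a i j X' i Y' j + E ∑ a i j (X i - X' i) Y' j + E ∑ a i j X i (Y j - Y' j)`. The first term is
`≤ 49 A` (for each `ε` use the hypothesis with `s i = X' i / 7`, `t j = Y' j / 7`). The others are inner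
products of vectors in `ℝ^(2^N)` (functions of `ε`, divided by `2^(N/2)`), of norms `≤ 1/4` and `≤ 1`, so each
is `≤ S / 4`. Taking the supremum: `S ≤ 49 A + S/2`, so `S ≤ 98 A`. (To have vectors indexed by a finite type
instead of `Fin N`, define `S` with `Fin N` and transport by `Fintype.equivFin`.)
-/

namespace Pool.H30.RG

section

variable {m n κ : Type*} [Fintype m] [Fintype n] [Fintype κ]

private noncomputable def gv (a : m → n → ℝ) (x : m → κ → ℝ) (y : n → κ → ℝ) : ℝ :=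
  ∑ i, ∑ j, a i j * ∑ k, x i k * y j k

private def gset (a : m → n → ℝ) : Set ℝ :=
  {v | ∃ (N : ℕ) (x : m → Fin N → ℝ) (y : n → Fin N → ℝ), (∀ i, ∑ k, x i k ^ 2 ≤ 1) ∧
    (∀ j, ∑ k, y j k ^ 2 ≤ 1) ∧ v = gv a x y}

private theorem gr_cs (x y : κ → ℝ) (hx : ∑ k, x k ^ 2 ≤ 1) (hy : ∑ k, y k ^ 2 ≤ 1) :
    |∑ k, x k * y k| ≤ 1 := by
  have h1 : |∑ k, x k * y k| ≤ ∑ k, (x k ^ 2 + y k ^ 2) / 2 := by
    refine (Finset.abs_sum_le_sum_abs _ _).trans (Finset.sum_le_sum fun k _ => ?_)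
    rw [abs_le]
    constructor <;> nlinarith [sq_nonneg (x k + y k), sq_nonneg (x k - y k)]
  rw [← Finset.sum_div, Finset.sum_add_distrib] at h1
  linarith

private theorem gr_bdd (a : m → n → ℝ) : BddAbove (gset a) := by
  refine ⟨∑ i, ∑ j, |a i j|, ?_⟩
  rintro _ ⟨N, x, y, hx, hy, rfl⟩
  unfold gv
  refine Finset.sum_le_sum fun i _ => Finset.sum_le_sum fun j _ => ?_
  refine (le_abs_self _).trans ?_
  rw [abs_mul]
  exact mul_le_of_le_one_right (abs_nonneg _) (gr_cs _ _ (hx i) (hy j))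

private theorem gr_le (a : m → n → ℝ) (x : m → κ → ℝ) (y : n → κ → ℝ)
    (hx : ∀ i, ∑ k, x i k ^ 2 ≤ 1) (hy : ∀ j, ∑ k, y j k ^ 2 ≤ 1) : gv a x y ≤ sSup (gset a) := by
  have e := Fintype.equivFin κ
  refine le_csSup (gr_bdd a) ⟨Fintype.card κ, fun i k => x i (e.symm k), fun j k => y j (e.symm k),
    fun i => ?_, fun j => ?_, ?_⟩
  · rw [Equiv.sum_comp e.symm fun k => x i k ^ 2]
    exact hx i
  · rw [Equiv.sum_comp e.symm fun k => y j k ^ 2]
    exact hy j
  · unfold gv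
    refine Finset.sum_congr rfl fun i _ => Finset.sum_congr rfl fun j _ => ?_
    rw [Equiv.sum_comp e.symm fun k => x i k * y j k]

private theorem gr_scale (a : m → n → ℝ) (x : m → κ → ℝ) (y : n → κ → ℝ) {α β : ℝ} (hα : 0 < α)
    (hβ : 0 < β) (hx : ∀ i, ∑ k, x i k ^ 2 ≤ α ^ 2) (hy : ∀ j, ∑ k, y j k ^ 2 ≤ β ^ 2) :
    gv a x y ≤ α * β * sSup (gset a) := by
  have h1 := gr_le a (fun i k => x i k / α) (fun j k => y j k / β) (fun i => by
    simp only [div_pow]
    rw [← Finset.sum_div, div_le_one (by positivity)]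
    exact hx i) (fun j => by
    simp only [div_pow]
    rw [← Finset.sum_div, div_le_one (by positivity)]
    exact hy j)
  have h2 : gv a x y = α * β * gv a (fun i k => x i k / α) (fun j k => y j k / β) := by
    unfold gv
    rw [Finset.mul_sum]
    refine Finset.sum_congr rfl fun i _ => ?_
    rw [Finset.mul_sum]
    refine Finset.sum_congr rfl fun j _ => ?_
    have h3 : ∑ k, x i k * y j k = α * β * ∑ k, x i k / α * (y j k / β) := by
      rw [Finset.mul_sum]
      refine Finset.sum_congr rfl fun k _ => ?_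
      field_simp
    rw [h3]
    ring
  rw [h2]
  exact mul_le_mul_of_nonneg_left h1 (by positivity)

end

private def sg (b : Bool) : ℝ := if b then 1 else -1

private noncomputable def rd {N : ℕ} (x : Fin N → ℝ) (ε : Fin N → Bool) : ℝ := ∑ k, sg (ε k) * x k

private theorem gr_succ {N : ℕ} (f : (Fin (N + 1) → Bool) → ℝ) :
    ∑ ε, f ε = ∑ ε : Fin N → Bool, (f (Fin.cons true ε) + f (Fin.cons false ε)) := by
  rw [← Equiv.sum_comp (Fin.consEquiv fun _ : Fin (N + 1) => Bool) f, Fintype.sum_prod_type,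
    Fintype.sum_bool, ← Finset.sum_add_distrib]
  rfl

private theorem gr_rd {N : ℕ} (x : Fin (N + 1) → ℝ) (b : Bool) (ε : Fin N → Bool) :
    rd x (Fin.cons b ε) = sg b * x 0 + rd (fun k => x k.succ) ε := by
  unfold rd
  rw [Fin.sum_univ_succ, Fin.cons_zero]
  rfl

private theorem gr_two : ∀ (N : ℕ) (x y : Fin N → ℝ),
    ∑ ε, rd x ε * rd y ε = 2 ^ N * ∑ k, x k * y k := by
  intro N
  induction N with
  | zero =>
    intro x y
    unfold rd
    simp
  | succ N ih =>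
    intro x y
    rw [gr_succ, Fin.sum_univ_succ]
    have h1 : ∀ ε : Fin N → Bool, rd x (Fin.cons true ε) * rd y (Fin.cons true ε) +
        rd x (Fin.cons false ε) * rd y (Fin.cons false ε) =
        2 * (x 0 * y 0) + 2 * (rd (fun k => x k.succ) ε * rd (fun k => y k.succ) ε) := by
      intro ε
      rw [gr_rd, gr_rd, gr_rd, gr_rd]
      unfold sg
      simp only [if_true, Bool.false_eq_true, if_false]
      ring
    rw [Finset.sum_congr rfl fun ε _ => h1 ε, Finset.sum_add_distrib, Finset.sum_const,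
      Finset.card_univ, Fintype.card_fun, Fintype.card_bool, Fintype.card_fin,
      nsmul_eq_mul, ← Finset.mul_sum, ih]
    push_cast
    ring

private theorem gr_four : ∀ (N : ℕ) (x : Fin N → ℝ),
    ∑ ε, rd x ε ^ 4 ≤ 2 ^ N * (3 * (∑ k, x k ^ 2) ^ 2) := by
  intro N
  induction N with
  | zero =>
    intro x
    unfold rd
    simp
  | succ N ih =>
    intro x
    rw [gr_succ, Fin.sum_univ_succ]
    have h1 : ∀ ε : Fin N → Bool, rd x (Fin.cons true ε) ^ 4 + rd x (Fin.cons false ε) ^ 4 =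
        2 * x 0 ^ 4 + 12 * x 0 ^ 2 * (rd (fun k => x k.succ) ε * rd (fun k => x k.succ) ε) +
          2 * rd (fun k => x k.succ) ε ^ 4 := by
      intro ε
      rw [gr_rd, gr_rd]
      unfold sg
      simp only [if_true, Bool.false_eq_true, if_false]
      ring
    rw [Finset.sum_congr rfl fun ε _ => h1 ε, Finset.sum_add_distrib, Finset.sum_add_distrib,
      Finset.sum_const, Finset.card_univ, Fintype.card_fun, Fintype.card_bool, Fintype.card_fin,
      nsmul_eq_mul, ← Finset.mul_sum, ← Finset.mul_sum, gr_two]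
    have h2 := ih fun k => x k.succ
    have h3 : ∑ k : Fin N, x k.succ * x k.succ = ∑ k : Fin N, x k.succ ^ 2 :=
      Finset.sum_congr rfl fun k _ => (sq _).symm
    rw [h3]
    obtain ⟨t, ht⟩ : ∃ t, t = ∑ k : Fin N, x k.succ ^ 2 := ⟨_, rfl⟩
    rw [← ht] at h2 ⊢
    have h4 : (0 : ℝ) < 2 ^ N := by positivity
    push_cast
    rw [pow_succ (2 : ℝ) N]
    have h5 : 0 ≤ (2 : ℝ) ^ N * x 0 ^ 4 := by positivity
    nlinarith [h5]

private noncomputable def tr (t : ℝ) : ℝ := if |t| ≤ 7 then t else 0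

private theorem tr_abs (t : ℝ) : |tr t| ≤ 7 := by
  unfold tr
  split_ifs with h
  · exact h
  · rw [abs_zero]
    norm_num

private theorem tr_sq (t : ℝ) : tr t ^ 2 ≤ t ^ 2 := by
  unfold tr
  split_ifs with h
  · exact le_rfl
  · rw [zero_pow (by norm_num)]
    positivity

private theorem tr_sub (t : ℝ) : (t - tr t) ^ 2 ≤ t ^ 4 / 49 := by
  unfold tr
  split_ifs with h
  · rw [sub_self, zero_pow (by norm_num)]
    positivity
  · have h1 : 7 < |t| := not_le.1 h
    have h2 : 49 ≤ t ^ 2 := by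
      rw [← sq_abs]
      nlinarith
    rw [sub_zero, le_div_iff₀ (by norm_num)]
    nlinarith [sq_nonneg t]

private theorem gr_step {m n : Type*} [Fintype m] [Fintype n] (a : m → n → ℝ) (A : ℝ)
    (hA : ∀ (s : m → ℝ) (t : n → ℝ), (∀ i, |s i| ≤ 1) → (∀ j, |t j| ≤ 1) →
      |∑ i, ∑ j, a i j * (s i * t j)| ≤ A)
    (N : ℕ) (x : m → Fin N → ℝ) (y : n → Fin N → ℝ) (hx : ∀ i, ∑ k, x i k ^ 2 ≤ 1)
    (hy : ∀ j, ∑ k, y j k ^ 2 ≤ 1) : gv a x y ≤ 49 * A + sSup (gset a) / 2 := by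
  have hc : (0 : ℝ) < 2 ^ N := by positivity
  obtain ⟨c, hcc⟩ : ∃ c : ℝ, c = 2 ^ N := ⟨_, rfl⟩
  rw [← hcc] at hc
  obtain ⟨X, hX⟩ : ∃ X : m → (Fin N → Bool) → ℝ, X = fun i ε => rd (x i) ε := ⟨_, rfl⟩
  obtain ⟨Y, hY⟩ : ∃ Y : n → (Fin N → Bool) → ℝ, Y = fun j ε => rd (y j) ε := ⟨_, rfl⟩
  have h0 : c * gv a x y = gv a X Y := by
    unfold gv
    rw [Finset.mul_sum]
    refine Finset.sum_congr rfl fun i _ => ?_
    rw [Finset.mul_sum]
    refine Finset.sum_congr rfl fun j _ => ?_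
    rw [hX, hY, mul_left_comm]
    congr 1
    rw [hcc]
    exact (gr_two N (x i) (y j)).symm
  have e1 : ∀ (N : ℕ) (x : Fin N → ℝ), ∑ k, x k ^ 2 ≤ 1 → ∑ ε, rd x ε ^ 2 ≤ 2 ^ N := by
    intro N x hx
    have h1 := gr_two N x x
    have h2 : ∑ ε, rd x ε ^ 2 = ∑ ε, rd x ε * rd x ε :=
      Finset.sum_congr rfl fun ε _ => sq _
    have h3 : ∑ k, x k * x k = ∑ k, x k ^ 2 := Finset.sum_congr rfl fun k _ => (sq _).symm
    rw [h2, h1, h3]
    exact mul_le_of_le_one_right (by positivity) hx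
  have e2 : ∀ (N : ℕ) (x : Fin N → ℝ), ∑ k, x k ^ 2 ≤ 1 →
      ∑ ε, (rd x ε - tr (rd x ε)) ^ 2 ≤ 2 ^ N / 16 := by
    intro N x hx
    have h1 : ∑ ε, (rd x ε - tr (rd x ε)) ^ 2 ≤ ∑ ε, rd x ε ^ 4 / 49 :=
      Finset.sum_le_sum fun ε _ => tr_sub _
    rw [← Finset.sum_div] at h1
    have h2 := gr_four N x
    have h3 : 0 ≤ ∑ k, x k ^ 2 := Finset.sum_nonneg fun k _ => sq_nonneg _
    have h4 : (∑ k, x k ^ 2) ^ 2 ≤ 1 := pow_le_one₀ h3 hx
    have h5 : (0 : ℝ) < 2 ^ N := by positivity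
    have h6 : (2 : ℝ) ^ N * (3 * (∑ k, x k ^ 2) ^ 2) ≤ 2 ^ N * 3 := by
      refine mul_le_mul_of_nonneg_left ?_ h5.le
      linarith
    have h7 : ∑ ε, rd x ε ^ 4 / 49 ≤ 2 ^ N * 3 / 49 := by
      rw [← Finset.sum_div]
      gcongr
      exact h2.trans h6
    rw [← Finset.sum_div] at h7
    refine h1.trans (h7.trans ?_)
    linarith
  obtain ⟨r, hr⟩ : ∃ r : ℝ, r = Real.sqrt c := ⟨_, rfl⟩
  have hr0 : 0 < r := by
    rw [hr]
    exact Real.sqrt_pos.2 hc
  have hr2 : r ^ 2 = c := by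
    rw [hr]
    exact Real.sq_sqrt hc.le
  have t2 : gv a (fun i ε => X i ε - tr (X i ε)) (fun j ε => tr (Y j ε)) ≤
      r / 4 * r * sSup (gset a) := by
    refine gr_scale a _ _ (by positivity) hr0 (fun i => ?_) (fun j => ?_)
    · rw [div_pow, hr2, hcc, hX]
      refine (e2 N (x i) (hx i)).trans ?_
      norm_num
    · rw [hr2, hcc, hY]
      exact (Finset.sum_le_sum fun ε _ => tr_sq _).trans (e1 N (y j) (hy j))
  have t3 : gv a X (fun j ε => Y j ε - tr (Y j ε)) ≤ r * (r / 4) * sSup (gset a) := by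
    refine gr_scale a _ _ hr0 (by positivity) (fun i => ?_) (fun j => ?_)
    · rw [hr2, hcc, hX]
      exact e1 N (x i) (hx i)
    · rw [div_pow, hr2, hcc, hY]
      refine (e2 N (y j) (hy j)).trans ?_
      norm_num
  have t1 : gv a (fun i ε => tr (X i ε)) (fun j ε => tr (Y j ε)) ≤ c * (49 * A) := by
    have h1 : gv a (fun i ε => tr (X i ε)) (fun j ε => tr (Y j ε)) =
        ∑ ε, 49 * ∑ i, ∑ j, a i j * (tr (X i ε) / 7 * (tr (Y j ε) / 7)) := by
      have h2 : ∀ ε : Fin N → Bool, 49 * ∑ i, ∑ j, a i j * (tr (X i ε) / 7 * (tr (Y j ε) / 7)) =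
          ∑ i, ∑ j, a i j * (tr (X i ε) * tr (Y j ε)) := by
        intro ε
        rw [Finset.mul_sum]
        refine Finset.sum_congr rfl fun i _ => ?_
        rw [Finset.mul_sum]
        refine Finset.sum_congr rfl fun j _ => ?_
        ring
      rw [Finset.sum_congr rfl fun ε _ => h2 ε]
      unfold gv
      simp only [Finset.mul_sum]
      calc ∑ i, ∑ j, ∑ ε, a i j * (tr (X i ε) * tr (Y j ε)) =
          ∑ i, ∑ ε, ∑ j, a i j * (tr (X i ε) * tr (Y j ε)) :=
            Finset.sum_congr rfl fun i _ => Finset.sum_comm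
        _ = _ := Finset.sum_comm
    rw [h1]
    have h3 : ∀ ε ∈ (Finset.univ : Finset (Fin N → Bool)),
        49 * ∑ i, ∑ j, a i j * (tr (X i ε) / 7 * (tr (Y j ε) / 7)) ≤ 49 * A := by
      intro ε _
      refine mul_le_mul_of_nonneg_left ?_ (by norm_num)
      refine (le_abs_self _).trans (hA _ _ (fun i => ?_) (fun j => ?_))
      · rw [abs_div, abs_of_pos (by norm_num : (0 : ℝ) < 7), div_le_one (by norm_num)]
        exact tr_abs _
      · rw [abs_div, abs_of_pos (by norm_num : (0 : ℝ) < 7), div_le_one (by norm_num)]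
        exact tr_abs _
    refine (Finset.sum_le_card_nsmul _ _ _ h3).trans ?_
    rw [Finset.card_univ, Fintype.card_fun, Fintype.card_bool, Fintype.card_fin, nsmul_eq_mul, hcc]
    push_cast
    exact le_rfl
  have h1 : gv a X Y = gv a (fun i ε => tr (X i ε)) (fun j ε => tr (Y j ε)) +
      gv a (fun i ε => X i ε - tr (X i ε)) (fun j ε => tr (Y j ε)) +
      gv a X (fun j ε => Y j ε - tr (Y j ε)) := by
    unfold gv
    rw [← Finset.sum_add_distrib, ← Finset.sum_add_distrib]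
    refine Finset.sum_congr rfl fun i _ => ?_
    rw [← Finset.sum_add_distrib, ← Finset.sum_add_distrib]
    refine Finset.sum_congr rfl fun j _ => ?_
    rw [← mul_add, ← mul_add, ← Finset.sum_add_distrib, ← Finset.sum_add_distrib]
    congr 1
    refine Finset.sum_congr rfl fun ε _ => ?_
    ring
  have h2 : c * gv a x y ≤ c * (49 * A + sSup (gset a) / 2) := by
    rw [h0, h1]
    have h3 : r / 4 * r * sSup (gset a) = c * sSup (gset a) / 4 := by
      rw [← hr2]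
      ring
    have h4 : r * (r / 4) * sSup (gset a) = c * sSup (gset a) / 4 := by
      rw [← hr2]
      ring
    rw [h3] at t2
    rw [h4] at t3
    linarith
  exact le_of_mul_le_mul_left h2 hc

theorem grothendieck {m n : Type*} [Fintype m] [Fintype n] (a : m → n → ℝ) (A : ℝ)
    (hA : ∀ (s : m → ℝ) (t : n → ℝ), (∀ i, |s i| ≤ 1) → (∀ j, |t j| ≤ 1) →
      |∑ i, ∑ j, a i j * (s i * t j)| ≤ A)
    (N : ℕ) (x : m → Fin N → ℝ) (y : n → Fin N → ℝ) (hx : ∀ i, ∑ k, x i k ^ 2 ≤ 1)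
    (hy : ∀ j, ∑ k, y j k ^ 2 ≤ 1) :
    |∑ i, ∑ j, a i j * ∑ k, x i k * y j k| ≤ 100 * A := by
  have hA0 : 0 ≤ A := (abs_nonneg _).trans (hA 0 0 (fun i => by simp) (fun j => by simp))
  have h0 : (0 : ℝ) ∈ gset a := by
    refine ⟨0, 0, 0, fun i => by simp, fun j => by simp, ?_⟩
    unfold gv
    simp
  have h1 : sSup (gset a) ≤ 49 * A + sSup (gset a) / 2 := by
    refine csSup_le ⟨0, h0⟩ ?_
    rintro _ ⟨N, x, y, hx, hy, rfl⟩
    exact gr_step a A hA N x y hx hy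
  have h2 := gr_le a x y hx hy
  have h3 := gr_le a (fun i k => -x i k) y (fun i => by simpa using hx i) hy
  have h4 : gv a (fun i k => -x i k) y = -gv a x y := by
    unfold gv
    rw [← Finset.sum_neg_distrib]
    refine Finset.sum_congr rfl fun i _ => ?_
    rw [← Finset.sum_neg_distrib]
    refine Finset.sum_congr rfl fun j _ => ?_
    rw [← mul_neg, ← Finset.sum_neg_distrib]
    congr 1
    refine Finset.sum_congr rfl fun k _ => ?_
    ring
  rw [h4] at h3
  show |gv a x y| ≤ 100 * A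
  rw [abs_le]
  constructor <;> linarith

end Pool.H30.RG
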