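import Pool.Agent.H30.RG.PR

/-!
# [H30 RG HP] Spaces isomorphic to a Hilbert space

PROOF.  Suppose `X` is not finite dimensional; then `G` is not. There is an orthonormal sequence
`e : ℕ → G`: e.g. an orthonormal/Hilbert basis of `G` (`exists_hilbertBasis`) has an infinite index set
(otherwise `G` is finite dimensional), which contains the range of an injective sequence
(`Infinite.natEmbedding`). Let `F n` be the span of `e 0, ..., e (n-1)` (finite dimensional, complete) and
`p n : G → G` the orthogonal projection onto `F n` (as a continuous linear map with values in `G`,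
`Submodule.starProjection` or `F.subtypeL ∘L F.orthogonalProjection`), `‖p n‖ ≤ 1`, `p n p m = p m p n = p n` for
`n ≤ m` because `F n ≤ F m`. Transport: `P n = Φ ∘ p n ∘ Φ⁻¹`, `‖P n‖ ≤ ‖Φ‖ ‖Φ⁻¹‖`. By `projections_stabilise`
`P (n+1) = P n` for some `n`, so `p (n+1) = p n`; but `p (n+1) (e n) = e n` and `p n (e n) = 0` (`e n` is orthogonal
to `F n`), contradiction as `e n ≠ 0`.
-/

namespace Pool.H30.RG

private theorem hp_seq {G : Type*} [NormedAddCommGroup G] [InnerProductSpace ℝ G]
    [CompleteSpace G] (h : ¬ FiniteDimensional ℝ G) : ∃ e : ℕ → G, Orthonormal ℝ e := by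
  obtain ⟨w, b, hb⟩ := exists_hilbertBasis ℝ G
  have hw : Infinite w := by
    by_contra hcon
    rw [not_infinite_iff_finite] at hcon
    apply h
    have h1 := b.dense_span
    have h2 : FiniteDimensional ℝ (Submodule.span ℝ (Set.range b)) :=
      FiniteDimensional.span_of_finite ℝ (Set.finite_range b)
    have h3 : IsClosed (Submodule.span ℝ (Set.range b) : Set G) :=
      Submodule.closed_of_finiteDimensional _
    have h4 : Submodule.span ℝ (Set.range b) = ⊤ := by
      rw [← h1]
      exact (IsClosed.submodule_topologicalClosure_eq h3).symm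
    rw [h4] at h2
    exact Module.finite_def.2 (Module.Finite.iff_fg.1 h2)
  exact ⟨fun n => b (Infinite.natEmbedding w n),
    b.orthonormal.comp _ (Infinite.natEmbedding w).injective⟩

theorem finite_of_hilbert {X : Type*} [NormedAddCommGroup X] [NormedSpace ℝ X] [CompleteSpace X]
    [TopologicalSpace.SeparableSpace X] (h : AllAttain ℝ X) {G : Type*} [NormedAddCommGroup G]
    [InnerProductSpace ℝ G] [CompleteSpace G] (Φ : G ≃L[ℝ] X) : FiniteDimensional ℝ X := by
  by_contra hX
  have hG : ¬ FiniteDimensional ℝ G := by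
    intro hG
    exact hX (Φ.toLinearEquiv.finiteDimensional)
  obtain ⟨e, he⟩ := hp_seq hG
  let F : ℕ → Submodule ℝ G := fun n => Submodule.span ℝ (e '' Set.Iio n)
  have hfin : ∀ n, FiniteDimensional ℝ (F n) := fun n =>
    FiniteDimensional.span_of_finite ℝ ((Set.finite_Iio n).image e)
  have hmono : ∀ n m, n ≤ m → F n ≤ F m := fun n m hnm =>
    Submodule.span_mono (Set.image_mono (Set.Iio_subset_Iio hnm))
  let p : ℕ → (G →L[ℝ] G) := fun n => (F n).starProjection
  have hp1 : ∀ n m, n ≤ m → ∀ x, p m (p n x) = p n x := by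
    intro n m hnm x
    exact Submodule.starProjection_eq_self_iff.2 (hmono n m hnm ((F n).starProjection_apply_mem x))
  have hp2 : ∀ n m, n ≤ m → ∀ x, p n (p m x) = p n x := by
    intro n m hnm x
    have h1 : p n (x - p m x) = 0 := by
      refine Submodule.eq_starProjection_of_mem_of_inner_eq_zero (F n).zero_mem ?_
      intro w hw
      rw [sub_zero]
      exact (F m).starProjection_inner_eq_zero x w (hmono n m hnm hw)
    rw [map_sub, sub_eq_zero] at h1
    exact h1.symm
  let P : ℕ → (X →L[ℝ] X) := fun n =>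
    (Φ : G →L[ℝ] X) ∘L (p n) ∘L (Φ.symm : X →L[ℝ] G)
  have hP : ∀ n m, n ≤ m → P n * P m = P n ∧ P m * P n = P n := by
    intro n m hnm
    constructor
    · ext x
      show Φ (p n (Φ.symm (Φ (p m (Φ.symm x))))) = Φ (p n (Φ.symm x))
      rw [Φ.symm_apply_apply, hp2 n m hnm]
    · ext x
      show Φ (p m (Φ.symm (Φ (p n (Φ.symm x))))) = Φ (p n (Φ.symm x))
      rw [Φ.symm_apply_apply, hp1 n m hnm]
  have hC : ∀ n, ‖P n‖ ≤ ‖(Φ : G →L[ℝ] X)‖ * (1 * ‖(Φ.symm : X →L[ℝ] G)‖) := by
    intro n
    refine (ContinuousLinearMap.opNorm_comp_le _ _).trans ?_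
    refine mul_le_mul_of_nonneg_left ?_ (norm_nonneg _)
    refine (ContinuousLinearMap.opNorm_comp_le _ _).trans ?_
    exact mul_le_mul_of_nonneg_right (F n).starProjection_norm_le (norm_nonneg _)
  obtain ⟨N, hN⟩ := projections_stabilise h P _ hC hP
  have h1 := hN (N + 1) (Nat.le_succ N)
  have h2 : P (N + 1) (Φ (e N)) = P N (Φ (e N)) := by rw [h1]
  have h3 : Φ (p (N + 1) (e N)) = Φ (p N (e N)) := by
    have h4 : P (N + 1) (Φ (e N)) = Φ (p (N + 1) (Φ.symm (Φ (e N)))) := rfl
    have h5 : P N (Φ (e N)) = Φ (p N (Φ.symm (Φ (e N)))) := rfl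
    rw [h4, h5, Φ.symm_apply_apply] at h2
    exact h2
  have h4 := Φ.injective h3
  have h5 : p (N + 1) (e N) = e N := by
    refine Submodule.starProjection_eq_self_iff.2 (Submodule.subset_span ?_)
    exact ⟨N, Nat.lt_succ_self N, rfl⟩
  have h6 : p N (e N) = 0 := by
    refine Submodule.eq_starProjection_of_mem_of_inner_eq_zero (F N).zero_mem ?_
    intro w hw
    rw [sub_zero]
    refine Submodule.span_induction (p := fun w _ => inner ℝ (e N) w = 0) ?_ ?_ ?_ ?_ hw
    · rintro _ ⟨k, hk, rfl⟩
      exact he.2 (Nat.ne_of_gt hk)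
    · exact inner_zero_right _
    · intro x y _ _ hx hy
      rw [inner_add_right, hx, hy, add_zero]
    · intro a x _ hx
      rw [inner_smul_right, hx, mul_zero]
  rw [h5, h6] at h4
  have h7 := he.1 N
  rw [h4, norm_zero] at h7
  exact zero_ne_one h7

end Pool.H30.RG
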