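import Mathlib

/-!
# [H30 RG HQ] A quotient of a pre-Hilbert space

`E` a real vector space with a symmetric bilinear form `b`, `b g g ≥ 0`; `Q : E → X` linear, onto the
Banach space `X`, `‖Q g‖² ≤ K b g g`. Then `X` is linearly homeomorphic to a Hilbert space.

PROOF.  `b` defines a semi-inner product on `E` (`PreInnerProductSpace.Core ℝ E`, so a seminormed group and
an inner product space structure on a type synonym of `E`), with seminorm `‖g‖_b = sqrt (b g g)`; its
completion `H0` (`UniformSpace.Completion`) is a Hilbert space. `Q` is bounded for this seminorm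
(`‖Q g‖ ≤ sqrt K ‖g‖_b`) so it extends to a bounded operator `Q' : H0 → X`
(`ContinuousLinearMap.extend` along `UniformSpace.Completion.toComplL`), which is onto because `Q` is. Let
`G = (ker Q')ᗮ`, a closed subspace of `H0`, hence a Hilbert space. `Q'` restricted to `G` is a bounded bijection
onto `X` (`H0 = ker Q' ⊕ G`, `Submodule.exists_add_mem_mem_orthogonal` or
`Submodule.isCompl_orthogonal_of_hasOrthogonalProjection`), so a linear homeomorphism by the open
mapping theorem (`ContinuousLinearEquiv.ofBijective`).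
-/

namespace Pool.H30.RG

universe u v

private theorem hq_aux {E : Type v} [SeminormedAddCommGroup E] [InnerProductSpace ℝ E] {X : Type u}
    [NormedAddCommGroup X] [NormedSpace ℝ X] [CompleteSpace X] (Q : E →ₗ[ℝ] X)
    (hQ : Function.Surjective Q) (K : ℝ) (hK : ∀ g, ‖Q g‖ ≤ K * ‖g‖) :
    ∃ (G : Type v) (_ : NormedAddCommGroup G) (_ : InnerProductSpace ℝ G) (_ : CompleteSpace G),
      Nonempty (G ≃L[ℝ] X) := by
  set e : E →L[ℝ] UniformSpace.Completion E := UniformSpace.Completion.toComplL with he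
  have hed : DenseRange (e : E →ₗ[ℝ] UniformSpace.Completion E) :=
    UniformSpace.Completion.denseRange_coe
  have hnorm : ∃ C, ∀ x, ‖Q x‖ ≤ C * ‖(e : E →ₗ[ℝ] UniformSpace.Completion E) x‖ :=
    ⟨K, fun x => by
      have h1 : ‖(e : E →ₗ[ℝ] UniformSpace.Completion E) x‖ = ‖x‖ :=
        UniformSpace.Completion.norm_coe x
      rw [h1]
      exact hK x⟩
  set Q' : UniformSpace.Completion E →L[ℝ] X :=
    Q.extendOfNorm (e : E →ₗ[ℝ] UniformSpace.Completion E) with hQ'
  have hQe : ∀ x, Q' ((e : E →ₗ[ℝ] UniformSpace.Completion E) x) = Q x := fun x =>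
    LinearMap.extendOfNorm_eq hed hnorm x
  set N : Submodule ℝ (UniformSpace.Completion E) :=
    LinearMap.ker (Q' : UniformSpace.Completion E →ₗ[ℝ] X) with hN
  have hNc : IsClosed (N : Set (UniformSpace.Completion E)) := Q'.isClosed_ker
  have : CompleteSpace N := hNc.completeSpace_coe
  have : CompleteSpace Nᗮ := (Submodule.isClosed_orthogonal N).completeSpace_coe
  have hinj : LinearMap.ker (Q'.comp Nᗮ.subtypeL : Nᗮ →ₗ[ℝ] X) = ⊥ := by
    rw [LinearMap.ker_eq_bot']
    intro g hg
    have h1 : (g : UniformSpace.Completion E) ∈ N := LinearMap.mem_ker.2 hg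
    have h2 := (Submodule.mem_orthogonal N g).1 g.2 g h1
    rw [inner_self_eq_zero] at h2
    exact Subtype.ext h2
  have hsurj : LinearMap.range (Q'.comp Nᗮ.subtypeL : Nᗮ →ₗ[ℝ] X) = ⊤ := by
    rw [LinearMap.range_eq_top]
    intro x
    obtain ⟨g, rfl⟩ := hQ x
    obtain ⟨y, hy, z, hz, hyz⟩ := N.exists_add_mem_mem_orthogonal
      ((e : E →ₗ[ℝ] UniformSpace.Completion E) g)
    refine ⟨⟨z, hz⟩, ?_⟩
    show Q' z = Q g
    rw [← hQe g, hyz, map_add]
    have h1 : Q' y = 0 := LinearMap.mem_ker.1 hy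
    rw [h1, zero_add]
  exact ⟨Nᗮ, inferInstance, inferInstance, inferInstance,
    ⟨ContinuousLinearEquiv.ofBijective (Q'.comp Nᗮ.subtypeL) hinj hsurj⟩⟩

theorem hilbert_of_quotient {E : Type v} [AddCommGroup E] [Module ℝ E] {X : Type u}
    [NormedAddCommGroup X] [NormedSpace ℝ X] [CompleteSpace X] (b : E →ₗ[ℝ] E →ₗ[ℝ] ℝ)
    (hsymm : ∀ g h, b g h = b h g) (hpos : ∀ g, 0 ≤ b g g) (Q : E →ₗ[ℝ] X)
    (hQ : Function.Surjective Q) (K : ℝ) (hK : ∀ g, ‖Q g‖ ^ 2 ≤ K * b g g) :
    ∃ (G : Type v) (_ : NormedAddCommGroup G) (_ : InnerProductSpace ℝ G) (_ : CompleteSpace G),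
      Nonempty (G ≃L[ℝ] X) := by
  let core : PreInnerProductSpace.Core ℝ E :=
    { inner := fun x y => b x y
      conj_inner_symm := fun x y => by
        show (starRingEnd ℝ) (b y x) = b x y
        rw [hsymm y x]
        rfl
      re_inner_nonneg := fun x => hpos x
      add_left := fun x y z => by
        show b (x + y) z = b x z + b y z
        rw [map_add, LinearMap.add_apply]
      smul_left := fun x y r => by
        show b (r • x) y = (starRingEnd ℝ) r * b x y
        rw [map_smul, LinearMap.smul_apply, smul_eq_mul]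
        rfl }
  letI iS : SeminormedAddCommGroup E := @InnerProductSpace.Core.toSeminormedAddCommGroup ℝ E _ _ _ core
  letI iI : InnerProductSpace ℝ E := InnerProductSpace.ofCore core
  refine hq_aux Q hQ (Real.sqrt (max K 0)) fun g => ?_
  have h1 : ‖g‖ ^ 2 = b g g := by
    have := @InnerProductSpace.norm_sq_eq_re_inner ℝ E _ iS iI g
    exact this
  have h2 : 0 ≤ ‖g‖ := norm_nonneg g
  refine le_of_sq_le_sq ?_ (mul_nonneg (Real.sqrt_nonneg _) h2)
  rw [mul_pow, Real.sq_sqrt (le_max_right _ _), h1]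
  exact (hK g).trans (mul_le_mul_of_nonneg_right (le_max_left _ _) (hpos g))

end Pool.H30.RG
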