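import Pool.Agent.H30.RG.MZ

/-!
# [H30 RG JR] James' theorem for separable spaces, from Simons' inequality

If `X` is separable and complete and every operator on `X` attains its norm, then `X` is reflexive.

PROOF.  Some vector `u` has norm `1` (apply the hypothesis to `T = 0`). Suppose `ξ` in the bidual is not
in the range of the isometry `J = NormedSpace.inclusionInDoubleDual 𝕜 X`
(`NormedSpace.inclusionInDoubleDualLi`); its range is closed (`X` complete), so there is `d > 0` with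
`‖ξ - J x‖ ≥ d` for all `x`. Let `x m` be a dense sequence of `X` (`TopologicalSpace.denseSeq`).

Claim: for every `n` there is a functional `f` with `‖f‖ ≤ 1`, `f (x m) = 0` for `m < n`,
`‖ξ f‖ ≥ d / 2`. Let `W` be the intersection of the kernels of `J (x m)`, `m < n`, a subspace of the dual.
If the claim is false then `‖ξ f‖ ≤ (d/2) ‖f‖` for all `f ∈ W` (scaling), so the restriction of `ξ` to `W`
extends to `η` in the bidual with `‖η‖ ≤ d / 2` (`exists_extension_norm_eq`), and `ξ - η` vanishes on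
`W`, so it is a linear combination of the `J (x m)`, `m < n` (`mem_span_of_iInf_ker_le_ker` for linear
functionals), i.e. `ξ - η = J y`; then `d ≤ ‖ξ - J y‖ = ‖η‖ ≤ d / 2`, contradiction.

Multiplying `f` by a scalar of modulus `1` we get `f n` with `ξ (f n)` real (as an element of `𝕜`) and
`Re (ξ (f n)) ≥ d / 2`, `‖f n‖ ≤ 1`, `f n (x m) = 0` for `m < n`. By density and boundedness
`f n x → 0` for all `x`. The operators `T n x = f n x • u` (`ContinuousLinearMap.smulRight`) have norm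
`≤ 1` and tend to `0` in the weak operator topology. `mazur_wot` with `T0 = 0`, `N = 0` and
`ε = d / (4 (‖ξ‖ + 1))` gives weights `w n` with `g = ∑ w n f n`, `‖g‖ = ‖g • u‖ < ε`; but
`Re (ξ g) = ∑ w n Re (ξ (f n)) ≥ d / 2`, while `|ξ g| ≤ ‖ξ‖ ε < d / 2`. Contradiction.
-/

namespace Pool.H30.RG

open Filter Topology

private theorem jr_dist {𝕜 : Type*} [RCLike 𝕜] {X : Type*} [NormedAddCommGroup X]
    [NormedSpace 𝕜 X] [CompleteSpace X] {Z : Type*} [NormedAddCommGroup Z] [NormedSpace 𝕜 Z]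
    (J : X →ₗᵢ[𝕜] Z) (ξ : Z) (hξ : ∀ x, J x ≠ ξ) :
    ∃ d : ℝ, 0 < d ∧ ∀ x : X, d ≤ ‖ξ - J x‖ := by
  have hclosed : IsClosed (Set.range J) := J.isometry.isClosedEmbedding.isClosed_range
  have hne : (Set.range J).Nonempty := ⟨_, 0, rfl⟩
  have hpos : 0 < Metric.infDist ξ (Set.range J) := by
    rw [← hclosed.notMem_iff_infDist_pos hne]
    rintro ⟨y, hy⟩
    exact hξ y hy
  refine ⟨_, hpos, fun x => ?_⟩
  rw [← dist_eq_norm]
  exact Metric.infDist_le_dist_of_mem ⟨x, rfl⟩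

private theorem jr_step {𝕜 : Type*} [RCLike 𝕜] {X : Type*} [NormedAddCommGroup X]
    [NormedSpace 𝕜 X] (ξ : (X →L[𝕜] 𝕜) →L[𝕜] 𝕜) (d : ℝ) (hd : 0 < d)
    (hξ : ∀ x : X, d ≤ ‖ξ - NormedSpace.inclusionInDoubleDual 𝕜 X x‖) (n : ℕ) (x : Fin n → X) :
    ∃ f : X →L[𝕜] 𝕜, ‖f‖ ≤ 1 ∧ (∀ m, f (x m) = 0) ∧ ξ f = ((d / 2 : ℝ) : 𝕜) := by
  by_contra hno
  push Not at hno
  let W : Submodule 𝕜 (X →L[𝕜] 𝕜) := ⨅ m : Fin n,
    LinearMap.ker ((NormedSpace.inclusionInDoubleDual 𝕜 X (x m) : (X →L[𝕜] 𝕜) →L[𝕜] 𝕜) :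
      (X →L[𝕜] 𝕜) →ₗ[𝕜] 𝕜)
  have hW : ∀ f ∈ W, ∀ m, f (x m) = 0 := by
    intro f hf m
    have h1 := (Submodule.mem_iInf _).mp hf m
    rw [LinearMap.mem_ker] at h1
    exact h1
  have hb : ∀ f ∈ W, ‖ξ f‖ ≤ (d / 2) * ‖f‖ := by
    intro f hf
    by_contra hlt
    push Not at hlt
    have hξ0 : ξ f ≠ 0 := by
      intro h0
      rw [h0, norm_zero] at hlt
      have : 0 ≤ d / 2 * ‖f‖ := by positivity
      linarith
    let g : X →L[𝕜] 𝕜 := (((d / 2 : ℝ) : 𝕜) * (ξ f)⁻¹) • f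
    refine hno g ?_ ?_ ?_
    · rw [norm_smul, norm_mul, norm_inv, RCLike.norm_ofReal, abs_of_pos (by positivity)]
      rw [mul_assoc, inv_mul_eq_div, ← mul_div_assoc, div_le_one (norm_pos_iff.mpr hξ0)]
      exact hlt.le
    · intro m
      show (((d / 2 : ℝ) : 𝕜) * (ξ f)⁻¹) • f (x m) = 0
      rw [hW f hf m, smul_zero]
    · show ξ ((((d / 2 : ℝ) : 𝕜) * (ξ f)⁻¹) • f) = _
      rw [map_smul, smul_eq_mul, mul_assoc, inv_mul_cancel₀ hξ0, mul_one]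
  obtain ⟨η, hη1, hη2⟩ := exists_extension_norm_eq W (ξ.comp W.subtypeL)
  have hη3 : ‖η‖ ≤ d / 2 := by
    rw [hη2]
    refine ContinuousLinearMap.opNorm_le_bound _ (by positivity) (fun f => ?_)
    exact hb f f.2
  have hK : ((ξ - η : (X →L[𝕜] 𝕜) →L[𝕜] 𝕜) : (X →L[𝕜] 𝕜) →ₗ[𝕜] 𝕜) ∈
      Submodule.span 𝕜 (Set.range (fun m : Fin n =>
        ((NormedSpace.inclusionInDoubleDual 𝕜 X (x m) : (X →L[𝕜] 𝕜) →L[𝕜] 𝕜) :
          (X →L[𝕜] 𝕜) →ₗ[𝕜] 𝕜))) := by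
    apply mem_span_of_iInf_ker_le_ker
    intro f hf
    rw [LinearMap.mem_ker]
    show ξ f - η f = 0
    rw [hη1 ⟨f, hf⟩]
    exact sub_self _
  have hsub : Submodule.span 𝕜 (Set.range (fun m : Fin n =>
        ((NormedSpace.inclusionInDoubleDual 𝕜 X (x m) : (X →L[𝕜] 𝕜) →L[𝕜] 𝕜) :
          (X →L[𝕜] 𝕜) →ₗ[𝕜] 𝕜))) ≤
      LinearMap.range ((ContinuousLinearMap.coeLM 𝕜 : ((X →L[𝕜] 𝕜) →L[𝕜] 𝕜) →ₗ[𝕜]
        (X →L[𝕜] 𝕜) →ₗ[𝕜] 𝕜) ∘ₗ
        (NormedSpace.inclusionInDoubleDual 𝕜 X : X →ₗ[𝕜] ((X →L[𝕜] 𝕜) →L[𝕜] 𝕜))) := by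
    rw [Submodule.span_le]
    rintro _ ⟨m, rfl⟩
    exact ⟨x m, rfl⟩
  obtain ⟨y, hy⟩ := hsub hK
  have hy' : NormedSpace.inclusionInDoubleDual 𝕜 X y = ξ - η := by
    ext f
    exact LinearMap.congr_fun hy f
  have h1 := hξ y
  have e1 : ξ - NormedSpace.inclusionInDoubleDual 𝕜 X y = η := by
    rw [hy']
    ext f
    show ξ f - (ξ f - η f) = η f
    ring
  rw [e1] at h1
  linarith

theorem reflexive_of_allAttain {𝕜 : Type*} [RCLike 𝕜] {X : Type*} [NormedAddCommGroup X]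
    [NormedSpace 𝕜 X] [CompleteSpace X] [TopologicalSpace.SeparableSpace X]
    (h : AllAttain 𝕜 X) : Pool.H30.PM.Reflexive 𝕜 X := by
  classical
  obtain ⟨u, hu, -⟩ := h 0
  by_contra hns
  unfold Pool.H30.PM.Reflexive Function.Surjective at hns
  push Not at hns
  obtain ⟨ξ, hξ⟩ := hns
  -- distance from the range
  have hξ' : ∀ x : X, NormedSpace.inclusionInDoubleDualLi (E := X) 𝕜 x ≠ ξ := hξ
  obtain ⟨d, hpos, hξd0⟩ := jr_dist (𝕜 := 𝕜) (X := X) (Z := StrongDual 𝕜 (StrongDual 𝕜 X))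
    (NormedSpace.inclusionInDoubleDualLi (E := X) 𝕜) ξ hξ'
  have hξd : ∀ x : X, d ≤ ‖ξ - NormedSpace.inclusionInDoubleDual 𝕜 X x‖ := hξd0
  let x : ℕ → X := TopologicalSpace.denseSeq X
  have hx : DenseRange x := TopologicalSpace.denseRange_denseSeq X
  choose f hf1 hf2 hf3 using fun n : ℕ => jr_step ξ d hpos hξd n (fun m : Fin n => x m)
  -- f n tends to 0 pointwise
  have hpt : ∀ y : X, Tendsto (fun n => f n y) atTop (𝓝 0) := by
    intro y
    rw [Metric.tendsto_atTop]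
    intro ε hε
    obtain ⟨m, hm⟩ := (Metric.denseRange_iff.mp hx) y ε hε
    refine ⟨m + 1, fun n hn => ?_⟩
    rw [dist_zero_right]
    have h1 : f n (x m) = 0 := hf2 n ⟨m, by omega⟩
    have h2 : f n y = f n (y - x m) := by rw [map_sub, h1, sub_zero]
    rw [h2]
    refine ((f n).le_opNorm _).trans_lt ?_
    rw [dist_eq_norm] at hm
    calc ‖f n‖ * ‖y - x m‖ ≤ 1 * ‖y - x m‖ := mul_le_mul_of_nonneg_right (hf1 n) (norm_nonneg _)
      _ < ε := by rw [one_mul]; exact hm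
  let T : ℕ → (X →L[𝕜] X) := fun n => (f n).smulRight u
  have hTn : ∀ g : X →L[𝕜] 𝕜, ‖(g.smulRight u : X →L[𝕜] X)‖ = ‖g‖ := by
    intro g
    rw [ContinuousLinearMap.norm_smulRight_apply, hu, mul_one]
  obtain ⟨s, w, -, hw0, hw1, hw2⟩ := mazur_wot h T 0 1 (fun n => by rw [hTn]; exact hf1 n)
    (by
      intro y g
      have h1 : Tendsto (fun n => f n y * g u) atTop (𝓝 (0 * g u)) := (hpt y).mul_const _
      rw [zero_mul] at h1
      rw [ContinuousLinearMap.zero_apply, map_zero]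
      refine h1.congr (fun n => ?_)
      show f n y * g u = g (f n y • u)
      rw [map_smul, smul_eq_mul])
    (d / (4 * (‖ξ‖ + 1))) (by positivity) 0
  rw [sub_zero] at hw2
  let g : X →L[𝕜] 𝕜 := ∑ n ∈ s, ((w n : ℝ) : 𝕜) • f n
  have hg : (∑ n ∈ s, ((w n : ℝ) : 𝕜) • T n) = g.smulRight u := by
    ext y
    simp only [g, T, sum_apply, ContinuousLinearMap.smul_apply,
      ContinuousLinearMap.smulRight_apply, Finset.sum_smul, smul_assoc]
  rw [hg, hTn] at hw2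
  have hξg : ξ g = ((d / 2 : ℝ) : 𝕜) := by
    simp only [g, map_sum, map_smul, hf3, smul_eq_mul]
    rw [← Finset.sum_mul, ← RCLike.ofReal_sum, hw1, RCLike.ofReal_one, one_mul]
  have h1 : ‖ξ g‖ ≤ ‖ξ‖ * ‖g‖ := ξ.le_opNorm g
  rw [hξg, RCLike.norm_ofReal, abs_of_pos (by positivity)] at h1
  have h2 : ‖ξ‖ * ‖g‖ ≤ (‖ξ‖ + 1) * (d / (4 * (‖ξ‖ + 1))) := by
    refine mul_le_mul (by linarith) hw2.le (norm_nonneg _) (by positivity)
  have h3 : (‖ξ‖ + 1) * (d / (4 * (‖ξ‖ + 1))) = d / 4 := by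
    field_simp
  linarith

end Pool.H30.RG
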