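import Pool.Agent.H30.RG.CH

/-!
# [H30 RG KK] Kakutani's representation of an Archimedean vector lattice with order unit

PROOF.  `K` is the set of all functions `κ : E → ℝ` that are additive, homogeneous, satisfy
`κ |w| = |κ w|` and `κ e = 1`, with the topology induced from the product `E → ℝ` (a subtype; Hausdorff). For
every `w` choose `c w` with `|w| ≤ (c w) e`; every `κ ∈ K` satisfies `|κ w| = κ |w| ≤ c w` (`κ` is monotone:
`x ≥ 0` gives `κ x = κ |x| = |κ x| ≥ 0`), so `K` is a closed subset (the conditions are equations between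
continuous functions of `κ`) of the compact product `Set.pi univ (fun w => Set.Icc (-(c w)) (c w))`, hence compact
(`isCompact_iff_compactSpace`). `R w` is the evaluation `κ ↦ κ w`, continuous. `R |w| = |R w|` and `R e = 1` are
the conditions. If `R z k ≤ c` for all `k` then `z ≤ c e` by `exists_character`. If `k ≠ l` in `K` there is `z`
with `k z ≠ l z`.
-/

namespace Pool.H30.RG

universe u

section aux

variable {E : Type u} [AddCommGroup E] [Lattice E] [Module ℝ E]

/-- The set of normalised lattice homomorphisms. -/
private def Chars (e : E) : Set (E → ℝ) :=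
  {k | (∀ a b, k (a + b) = k a + k b) ∧ (∀ (r : ℝ) a, k (r • a) = r * k a) ∧
    (∀ a, k |a| = |k a|) ∧ k e = 1}

private theorem isClosed_chars (e : E) : IsClosed (Chars e) := by
  have h1 : IsClosed {k : E → ℝ | ∀ a b, k (a + b) = k a + k b} := by
    simp only [Set.setOf_forall]
    refine isClosed_iInter (fun a => isClosed_iInter (fun b => ?_))
    exact isClosed_eq (continuous_apply _) ((continuous_apply a).add (continuous_apply b))
  have h2 : IsClosed {k : E → ℝ | ∀ (r : ℝ) a, k (r • a) = r * k a} := by
    simp only [Set.setOf_forall]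
    refine isClosed_iInter (fun r => isClosed_iInter (fun a => ?_))
    exact isClosed_eq (continuous_apply _) (continuous_const.mul (continuous_apply _))
  have h3 : IsClosed {k : E → ℝ | ∀ a, k |a| = |k a|} := by
    simp only [Set.setOf_forall]
    refine isClosed_iInter (fun a => ?_)
    exact isClosed_eq (continuous_apply _) (continuous_apply _).abs
  have h4 : IsClosed {k : E → ℝ | k e = 1} := isClosed_eq (continuous_apply _) continuous_const
  exact h1.inter (h2.inter (h3.inter h4))

end aux

theorem kakutani {E : Type u} [AddCommGroup E] [Lattice E] [IsOrderedAddMonoid E]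
    [Module ℝ E] [PosSMulMono ℝ E] (e : E) (he : 0 ≤ e) (hu : ∀ z : E, ∃ c : ℝ, |z| ≤ c • e)
    (ha : ∀ z : E, (∀ n : ℕ, n • z ≤ e) → z ≤ 0) :
    ∃ (K : Type u) (_ : TopologicalSpace K) (_ : CompactSpace K) (_ : T2Space K)
      (R : E →ₗ[ℝ] C(K, ℝ)), (∀ w k, R |w| k = |R w k|) ∧ (∀ k, R e k = 1) ∧
      (∀ (z : E) (c : ℝ), (∀ k, R z k ≤ c) → z ≤ c • e) ∧
      (∀ k l : K, k ≠ l → ∃ z, R z k ≠ R z l) := by
  classical
  choose c hc using hu
  -- monotone
  have hmono : ∀ k ∈ Chars e, ∀ a b : E, a ≤ b → k a ≤ k b := by
    rintro k ⟨h1, h2, h3, h4⟩ a b hab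
    have h5 : k (b - a) = k b - k a := by
      rw [sub_eq_add_neg, h1]
      have : k (-a) = - k a := by
        have := h2 (-1) a
        rw [neg_one_smul, neg_one_mul] at this
        exact this
      rw [this]
      ring
    have h6 : 0 ≤ k (b - a) := by
      rw [← abs_of_nonneg (sub_nonneg.mpr hab), h3]
      exact abs_nonneg _
    linarith
  have hcomp : IsCompact (Chars e) := by
    have hpi : IsCompact (Set.univ.pi (fun w : E => Set.Icc (-(c w)) (c w))) :=
      isCompact_univ_pi (fun w => isCompact_Icc)
    refine hpi.of_isClosed_subset (isClosed_chars e) ?_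
    intro k hk w _
    have h1 : |k w| ≤ c w := by
      rw [← hk.2.2.1 w]
      have h2 := hmono k hk _ _ (hc w)
      rw [hk.2.1, hk.2.2.2, mul_one] at h2
      exact h2
    exact abs_le.mp h1
  let R : E →ₗ[ℝ] C(Chars e, ℝ) :=
    { toFun := fun w => ⟨fun k => (k : E → ℝ) w, (continuous_apply w).comp continuous_subtype_val⟩
      map_add' := by
        intro a b
        ext k
        exact k.2.1 a b
      map_smul' := by
        intro r a
        ext k
        exact k.2.2.1 r a }
  refine ⟨Chars e, inferInstance, isCompact_iff_compactSpace.mp hcomp, inferInstance, R, ?_, ?_,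
    ?_, ?_⟩
  · intro w k
    exact k.2.2.2.1 w
  · intro k
    exact k.2.2.2.2
  · intro z r hz
    by_contra hne
    obtain ⟨κ, h1, h2, h3⟩ := exists_character e he (fun z => ⟨c z, hc z⟩) ha z r hne
    have hk : (κ : E → ℝ) ∈ Chars e :=
      ⟨fun a b => map_add κ a b, fun r a => by rw [map_smul, smul_eq_mul], h1, h2⟩
    have h4 := hz ⟨κ, hk⟩
    have h5 : κ z ≤ r := h4
    linarith
  · intro k l hkl
    by_contra hcon
    push Not at hcon
    exact hkl (Subtype.ext (funext hcon))

end Pool.H30.RG
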