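import Pool.Agent.H30.RG.EI

/-!
# [H30 RG LB] `U` and `V` are bounded below

PROOF.  Let `δ` be given by `equi_integrable` with `ε = 1/4`. Let `M = ‖U‖ + ‖V‖ + 1`, `t = 1/(4 M)`,
`c = t δ`. Let `x ≠ 0`; by scaling assume `‖x‖ = 1`; take `f` with `‖f‖ = 1`, `f x = 1` (`exists_dual_vector`).
Let `A = {ω | t < |U x ω|}`, measurable up to a null set (take the strongly measurable
representative, `(Lp.stronglyMeasurable (U x)).measurable`). On the complement `|U x V f| ≤ t |V f|`, so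
`|∫_{Aᶜ} U x V f| ≤ t ‖V f‖ ≤ t ‖V‖ ≤ 1/4`; hence `|∫_A U x V f| ≥ 3/4 > 1/4` and therefore
`μ A > ENNReal.ofReal δ`. Then `‖U x‖ = ∫ |U x| ≥ t (μ A).toReal ≥ t δ` (`L1.norm_eq_integral_norm`,
`mul_meas_ge_le_integral_of_nonneg` or `meas_ge_le_mul…`). The second inequality is symmetric: for `f` with
`‖f‖ = 1` there is `x` with `‖x‖ ≤ 1`, `|f x| > 3/4`; with `A = {ω | t < |V f ω|}`:
`|∫_{Aᶜ} U x V f| ≤ t ‖U x‖ ≤ 1/4`, `|∫_A U x V f| ≥ 1/2 > 1/4 ‖x‖ ‖f‖`.
-/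

namespace Pool.H30.RG

open Filter Topology MeasureTheory

private theorem lb_aux {Ω : Type*} [MeasurableSpace Ω] (μ : Measure Ω) [IsFiniteMeasure μ]
    (u v : Ω →₁[μ] ℝ) (hint : Integrable (fun ω => u ω * v ω) μ) {t δ : ℝ} (ht : 0 < t)
    (htv : t * ‖v‖ ≤ 1 / 4)
    (hA : ∀ A : Set Ω, MeasurableSet A → μ A ≤ ENNReal.ofReal δ →
      |∫ ω in A, u ω * v ω ∂μ| ≤ 1 / 4)
    (hbig : 3 / 4 ≤ |∫ ω, u ω * v ω ∂μ|) : t * δ ≤ ‖u‖ := by
  have hum : Measurable (fun ω => |u ω|) := (Lp.stronglyMeasurable u).measurable.abs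
  set A : Set Ω := {ω | t < |u ω|} with hAdef
  have hAm : MeasurableSet A := measurableSet_lt measurable_const hum
  have hvi : Integrable (fun ω => v ω) μ := L1.integrable_coeFn v
  have hui : Integrable (fun ω => u ω) μ := L1.integrable_coeFn u
  have hμA : ENNReal.ofReal δ < μ A := by
    by_contra hcon
    have h1 := hA A hAm (not_lt.1 hcon)
    have h2 : |∫ ω in Aᶜ, u ω * v ω ∂μ| ≤ 1 / 4 := by
      refine le_trans ?_ htv
      calc |∫ ω in Aᶜ, u ω * v ω ∂μ| ≤ ∫ ω in Aᶜ, |u ω * v ω| ∂μ := abs_integral_le_integral_abs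
        _ ≤ ∫ ω in Aᶜ, t * |v ω| ∂μ := by
            refine setIntegral_mono_on hint.abs.integrableOn
              (hvi.abs.const_mul t).integrableOn hAm.compl fun ω hω => ?_
            rw [abs_mul]
            have h3 : |u ω| ≤ t := not_lt.1 hω
            exact mul_le_mul_of_nonneg_right h3 (abs_nonneg _)
        _ ≤ ∫ ω, t * |v ω| ∂μ :=
            setIntegral_le_integral (hvi.abs.const_mul t)
              (Eventually.of_forall fun ω => mul_nonneg ht.le (abs_nonneg _))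
        _ = t * ‖v‖ := by
            rw [integral_const_mul, L1.norm_eq_integral_norm]
            rfl
    have h3 := integral_add_compl hAm hint
    rw [← h3] at hbig
    have h4 := abs_add_le (∫ ω in A, u ω * v ω ∂μ) (∫ ω in Aᶜ, u ω * v ω ∂μ)
    linarith
  have h5 : δ ≤ μ.real A := (ENNReal.ofReal_le_iff_le_toReal (measure_ne_top μ A)).1 hμA.le
  have h6 : μ.real A ≤ μ.real {ω | t ≤ |u ω|} :=
    measureReal_mono (fun ω (hω : t < |u ω|) => show t ≤ |u ω| from hω.le) (measure_ne_top _ _)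
  have h7 := mul_meas_ge_le_integral_of_nonneg (μ := μ) (f := fun ω => |u ω|)
    (Eventually.of_forall fun ω => abs_nonneg _) hui.abs t
  have h8 : ∫ ω, |u ω| ∂μ = ‖u‖ := by
    rw [L1.norm_eq_integral_norm]
    rfl
  rw [h8] at h7
  exact (mul_le_mul_of_nonneg_left (h5.trans h6) ht.le).trans h7

theorem lower_bounds {X : Type*} [NormedAddCommGroup X] [NormedSpace ℝ X] [CompleteSpace X]
    [TopologicalSpace.SeparableSpace X] (h : AllAttain ℝ X) {Ω : Type*} [MeasurableSpace Ω]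
    (μ : Measure Ω) [IsFiniteMeasure μ] (U : X →L[ℝ] (Ω →₁[μ] ℝ))
    (V : (X →L[ℝ] ℝ) →L[ℝ] (Ω →₁[μ] ℝ)) (C : ℝ) (hrep : IsRep μ U V C) :
    ∃ c : ℝ, 0 < c ∧ (∀ x : X, c * ‖x‖ ≤ ‖U x‖) ∧ (∀ f : X →L[ℝ] ℝ, c * ‖f‖ ≤ ‖V f‖) := by
  obtain ⟨δ, hδ, hA⟩ := equi_integrable h μ U V C hrep (1 / 4) (by norm_num)
  obtain ⟨hint, -, hval⟩ := hrep
  set M : ℝ := ‖U‖ + ‖V‖ + 1 with hM
  have hU0 : 0 ≤ ‖U‖ := ContinuousLinearMap.opNorm_nonneg U
  have hV0 : 0 ≤ ‖V‖ := ContinuousLinearMap.opNorm_nonneg V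
  have hM0 : 0 < M := by linarith
  set t : ℝ := 1 / (4 * M) with ht
  have ht0 : 0 < t := by positivity
  have htM : t * M = 1 / 4 := by
    rw [ht]
    field_simp
  have key1 : ∀ x : X, ‖x‖ = 1 → t * δ ≤ ‖U x‖ := by
    intro x hx
    obtain ⟨f, hf1, hf2⟩ := exists_dual_vector ℝ x (by rw [hx]; exact one_ne_zero)
    have hfx : f x = 1 := by
      rw [hf2, hx]
      rfl
    refine lb_aux μ (U x) (V f) (hint x f) ht0 ?_ ?_ ?_
    · calc t * ‖V f‖ ≤ t * M := by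
            refine mul_le_mul_of_nonneg_left ?_ ht0.le
            calc ‖V f‖ ≤ ‖V‖ * ‖f‖ := V.le_opNorm f
              _ ≤ M := by rw [hf1]; linarith
        _ = 1 / 4 := htM
    · intro A hAm hμA
      have := hA A hAm hμA x f
      rwa [hx, hf1, mul_one, mul_one] at this
    · rw [hval x f, hfx, abs_one]
      norm_num
  have key2 : ∀ f : X →L[ℝ] ℝ, ‖f‖ = 1 → t * δ ≤ ‖V f‖ := by
    intro f hf
    obtain ⟨x, hx1, hx2⟩ := f.exists_lt_apply_of_lt_opNorm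
      (show (3 / 4 : ℝ) < ‖f‖ by rw [hf]; norm_num)
    have hcomm : (fun ω => V f ω * U x ω) = fun ω => U x ω * V f ω := by
      funext ω
      ring
    refine lb_aux μ (V f) (U x) (by rw [hcomm]; exact hint x f) ht0 ?_ ?_ ?_
    · calc t * ‖U x‖ ≤ t * M := by
            refine mul_le_mul_of_nonneg_left ?_ ht0.le
            calc ‖U x‖ ≤ ‖U‖ * ‖x‖ := U.le_opNorm x
              _ ≤ ‖U‖ * 1 := mul_le_mul_of_nonneg_left hx1.le hU0
              _ ≤ M := by linarith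
        _ = 1 / 4 := htM
    · intro A hAm hμA
      have h1 := hA A hAm hμA x f
      rw [hcomm]
      refine h1.trans ?_
      rw [hf, mul_one]
      linarith
    · rw [hcomm, hval x f]
      exact hx2.le
  refine ⟨t * δ, by positivity, fun x => ?_, fun f => ?_⟩
  · rcases eq_or_ne x 0 with rfl | hx
    · simp
    · have hx0 : 0 < ‖x‖ := norm_pos_iff.2 hx
      have h1 := key1 (‖x‖⁻¹ • x) (by
        rw [norm_smul, norm_inv, norm_norm, inv_mul_cancel₀ hx0.ne'])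
      rw [map_smul, norm_smul, norm_inv, norm_norm] at h1
      calc t * δ * ‖x‖ ≤ ‖x‖⁻¹ * ‖U x‖ * ‖x‖ := mul_le_mul_of_nonneg_right h1 hx0.le
        _ = ‖U x‖ := by
            rw [mul_comm ‖x‖⁻¹, mul_assoc, inv_mul_cancel₀ hx0.ne', mul_one]
  · rcases eq_or_ne f 0 with rfl | hf
    · simp
    · have hf0 : 0 < ‖f‖ := norm_pos_iff.2 hf
      have h1 := key2 (‖f‖⁻¹ • f) (by
        rw [norm_smul, norm_inv, norm_norm, inv_mul_cancel₀ hf0.ne'])
      rw [map_smul, norm_smul, norm_inv, norm_norm] at h1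
      calc t * δ * ‖f‖ ≤ ‖f‖⁻¹ * ‖V f‖ * ‖f‖ := mul_le_mul_of_nonneg_right h1 hf0.le
        _ = ‖V f‖ := by
            rw [mul_comm ‖f‖⁻¹, mul_assoc, inv_mul_cancel₀ hf0.ne', mul_one]

end Pool.H30.RG
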