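import Pool.Agent.H30.RG.JR

/-!
# [H30 RG ME] The mean ergodic theorem in a reflexive space

`X` separable and reflexive, `T` power bounded (`‖T^n‖ ≤ C` for all `n`). Then the averages
`avgOp T n = n⁻¹ ∑_{j<n} T^j` converge strongly to an operator `E` with `T E = E T = E E = E`.

PROOF.  `‖avgOp T n x‖ ≤ C ‖x‖` (`C ≥ ‖T^0‖ ≥ 0`); `avgOp T n (y - T y) = n⁻¹ (y - T^n y) → 0`. Fix `x`. By
`weak_extract` (`Pool.H30.PM`, with the sequence `avgOp T (n+1) x`) a subsequence converges weakly to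
some `y`. For a functional `f`: `f (y - T y) = lim f ((1 - T) avgOp T (n+1) x) = 0`, because
`(1 - T) avgOp T m x = m⁻¹ (x - T^m x) → 0`; functionals separate points, so `T y = y`. Moreover `x - y` lies in
the closure of the range `F` of `1 - T`: `x - avgOp T m x ∈ F` for `m ≥ 1` (it is
`m⁻¹ ∑_{j<m} (x - T^j x)` and `x - T^j x = (1 - T)(x + T x + ... + T^(j-1) x)`), and a closed subspace is
weakly closed: if `x - y ∉ closure F` there is a functional `f` vanishing on `F` with `f (x - y) ≠ 0`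
(Hahn-Banach, see the private lemma `er_sep` in `Pool/Agent/H30/PM/ER.lean`), but
`f (x - avgOp T m x) = 0` for all `m ≥ 1` and the weak limit gives `f (x - y) = 0`. On `closure F` the averages
tend to `0` (true on `F`, uniform bound `C`). So `avgOp T n x = avgOp T n y + avgOp T n (x - y) → y` since
`avgOp T n y = y` for `n ≥ 1`. Define `E x = y = lim avgOp T n x`: linear, `‖E x‖ ≤ C ‖x‖`, `T E x = E x`,
`E T x = lim avgOp T n (T x) = lim (avgOp T n x + n⁻¹ (T^n x - x)) = E x`, `E E x = E x` because `E x` is fixed by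
`T`.
-/

namespace Pool.H30.RG

open Filter Topology

variable {𝕜 : Type*} [RCLike 𝕜]

private theorem me_sep {E : Type*} [NormedAddCommGroup E] [NormedSpace 𝕜 E] (p : Submodule 𝕜 E)
    (hp : IsClosed (p : Set E)) (x : E) (hx : x ∉ p) :
    ∃ φ : E →L[𝕜] 𝕜, φ x ≠ 0 ∧ ∀ y ∈ p, φ y = 0 := by
  let _ : Module ℝ E := RestrictScalars.module ℝ 𝕜 E
  let _ : IsScalarTower ℝ 𝕜 E := RestrictScalars.isScalarTower _ _ _
  let _ : NormedSpace ℝ E := NormedSpace.restrictScalars _ 𝕜 _
  have hconv : Convex ℝ (p : Set E) := (p.restrictScalars ℝ).convex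
  obtain ⟨f, u, hfx, hf⟩ := RCLike.geometric_hahn_banach_point_closed (𝕜 := 𝕜) hconv hp hx
  have hu0 : u < 0 := by
    have := hf 0 p.zero_mem
    simpa using this
  refine ⟨f, ?_, ?_⟩
  · intro h0
    rw [h0, map_zero] at hfx
    linarith
  · intro y hy
    by_contra hne
    have h1 := hf ((((u - 1 : ℝ) : 𝕜) * (f y)⁻¹) • y) (p.smul_mem _ hy)
    rw [map_smul, smul_eq_mul, mul_assoc, inv_mul_cancel₀ hne, mul_one, RCLike.ofReal_re] at h1
    linarith

section

variable {X : Type*} [NormedAddCommGroup X] [NormedSpace 𝕜 X]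

private theorem avg_le (T : X →L[𝕜] X) (C : ℝ) (hC : ∀ n : ℕ, ‖T ^ n‖ ≤ C) (n : ℕ) :
    ‖Pool.H30.PM.avgOp T n‖ ≤ C := by
  have hC0 : 0 ≤ C := (norm_nonneg _).trans (hC 0)
  unfold Pool.H30.PM.avgOp
  rcases Nat.eq_zero_or_pos n with h0 | h0
  · subst h0
    simpa using hC0
  · have hn : (0 : ℝ) < n := by exact_mod_cast h0
    rw [norm_smul, norm_inv, RCLike.norm_natCast]
    have h1 : ‖∑ j ∈ Finset.range n, T ^ j‖ ≤ n * C := by
      refine (norm_sum_le _ _).trans ?_
      refine (Finset.sum_le_card_nsmul _ _ C fun j _ => hC j).trans ?_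
      rw [Finset.card_range, nsmul_eq_mul]
    calc (n : ℝ)⁻¹ * ‖∑ j ∈ Finset.range n, T ^ j‖ ≤ (n : ℝ)⁻¹ * (n * C) :=
          mul_le_mul_of_nonneg_left h1 (inv_nonneg.2 hn.le)
      _ = C := by rw [← mul_assoc, inv_mul_cancel₀ hn.ne', one_mul]

private theorem sub_mul_avg (T : X →L[𝕜] X) (n : ℕ) :
    (1 - T) * Pool.H30.PM.avgOp T n = ((n : 𝕜)⁻¹) • (1 - T ^ n) := by
  unfold Pool.H30.PM.avgOp
  rw [mul_smul_comm, mul_neg_geom_sum]

private theorem avg_mul_sub (T : X →L[𝕜] X) (n : ℕ) :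
    Pool.H30.PM.avgOp T n * (1 - T) = ((n : 𝕜)⁻¹) • (1 - T ^ n) := by
  unfold Pool.H30.PM.avgOp
  rw [smul_mul_assoc, geom_sum_mul_neg]

private theorem small (T : X →L[𝕜] X) (C : ℝ) (hC : ∀ n : ℕ, ‖T ^ n‖ ≤ C) (x : X) :
    Tendsto (fun n : ℕ => (((n : 𝕜)⁻¹) • ((1 : X →L[𝕜] X) - T ^ n)) x) atTop (𝓝 0) := by
  have h1 : Tendsto (fun n : ℕ => (n : ℝ)⁻¹ * ((1 + C) * ‖x‖)) atTop (𝓝 0) := by
    have := (tendsto_inv_atTop_nhds_zero_nat (𝕜 := ℝ)).mul_const ((1 + C) * ‖x‖)
    rwa [zero_mul] at this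
  refine squeeze_zero_norm (fun n => ?_) h1
  rw [ContinuousLinearMap.smul_apply, norm_smul, norm_inv, RCLike.norm_natCast]
  refine mul_le_mul_of_nonneg_left ?_ (inv_nonneg.2 (Nat.cast_nonneg n))
  have h2 : ‖(T ^ n) x‖ ≤ C * ‖x‖ :=
    ((T ^ n).le_opNorm x).trans (mul_le_mul_of_nonneg_right (hC n) (norm_nonneg _))
  calc ‖((1 : X →L[𝕜] X) - T ^ n) x‖ = ‖x - (T ^ n) x‖ := rfl
    _ ≤ ‖x‖ + ‖(T ^ n) x‖ := norm_sub_le _ _
    _ ≤ ‖x‖ + C * ‖x‖ := by linarith
    _ = (1 + C) * ‖x‖ := by ring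

private theorem avg_fix (T : X →L[𝕜] X) {y : X} (hy : T y = y) (n : ℕ) (hn : n ≠ 0) :
    Pool.H30.PM.avgOp T n y = y := by
  have h1 : ∀ j : ℕ, (T ^ j) y = y := by
    intro j
    induction j with
    | zero => rfl
    | succ j ih =>
      rw [pow_succ]
      show (T ^ j) (T y) = y
      rw [hy, ih]
  unfold Pool.H30.PM.avgOp
  rw [ContinuousLinearMap.smul_apply, ContinuousLinearMap.sum_apply]
  rw [Finset.sum_congr rfl fun j _ => h1 j, Finset.sum_const, Finset.card_range,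
    ← Nat.cast_smul_eq_nsmul 𝕜, smul_smul, inv_mul_cancel₀, one_smul]
  exact_mod_cast hn

private theorem sub_avg_mem (T : X →L[𝕜] X) (x : X) (n : ℕ) (hn : n ≠ 0) :
    x - Pool.H30.PM.avgOp T n x ∈
      LinearMap.range (((1 : X →L[𝕜] X) - T : X →L[𝕜] X) : X →ₗ[𝕜] X) := by
  have h1 : x - Pool.H30.PM.avgOp T n x =
      ((n : 𝕜)⁻¹) • ∑ j ∈ Finset.range n, ((1 : X →L[𝕜] X) - T ^ j) x := by
    have h2 : ∑ j ∈ Finset.range n, ((1 : X →L[𝕜] X) - T ^ j) x =
        (n : 𝕜) • x - ∑ j ∈ Finset.range n, (T ^ j) x := by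
      have : ∀ j ∈ Finset.range n, ((1 : X →L[𝕜] X) - T ^ j) x = x - (T ^ j) x := fun _ _ => rfl
      rw [Finset.sum_congr rfl this, Finset.sum_sub_distrib, Finset.sum_const,
        Finset.card_range, ← Nat.cast_smul_eq_nsmul 𝕜]
    rw [h2, smul_sub, smul_smul, inv_mul_cancel₀ (by exact_mod_cast hn), one_smul]
    unfold Pool.H30.PM.avgOp
    rw [ContinuousLinearMap.smul_apply, ContinuousLinearMap.sum_apply]
  rw [h1]
  refine Submodule.smul_mem _ _ (Submodule.sum_mem _ fun j _ => ?_)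
  rw [← mul_neg_geom_sum T j]
  exact ⟨(∑ i ∈ Finset.range j, T ^ i) x, rfl⟩

end

theorem mean_ergodic {𝕜 : Type*} [RCLike 𝕜] {X : Type*} [NormedAddCommGroup X] [NormedSpace 𝕜 X]
    [TopologicalSpace.SeparableSpace X] (hr : Pool.H30.PM.Reflexive 𝕜 X) (T : X →L[𝕜] X) (C : ℝ)
    (hC : ∀ n : ℕ, ‖T ^ n‖ ≤ C) :
    ∃ E : X →L[𝕜] X, (∀ x, Tendsto (fun n => Pool.H30.PM.avgOp T n x) atTop (𝓝 (E x))) ∧
      T * E = E ∧ E * T = E ∧ E * E = E := by
  have hC0 : 0 ≤ C := (norm_nonneg _).trans (hC 0)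
  set R := (LinearMap.range (((1 : X →L[𝕜] X) - T : X →L[𝕜] X) : X →ₗ[𝕜] X)) with hR
  have hAle : ∀ n x, ‖Pool.H30.PM.avgOp T n x‖ ≤ C * ‖x‖ := fun n x =>
    ((Pool.H30.PM.avgOp T n).le_opNorm x).trans
      (mul_le_mul_of_nonneg_right (avg_le T C hC n) (norm_nonneg _))
  -- on the closure of the range the averages tend to zero
  have hclos : ∀ z ∈ R.topologicalClosure,
      Tendsto (fun n => Pool.H30.PM.avgOp T n z) atTop (𝓝 0) := by
    intro z hz
    rw [Metric.tendsto_atTop]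
    intro ε hε
    rw [← SetLike.mem_coe, Submodule.topologicalClosure_coe, Metric.mem_closure_iff] at hz
    obtain ⟨z', hz'R, hz'⟩ := hz (ε / (2 * (C + 1))) (by positivity)
    obtain ⟨w, rfl⟩ := hz'R
    rw [dist_eq_norm] at hz'
    have h1 := small T C hC w
    rw [Metric.tendsto_atTop] at h1
    obtain ⟨N, hN⟩ := h1 (ε / 2) (by positivity)
    refine ⟨N, fun n hn => ?_⟩
    have h2 := hN n hn
    rw [dist_zero_right] at h2 ⊢
    rw [← avg_mul_sub] at h2
    have h3 : Pool.H30.PM.avgOp T n z = Pool.H30.PM.avgOp T n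
        (z - (((1 : X →L[𝕜] X) - T : X →L[𝕜] X) : X →ₗ[𝕜] X) w) +
        (Pool.H30.PM.avgOp T n * (1 - T)) w := by
      rw [map_sub]
      show _ = _ - Pool.H30.PM.avgOp T n ((1 - T) w) + Pool.H30.PM.avgOp T n ((1 - T) w)
      rw [sub_add_cancel]
    rw [h3]
    have h4 : C * ‖z - (((1 : X →L[𝕜] X) - T : X →L[𝕜] X) : X →ₗ[𝕜] X) w‖ ≤ ε / 2 := by
      calc C * ‖z - (((1 : X →L[𝕜] X) - T : X →L[𝕜] X) : X →ₗ[𝕜] X) w‖
          ≤ (C + 1) * (ε / (2 * (C + 1))) :=
            mul_le_mul (by linarith) hz'.le (norm_nonneg _) (by linarith)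
        _ = ε / 2 := by field_simp
    calc _ ≤ ‖Pool.H30.PM.avgOp T n
          (z - (((1 : X →L[𝕜] X) - T : X →L[𝕜] X) : X →ₗ[𝕜] X) w)‖ +
          ‖(Pool.H30.PM.avgOp T n * (1 - T)) w‖ := norm_add_le _ _
      _ < ε / 2 + ε / 2 := add_lt_add_of_le_of_lt ((hAle _ _).trans h4) h2
      _ = ε := by ring
  -- the decomposition
  have hdec : ∀ x, ∃ y, T y = y ∧ x - y ∈ R.topologicalClosure := by
    intro x
    obtain ⟨φ, y, hφ, -, hwn⟩ := Pool.H30.PM.weak_extract hr
      (fun n => Pool.H30.PM.avgOp T (n + 1) x) (C * ‖x‖) (fun n => hAle _ _)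
    have hφ' : Tendsto (fun n => φ n + 1) atTop atTop :=
      (tendsto_add_atTop_nat 1).comp hφ.tendsto_atTop
    refine ⟨y, ?_, ?_⟩
    · have h1 : y - T y = 0 := by
        by_contra hne
        obtain ⟨f, hf, -⟩ := me_sep (⊥ : Submodule 𝕜 X) isClosed_singleton (y - T y)
          (by simpa using hne)
        have h2 := hwn (f.comp (1 - T))
        have h3 : Tendsto (fun n => f ((((1 : X →L[𝕜] X) - T) *
            Pool.H30.PM.avgOp T (φ n + 1)) x)) atTop (𝓝 0) := by
          have h4 := (f.continuous.tendsto 0).comp ((small T C hC x).comp hφ')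
          rw [map_zero] at h4
          refine h4.congr fun n => ?_
          simp only [Function.comp_apply]
          rw [sub_mul_avg]
        have h5 : ∀ n, (f.comp ((1 : X →L[𝕜] X) - T)) (Pool.H30.PM.avgOp T (φ n + 1) x - y) =
            f ((((1 : X →L[𝕜] X) - T) * Pool.H30.PM.avgOp T (φ n + 1)) x) - f (y - T y) := by
          intro n
          rw [map_sub]
          rfl
        have h6 := h3.sub_const (f (y - T y))
        have h7 := tendsto_nhds_unique (h2.congr h5) h6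
        rw [zero_sub, eq_comm, neg_eq_zero] at h7
        exact hf h7
      exact (sub_eq_zero.1 h1).symm
    · by_contra hne
      obtain ⟨f, hf, hfR⟩ := me_sep R.topologicalClosure
        (Submodule.isClosed_topologicalClosure _) (x - y) hne
      have h2 := hwn f
      have h5 : ∀ n, f (Pool.H30.PM.avgOp T (φ n + 1) x - y) = f (x - y) := by
        intro n
        have h6 := hfR _ (Submodule.le_topologicalClosure _
          (sub_avg_mem T x (φ n + 1) (Nat.succ_ne_zero _)))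
        rw [map_sub, sub_eq_zero] at h6
        rw [map_sub, map_sub, h6]
      have h7 := tendsto_nhds_unique (h2.congr h5) tendsto_const_nhds
      exact hf h7.symm
  have hlim : ∀ x y, T y = y → x - y ∈ R.topologicalClosure →
      Tendsto (fun n => Pool.H30.PM.avgOp T n x) atTop (𝓝 y) := by
    intro x y hy hxy
    have h1 := hclos _ hxy
    have h2 : Tendsto (fun n => y + Pool.H30.PM.avgOp T n (x - y)) atTop (𝓝 (y + 0)) :=
      tendsto_const_nhds.add h1
    rw [add_zero] at h2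
    refine h2.congr' ?_
    filter_upwards [eventually_ne_atTop 0] with n hn
    rw [map_sub, avg_fix T hy n hn, add_sub_cancel]
  choose y hyT hyR using hdec
  have hy : ∀ x, Tendsto (fun n => Pool.H30.PM.avgOp T n x) atTop (𝓝 (y x)) := fun x =>
    hlim x (y x) (hyT x) (hyR x)
  let E0 : X →ₗ[𝕜] X :=
    { toFun := y
      map_add' := by
        intro a b
        refine tendsto_nhds_unique (hy (a + b)) ?_
        refine ((hy a).add (hy b)).congr fun n => ?_
        rw [map_add]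
      map_smul' := by
        intro c a
        refine tendsto_nhds_unique (hy (c • a)) ?_
        refine ((hy a).const_smul c).congr fun n => ?_
        rw [map_smul] }
  have hE0 : ∀ x, ‖E0 x‖ ≤ C * ‖x‖ := fun x =>
    le_of_tendsto (hy x).norm (Eventually.of_forall fun n => hAle n x)
  refine ⟨E0.mkContinuous C hE0, hy, ?_, ?_, ?_⟩
  · apply ContinuousLinearMap.ext
    intro x
    exact hyT x
  · apply ContinuousLinearMap.ext
    intro x
    show y (T x) = y x
    refine tendsto_nhds_unique (hy (T x)) ?_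
    have h1 := (hy x).sub (small T C hC x)
    rw [sub_zero] at h1
    refine h1.congr fun n => ?_
    rw [← avg_mul_sub]
    show _ - Pool.H30.PM.avgOp T n (x - T x) = _
    rw [map_sub, sub_sub_cancel]
  · apply ContinuousLinearMap.ext
    intro x
    show y (y x) = y x
    refine tendsto_nhds_unique (hy (y x)) ?_
    refine tendsto_const_nhds.congr' ?_
    filter_upwards [eventually_ne_atTop 0] with n hn
    rw [avg_fix T (hyT x) n hn]

end Pool.H30.RG
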