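import Pool.Agent.H30.RG.VL

/-!
# [H30 RG MF] The modulus of a functional on a Banach lattice

PROOF.  (Riesz, Kantorovich.) For `z ≥ 0` let `q z = sup {y w | |w| ≤ z}`, a real number between `0` (`w = 0`)
and `‖y‖ ‖z‖` (`|w| ≤ z = |z|` gives `‖w‖ ≤ ‖z‖`). `q` is additive on the positive cone: `≥` is clear
(`|w1 + w2| ≤ z1 + z2`); for `≤` let `|w| ≤ z1 + z2`, put `w1 = (w ⊓ z1) ⊔ (-z1)`, `w2 = w - w1`; then
`|w1| ≤ z1` and `|w2| ≤ z2` (elementary: `w - w1 = (w - z1)⁺ - (w + z1)⁻`, each part at most `z2`, disjoint; or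
by the identity `w - (w ⊓ z1) = (w - z1)⁺ ≤ z2` etc.). `q (r z) = r q z` for `r ≥ 0` (`vl_abs_smul`). Define
`ψ z = q z⁺ - q z⁻`; if `z = a - b` with `a, b ≥ 0` then `ψ z = q a - q b` (as `z⁺ + b = a + z⁻` and `q` is
additive); so `ψ` is linear, `ψ z = q z ≥ 0` for `z ≥ 0`, `y z ≤ q |z| = ψ |z|` and `-y z = y (-z) ≤ ψ |z|`. Norm:
`|ψ z| ≤ ψ |z| = q |z| ≤ ‖y‖ ‖|z|‖ = ‖y‖ ‖z‖` (`norm_abs_eq_norm`). `LinearMap.mkContinuous`.
-/

namespace Pool.H30.RG

section modulus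

variable {L : Type*} [NormedAddCommGroup L] [Lattice L] [IsOrderedAddMonoid L]
    [HasSolidNorm L] [NormedSpace ℝ L] [PosSMulMono ℝ L]

/-- `sup {y w | |w| ≤ z}`. -/
private noncomputable def mq (y : L →L[ℝ] ℝ) (z : L) : ℝ := sSup {t : ℝ | ∃ w : L, |w| ≤ z ∧ t = y w}

private theorem mq_bdd (y : L →L[ℝ] ℝ) {z : L} (hz : 0 ≤ z) {w : L} (hw : |w| ≤ z) :
    y w ≤ ‖y‖ * ‖z‖ := by
  have h1 : ‖w‖ ≤ ‖z‖ := norm_le_norm_of_abs_le_abs (by rwa [abs_of_nonneg hz])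
  calc y w ≤ ‖y w‖ := le_abs_self _
    _ ≤ ‖y‖ * ‖w‖ := y.le_opNorm w
    _ ≤ ‖y‖ * ‖z‖ := by gcongr

private theorem le_mq (y : L →L[ℝ] ℝ) {z : L} (hz : 0 ≤ z) {w : L} (hw : |w| ≤ z) :
    y w ≤ mq y z := by
  refine le_csSup ⟨‖y‖ * ‖z‖, ?_⟩ ⟨w, hw, rfl⟩
  rintro t ⟨w', hw', rfl⟩
  exact mq_bdd y hz hw'

private theorem mq_le (y : L →L[ℝ] ℝ) {z : L} (hz : 0 ≤ z) {b : ℝ}
    (h : ∀ w : L, |w| ≤ z → y w ≤ b) : mq y z ≤ b := by
  refine csSup_le ⟨0, 0, by simpa using hz, by simp⟩ ?_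
  rintro t ⟨w, hw, rfl⟩
  exact h w hw

private theorem mq_nonneg (y : L →L[ℝ] ℝ) {z : L} (hz : 0 ≤ z) : 0 ≤ mq y z := by
  have := le_mq y hz (w := 0) (by simpa using hz)
  simpa using this

private theorem mq_add (y : L →L[ℝ] ℝ) {a b : L} (ha : 0 ≤ a) (hb : 0 ≤ b) :
    mq y (a + b) = mq y a + mq y b := by
  apply le_antisymm
  · refine mq_le y (add_nonneg ha hb) ?_
    intro w hw
    have hw1 : w ≤ a + b := (le_abs_self w).trans hw
    have hw2 : -w ≤ a + b := (neg_le_abs w).trans hw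
    have h1 : |(w ⊓ a) ⊔ (-a)| ≤ a := by
      refine abs_le'.mpr ⟨sup_le inf_le_right ((neg_nonpos.mpr ha).trans ha), ?_⟩
      have : -a ≤ (w ⊓ a) ⊔ (-a) := le_sup_right
      exact neg_le.mp this
    have h2 : |w - (w ⊓ a) ⊔ (-a)| ≤ b := by
      refine abs_le'.mpr ⟨?_, ?_⟩
      · rw [sub_le_comm]
        refine le_sup_of_le_left (le_inf (sub_le_self w hb) ?_)
        rw [sub_le_iff_le_add]
        exact hw1
      · rw [neg_sub, sub_le_iff_le_add]
        refine sup_le (inf_le_left.trans (le_add_of_nonneg_left hb)) ?_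
        rw [neg_le_iff_add_nonneg']
        have : 0 ≤ w + (a + b) := by
          rw [← neg_le_iff_add_nonneg']
          exact hw2
        calc (0 : L) ≤ w + (a + b) := this
          _ = a + (b + w) := by abel
    have h3 := le_mq y ha h1
    have h4 := le_mq y hb h2
    rw [map_sub] at h4
    linarith
  · have key : ∀ w1 : L, |w1| ≤ a → ∀ w2 : L, |w2| ≤ b → y w1 + y w2 ≤ mq y (a + b) := by
      intro w1 h1 w2 h2
      rw [← map_add]
      exact le_mq y (add_nonneg ha hb) ((abs_add_le w1 w2).trans (add_le_add h1 h2))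
    have h1 : mq y a ≤ mq y (a + b) - mq y b := by
      refine mq_le y ha ?_
      intro w1 h1
      have h2 : mq y b ≤ mq y (a + b) - y w1 := by
        refine mq_le y hb ?_
        intro w2 h2
        have := key w1 h1 w2 h2
        linarith
      linarith
    linarith

private theorem mq_zero (y : L →L[ℝ] ℝ) : mq y 0 = 0 := by
  have := mq_add y (le_refl (0 : L)) (le_refl (0 : L))
  rw [add_zero] at this
  linarith

private theorem mq_smul_le (y : L →L[ℝ] ℝ) {r : ℝ} (hr : 0 < r) {a : L} (ha : 0 ≤ a) :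
    mq y (r • a) ≤ r * mq y a := by
  refine mq_le y (smul_nonneg hr.le ha) ?_
  intro w hw
  have h1 : |r⁻¹ • w| ≤ a := by
    rw [vl_abs_smul, abs_of_pos (inv_pos.mpr hr)]
    have := smul_le_smul_of_nonneg_left hw (inv_pos.mpr hr).le
    rwa [smul_smul, inv_mul_cancel₀ hr.ne', one_smul] at this
  have h2 := le_mq y ha h1
  rw [map_smul, smul_eq_mul] at h2
  have h3 := mul_le_mul_of_nonneg_left h2 hr.le
  rwa [← mul_assoc, mul_inv_cancel₀ hr.ne', one_mul] at h3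

private theorem mq_smul (y : L →L[ℝ] ℝ) {r : ℝ} (hr : 0 ≤ r) {a : L} (ha : 0 ≤ a) :
    mq y (r • a) = r * mq y a := by
  rcases hr.eq_or_lt with h | h
  · rw [← h, zero_smul, zero_mul, mq_zero]
  · apply le_antisymm (mq_smul_le y h ha)
    have h1 := mq_smul_le y (inv_pos.mpr h) (smul_nonneg hr ha)
    rw [smul_smul, inv_mul_cancel₀ h.ne', one_smul] at h1
    have h2 := mul_le_mul_of_nonneg_left h1 h.le
    rwa [← mul_assoc, mul_inv_cancel₀ h.ne', one_mul] at h2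

private theorem mq_diff (y : L →L[ℝ] ℝ) {a b c d : L} (ha : 0 ≤ a) (hb : 0 ≤ b) (hc : 0 ≤ c)
    (hd : 0 ≤ d) (h : a - b = c - d) : mq y a - mq y b = mq y c - mq y d := by
  have h1 : a + d = c + b := by
    rw [sub_eq_sub_iff_add_eq_add] at h
    exact h
  have h2 := mq_add y ha hd
  rw [h1, mq_add y hc hb] at h2
  linarith

private theorem mpos (z : L) : (0 : L) ≤ z ⊔ 0 := le_sup_right

private theorem mdec (z : L) : z ⊔ 0 - (-z) ⊔ 0 = z := by
  have h1 : (-z) ⊔ 0 = z ⊔ 0 - z := by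
    rw [← sub_eq_zero]
    have h2 : (-z) ⊔ 0 + z = 0 ⊔ z := by
      rw [sup_add]
      simp
    have h3 : (-z) ⊔ 0 - (z ⊔ 0 - z) = ((-z) ⊔ 0 + z) - z ⊔ 0 := by abel
    rw [h3, h2, sup_comm, sub_self]
  rw [h1]
  abel

/-- The functional `ψ`. -/
private noncomputable def mpsi (y : L →L[ℝ] ℝ) : L →ₗ[ℝ] ℝ where
  toFun z := mq y (z ⊔ 0) - mq y ((-z) ⊔ 0)
  map_add' z w := by
    have h := mq_diff y (mpos (z + w)) (mpos (-(z + w))) (add_nonneg (mpos z) (mpos w))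
      (add_nonneg (mpos (-z)) (mpos (-w))) (by
        rw [mdec]
        have h1 := mdec z
        have h2 := mdec w
        calc z + w = (z ⊔ 0 - (-z) ⊔ 0) + (w ⊔ 0 - (-w) ⊔ 0) := by rw [h1, h2]
          _ = _ := by abel)
    rw [h, mq_add y (mpos z) (mpos w), mq_add y (mpos (-z)) (mpos (-w))]
    ring
  map_smul' r z := by
    simp only [RingHom.id_apply, smul_eq_mul]
    rcases le_total 0 r with hr | hr
    · have h := mq_diff y (mpos (r • z)) (mpos (-(r • z))) (smul_nonneg hr (mpos z))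
        (smul_nonneg hr (mpos (-z))) (by rw [mdec, ← smul_sub, mdec])
      rw [h, mq_smul y hr (mpos z), mq_smul y hr (mpos (-z))]
      ring
    · have hr' : 0 ≤ -r := by linarith
      have h := mq_diff y (mpos (r • z)) (mpos (-(r • z))) (smul_nonneg hr' (mpos (-z)))
        (smul_nonneg hr' (mpos z)) (by
          rw [mdec, ← smul_sub]
          have h1 : (-z) ⊔ 0 - z ⊔ 0 = -z := by
            rw [← neg_sub, mdec]
          rw [h1, smul_neg, neg_smul, neg_neg])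
      rw [h, mq_smul y hr' (mpos z), mq_smul y hr' (mpos (-z))]
      ring

private theorem mpsi_of_nonneg (y : L →L[ℝ] ℝ) {z : L} (hz : 0 ≤ z) : mpsi y z = mq y z := by
  show mq y (z ⊔ 0) - mq y ((-z) ⊔ 0) = mq y z
  rw [sup_eq_left.mpr hz, sup_eq_right.mpr (neg_nonpos.mpr hz), mq_zero, sub_zero]

private theorem mpsi_nonneg (y : L →L[ℝ] ℝ) {z : L} (hz : 0 ≤ z) : 0 ≤ mpsi y z := by
  rw [mpsi_of_nonneg y hz]
  exact mq_nonneg y hz

private theorem mpsi_abs (y : L →L[ℝ] ℝ) (z : L) : |mpsi y z| ≤ mpsi y |z| := by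
  have h1 : 0 ≤ mpsi y (|z| - z) := mpsi_nonneg y (sub_nonneg.mpr (le_abs_self z))
  have h2 : 0 ≤ mpsi y (|z| + z) := by
    refine mpsi_nonneg y ?_
    rw [← neg_le_iff_add_nonneg]
    exact neg_le_abs z
  rw [map_sub] at h1
  rw [map_add] at h2
  rw [abs_le]
  constructor <;> linarith

private theorem mpsi_bound (y : L →L[ℝ] ℝ) (z : L) : ‖mpsi y z‖ ≤ ‖y‖ * ‖z‖ := by
  rw [Real.norm_eq_abs]
  refine (mpsi_abs y z).trans ?_
  rw [mpsi_of_nonneg y (abs_nonneg z)]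
  refine mq_le y (abs_nonneg z) ?_
  intro w hw
  have := mq_bdd y (abs_nonneg z) hw
  rwa [norm_abs_eq_norm] at this

end modulus

theorem modulus_functional {L : Type*} [NormedAddCommGroup L] [Lattice L] [IsOrderedAddMonoid L]
    [HasSolidNorm L] [NormedSpace ℝ L] [PosSMulMono ℝ L] (y : L →L[ℝ] ℝ) :
    ∃ ψ : L →L[ℝ] ℝ, (∀ z, 0 ≤ z → 0 ≤ ψ z) ∧ (∀ z, |y z| ≤ ψ |z|) ∧ ‖ψ‖ ≤ ‖y‖ := by
  refine ⟨(mpsi y).mkContinuous ‖y‖ (mpsi_bound y), ?_, ?_, ?_⟩
  · intro z hz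
    exact mpsi_nonneg y hz
  · intro z
    show |y z| ≤ mpsi y |z|
    rw [mpsi_of_nonneg y (abs_nonneg z)]
    have h1 := le_mq y (abs_nonneg z) (w := z) le_rfl
    have h2 := le_mq y (abs_nonneg z) (w := -z) (by rw [abs_neg])
    rw [map_neg] at h2
    rw [abs_le]
    constructor <;> linarith
  · exact LinearMap.mkContinuous_norm_le _ (norm_nonneg y) _

end Pool.H30.RG
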