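import Pool.Agent.H30.RG.SW

/-!
# [H30 RG MZ] Mazur's theorem for the weak operator topology

If every operator on `X` attains its norm and `T n → T0` in the weak operator topology (bounded
sequence), then `T0` is a norm limit of convex combinations of the `T n`, `n ≥ N`.

PROOF.  Suppose not: for some `ε > 0`, `N` every convex combination `R` of the `T n`, `n ≥ N`, satisfies
`‖R - T0‖ ≥ ε`. Use the real structure on `X` given by restriction of scalars
(`let _ : NormedSpace ℝ X := NormedSpace.restrictScalars ℝ 𝕜 X` etc., as in the private lemma `er_sep` of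
`Pool/Agent/H30/PM/ER.lean`). Let `Cs n = convexHull ℝ {((ε⁻¹ : ℝ) : 𝕜) • (T k - T0) | k ≥ N + n}`. These sets
are nonempty, convex, decreasing, bounded by `ε⁻¹ (B + ‖T0‖)`; each element of `Cs 0` is
`ε⁻¹ (R - T0)` with `R` a convex combination (`mem_convexHull_iff_exists_fintype` or
`Finset.mem_convexHull`, or prove by `convexHull_min` that `Cs 0` is contained in the convex set of all
`ε⁻¹ (R - T0)`), so has norm `≥ 1`. If `R n ∈ Cs n` then `f (R n x) → 0`: given `η > 0` there is `M` with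
`‖f (ε⁻¹ (T k x - T0 x))‖ ≤ η` for `k ≥ M`; the set of operators `S` with `‖f (S x)‖ ≤ η` is convex, so it
contains `Cs n` for `N + n ≥ M`. `simons_wot` gives the contradiction.
-/

namespace Pool.H30.RG

open Filter Topology

theorem mazur_wot {𝕜 : Type*} [RCLike 𝕜] {X : Type*} [NormedAddCommGroup X] [NormedSpace 𝕜 X]
    [CompleteSpace X] (h : AllAttain 𝕜 X) (T : ℕ → (X →L[𝕜] X)) (T0 : X →L[𝕜] X) (B : ℝ)
    (hB : ∀ n, ‖T n‖ ≤ B)
    (hw : ∀ (x : X) (f : X →L[𝕜] 𝕜), Tendsto (fun n => f (T n x)) atTop (𝓝 (f (T0 x))))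
    (ε : ℝ) (hε : 0 < ε) (N : ℕ) :
    ∃ (s : Finset ℕ) (w : ℕ → ℝ), (∀ n ∈ s, N ≤ n) ∧ (∀ n, 0 ≤ w n) ∧ (∑ n ∈ s, w n = 1) ∧
      ‖(∑ n ∈ s, ((w n : ℝ) : 𝕜) • T n) - T0‖ < ε := by
  classical
  let _ : NormedSpace ℝ X := NormedSpace.restrictScalars ℝ 𝕜 X
  let _ : IsScalarTower ℝ 𝕜 X := RestrictScalars.isScalarTower ℝ 𝕜 X
  by_contra hno
  push Not at hno
  have hB0 : 0 ≤ B := (norm_nonneg _).trans (hB 0)
  -- the real and the 𝕜 action agree
  have hsm : ∀ (r : ℝ) (S : X →L[𝕜] X), ((r : ℝ) : 𝕜) • S = r • S := by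
    intro r S
    ext x
    exact (RCLike.real_smul_eq_coe_smul (K := 𝕜) r (S x)).symm
  let G : ℕ → Set (X →L[𝕜] X) := fun n => {S | ∃ k, N + n ≤ k ∧ S = (ε⁻¹ : ℝ) • (T k - T0)}
  let Cs : ℕ → Set (X →L[𝕜] X) := fun n => convexHull ℝ (G n)
  refine simons_wot Cs ?_ ?_ ?_ (ε⁻¹ * (B + ‖T0‖)) ?_ ?_ ?_ h
  · intro n
    exact ⟨_, subset_convexHull ℝ _ ⟨N + n, le_rfl, rfl⟩⟩
  · intro n
    exact convex_convexHull ℝ _
  · intro n
    refine convexHull_mono ?_
    rintro S ⟨k, hk, rfl⟩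
    exact ⟨k, by omega, rfl⟩
  · intro n R hR
    have hsub : convexHull ℝ (G n) ⊆ Metric.closedBall 0 (ε⁻¹ * (B + ‖T0‖)) := by
      refine convexHull_min ?_ (convex_closedBall _ _)
      rintro S ⟨k, hk, rfl⟩
      rw [Metric.mem_closedBall, dist_zero_right, norm_smul, Real.norm_of_nonneg (by positivity)]
      exact mul_le_mul_of_nonneg_left ((norm_sub_le _ _).trans (by linarith [hB k]))
        (by positivity)
    have := hsub hR
    rwa [Metric.mem_closedBall, dist_zero_right] at this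
  · intro R hR
    -- R is of the form ε⁻¹ (convex combination - T0)
    have hR' : R ∈ convexHull ℝ (G 0) := hR
    rw [mem_convexHull_iff_exists_fintype] at hR'
    obtain ⟨ι, hι, w, z, hw0, hw1, hz, hsum⟩ := hR'
    choose k hk hzk using hz
    -- collect the weights
    let s : Finset ℕ := Finset.univ.image k
    let v : ℕ → ℝ := fun n => ∑ i ∈ Finset.univ.filter (fun i => k i = n), w i
    have hv0 : ∀ n, 0 ≤ v n := fun n => Finset.sum_nonneg (fun i _ => hw0 i)
    have hv1 : ∑ n ∈ s, v n = 1 := by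
      rw [← hw1]
      exact Finset.sum_fiberwise_of_maps_to (fun i _ => Finset.mem_image_of_mem k (Finset.mem_univ i))
        w
    have hvT : ∑ n ∈ s, v n • T n = ∑ i, w i • T (k i) := by
      rw [← Finset.sum_fiberwise_of_maps_to (t := s)
        (fun i _ => Finset.mem_image_of_mem k (Finset.mem_univ i)) (fun i => w i • T (k i))]
      refine Finset.sum_congr rfl (fun n _ => ?_)
      rw [Finset.sum_smul]
      refine Finset.sum_congr rfl (fun i hi => ?_)
      rw [(Finset.mem_filter.mp hi).2]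
    have h1 := hno s v (by
      intro n hn
      obtain ⟨i, _, rfl⟩ := Finset.mem_image.mp hn
      have := hk i
      omega) hv0 hv1
    have h2 : (∑ n ∈ s, ((v n : ℝ) : 𝕜) • T n) - T0 = ε • R := by
      have h3 : (∑ n ∈ s, ((v n : ℝ) : 𝕜) • T n) = ∑ i, w i • T (k i) := by
        rw [← hvT]
        exact Finset.sum_congr rfl (fun n _ => hsm _ _)
      rw [h3, ← hsum, Finset.smul_sum]
      have h4 : ∀ i, ε • w i • z i = w i • T (k i) - w i • T0 := by
        intro i
        rw [hzk i, smul_comm, smul_smul ε, mul_inv_cancel₀ hε.ne', one_smul, smul_sub]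
      rw [Finset.sum_congr rfl (fun i _ => h4 i), Finset.sum_sub_distrib, ← Finset.sum_smul, hw1,
        one_smul]
    rw [h2, norm_smul, Real.norm_of_nonneg hε.le] at h1
    by_contra hlt
    push Not at hlt
    have : ε * ‖R‖ < ε * 1 := mul_lt_mul_of_pos_left hlt hε
    linarith
  · intro R hR x f
    rw [Metric.tendsto_atTop]
    intro η hη
    have hlim : Tendsto (fun k => f ((ε⁻¹ : ℝ) • (T k x - T0 x))) atTop (𝓝 0) := by
      have h1 : Tendsto (fun k => ((ε⁻¹ : ℝ) : 𝕜) * (f (T k x) - f (T0 x))) atTop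
          (𝓝 (((ε⁻¹ : ℝ) : 𝕜) * (f (T0 x) - f (T0 x)))) :=
        ((hw x f).sub_const _).const_mul _
      rw [sub_self, mul_zero] at h1
      refine h1.congr (fun k => ?_)
      rw [RCLike.real_smul_eq_coe_smul (K := 𝕜), map_smul, map_sub, smul_eq_mul]
    obtain ⟨M, hM⟩ := (Metric.tendsto_atTop.mp hlim) (η / 2) (by positivity)
    refine ⟨M, fun n hn => ?_⟩
    have hconv : Convex ℝ {S : X →L[𝕜] X | ‖f (S x)‖ ≤ η / 2} := by
      intro S hS S' hS' a b ha hb hab
      show ‖f ((a • S + b • S') x)‖ ≤ η / 2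
      have e1 : f ((a • S + b • S') x) = (a : 𝕜) * f (S x) + (b : 𝕜) * f (S' x) := by
        rw [← hsm, ← hsm]
        rw [ContinuousLinearMap.add_apply, ContinuousLinearMap.smul_apply,
          ContinuousLinearMap.smul_apply, map_add, map_smul, map_smul, smul_eq_mul, smul_eq_mul]
      rw [e1]
      refine (norm_add_le _ _).trans ?_
      rw [norm_mul, norm_mul, RCLike.norm_ofReal, RCLike.norm_ofReal, abs_of_nonneg ha,
        abs_of_nonneg hb]
      have hS1 : ‖f (S x)‖ ≤ η / 2 := hS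
      have hS2 : ‖f (S' x)‖ ≤ η / 2 := hS'
      nlinarith
    have hsub : convexHull ℝ (G n) ⊆ {S : X →L[𝕜] X | ‖f (S x)‖ ≤ η / 2} := by
      refine convexHull_min ?_ hconv
      rintro S ⟨k, hk, rfl⟩
      have h3 := hM k (by omega)
      rw [dist_zero_right] at h3
      show ‖f (((ε⁻¹ : ℝ) • (T k - T0)) x)‖ ≤ η / 2
      exact h3.le
    have h4 : ‖f (R n x)‖ ≤ η / 2 := hsub (hR n)
    rw [dist_zero_right]
    linarith

end Pool.H30.RG
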