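import Pool.Agent.H93.RG.Defs

/-!
# FG for blocks of size `r`: parameters
-/

set_option autoImplicit false
set_option linter.unusedSectionVars false

namespace Pool.Agent.H30.RG

open Pool.Agent.H93.RG

theorem const_le {X : ℕ} (hX : 2 ≤ X) (a : ℕ) : a ≤ X ^ a :=
  (Nat.lt_two_pow_self).le.trans (Nat.pow_le_pow_left hX a)

theorem lev_pow {r w L X a b : ℕ} (hr : 1 ≤ r) (hX : 2 ≤ X) (hw : w ≤ X ^ a) (hL : L ≤ X ^ b) :
    ∀ i, ∃ C : ℕ, C = Nat.rec b (fun _ c => (r * 2 ^ (r + 2) + 1 + a) + c * (r * r)) i ∧ lev r w L i ≤ X ^ C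
  | 0 => ⟨b, rfl, hL⟩
  | i + 1 => by
    obtain ⟨C, hC, ih⟩ := lev_pow hr hX hw hL i
    refine ⟨(r * 2 ^ (r + 2) + 1 + a) + C * (r * r), by rw [hC], ?_⟩
    have hrr : r * r ≠ 0 := by positivity
    have h1 : lev r w L i ≤ (X ^ C) ^ (r * r) := ih.trans (Nat.le_self_pow hrr _)
    have h2 : lev r w L i ^ (r * r) ≤ (X ^ C) ^ (r * r) := Nat.pow_le_pow_left ih _
    have h3 : 1 ≤ X ^ a := Nat.one_le_pow _ _ (by omega)
    calc lev r w L (i + 1) = r * (2 ^ (r + 2) * w * (lev r w L i) ^ (r * r)) + lev r w L i := rfl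
      _ ≤ r * (2 ^ (r + 2) * X ^ a * (X ^ C) ^ (r * r)) + X ^ a * (X ^ C) ^ (r * r) := by
        refine Nat.add_le_add (Nat.mul_le_mul_left _ (Nat.mul_le_mul (Nat.mul_le_mul_left _ hw) h2)) ?_
        exact h1.trans (Nat.le_mul_of_pos_left _ h3)
      _ = (r * 2 ^ (r + 2) + 1) * X ^ a * (X ^ C) ^ (r * r) := by ring
      _ ≤ X ^ (r * 2 ^ (r + 2) + 1) * X ^ a * (X ^ C) ^ (r * r) :=
        Nat.mul_le_mul_right _ (Nat.mul_le_mul_right _ (const_le hX _))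
      _ = X ^ ((r * 2 ^ (r + 2) + 1 + a) + C * (r * r)) := by
        rw [← pow_add, ← pow_mul, ← pow_add]

/-- the first point set is polynomial in `m t` -/
theorem num (r d k l : ℕ) (hr : 2 ≤ r) : ∃ C : ℕ, ∀ m t q c : ℕ, 2 ≤ m → 1 ≤ t → c < r →
    q = r * (1000 * r * (k + 3) * ((t * m) ^ l * (2 * t + 2) ^ 2)) + 1 →
    lev r (2 * t + 1) (q * (q - 1) * (r - 1) + c) d ≤ (m * t) ^ C := by
  set A := r * (1000 * r * (k + 3)) + 1 with hA
  set b := (A + l + 4) + (A + l + 4) + r with hb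
  refine ⟨Nat.rec b (fun _ c => (r * 2 ^ (r + 2) + 1 + 2) + c * (r * r)) d, ?_⟩
  intro m t q c hm ht hc hq
  set X := m * t with hXdef
  have hX : 2 ≤ X := by nlinarith
  have hXt : 2 * t ≤ X := Nat.mul_le_mul_right t hm
  have hw : 2 * t + 1 ≤ X ^ 2 := by nlinarith
  have hw2 : (2 * t + 2) ^ 2 ≤ X ^ 4 := by
    calc (2 * t + 2) ^ 2 ≤ (X ^ 2) ^ 2 := Nat.pow_le_pow_left (by nlinarith) 2
      _ = X ^ 4 := by ring
  have hqX : q ≤ X ^ (A + l + 4) := by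
    have h1 : (t * m) ^ l * (2 * t + 2) ^ 2 ≤ X ^ l * X ^ 4 := by
      rw [mul_comm t m]
      exact Nat.mul_le_mul_left _ hw2
    have h2 : 1 ≤ X ^ l * X ^ 4 := by
      have := Nat.one_le_pow l X (by omega)
      have := Nat.one_le_pow 4 X (by omega)
      nlinarith
    calc q = r * (1000 * r * (k + 3)) * ((t * m) ^ l * (2 * t + 2) ^ 2) + 1 := by rw [hq]; ring
      _ ≤ r * (1000 * r * (k + 3)) * (X ^ l * X ^ 4) + X ^ l * X ^ 4 :=
        Nat.add_le_add (Nat.mul_le_mul_left _ h1) h2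
      _ = A * (X ^ l * X ^ 4) := by rw [hA]; ring
      _ ≤ X ^ A * (X ^ l * X ^ 4) := Nat.mul_le_mul_right _ (const_le hX A)
      _ = X ^ (A + l + 4) := by rw [← pow_add, ← pow_add]; ring_nf
  have hL : q * (q - 1) * (r - 1) + c ≤ X ^ b := by
    have hq1 : 1 ≤ q := by rw [hq]; omega
    have h1 : q * (q - 1) * (r - 1) + c ≤ q * q * r := by
      obtain ⟨n, rfl⟩ : ∃ n, q = n + 1 := ⟨q - 1, by omega⟩
      obtain ⟨s, rfl⟩ : ∃ s, r = s + 1 := ⟨r - 1, by omega⟩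
      simp only [Nat.add_sub_cancel]
      have : c ≤ s := by omega
      nlinarith [Nat.zero_le (n * s), Nat.zero_le (n * n * s), Nat.zero_le (n * n)]
    calc q * (q - 1) * (r - 1) + c ≤ q * q * r := h1
      _ ≤ X ^ (A + l + 4) * X ^ (A + l + 4) * X ^ r :=
        Nat.mul_le_mul (Nat.mul_le_mul hqX hqX) (const_le hX r)
      _ = X ^ b := by rw [← pow_add, ← pow_add]
  obtain ⟨C, hC, h⟩ := lev_pow (r := r) (w := 2 * t + 1) (L := q * (q - 1) * (r - 1) + c) (by omega) hX hw hL d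
  rw [← hC]
  exact h

end Pool.Agent.H30.RG
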