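import Pool.Agent.H30.RG.Basic

/-!
# [H30 RG PI] Pietsch's domination theorem for `BM Ω`

PROOF.  If `Ω` is empty take `ν = 0` (`BM Ω` is trivial). Otherwise define, for `h ∈ BM Ω`,
`p h = inf` over all `n` and all families `g : Fin n → BM Ω` of `sup_ω (h ω + K ∑ (g k ω)²) - ∑ ‖Q (g k)‖²`
(real `sSup`/`iSup` of a bounded function). For every family the value is `≥ inf h`: with
`M = sup ∑ (g k)² ` one has `sup (h + K ∑ (g k)²) ≥ inf h + K M ≥ inf h + ∑ ‖Q (g k)‖²`. So `p` is a real infimum.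
`p` is sublinear: `p (t h) = t p h` for `t > 0` (scale `g` by `sqrt t`), `p (h + h') ≤ p h + p h'` (join the families:
`Fin.append`; one may use families indexed by finite types or lists instead), `p h ≤ sup h` (empty family).
By the Hahn-Banach theorem for sublinear functionals (`exists_extension_of_le_sublinear` applied to the zero
functional on the zero subspace; `p 0 ≥ 0` as `p 0 ≥ inf 0`) there is a linear `ν` with `ν h ≤ p h` for all `h`.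
`ν h ≤ sup h`: if `h ≥ 0` then `ν (-h) ≤ 0`, i.e. `ν h ≥ 0`; and if `h ≤ a` then `ν h ≤ a`. Family of one function
`g` with `h = -K g²`: `ν (-K g²) ≤ sup (-K g² + K g²) - ‖Q g‖² = -‖Q g‖²`, so `‖Q g‖² ≤ K ν (g²)`.
-/

namespace Pool.H30.RG

section

variable {X : Type*} [NormedAddCommGroup X] [NormedSpace ℝ X] {Ω : Type*} [MeasurableSpace Ω]

private def Vl (Q : BM Ω →ₗ[ℝ] X) (K : ℝ) (h : BM Ω) : Set ℝ :=
  {r | ∃ (n : ℕ) (g : Fin n → BM Ω), ∀ ω,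
    (h : Ω → ℝ) ω + K * ∑ k, (g k : Ω → ℝ) ω ^ 2 - ∑ k, ‖Q (g k)‖ ^ 2 ≤ r}

private theorem vl_of_le (Q : BM Ω →ₗ[ℝ] X) (K : ℝ) (h : BM Ω) (a : ℝ)
    (ha : ∀ ω, (h : Ω → ℝ) ω ≤ a) : a ∈ Vl Q K h := by
  refine ⟨0, Fin.elim0, fun ω => ?_⟩
  rw [Finset.univ_eq_empty, Finset.sum_empty, Finset.sum_empty, mul_zero, add_zero, sub_zero]
  exact ha ω

private theorem le_of_vl [Nonempty Ω] (Q : BM Ω →ₗ[ℝ] X) (K : ℝ) (hK0 : 0 ≤ K)
    (hK : ∀ (n : ℕ) (g : Fin n → BM Ω) (M : ℝ), 0 ≤ M →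
      (∀ ω, ∑ k, (g k : Ω → ℝ) ω ^ 2 ≤ M) → ∑ k, ‖Q (g k)‖ ^ 2 ≤ K * M)
    (h : BM Ω) (c : ℝ) (hc : ∀ ω, c ≤ (h : Ω → ℝ) ω) (r : ℝ) (hr : r ∈ Vl Q K h) : c ≤ r := by
  obtain ⟨n, g, hg⟩ := hr
  have hsq : ∀ ω, 0 ≤ ∑ k, (g k : Ω → ℝ) ω ^ 2 := fun ω => Finset.sum_nonneg fun k _ => sq_nonneg _
  obtain ⟨ω₀⟩ := (inferInstance : Nonempty Ω)
  rcases hK0.eq_or_lt with hK1 | hK1
  · -- `K = 0`
    have hb : ∀ k : Fin n, ∃ b : ℝ, ∀ ω, |(g k : Ω → ℝ) ω| ≤ b := fun k => (g k).2.2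
    choose b hb using hb
    have h1 := hK n g (∑ k, b k ^ 2) (Finset.sum_nonneg fun k _ => sq_nonneg _) (fun ω =>
      Finset.sum_le_sum fun k _ => by
        rw [← sq_abs]
        exact pow_le_pow_left₀ (abs_nonneg _) (hb k ω) 2)
    rw [← hK1, zero_mul] at h1
    have h2 := hg ω₀
    rw [← hK1, zero_mul, add_zero] at h2
    linarith [hc ω₀]
  · have h1 : ∀ ω, ∑ k, (g k : Ω → ℝ) ω ^ 2 ≤ (r - c + ∑ k, ‖Q (g k)‖ ^ 2) / K := by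
      intro ω
      rw [le_div_iff₀ hK1, mul_comm]
      linarith [hg ω, hc ω]
    have h2 := hK n g _ ((hsq ω₀).trans (h1 ω₀)) h1
    rw [mul_div_cancel₀ _ hK1.ne'] at h2
    linarith

private theorem vl_smul (Q : BM Ω →ₗ[ℝ] X) (K : ℝ) (h : BM Ω) (t : ℝ) (ht : 0 < t) (r : ℝ)
    (hr : r ∈ Vl Q K h) : t * r ∈ Vl Q K (t • h) := by
  obtain ⟨n, g, hg⟩ := hr
  refine ⟨n, fun k => Real.sqrt t • g k, fun ω => ?_⟩
  have h1 : ∀ k, ((Real.sqrt t • g k : BM Ω) : Ω → ℝ) ω ^ 2 = t * (g k : Ω → ℝ) ω ^ 2 := by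
    intro k
    change (Real.sqrt t * (g k : Ω → ℝ) ω) ^ 2 = _
    rw [mul_pow, Real.sq_sqrt ht.le]
  have h2 : ∀ k, ‖Q (Real.sqrt t • g k)‖ ^ 2 = t * ‖Q (g k)‖ ^ 2 := by
    intro k
    rw [map_smul, norm_smul, mul_pow, Real.norm_eq_abs, sq_abs, Real.sq_sqrt ht.le]
  have h3 : ((t • h : BM Ω) : Ω → ℝ) ω = t * (h : Ω → ℝ) ω := rfl
  simp only [h1, h2, h3, ← Finset.mul_sum]
  have := mul_le_mul_of_nonneg_left (hg ω) ht.le
  linarith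

private theorem vl_add (Q : BM Ω →ₗ[ℝ] X) (K : ℝ) (h h' : BM Ω) (r r' : ℝ)
    (hr : r ∈ Vl Q K h) (hr' : r' ∈ Vl Q K h') : r + r' ∈ Vl Q K (h + h') := by
  obtain ⟨n, g, hg⟩ := hr
  obtain ⟨n', g', hg'⟩ := hr'
  refine ⟨n + n', Fin.append g g', fun ω => ?_⟩
  have h3 : ((h + h' : BM Ω) : Ω → ℝ) ω = (h : Ω → ℝ) ω + (h' : Ω → ℝ) ω := rfl
  rw [Fin.sum_univ_add, Fin.sum_univ_add, h3]
  simp only [Fin.append_left, Fin.append_right]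
  have := add_le_add (hg ω) (hg' ω)
  linarith

end

theorem pietsch {X : Type*} [NormedAddCommGroup X] [NormedSpace ℝ X] {Ω : Type*}
    [MeasurableSpace Ω] (Q : BM Ω →ₗ[ℝ] X) (K : ℝ) (hK0 : 0 ≤ K)
    (hK : ∀ (n : ℕ) (g : Fin n → BM Ω) (M : ℝ), 0 ≤ M →
      (∀ ω, ∑ k, (g k : Ω → ℝ) ω ^ 2 ≤ M) → ∑ k, ‖Q (g k)‖ ^ 2 ≤ K * M) :
    ∃ ν : BM Ω →ₗ[ℝ] ℝ, (∀ g : BM Ω, (∀ ω, 0 ≤ (g : Ω → ℝ) ω) → 0 ≤ ν g) ∧
      ∀ g : BM Ω, ‖Q g‖ ^ 2 ≤ K * ν (BM.sq g) := by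
  rcases isEmpty_or_nonempty Ω with hΩ | hΩ
  · refine ⟨0, fun g _ => le_rfl, fun g => ?_⟩
    have hg : g = 0 := Subtype.ext (funext fun ω => (IsEmpty.false ω).elim)
    rw [hg, map_zero, norm_zero, LinearMap.zero_apply, mul_zero, zero_pow two_ne_zero]
  have hbdd : ∀ h : BM Ω, BddBelow (Vl Q K h) := by
    intro h
    obtain ⟨c, hc⟩ := h.2.2
    exact ⟨-c, fun r hr => le_of_vl Q K hK0 hK h (-c) (fun ω => (abs_le.1 (hc ω)).1) r hr⟩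
  have hne : ∀ h : BM Ω, (Vl Q K h).Nonempty := by
    intro h
    obtain ⟨c, hc⟩ := h.2.2
    exact ⟨c, vl_of_le Q K h c fun ω => (abs_le.1 (hc ω)).2⟩
  have hle : ∀ (t : ℝ), 0 < t → ∀ h : BM Ω, sInf (Vl Q K (t • h)) ≤ t * sInf (Vl Q K h) := by
    intro t ht h
    rw [← div_le_iff₀' ht]
    refine le_csInf (hne h) fun r hr => ?_
    rw [div_le_iff₀' ht]
    exact csInf_le (hbdd _) (vl_smul Q K h t ht r hr)
  have hhom : ∀ t : ℝ, 0 < t → ∀ h : BM Ω, sInf (Vl Q K (t • h)) = t * sInf (Vl Q K h) := by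
    intro t ht h
    refine le_antisymm (hle t ht h) ?_
    have h1 := hle t⁻¹ (inv_pos.2 ht) (t • h)
    rw [smul_smul, inv_mul_cancel₀ ht.ne', one_smul] at h1
    have h2 := mul_le_mul_of_nonneg_left h1 ht.le
    rw [← mul_assoc, mul_inv_cancel₀ ht.ne', one_mul] at h2
    exact h2
  have hadd : ∀ h h' : BM Ω, sInf (Vl Q K (h + h')) ≤ sInf (Vl Q K h) + sInf (Vl Q K h') := by
    intro h h'
    have h1 : ∀ r ∈ Vl Q K h, sInf (Vl Q K (h + h')) - r ≤ sInf (Vl Q K h') := by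
      intro r hr
      refine le_csInf (hne h') fun r' hr' => ?_
      have := csInf_le (hbdd (h + h')) (vl_add Q K h h' r r' hr hr')
      linarith
    have h2 : sInf (Vl Q K (h + h')) - sInf (Vl Q K h') ≤ sInf (Vl Q K h) := by
      refine le_csInf (hne h) fun r hr => ?_
      linarith [h1 r hr]
    linarith
  have hlow : ∀ x : (⟨⊥, 0⟩ : BM Ω →ₗ.[ℝ] ℝ).domain, (⟨⊥, 0⟩ : BM Ω →ₗ.[ℝ] ℝ) x ≤
      sInf (Vl Q K x) := by
    rintro ⟨x, hx⟩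
    have hx0 : x = 0 := (Submodule.mem_bot ℝ).1 hx
    subst hx0
    change (0 : ℝ) ≤ sInf (Vl Q K 0)
    exact le_csInf (hne 0) fun r hr => le_of_vl Q K hK0 hK 0 0 (fun ω => le_rfl) r hr
  obtain ⟨ν, -, hν⟩ := exists_extension_of_le_sublinear (⟨⊥, 0⟩ : BM Ω →ₗ.[ℝ] ℝ)
    (fun h => sInf (Vl Q K h)) hhom hadd hlow
  · refine ⟨ν, fun g hg => ?_, fun g => ?_⟩
    · have h1 := hν (-g)
      have h2 : sInf (Vl Q K (-g)) ≤ 0 := csInf_le (hbdd _) (vl_of_le Q K (-g) 0 fun ω => by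
        change -(g : Ω → ℝ) ω ≤ 0
        linarith [hg ω])
      rw [map_neg] at h1
      linarith
    · have h1 := hν ((-K) • BM.sq g)
      have h2 : sInf (Vl Q K ((-K) • BM.sq g)) ≤ -‖Q g‖ ^ 2 := by
        refine csInf_le (hbdd _) ⟨1, fun _ => g, fun ω => ?_⟩
        rw [Fin.sum_univ_one, Fin.sum_univ_one]
        change (-K) * (g : Ω → ℝ) ω ^ 2 + K * (g : Ω → ℝ) ω ^ 2 - ‖Q g‖ ^ 2 ≤ -‖Q g‖ ^ 2
        linarith
      rw [map_smul, smul_eq_mul] at h1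
      linarith

end Pool.H30.RG
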