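import Pool.Agent.H30.RG.JR

/-!
# [H30 RG PR] Bounded increasing sequences of projections stabilise

`P n P m = P m P n = P n` for `n ≤ m`, `‖P n‖ ≤ C`. If every operator on the separable space `X` attains
its norm, then `P n` is eventually constant.

PROOF.  `X` is reflexive. (i) `P n x` converges for every `x`: by `weak_extract` (`Pool.H30.PM`) a
subsequence `P (φ n) x` converges weakly to some `y`; for fixed `m` and a functional `f`:
`f (P m (y - P (φ n) x)) → 0` and `P m P (φ n) x = P m x` for `φ n ≥ m`, so `P m y = P m x`. `y` is in the closed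
subspace `Y = closure of ⋃ range (P m)` (a weak limit of elements of `Y`; Hahn-Banach, see the private
lemma `er_sep` of `Pool/Agent/H30/PM/ER.lean`; `⋃ range (P m)` is a subspace because the ranges increase).
For `v ∈ range (P m)`, `P n v = v` for `n ≥ m`; by density and boundedness `P n v → v` for all `v ∈ Y`, so
`P n x = P n y → y`. (ii) Let `P x = lim P n x`, a bounded operator (norm `≤ C`), `P P n = P n P = P n`. By `mazur_wot`
(`T n = P n`, `T0 = P`, `ε = 1/(C+1)`) there is a convex combination `R = ∑_{n ∈ s} w n P n` with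
`‖R - P‖ < 1/(C+1)`. Let `k` be the maximum of `s` (`s` is nonempty as `∑ w = 1`). For `m ≥ k` let
`Q = P m - P k`, a projection (`Q Q = Q`), `R Q = 0`, `P Q = Q`, so `Q = (P - R) Q`; if `Q ≠ 0` take `v` with
`Q v ≠ 0`, `v' = Q v`: `‖v'‖ = ‖Q v'‖ = ‖(P - R) v'‖ < ‖v'‖`, contradiction. So `P m = P k` for `m ≥ k`.
-/

namespace Pool.H30.RG

open Filter Topology

private theorem pr_sep {𝕜 : Type*} [RCLike 𝕜] {E : Type*} [NormedAddCommGroup E]
    [NormedSpace 𝕜 E] (p : Submodule 𝕜 E)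
    (hp : IsClosed (p : Set E)) (x : E) (hx : x ∉ p) :
    ∃ φ : E →L[𝕜] 𝕜, φ x ≠ 0 ∧ ∀ y ∈ p, φ y = 0 := by
  let _ : Module ℝ E := RestrictScalars.module ℝ 𝕜 E
  let _ : IsScalarTower ℝ 𝕜 E := RestrictScalars.isScalarTower _ _ _
  let _ : NormedSpace ℝ E := NormedSpace.restrictScalars _ 𝕜 _
  have hconv : Convex ℝ (p : Set E) := (p.restrictScalars ℝ).convex
  obtain ⟨f, u, hfx, hf⟩ := RCLike.geometric_hahn_banach_point_closed (𝕜 := 𝕜) hconv hp hx
  have hu0 : u < 0 := by
    have := hf 0 p.zero_mem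
    simpa using this
  refine ⟨f, ?_, ?_⟩
  · intro h0
    rw [h0, map_zero] at hfx
    linarith
  · intro y hy
    by_contra hne
    have h1 := hf ((((u - 1 : ℝ) : 𝕜) * (f y)⁻¹) • y) (p.smul_mem _ hy)
    rw [map_smul, smul_eq_mul, mul_assoc, inv_mul_cancel₀ hne, mul_one, RCLike.ofReal_re] at h1
    linarith

private theorem pr_lim {𝕜 : Type*} [RCLike 𝕜] {X : Type*} [NormedAddCommGroup X]
    [NormedSpace 𝕜 X] [TopologicalSpace.SeparableSpace X]
    (hr : Pool.H30.PM.Reflexive 𝕜 X) (P : ℕ → (X →L[𝕜] X)) (C : ℝ) (hC : ∀ n, ‖P n‖ ≤ C)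
    (hP : ∀ n m, n ≤ m → P n * P m = P n ∧ P m * P n = P n) (x : X) :
    ∃ y, Tendsto (fun n => P n x) atTop (𝓝 y) ∧ ∀ m, P m y = P m x := by
  have hC0 : 0 ≤ C := (norm_nonneg _).trans (hC 0)
  have hle : ∀ n v, ‖P n v‖ ≤ C * ‖v‖ := fun n v =>
    ((P n).le_opNorm v).trans (mul_le_mul_of_nonneg_right (hC n) (norm_nonneg _))
  obtain ⟨φ, y, hφ, -, hwn⟩ := Pool.H30.PM.weak_extract hr (fun n => P n x) (C * ‖x‖)
    (fun n => hle n x)
  have hPP : ∀ n m v, n ≤ m → P n (P m v) = P n v := by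
    intro n m v hnm
    have h1 := (hP n m hnm).1
    calc P n (P m v) = (P n * P m) v := rfl
      _ = P n v := by rw [h1]
  have hPP' : ∀ n m v, n ≤ m → P m (P n v) = P n v := by
    intro n m v hnm
    have h1 := (hP n m hnm).2
    calc P m (P n v) = (P m * P n) v := rfl
      _ = P n v := by rw [h1]
  have hy : ∀ m, P m y = P m x := by
    intro m
    refine ((NormedSpace.eq_iff_forall_dual_eq 𝕜).mpr (fun f => ?_)).symm
    have h1 := hwn (f.comp (P m))
    have h2 : Tendsto (fun n => (f.comp (P m)) (P (φ n) x - y)) atTop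
        (𝓝 (f (P m x) - f (P m y))) := by
      refine tendsto_const_nhds.congr' ?_
      filter_upwards [hφ.tendsto_atTop.eventually_ge_atTop m] with n hn
      show f (P m x) - f (P m y) = f (P m (P (φ n) x - y))
      rw [map_sub, map_sub, hPP m (φ n) x hn]
    have h3 := tendsto_nhds_unique h2 h1
    exact sub_eq_zero.mp h3
  -- the union of the ranges
  let R : Submodule 𝕜 X :=
    { carrier := {v | ∃ m, P m v = v}
      add_mem' := by
        rintro a b ⟨m, hm⟩ ⟨n, hn⟩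
        refine ⟨max m n, ?_⟩
        rw [map_add]
        congr 1
        · conv_lhs => rw [← hm]
          rw [hPP' m _ a (le_max_left _ _), hm]
        · conv_lhs => rw [← hn]
          rw [hPP' n _ b (le_max_right _ _), hn]
      zero_mem' := ⟨0, map_zero _⟩
      smul_mem' := by
        rintro c a ⟨m, hm⟩
        exact ⟨m, by rw [map_smul, hm]⟩ }
  have hyR : y ∈ R.topologicalClosure := by
    by_contra hne
    obtain ⟨f, hf1, hf2⟩ := pr_sep _ (Submodule.isClosed_topologicalClosure R) y hne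
    have h1 := hwn f
    have h2 : ∀ n, f (P (φ n) x - y) = - f y := by
      intro n
      have h3 : P (φ n) x ∈ R := ⟨φ n, hPP' (φ n) (φ n) x le_rfl⟩
      rw [map_sub, hf2 _ (R.le_topologicalClosure h3), zero_sub]
    have h4 : Tendsto (fun n => f (P (φ n) x - y)) atTop (𝓝 (- f y)) :=
      tendsto_const_nhds.congr (fun n => (h2 n).symm)
    have h5 := tendsto_nhds_unique h4 h1
    exact hf1 (neg_eq_zero.mp h5)
  refine ⟨y, ?_, hy⟩
  rw [Metric.tendsto_atTop]
  intro ε hε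
  rw [← SetLike.mem_coe, Submodule.topologicalClosure_coe, Metric.mem_closure_iff] at hyR
  obtain ⟨v, ⟨m, hm⟩, hv⟩ := hyR (ε / (C + 1)) (by positivity)
  rw [dist_eq_norm] at hv
  refine ⟨m, fun n hn => ?_⟩
  have hnv : P n v = v := by
    rw [← hm]
    exact hPP' m n v hn
  have e : P n x - y = P n (y - v) - (y - v) := by
    rw [map_sub, hnv, hy n]
    abel
  rw [dist_eq_norm, e]
  calc ‖P n (y - v) - (y - v)‖ ≤ ‖P n (y - v)‖ + ‖y - v‖ := norm_sub_le _ _
    _ ≤ C * ‖y - v‖ + ‖y - v‖ := by linarith [hle n (y - v)]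
    _ = (C + 1) * ‖y - v‖ := by ring
    _ < (C + 1) * (ε / (C + 1)) := mul_lt_mul_of_pos_left hv (by linarith)
    _ = ε := by field_simp

theorem projections_stabilise {𝕜 : Type*} [RCLike 𝕜] {X : Type*} [NormedAddCommGroup X]
    [NormedSpace 𝕜 X] [CompleteSpace X] [TopologicalSpace.SeparableSpace X]
    (h : AllAttain 𝕜 X) (P : ℕ → (X →L[𝕜] X)) (C : ℝ) (hC : ∀ n, ‖P n‖ ≤ C)
    (hP : ∀ n m, n ≤ m → P n * P m = P n ∧ P m * P n = P n) :
    ∃ N, ∀ n, N ≤ n → P n = P N := by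
  classical
  have hr := reflexive_of_allAttain h
  have hC0 : 0 ≤ C := (norm_nonneg _).trans (hC 0)
  choose Q hQ1 hQ2 using fun x => pr_lim hr P C hC hP x
  let Pl : X →L[𝕜] X := LinearMap.mkContinuous
    { toFun := Q
      map_add' := by
        intro a b
        refine tendsto_nhds_unique (hQ1 (a + b)) (((hQ1 a).add (hQ1 b)).congr (fun n => ?_))
        rw [map_add]
      map_smul' := by
        intro c a
        refine tendsto_nhds_unique (hQ1 (c • a)) (((hQ1 a).const_smul c).congr (fun n => ?_))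
        rw [map_smul] } C
    (by
      intro x
      refine le_of_tendsto (hQ1 x).norm (Eventually.of_forall (fun n => ?_))
      exact ((P n).le_opNorm x).trans (mul_le_mul_of_nonneg_right (hC n) (norm_nonneg _)))
  have hPl : ∀ x, Pl x = Q x := fun x => rfl
  obtain ⟨s, w, -, hw0, hw1, hw2⟩ := mazur_wot h P Pl C hC
    (fun x f => by
      rw [hPl]
      exact (f.continuous.tendsto _).comp (hQ1 x))
    (1 / (C + 1)) (by positivity) 0
  have hs : s.Nonempty := by
    rw [Finset.nonempty_iff_ne_empty]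
    rintro rfl
    simp at hw1
  let k := s.max' hs
  refine ⟨k, fun m hm => ?_⟩
  by_contra hne
  obtain ⟨v, hv⟩ : ∃ v, P m v - P k v ≠ 0 := by
    by_contra hcon
    push Not at hcon
    exact hne (ContinuousLinearMap.ext (fun v => sub_eq_zero.mp (hcon v)))
  set v' := P m v - P k v with hv'
  have hPP : ∀ a b u, a ≤ b → P a (P b u) = P a u := by
    intro a b u hab
    have h1 := (hP a b hab).1
    calc P a (P b u) = (P a * P b) u := rfl
      _ = P a u := by rw [h1]
  have hPP' : ∀ a b u, a ≤ b → P b (P a u) = P a u := by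
    intro a b u hab
    have h1 := (hP a b hab).2
    calc P b (P a u) = (P b * P a) u := rfl
      _ = P a u := by rw [h1]
  -- P n v' = 0 for n ≤ k
  have h0 : ∀ n ≤ k, P n v' = 0 := by
    intro n hn
    rw [hv', map_sub, hPP n m v (hn.trans hm), hPP n k v hn, sub_self]
  have h1 : Pl v' = v' := by
    rw [hPl]
    refine tendsto_nhds_unique (hQ1 v') (tendsto_const_nhds.congr' ?_)
    filter_upwards [eventually_ge_atTop m] with n hn
    rw [hv', map_sub, hPP' m n v hn, hPP' k n v (hm.trans hn)]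
  have h2 : ((∑ n ∈ s, ((w n : ℝ) : 𝕜) • P n) - Pl) v' = - v' := by
    rw [ContinuousLinearMap.sub_apply, h1, ContinuousLinearMap.sum_apply]
    have h3 : ∀ n ∈ s, (((w n : ℝ) : 𝕜) • P n) v' = 0 := by
      intro n hn
      rw [ContinuousLinearMap.smul_apply, h0 n (Finset.le_max' s n hn), smul_zero]
    rw [Finset.sum_eq_zero h3, zero_sub]
  have h4 : ‖v'‖ ≤ (1 / (C + 1)) * ‖v'‖ := by
    calc ‖v'‖ = ‖((∑ n ∈ s, ((w n : ℝ) : 𝕜) • P n) - Pl) v'‖ := by rw [h2, norm_neg]
      _ ≤ ‖(∑ n ∈ s, ((w n : ℝ) : 𝕜) • P n) - Pl‖ * ‖v'‖ := ContinuousLinearMap.le_opNorm _ _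
      _ ≤ _ := mul_le_mul_of_nonneg_right hw2.le (norm_nonneg _)
  have hvpos : 0 < ‖v'‖ := norm_pos_iff.mpr hv
  -- strict inequality
  have h5 : ‖v'‖ < 1 / (C + 1) * ‖v'‖ ∨ ‖v'‖ ≤ 1 / (C + 1) * ‖v'‖ := Or.inr h4
  have h6 : ‖v'‖ < (1 / (C + 1)) * ‖v'‖ := by
    calc ‖v'‖ = ‖((∑ n ∈ s, ((w n : ℝ) : 𝕜) • P n) - Pl) v'‖ := by rw [h2, norm_neg]
      _ ≤ ‖(∑ n ∈ s, ((w n : ℝ) : 𝕜) • P n) - Pl‖ * ‖v'‖ := ContinuousLinearMap.le_opNorm _ _
      _ < _ := mul_lt_mul_of_pos_right hw2 hvpos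
  have h7 : 1 / (C + 1) ≤ 1 := by
    rw [div_le_one (by positivity)]
    linarith
  have h8 : 1 / (C + 1) * ‖v'‖ ≤ 1 * ‖v'‖ := mul_le_mul_of_nonneg_right h7 hvpos.le
  linarith

end Pool.H30.RG
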