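import Pool.Agent.H30.RG.Basic

/-!
# [H30 RG WC] Operators on a reflexive space from bilinear forms

`X` reflexive. (1) A bounded bilinear form `β` on `X × X*` is of the form `β x f = f (S x)` with
`‖S‖ ≤ C`. (2) A bounded sequence of operators `T n` such that `f (T n x)` converges for all `x`, `f` has a
limit `T0` in the weak operator topology, `‖T0‖ ≤ B`.

PROOF.  (1) For fixed `x`, `f ↦ β x f` is a functional on the dual bounded by `C ‖x‖`
(`LinearMap.mkContinuous`), so it is `NormedSpace.inclusionInDoubleDual 𝕜 X y` for some `y`; `y` is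
unique because functionals separate points (`NormedSpace.eq_iff_forall_dual_eq` or injectivity of the
isometry `NormedSpace.inclusionInDoubleDualLi`), so `S x = y` is linear in `x`, and `‖S x‖ ≤ C ‖x‖` by
`NormedSpace.norm_le_dual_bound` (`‖f (S x)‖ ≤ C ‖x‖ ‖f‖`). `LinearMap.mkContinuous`.
(2) `β x f = lim f (T n x)` is bilinear, `‖β x f‖ ≤ B ‖x‖ ‖f‖` (`B ≥ 0` because `‖T 0‖ ≤ B`).
-/

namespace Pool.H30.RG

open Filter Topology

theorem operator_of_bilin {𝕜 : Type*} [RCLike 𝕜] {X : Type*} [NormedAddCommGroup X]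
    [NormedSpace 𝕜 X] (hr : Pool.H30.PM.Reflexive 𝕜 X)
    (β : X →ₗ[𝕜] (X →L[𝕜] 𝕜) →ₗ[𝕜] 𝕜) (C : ℝ) (hC0 : 0 ≤ C)
    (hC : ∀ x f, ‖β x f‖ ≤ C * ‖x‖ * ‖f‖) :
    ∃ S : X →L[𝕜] X, ‖S‖ ≤ C ∧ ∀ (x : X) (f : X →L[𝕜] 𝕜), f (S x) = β x f := by
  have hex : ∀ x : X, ∃ y : X, ‖y‖ ≤ C * ‖x‖ ∧ ∀ f : X →L[𝕜] 𝕜, f y = β x f := by
    intro x
    let L : (X →L[𝕜] 𝕜) →L[𝕜] 𝕜 := LinearMap.mkContinuous (β x) (C * ‖x‖) (hC x)
    obtain ⟨y, hy⟩ := hr L
    have h1 : ∀ f : X →L[𝕜] 𝕜, f y = β x f := by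
      intro f
      have h2 : f y = NormedSpace.inclusionInDoubleDual 𝕜 X y f := rfl
      rw [h2, hy]
      rfl
    refine ⟨y, ?_, h1⟩
    refine NormedSpace.norm_le_dual_bound 𝕜 y (by positivity) (fun f => ?_)
    rw [h1 f]
    exact hC x f
  choose S hS1 hS2 using hex
  have hsep : ∀ a b : X, (∀ f : X →L[𝕜] 𝕜, f a = f b) → a = b := by
    intro a b hab
    exact (NormedSpace.eq_iff_forall_dual_eq 𝕜).mpr hab
  let S' : X →ₗ[𝕜] X :=
    { toFun := S
      map_add' := by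
        intro a b
        refine hsep _ _ (fun f => ?_)
        rw [map_add, hS2, hS2, hS2, map_add]
        rfl
      map_smul' := by
        intro c a
        refine hsep _ _ (fun f => ?_)
        rw [RingHom.id_apply, map_smul, hS2, hS2, map_smul]
        rfl }
  exact ⟨S'.mkContinuous C hS1, LinearMap.mkContinuous_norm_le _ hC0 _, fun x f => hS2 x f⟩

theorem wot_limit {𝕜 : Type*} [RCLike 𝕜] {X : Type*} [NormedAddCommGroup X]
    [NormedSpace 𝕜 X] (hr : Pool.H30.PM.Reflexive 𝕜 X) (T : ℕ → (X →L[𝕜] X)) (B : ℝ)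
    (hB : ∀ n, ‖T n‖ ≤ B)
    (hw : ∀ (x : X) (f : X →L[𝕜] 𝕜), ∃ l : 𝕜, Tendsto (fun n => f (T n x)) atTop (𝓝 l)) :
    ∃ T0 : X →L[𝕜] X, ‖T0‖ ≤ B ∧
      ∀ (x : X) (f : X →L[𝕜] 𝕜), Tendsto (fun n => f (T n x)) atTop (𝓝 (f (T0 x))) := by
  have hB0 : 0 ≤ B := (norm_nonneg _).trans (hB 0)
  choose l hl using hw
  let β : X →ₗ[𝕜] (X →L[𝕜] 𝕜) →ₗ[𝕜] 𝕜 := LinearMap.mk₂ 𝕜 l
    (by
      intro x y f
      refine tendsto_nhds_unique (hl (x + y) f) (((hl x f).add (hl y f)).congr (fun n => ?_))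
      rw [map_add, map_add])
    (by
      intro c x f
      refine tendsto_nhds_unique (hl (c • x) f) (((hl x f).const_mul c).congr (fun n => ?_))
      rw [map_smul, map_smul, smul_eq_mul])
    (by
      intro x f g
      exact tendsto_nhds_unique (hl x (f + g)) (((hl x f).add (hl x g)).congr (fun n => rfl)))
    (by
      intro c x f
      exact tendsto_nhds_unique (hl x (c • f)) (((hl x f).const_mul c).congr (fun n => rfl)))
  have hβ : ∀ x f, ‖β x f‖ ≤ B * ‖x‖ * ‖f‖ := by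
    intro x f
    refine le_of_tendsto (hl x f).norm (Eventually.of_forall (fun n => ?_))
    calc ‖f (T n x)‖ ≤ ‖f‖ * ‖T n x‖ := f.le_opNorm _
      _ ≤ ‖f‖ * (B * ‖x‖) := by
          refine mul_le_mul_of_nonneg_left ?_ (norm_nonneg _)
          exact ((T n).le_opNorm x).trans (mul_le_mul_of_nonneg_right (hB n) (norm_nonneg _))
      _ = B * ‖x‖ * ‖f‖ := by ring
  obtain ⟨S, hS1, hS2⟩ := operator_of_bilin hr β B hB0 hβ
  refine ⟨S, hS1, fun x f => ?_⟩
  rw [hS2]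
  exact hl x f

end Pool.H30.RG
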