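import Pool.Agent.H30.RG.DU
import Pool.Agent.H30.RG.WC

/-!
# [H30 RG QL] The quotient map `Q` from bounded functions onto `X`

`X` reflexive, `V : X* → L¹(μ)` bounded, `c ‖f‖ ≤ ‖V f‖`. There is a linear map `Q` from the space `BM Ω`
of bounded measurable functions onto `X` with `f (Q g) = ∫ g V f`, and `‖Q g‖ ≤ ‖V‖ a` if `|g| ≤ a`
everywhere.

PROOF.  For `g ∈ BM Ω` the map `f ↦ ∫ g V f` is a functional on the dual, bounded by `a ‖V‖ ‖f‖` if
`|g| ≤ a` (`∫ |g V f| ≤ a ∫ |V f| = a ‖V f‖`); by reflexivity it is evaluation at a unique vector `Q g`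
(injectivity of the isometry `NormedSpace.inclusionInDoubleDualLi`), linear in `g`, and
`‖Q g‖ ≤ a ‖V‖` by `NormedSpace.norm_le_dual_bound`. Surjectivity: let `x ∈ X`. `V` is injective; on its
range (a subspace of `L¹`) define `ℓ (V f) = f x`, linear, `|ℓ (V f)| ≤ ‖f‖ ‖x‖ ≤ c⁻¹ ‖x‖ ‖V f‖`
(`LinearEquiv.ofInjective` or `LinearMap.range`-based construction). Extend `ℓ` to a bounded functional on
`L¹` (`exists_extension_norm_eq`); by `l1_dual` it is `h ↦ ∫ g h` with `g` bounded measurable. Then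
`f (Q g) = ∫ g V f = ℓ (V f) = f x` for all `f`, so `Q g = x`.
-/

namespace Pool.H30.RG

open MeasureTheory

private theorem ql_int {Ω : Type*} [MeasurableSpace Ω] {μ : Measure Ω} {g : Ω → ℝ} {a : ℝ}
    (hg : Measurable g) (ha : ∀ ω, |g ω| ≤ a) (h : Ω →₁[μ] ℝ) :
    Integrable (fun ω => g ω * h ω) μ :=
  (L1.integrable_coeFn h).bdd_mul hg.aestronglyMeasurable
    (Filter.Eventually.of_forall fun ω => by rw [Real.norm_eq_abs]; exact ha ω)

private theorem ql_bound {Ω : Type*} [MeasurableSpace Ω] {μ : Measure Ω} {g : Ω → ℝ} {a : ℝ}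
    (ha : ∀ ω, |g ω| ≤ a) (h : Ω →₁[μ] ℝ) :
    ‖∫ ω, g ω * h ω ∂μ‖ ≤ a * ‖h‖ := by
  rw [L1.norm_eq_integral_norm, ← integral_const_mul]
  refine norm_integral_le_of_norm_le ((L1.integrable_coeFn h).norm.const_mul a) ?_
  refine Filter.Eventually.of_forall fun ω => ?_
  show ‖g ω * h ω‖ ≤ a * ‖h ω‖
  rw [norm_mul]
  exact mul_le_mul_of_nonneg_right (by rw [Real.norm_eq_abs]; exact ha ω) (norm_nonneg _)

theorem exists_Q {X : Type*} [NormedAddCommGroup X] [NormedSpace ℝ X]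
    (hr : Pool.H30.PM.Reflexive ℝ X) {Ω : Type*} [MeasurableSpace Ω]
    (μ : Measure Ω) [IsFiniteMeasure μ] (V : (X →L[ℝ] ℝ) →L[ℝ] (Ω →₁[μ] ℝ)) (c : ℝ) (hc : 0 < c)
    (hV : ∀ f : X →L[ℝ] ℝ, c * ‖f‖ ≤ ‖V f‖) :
    ∃ Q : BM Ω →ₗ[ℝ] X, Function.Surjective Q ∧
      (∀ (g : BM Ω) (f : X →L[ℝ] ℝ), f (Q g) = ∫ ω, (g : Ω → ℝ) ω * V f ω ∂μ) ∧
      (∀ (g : BM Ω) (a : ℝ), (∀ ω, |(g : Ω → ℝ) ω| ≤ a) → ‖Q g‖ ≤ ‖V‖ * |a|) := by
  have hex : ∀ g : BM Ω, ∃ y : X, ∀ f : X →L[ℝ] ℝ, f y = ∫ ω, (g : Ω → ℝ) ω * V f ω ∂μ := by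
    intro g
    obtain ⟨hgm, a, ha⟩ := g.2
    let L : (X →L[ℝ] ℝ) →ₗ[ℝ] ℝ :=
      { toFun := fun f => ∫ ω, (g : Ω → ℝ) ω * V f ω ∂μ
        map_add' := by
          intro f k
          rw [← integral_add (ql_int hgm ha (V f)) (ql_int hgm ha (V k))]
          refine integral_congr_ae ?_
          rw [map_add]
          filter_upwards [Lp.coeFn_add (V f) (V k)] with ω h1
          rw [h1, Pi.add_apply]
          ring
        map_smul' := by
          intro r f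
          rw [RingHom.id_apply, smul_eq_mul, ← integral_const_mul]
          refine integral_congr_ae ?_
          rw [map_smul]
          filter_upwards [Lp.coeFn_smul r (V f)] with ω h1
          rw [h1, Pi.smul_apply, smul_eq_mul]
          ring }
    have hb : ∀ f, ‖L f‖ ≤ (|a| * ‖V‖) * ‖f‖ := by
      intro f
      have h1 : ‖L f‖ ≤ |a| * ‖V f‖ := ql_bound (fun ω => (ha ω).trans (le_abs_self a)) (V f)
      refine h1.trans ?_
      rw [mul_assoc]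
      exact mul_le_mul_of_nonneg_left (V.le_opNorm f) (abs_nonneg a)
    obtain ⟨y, hy⟩ := hr (L.mkContinuous _ hb)
    refine ⟨y, fun f => ?_⟩
    have h2 : f y = NormedSpace.inclusionInDoubleDual ℝ X y f := rfl
    rw [h2, hy]
    rfl
  choose Q hQ using hex
  have hsep : ∀ a b : X, (∀ f : X →L[ℝ] ℝ, f a = f b) → a = b := by
    intro a b hab
    exact (NormedSpace.eq_iff_forall_dual_eq ℝ).mpr hab
  let Q' : BM Ω →ₗ[ℝ] X :=
    { toFun := Q
      map_add' := by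
        intro g h
        refine hsep _ _ fun f => ?_
        obtain ⟨hgm, a, ha⟩ := g.2
        obtain ⟨hhm, b, hb⟩ := h.2
        rw [map_add, hQ, hQ, hQ, ← integral_add (ql_int hgm ha (V f)) (ql_int hhm hb (V f))]
        refine integral_congr_ae (Filter.Eventually.of_forall fun ω => ?_)
        show ((g : Ω → ℝ) ω + (h : Ω → ℝ) ω) * V f ω = _
        ring
      map_smul' := by
        intro r g
        refine hsep _ _ fun f => ?_
        rw [RingHom.id_apply, map_smul, hQ, hQ, smul_eq_mul, ← integral_const_mul]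
        refine integral_congr_ae (Filter.Eventually.of_forall fun ω => ?_)
        show (r * (g : Ω → ℝ) ω) * V f ω = _
        ring }
  refine ⟨Q', ?_, fun g f => hQ g f, ?_⟩
  · intro x
    have hinj : Function.Injective V := by
      intro f k hfk
      have h1 := hV (f - k)
      rw [map_sub, hfk, sub_self, norm_zero] at h1
      have h2 : ‖f - k‖ ≤ 0 := by
        by_contra h3
        rw [not_le] at h3
        have := mul_pos hc h3
        linarith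
      exact sub_eq_zero.1 (norm_le_zero_iff.1 h2)
    let e : (X →L[ℝ] ℝ) ≃ₗ[ℝ] LinearMap.range (V : (X →L[ℝ] ℝ) →ₗ[ℝ] (Ω →₁[μ] ℝ)) :=
      LinearEquiv.ofInjective (V : (X →L[ℝ] ℝ) →ₗ[ℝ] (Ω →₁[μ] ℝ)) hinj
    let ℓ : LinearMap.range (V : (X →L[ℝ] ℝ) →ₗ[ℝ] (Ω →₁[μ] ℝ)) →ₗ[ℝ] ℝ :=
      (NormedSpace.inclusionInDoubleDual ℝ X x : (X →L[ℝ] ℝ) →ₗ[ℝ] ℝ) ∘ₗ
        (e.symm : LinearMap.range (V : (X →L[ℝ] ℝ) →ₗ[ℝ] (Ω →₁[μ] ℝ)) →ₗ[ℝ] (X →L[ℝ] ℝ))
    have hℓ : ∀ z, ‖ℓ z‖ ≤ (‖x‖ / c) * ‖z‖ := by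
      intro z
      obtain ⟨f, rfl⟩ := e.surjective z
      have h1 : ℓ (e f) = f x := by
        show NormedSpace.inclusionInDoubleDual ℝ X x (e.symm (e f)) = f x
        rw [e.symm_apply_apply]
        rfl
      have h2 : ‖(e f : Ω →₁[μ] ℝ)‖ = ‖V f‖ := rfl
      have h3 : ‖e f‖ = ‖V f‖ := h2
      rw [h1, h3]
      calc ‖f x‖ ≤ ‖f‖ * ‖x‖ := f.le_opNorm x
        _ = (‖x‖ / c) * (c * ‖f‖) := by field_simp
        _ ≤ (‖x‖ / c) * ‖V f‖ := mul_le_mul_of_nonneg_left (hV f) (by positivity)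
    obtain ⟨γ, hγ, -⟩ := exists_extension_norm_eq _ (ℓ.mkContinuous _ hℓ)
    obtain ⟨g, hgm, hgb, hg⟩ := l1_dual μ γ
    refine ⟨⟨g, hgm, ‖γ‖, hgb⟩, ?_⟩
    refine hsep _ _ fun f => ?_
    have h1 : f (Q' ⟨g, hgm, ‖γ‖, hgb⟩) = ∫ ω, g ω * V f ω ∂μ := hQ _ f
    rw [h1, ← hg]
    have h2 := hγ (e f)
    have h3 : ((e f : LinearMap.range (V : (X →L[ℝ] ℝ) →ₗ[ℝ] (Ω →₁[μ] ℝ))) : Ω →₁[μ] ℝ) = V f :=
      rfl
    rw [h3] at h2
    rw [h2]
    show NormedSpace.inclusionInDoubleDual ℝ X x (e.symm (e f)) = f x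
    rw [e.symm_apply_apply]
    rfl
  · intro g a ha
    refine NormedSpace.norm_le_dual_bound ℝ _ (by positivity) fun f => ?_
    have h1 : f (Q' g) = ∫ ω, (g : Ω → ℝ) ω * V f ω ∂μ := hQ g f
    rw [h1]
    refine (ql_bound (fun ω => (ha ω).trans (le_abs_self a)) (V f)).trans ?_
    rw [mul_comm ‖V‖, mul_assoc]
    exact mul_le_mul_of_nonneg_left (V.le_opNorm f) (abs_nonneg a)

end Pool.H30.RG
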