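import Mathlib

/-!
# [H30 RG RL] Rosenthal's lemma

`a j k ≥ 0`, all row sums at most `C`. For every `ε > 0` there is a strictly increasing `φ` such that
for all `i`, `n`: `∑_{k < n, k ≠ i} a (φ i) (φ k) ≤ ε`.

PROOF.  Induction on `m` with `C ≤ m ε` (`m` a natural number; statement for all matrices `a`). If `m = 0`
all row sums are `0` and `φ = id` works (`C ≤ 0`). Step `m → m + 1`: let `N p = {k | k = 2^p (2 q + 1) - 1}` for
`p ∈ ℕ`, an infinite set for every `p`, given by the strictly increasing enumeration
`ν p q = 2^p (2 q + 1) - 1` (or `Nat.pair p q`, strictly increasing in `q`); the sets are disjoint for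
different `p`. Case 1: for some `p` the enumeration `ν p` satisfies the claim
(`∑_{k < n, k ≠ i} a (ν p i) (ν p k) ≤ ε` for all `i`, `n`): done. Case 2: for every `p` there are `i p`, `n p` with
`∑_{k < n p, k ≠ i p} a (ν p (i p)) (ν p k) > ε`. The numbers `j p = ν p (i p)` are pairwise different; choose a
strictly increasing `ψ` such that `j (ψ p)` is strictly increasing (an injective sequence of naturals has a
strictly increasing subsequence, for instance because it tends to infinity: `Nat.exists_strictMono_subsequence`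
or `Filter.extraction_of_frequently_atTop`). Put `b p r = a (j (ψ p)) (j (ψ r))` for `p ≠ r` and `b p p = 0`.
Row sums of `b`: `∑_{r < n, r ≠ p} a (j ψ p) (j ψ r) + ∑_{k < n', k ≠ i} a (j ψ p) (ν (ψ p) k) ≤ C`, because the
index sets `{j (ψ r), r ≠ p}` and `{ν (ψ p) k, k ≠ i}` are disjoint (different classes `N`), both subsets of a
large `range`. So the row sums of `b` are at most `C - ε ≤ m ε`, and the induction hypothesis for `b` gives `φ'`;
take `φ p = j (ψ (φ' p))`.
-/

namespace Pool.H30.RG

open Finset

private theorem two_sums (f : ℕ → ℝ) (hf : ∀ k, 0 ≤ f k) (C : ℝ)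
    (hC : ∀ n, ∑ k ∈ range n, f k ≤ C) (s t : Finset ℕ) (hst : Disjoint s t) :
    ∑ k ∈ s, f k + ∑ k ∈ t, f k ≤ C := by
  rw [← sum_union hst]
  refine (sum_le_sum_of_subset_of_nonneg ?_ fun k _ _ => hf k).trans (hC ((s ∪ t).sup id + 1))
  intro k hk
  rw [mem_range]
  exact Nat.lt_succ_of_le (le_sup (f := id) hk)

private theorem ros_aux (ε : ℝ) (hε : 0 < ε) (m : ℕ) : ∀ (a : ℕ → ℕ → ℝ) (C : ℝ),
    (∀ j k, 0 ≤ a j k) → (∀ j n, ∑ k ∈ range n, a j k ≤ C) → C ≤ m * ε →
    ∃ φ : ℕ → ℕ, StrictMono φ ∧ ∀ i n, ∑ k ∈ (range n).erase i, a (φ i) (φ k) ≤ ε := by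
  induction m with
  | zero =>
    intro a C ha hC hm
    refine ⟨id, strictMono_id, fun i n => ?_⟩
    have h1 : ∑ k ∈ (range n).erase i, a (id i) (id k) ≤ ∑ k ∈ range n, a i k :=
      sum_le_sum_of_subset_of_nonneg (erase_subset _ _) fun k _ _ => ha _ _
    have h2 := hC i n
    rw [Nat.cast_zero, zero_mul] at hm
    linarith
  | succ m ih =>
    intro a C ha hC hm
    by_cases hcase : ∃ p, ∀ i n, ∑ k ∈ (range n).erase i,
        a (Nat.pair p i) (Nat.pair p k) ≤ ε
    · obtain ⟨p, hp⟩ := hcase
      exact ⟨fun q => Nat.pair p q, fun q q' h => Nat.pair_lt_pair_right p h, hp⟩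
    · have hcase' : ∀ p, ∃ i n, ε < ∑ k ∈ (range n).erase i,
          a (Nat.pair p i) (Nat.pair p k) := by
        intro p
        by_contra hno
        apply hcase
        refine ⟨p, fun i n => ?_⟩
        by_contra h2
        exact hno ⟨i, n, not_le.1 h2⟩
      choose i n hin using hcase'
      set j : ℕ → ℕ := fun p => Nat.pair p (i p) with hj
      have hjinj : Function.Injective j := by
        intro p p' h
        exact (Nat.pair_eq_pair.1 h).1
      have hjt : Filter.Tendsto j Filter.atTop Filter.atTop := by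
        have := hjinj.tendsto_cofinite
        rwa [Nat.cofinite_eq_atTop] at this
      obtain ⟨ψ, hψ, hJ⟩ := Filter.strictMono_subseq_of_tendsto_atTop hjt
      set b : ℕ → ℕ → ℝ := fun p r => if p = r then 0 else a (j (ψ p)) (j (ψ r)) with hb
      have hb0 : ∀ p r, 0 ≤ b p r := by
        intro p r
        simp only [hb]
        split_ifs
        · exact le_rfl
        · exact ha _ _
      have hrow : ∀ p N, ∑ r ∈ range N, b p r ≤ C - ε := by
        intro p N
        have h1 : ∑ r ∈ range N, b p r = ∑ r ∈ (range N).erase p, a (j (ψ p)) (j (ψ r)) := by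
          have h2 : ∑ r ∈ (range N).erase p, b p r = ∑ r ∈ range N, b p r := by
            refine sum_subset (erase_subset _ _) ?_
            intro r hr hr'
            by_cases hpr : p = r
            · simp only [hb, if_pos hpr]
            · exact absurd (mem_erase.2 ⟨fun h => hpr h.symm, hr⟩) hr'
          rw [← h2]
          refine sum_congr rfl fun r hr => ?_
          have := (mem_erase.1 hr).1
          simp only [hb, if_neg (fun h : p = r => this h.symm)]
        have h3 := two_sums (a (j (ψ p))) (ha _) C (hC _)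
          (((range N).erase p).image (fun r => j (ψ r)))
          (((range (n (ψ p))).erase (i (ψ p))).image (fun k => Nat.pair (ψ p) k)) (by
            rw [disjoint_left]
            intro y hy hy'
            obtain ⟨r, hr, rfl⟩ := mem_image.1 hy
            obtain ⟨k, hk, hk'⟩ := mem_image.1 hy'
            have h4 := (Nat.pair_eq_pair.1 hk').1
            exact (mem_erase.1 hr).1 (hψ.injective h4).symm)
        rw [sum_image (fun x _ y _ h => hψ.injective (hjinj h)),
          sum_image (fun x _ y _ h => (Nat.pair_eq_pair.1 h).2)] at h3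
        have h5 := hin (ψ p)
        rw [h1]
        linarith
      obtain ⟨φ, hφ, hφb⟩ := ih b (C - ε) hb0 hrow (by
        push_cast at hm
        linarith)
      refine ⟨fun q => j (ψ (φ q)), fun q q' h => hJ (hφ h), fun i' n' => ?_⟩
      refine le_trans (le_of_eq ?_) (hφb i' n')
      refine sum_congr rfl fun k hk => ?_
      have h6 : φ i' ≠ φ k := fun h => (mem_erase.1 hk).1 (hφ.injective h).symm
      simp only [hb, if_neg h6]

theorem rosenthal (a : ℕ → ℕ → ℝ) (ha : ∀ j k, 0 ≤ a j k) (C : ℝ)
    (hC : ∀ j n, ∑ k ∈ range n, a j k ≤ C) (ε : ℝ) (hε : 0 < ε) :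
    ∃ φ : ℕ → ℕ, StrictMono φ ∧
      ∀ i n, ∑ k ∈ (range n).erase i, a (φ i) (φ k) ≤ ε := by
  obtain ⟨m, hm⟩ := exists_nat_ge (C / ε)
  refine ros_aux ε hε m a C ha hC ?_
  rwa [div_le_iff₀ hε] at hm

end Pool.H30.RG
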