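import Pool.Agent.H30.RG.RL
import Pool.Agent.H30.RG.JR
import Pool.Agent.H30.RG.WC

/-!
# [H30 RG SA] Strong additivity

Every operator on `X` attains its norm, `S k` are operators with `∑_{k<n} ‖f (S k x)‖ ≤ C ‖x‖ ‖f‖` for all
`x`, `f`, `n`. Then `‖S k‖ → 0`.

PROOF.  `X` is reflexive. Suppose not: there are `ε > 0` and a strictly increasing `ψ` with `‖S (ψ k)‖ > ε`;
the sequence `S (ψ k)` satisfies the same hypothesis (its partial sums are parts of partial sums), so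
assume `‖S k‖ > ε` for all `k`. Choose `x k`, `f k` of norm `≤ 1` with `‖f k (S k (x k))‖ > ε`
(`ContinuousLinearMap.opNorm` gives `x k` with `‖x k‖ ≤ 1`, `‖S k (x k)‖ > ε`, then `exists_dual_vector''`).
Apply `rosenthal` to `a j k = ‖f j (S k (x j))‖` (row sums `≤ C`) with `ε/4`: `φ`. Let
`T n = ∑_{i<n} S (φ i)`. `‖T n‖ ≤ C` (`‖f (T n x)‖ ≤ C ‖x‖ ‖f‖`), and `f (T n x)` converges because the
series `∑ f (S (φ i) x)` converges absolutely. By `wot_limit` there is `T0` with `f (T n x) → f (T0 x)`. By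
`mazur_wot` (`ε/4`, `N = 0`): weights `w` on a finite set `s` with `‖∑_{n ∈ s} w n T n - T0‖ < ε/4`. Choose `i`
larger than all elements of `s` and put `j = φ i`. For `m > i`, `m` larger than all elements of `s`,
`f j ((T m - ∑ w n T n) (x j)) = ∑_{k<m} α k f j (S (φ k) (x j))` with `α k = 1 - ∑_{n ∈ s, n > k} w n ∈ [0,1]`,
`α i = 1`; so its norm is `≥ a j j - ∑_{k<m, k ≠ i} a (φ i) (φ k) > ε - ε/4`. Let `m → ∞`:
`‖f j ((T0 - ∑ w n T n)(x j))‖ ≥ 3 ε/4`, but it is `≤ ε/4`. Contradiction.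
-/

namespace Pool.H30.RG

open Filter Topology

private theorem sub_sum (u : ℕ → ℝ) (hu : ∀ k, 0 ≤ u k) (C : ℝ)
    (hC : ∀ n, ∑ k ∈ Finset.range n, u k ≤ C) (φ : ℕ → ℕ) (hφ : StrictMono φ) (n : ℕ) :
    ∑ k ∈ Finset.range n, u (φ k) ≤ C := by
  have h1 : ∑ k ∈ Finset.range n, u (φ k) = ∑ k ∈ (Finset.range n).image φ, u k := by
    rw [Finset.sum_image (fun x _ y _ h => hφ.injective h)]
  rw [h1]
  refine (Finset.sum_le_sum_of_subset_of_nonneg ?_ fun k _ _ => hu k).trans (hC (φ n))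
  intro k hk
  obtain ⟨i, hi, rfl⟩ := Finset.mem_image.1 hk
  exact Finset.mem_range.2 (hφ (Finset.mem_range.1 hi))

theorem strong_additivity {𝕜 : Type*} [RCLike 𝕜] {X : Type*} [NormedAddCommGroup X]
    [NormedSpace 𝕜 X] [CompleteSpace X] [TopologicalSpace.SeparableSpace X]
    (h : AllAttain 𝕜 X) (S : ℕ → (X →L[𝕜] X)) (C : ℝ) (hC0 : 0 ≤ C)
    (hC : ∀ (x : X) (f : X →L[𝕜] 𝕜) (n : ℕ), ∑ k ∈ Finset.range n, ‖f (S k x)‖ ≤ C * ‖x‖ * ‖f‖) :
    Tendsto (fun k => ‖S k‖) atTop (𝓝 0) := by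
  classical
  by_contra hno
  rw [Metric.tendsto_nhds] at hno
  simp only [not_forall] at hno
  obtain ⟨ε, hε, hfr⟩ := hno
  obtain ⟨ψ, hψ, hψS⟩ := extraction_of_frequently_atTop (Filter.not_eventually.1 hfr)
  have hψS' : ∀ k, ε / 2 < ‖S (ψ k)‖ := by
    intro k
    have h1 := not_lt.1 (hψS k)
    rw [dist_zero_right, norm_norm] at h1
    linarith
  have hxf : ∀ k, ∃ (x : X) (f : X →L[𝕜] 𝕜), ‖x‖ ≤ 1 ∧ ‖f‖ ≤ 1 ∧ ε / 2 < ‖f (S (ψ k) x)‖ := by
    intro k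
    obtain ⟨x, hx1, hx2⟩ := (S (ψ k)).exists_lt_apply_of_lt_opNorm (hψS' k)
    obtain ⟨f, hf1, hf2⟩ := exists_dual_vector'' 𝕜 (S (ψ k) x)
    refine ⟨x, f, hx1.le, hf1, ?_⟩
    rw [hf2, RCLike.norm_ofReal, abs_of_nonneg (norm_nonneg _)]
    exact hx2
  choose x f hx hf hxf using hxf
  have hrow : ∀ j n, ∑ k ∈ Finset.range n, ‖f j (S (ψ k) (x j))‖ ≤ C := by
    intro j n
    have h1 := sub_sum (fun k => ‖f j (S k (x j))‖) (fun _ => norm_nonneg _) (C * ‖x j‖ * ‖f j‖)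
      (hC (x j) (f j)) ψ hψ n
    refine h1.trans ?_
    calc C * ‖x j‖ * ‖f j‖ ≤ C * 1 * 1 :=
          mul_le_mul (mul_le_mul_of_nonneg_left (hx j) hC0) (hf j) (norm_nonneg _) (by linarith)
      _ = C := by ring
  obtain ⟨φ, hφ, hφa⟩ := rosenthal (fun j k => ‖f j (S (ψ k) (x j))‖) (fun _ _ => norm_nonneg _) C
    hrow (ε / 8) (by positivity)
  set R : ℕ → (X →L[𝕜] X) := fun k => S (ψ (φ k)) with hR
  have hRC : ∀ (x : X) (f : X →L[𝕜] 𝕜) (n : ℕ),
      ∑ k ∈ Finset.range n, ‖f (R k x)‖ ≤ C * ‖x‖ * ‖f‖ := fun x f n =>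
    sub_sum (fun k => ‖f (S k x)‖) (fun _ => norm_nonneg _) (C * ‖x‖ * ‖f‖) (hC x f)
      (ψ ∘ φ) (hψ.comp hφ) n
  set T : ℕ → (X →L[𝕜] X) := fun n => ∑ i ∈ Finset.range n, R i with hT
  have hTn : ∀ n, ‖T n‖ ≤ C := by
    intro n
    refine ContinuousLinearMap.opNorm_le_bound _ hC0 fun y => ?_
    obtain ⟨g, hg1, hg2⟩ := exists_dual_vector'' 𝕜 (T n y)
    have h1 : ‖T n y‖ = ‖g (T n y)‖ := by
      rw [hg2, RCLike.norm_ofReal, abs_of_nonneg (norm_nonneg _)]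
    rw [h1]
    have h2 : g (T n y) = ∑ i ∈ Finset.range n, g (R i y) := by
      simp only [hT, ContinuousLinearMap.sum_apply, map_sum]
    rw [h2]
    refine (norm_sum_le _ _).trans ((hRC y g n).trans ?_)
    calc C * ‖y‖ * ‖g‖ ≤ C * ‖y‖ * 1 := mul_le_mul_of_nonneg_left hg1 (by positivity)
      _ = C * ‖y‖ := mul_one _
  have hconv : ∀ (y : X) (g : X →L[𝕜] 𝕜), ∃ l : 𝕜, Tendsto (fun n => g (T n y)) atTop (𝓝 l) := by
    intro y g
    have h1 : Summable (fun k => g (R k y)) :=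
      Summable.of_norm (summable_of_sum_range_le (fun _ => norm_nonneg _) (hRC y g))
    refine ⟨_, h1.hasSum.tendsto_sum_nat.congr fun n => ?_⟩
    simp only [hT, ContinuousLinearMap.sum_apply, map_sum]
  obtain ⟨T0, -, hT0⟩ := wot_limit (reflexive_of_allAttain h) T C hTn hconv
  obtain ⟨s, w, -, hw0, hw1, hD⟩ := mazur_wot h T T0 C hTn hT0 (ε / 8) (by positivity) 0
  set i : ℕ := s.sup id + 1 with hi
  have hsi : ∀ n ∈ s, n ≤ i := fun n hn => (Finset.le_sup (f := id) hn).trans (Nat.le_succ _)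
  set g := f (φ i) with hg
  set z := x (φ i) with hz
  have hgz : ε / 2 < ‖g (R i z)‖ := hxf (φ i)
  have hoff : ∀ n, ∑ k ∈ (Finset.range n).erase i, ‖g (R k z)‖ ≤ ε / 8 := fun n => hφa i n
  set α : ℕ → ℝ := fun k => 1 - ∑ n ∈ s.filter (fun n => k < n), w n with hα
  have hα1 : ∀ k, α k ≤ 1 := by
    intro k
    have : 0 ≤ ∑ n ∈ s.filter (fun n => k < n), w n := Finset.sum_nonneg fun n _ => hw0 n
    simp only [hα]
    linarith
  have hα0 : ∀ k, 0 ≤ α k := by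
    intro k
    have h1 : ∑ n ∈ s.filter (fun n => k < n), w n ≤ ∑ n ∈ s, w n :=
      Finset.sum_le_sum_of_subset_of_nonneg (Finset.filter_subset _ _) fun n _ _ => hw0 n
    simp only [hα]
    linarith
  have hαi : α i = 1 := by
    have h1 : s.filter (fun n => i < n) = ∅ := by
      rw [Finset.filter_eq_empty_iff]
      intro n hn
      exact not_lt.2 (hsi n hn)
    simp only [hα, h1, Finset.sum_empty, sub_zero]
  have hmain : ∀ m, i < m → g (T m z) - ∑ n ∈ s, ((w n : ℝ) : 𝕜) * g (T n z) =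
      ∑ k ∈ Finset.range m, ((α k : ℝ) : 𝕜) * g (R k z) := by
    intro m hm
    have h1 : ∀ n, g (T n z) = ∑ k ∈ Finset.range n, g (R k z) := by
      intro n
      simp only [hT, ContinuousLinearMap.sum_apply, map_sum]
    have h2 : ∀ n ∈ s, ((w n : ℝ) : 𝕜) * g (T n z) =
        ∑ k ∈ Finset.range m, if k < n then ((w n : ℝ) : 𝕜) * g (R k z) else 0 := by
      intro n hn
      rw [h1, Finset.mul_sum, ← Finset.sum_filter]
      refine Finset.sum_congr ?_ fun _ _ => rfl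
      ext k
      have := hsi n hn
      simp only [Finset.mem_range, Finset.mem_filter]
      omega
    rw [Finset.sum_congr rfl h2, Finset.sum_comm, h1 m, ← Finset.sum_sub_distrib]
    refine Finset.sum_congr rfl fun k _ => ?_
    rw [← Finset.sum_filter, ← Finset.sum_mul]
    simp only [hα, RCLike.ofReal_sub, RCLike.ofReal_one, RCLike.ofReal_sum]
    ring
  have hlow : ∀ m, i < m → 3 * ε / 8 ≤ ‖g (T m z) - ∑ n ∈ s, ((w n : ℝ) : 𝕜) * g (T n z)‖ := by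
    intro m hm
    rw [hmain m hm, ← Finset.add_sum_erase _ _ (Finset.mem_range.2 hm), hαi, RCLike.ofReal_one,
      one_mul]
    have h1 : ‖∑ k ∈ (Finset.range m).erase i, ((α k : ℝ) : 𝕜) * g (R k z)‖ ≤ ε / 8 := by
      refine (norm_sum_le _ _).trans (le_trans (Finset.sum_le_sum fun k _ => ?_) (hoff m))
      rw [norm_mul, RCLike.norm_ofReal, abs_of_nonneg (hα0 k)]
      exact mul_le_of_le_one_left (norm_nonneg _) (hα1 k)
    have h2 := norm_sub_le_norm_add (g (R i z))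
      (∑ k ∈ (Finset.range m).erase i, ((α k : ℝ) : 𝕜) * g (R k z))
    linarith
  have hlim : Tendsto (fun m => ‖g (T m z) - ∑ n ∈ s, ((w n : ℝ) : 𝕜) * g (T n z)‖) atTop
      (𝓝 ‖g (T0 z) - ∑ n ∈ s, ((w n : ℝ) : 𝕜) * g (T n z)‖) := ((hT0 z g).sub_const _).norm
  have h3 : 3 * ε / 8 ≤ ‖g (T0 z) - ∑ n ∈ s, ((w n : ℝ) : 𝕜) * g (T n z)‖ := by
    refine ge_of_tendsto hlim ?_
    filter_upwards [eventually_gt_atTop i] with m hm
    exact hlow m hm
  have h4 : g (T0 z) - ∑ n ∈ s, ((w n : ℝ) : 𝕜) * g (T n z) =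
      - g (((∑ n ∈ s, ((w n : ℝ) : 𝕜) • T n) - T0) z) := by
    simp only [ContinuousLinearMap.sub_apply, ContinuousLinearMap.sum_apply,
      ContinuousLinearMap.smul_apply, map_sub, map_sum, map_smul, smul_eq_mul]
    ring
  rw [h4, norm_neg] at h3
  have h5 : ‖g (((∑ n ∈ s, ((w n : ℝ) : 𝕜) • T n) - T0) z)‖ ≤ ε / 8 := by
    calc ‖g (((∑ n ∈ s, ((w n : ℝ) : 𝕜) • T n) - T0) z)‖
        ≤ ‖g‖ * ‖((∑ n ∈ s, ((w n : ℝ) : 𝕜) • T n) - T0) z‖ := g.le_opNorm _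
      _ ≤ 1 * (ε / 8 * 1) := by
          refine mul_le_mul (hf _) ?_ (norm_nonneg _) zero_le_one
          refine (ContinuousLinearMap.le_opNorm _ _).trans ?_
          exact mul_le_mul hD.le (hx _) (norm_nonneg _) (by positivity)
      _ = ε / 8 := by ring
  linarith

end Pool.H30.RG
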