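import Pool.Agent.H30.PM.SI
import Pool.Agent.H30.RG.Basic

/-!
# [H30 RG SW] Simons' argument for operators, weak operator topology

As `Pool.H30.PM.simons_operators` (file `Pool/Agent/H30/PM/SJ.lean`, proved), but the hypothesis `h0`
asks only `f (R n x) → 0` for all `x` and all functionals `f`.

PROOF.  Copy the proof of `simons_operators`. Only the end changes: the operator
`Z = ∑' k, l^k y k` is assumed to attain its norm at `x`; choose by Hahn-Banach
(`exists_dual_vector'' 𝕜 (Z x)`) a functional `f` with `‖f‖ ≤ 1`, `f (Z x) = ‖Z x‖ = ‖Z‖`. Then for every `n`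
`l^n ‖f (y n x)‖ ≥ ‖f (Z x)‖ - ‖z n‖ - ‖Z - z (n+1)‖ ≥ (5/12) l^n`, because `Z = z n + l^n y n + (Z - z (n+1))`,
a contradiction with `f (y n x) → 0`.
-/

namespace Pool.H30.RG

open Filter Topology

theorem simons_wot {𝕜 : Type*} [RCLike 𝕜] {X : Type*} [NormedAddCommGroup X]
    [NormedSpace 𝕜 X] [NormedSpace ℝ X] [IsScalarTower ℝ 𝕜 X] [CompleteSpace X]
    (Cs : ℕ → Set (X →L[𝕜] X)) (hne : ∀ n, (Cs n).Nonempty) (hconv : ∀ n, Convex ℝ (Cs n))
    (hdec : ∀ n, Cs (n + 1) ⊆ Cs n) (B : ℝ) (hB : ∀ n, ∀ R ∈ Cs n, ‖R‖ ≤ B)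
    (h1 : ∀ R ∈ Cs 0, 1 ≤ ‖R‖)
    (h0 : ∀ R : ℕ → (X →L[𝕜] X), (∀ n, R n ∈ Cs n) →
      ∀ (x : X) (f : X →L[𝕜] 𝕜), Tendsto (fun n => f (R n x)) atTop (𝓝 0)) :
    ¬ AllAttain 𝕜 X := by
  classical
  obtain ⟨R0, hR0⟩ := hne 0
  have hB1 : 1 ≤ B := (h1 R0 hR0).trans (hB 0 R0 hR0)
  set l : ℝ := 1 / (4 * B) with hl
  have hl0 : 0 < l := by positivity
  have hlB : l * B = 1 / 4 := by rw [hl]; field_simp
  have hl4 : l ≤ 1 / 4 := by
    rw [hl, div_le_div_iff₀ (by positivity) (by norm_num)]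
    linarith
  obtain ⟨y, hy, hyi⟩ := Pool.H30.PM.simons_construction Cs hne hconv hdec 1 (1 / 8) l h1 (by norm_num)
    hl0 (by linarith)
  intro hall
  -- the real and the complex scalar action agree
  have hsm : ∀ (k : ℕ), ((l ^ k : ℝ) : 𝕜) • y k = l ^ k • y k := by
    intro k
    ext x
    rw [ContinuousLinearMap.smul_apply, ContinuousLinearMap.smul_apply]
    exact (RCLike.real_smul_eq_coe_smul (K := 𝕜) (l ^ k) (y k x)).symm
  have hsum : Summable (fun k => l ^ k • y k) := by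
    refine Summable.of_norm_bounded (g := fun k => l ^ k * B)
      ((summable_geometric_of_lt_one hl0.le (by linarith)).mul_right B) (fun k => ?_)
    rw [norm_smul, Real.norm_of_nonneg (by positivity)]
    exact mul_le_mul_of_nonneg_left (hB k _ (hy k)) (by positivity)
  set Z : X →L[𝕜] X := ∑' k, ((l ^ k : ℝ) : 𝕜) • y k with hZ
  have hZs : HasSum (fun k => l ^ k • y k) Z := by
    rw [hZ]
    simp only [hsm]
    exact hsum.hasSum
  let z : ℕ → (X →L[𝕜] X) := fun n => ∑ k ∈ Finset.range n, l ^ k • y k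
  have hz : Tendsto z atTop (𝓝 Z) := hZs.tendsto_sum_nat
  have hstep : ∀ n, l ^ n * (3 / 4) ≤ ‖z (n + 1)‖ - ‖z n‖ := by
    intro n
    have := hyi n
    have e : (1 : ℝ) - 2 * (1 / 8) = 3 / 4 := by norm_num
    rw [e] at this
    exact this
  have hmono : ∀ n m, n ≤ m → ‖z n‖ ≤ ‖z m‖ := by
    intro n m hnm
    have hm : Monotone (fun k => ‖z k‖) := by
      refine monotone_nat_of_le_succ (fun k => ?_)
      have h3 := hstep k
      have h4 : 0 ≤ l ^ k * (3 / 4) := by positivity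
      show ‖z k‖ ≤ ‖z (k + 1)‖
      linarith
    exact hm hnm
  have hZz : ∀ n, l ^ n * (3 / 4) ≤ ‖Z‖ - ‖z n‖ := by
    intro n
    have h2 : ‖z (n + 1)‖ ≤ ‖Z‖ := by
      refine ge_of_tendsto hz.norm ?_
      filter_upwards [eventually_ge_atTop (n + 1)] with m hm
      exact hmono _ _ hm
    have := hstep n
    linarith
  obtain ⟨x, hx1, hx2⟩ := hall Z
  obtain ⟨f, hf1, hf2⟩ := exists_dual_vector'' 𝕜 (Z x)
  -- lower bound for the f (y n x)
  have hlow : ∀ n, 5 / 12 ≤ ‖f (y n x)‖ := by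
    intro n
    have htail : ‖Z - z (n + 1)‖ ≤ l ^ (n + 1) * B / (1 - l) := by
      have h3 : HasSum (fun k => l ^ (k + (n + 1)) • y (k + (n + 1))) (Z - z (n + 1)) := by
        have := (hasSum_nat_add_iff' (f := fun k => l ^ k • y k) (n + 1)).mpr hZs
        exact this
      have h4 : HasSum (fun k : ℕ => l ^ (n + 1) * B * l ^ k) (l ^ (n + 1) * B * (1 - l)⁻¹) :=
        (hasSum_geometric_of_lt_one hl0.le (by linarith)).mul_left _
      rw [div_eq_mul_inv, ← h3.tsum_eq]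
      refine tsum_of_norm_bounded h4 (fun k => ?_)
      rw [norm_smul, Real.norm_of_nonneg (by positivity), pow_add]
      have h5 := hB _ _ (hy (k + (n + 1)))
      calc l ^ k * l ^ (n + 1) * ‖y (k + (n + 1))‖ ≤ l ^ k * l ^ (n + 1) * B :=
            mul_le_mul_of_nonneg_left h5 (by positivity)
        _ = l ^ (n + 1) * B * l ^ k := by ring
    have h6 : z (n + 1) = z n + ((l ^ n : ℝ) : 𝕜) • y n := by
      rw [hsm]
      exact Finset.sum_range_succ _ _
    have hfn : ∀ v : X, ‖f v‖ ≤ ‖v‖ := fun v => (f.le_opNorm v).trans (by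
      calc ‖f‖ * ‖v‖ ≤ 1 * ‖v‖ := mul_le_mul_of_nonneg_right hf1 (norm_nonneg _)
        _ = ‖v‖ := one_mul _)
    have h7 : f (Z x) = f (z n x) + ((l ^ n : ℝ) : 𝕜) * f (y n x) + f ((Z - z (n + 1)) x) := by
      rw [h6]
      simp only [ContinuousLinearMap.sub_apply, ContinuousLinearMap.add_apply,
        ContinuousLinearMap.smul_apply, map_sub, map_add, map_smul, smul_eq_mul]
      ring
    have h8 : ‖Z x‖ ≤ ‖z n‖ + l ^ n * ‖f (y n x)‖ + l ^ (n + 1) * B / (1 - l) := by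
      have h8a : ‖f (Z x)‖ = ‖Z x‖ := by rw [hf2]; simp
      rw [← h8a, h7]
      refine (norm_add_le _ _).trans (add_le_add ((norm_add_le _ _).trans (add_le_add ?_ ?_)) ?_)
      · exact (hfn _).trans (((z n).le_opNorm x).trans (by rw [hx1, mul_one]))
      · rw [norm_mul, RCLike.norm_ofReal, abs_of_nonneg (by positivity)]
      · exact (hfn _).trans (((Z - z (n + 1)).le_opNorm x).trans (by rw [hx1, mul_one]; exact htail))
    rw [hx2] at h8
    have h9 := hZz n
    have h10 : l ^ (n + 1) * B / (1 - l) ≤ l ^ n * (1 / 3) := by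
      rw [pow_succ, mul_assoc, hlB, div_le_iff₀ (by linarith)]
      have : 0 < l ^ n := by positivity
      nlinarith
    have h11 : 0 < l ^ n := by positivity
    have h12 : l ^ n * (5 / 12) ≤ l ^ n * ‖f (y n x)‖ := by linarith
    exact le_of_mul_le_mul_left h12 h11
  have h13 := (h0 y hy x f).norm
  rw [norm_zero] at h13
  have h14 : (5 / 12 : ℝ) ≤ 0 := ge_of_tendsto h13 (Eventually.of_forall hlow)
  norm_num at h14

end Pool.H30.RG
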