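import Pool.Agent.H30.RG.GF

/-!
# [H30 RG TS] `Q` is 2-summing

`Q : BM Ω → X` linear, `‖Q g‖ ≤ D |a|` if `|g| ≤ a`; `U : X → L¹(μ)` bounded with `c ‖x‖ ≤ ‖U x‖`. Then
`∑ ‖Q (g k)‖² ≤ K M` whenever `∑ (g k)² ≤ M` everywhere, `K` independent of the family.

PROOF.  `β g h = ∫ (U (Q g)) h dμ`, a bilinear form on `BM Ω`, `|β g h| ≤ ‖U‖ D a b`. Let
`K = (100 ‖U‖ |D| / c)²`. By homogeneity (replace `g k` by `g k / sqrt M`; if `M = 0` all `g k = 0`, all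
`Q (g k) = 0`; `M ≥ 0` unless `Ω` is empty, and then `BM Ω` is trivial) assume `M = 1`. Let `u k` be a measurable
representative of `U (Q (g k))`, `s = sqrt (∑ (u k)²)` and `h k = u k / s` (`0` where `s = 0`), measurable,
`∑ (h k)² ≤ 1`, so `h k ∈ BM Ω`. By `groth_fun`: `∫ s dμ = ∑_k ∫ u k h k = ∑_k β (g k) (h k) ≤ 100 ‖U‖ |D|`. With
`b k = ‖U (Q (g k))‖ = ∫ |u k|` and `B = sqrt (∑ (b k)²)`: `B² = ∑ b k ∫ |u k| = ∫ ∑ b k |u k| ≤ ∫ B s = B ∫ s`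
(Cauchy-Schwarz), so `B ≤ ∫ s ≤ 100 ‖U‖ |D|` and `∑ ‖Q (g k)‖² ≤ c⁻² B² ≤ K`.
-/

namespace Pool.H30.RG

open MeasureTheory

private theorem ts_int {Ω : Type*} [MeasurableSpace Ω] {μ : Measure Ω} {u : Ω → ℝ}
    (hu : Integrable u μ) (h : BM Ω) : Integrable (fun ω => u ω * (h : Ω → ℝ) ω) μ := by
  obtain ⟨c, hc⟩ := h.2.2
  exact hu.mul_bdd h.2.1.aestronglyMeasurable (Filter.Eventually.of_forall fun ω => by
    rw [Real.norm_eq_abs]
    exact hc ω)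

private noncomputable def tsβ {X : Type*} [NormedAddCommGroup X] [NormedSpace ℝ X] {Ω : Type*}
    [MeasurableSpace Ω] (μ : Measure Ω) (U : X →L[ℝ] (Ω →₁[μ] ℝ)) (Q : BM Ω →ₗ[ℝ] X) :
    BM Ω →ₗ[ℝ] BM Ω →ₗ[ℝ] ℝ :=
  LinearMap.mk₂ ℝ (fun g h => ∫ ω, U (Q g) ω * (h : Ω → ℝ) ω ∂μ)
    (fun g g' h => by
      rw [← integral_add (ts_int (L1.integrable_coeFn _) h) (ts_int (L1.integrable_coeFn _) h)]
      refine integral_congr_ae ?_
      rw [map_add, map_add]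
      filter_upwards [Lp.coeFn_add (U (Q g)) (U (Q g'))] with ω hω
      rw [hω, Pi.add_apply, add_mul])
    (fun r g h => by
      rw [smul_eq_mul, ← integral_const_mul]
      refine integral_congr_ae ?_
      rw [map_smul, map_smul]
      filter_upwards [Lp.coeFn_smul r (U (Q g))] with ω hω
      rw [hω, Pi.smul_apply, smul_eq_mul, mul_assoc])
    (fun g h h' => by
      rw [← integral_add (ts_int (L1.integrable_coeFn _) h) (ts_int (L1.integrable_coeFn _) h')]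
      refine integral_congr_ae (Filter.Eventually.of_forall fun ω => ?_)
      show U (Q g) ω * ((h : Ω → ℝ) ω + (h' : Ω → ℝ) ω) = _
      rw [mul_add])
    (fun r g h => by
      rw [smul_eq_mul, ← integral_const_mul]
      refine integral_congr_ae (Filter.Eventually.of_forall fun ω => ?_)
      show U (Q g) ω * (r * (h : Ω → ℝ) ω) = r * (U (Q g) ω * (h : Ω → ℝ) ω)
      ring)

private theorem tsβ_apply {X : Type*} [NormedAddCommGroup X] [NormedSpace ℝ X] {Ω : Type*}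
    [MeasurableSpace Ω] (μ : Measure Ω) (U : X →L[ℝ] (Ω →₁[μ] ℝ)) (Q : BM Ω →ₗ[ℝ] X) (g h : BM Ω) :
    tsβ μ U Q g h = ∫ ω, U (Q g) ω * (h : Ω → ℝ) ω ∂μ := rfl

private theorem ts_bd {X : Type*} [NormedAddCommGroup X] [NormedSpace ℝ X] {Ω : Type*}
    [MeasurableSpace Ω] (μ : Measure Ω) (U : X →L[ℝ] (Ω →₁[μ] ℝ)) (Q : BM Ω →ₗ[ℝ] X) (D : ℝ)
    (hQ : ∀ (g : BM Ω) (a : ℝ), (∀ ω, |(g : Ω → ℝ) ω| ≤ a) → ‖Q g‖ ≤ D * |a|)
    (g h : BM Ω) (a b : ℝ) (ha : 0 ≤ a) (hb : 0 ≤ b) (hg : ∀ ω, |(g : Ω → ℝ) ω| ≤ a)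
    (hh : ∀ ω, |(h : Ω → ℝ) ω| ≤ b) : |tsβ μ U Q g h| ≤ ‖U‖ * |D| * (a * b) := by
  have h1 : |tsβ μ U Q g h| ≤ ‖U (Q g)‖ * b := by
    rw [tsβ_apply, ← Real.norm_eq_abs]
    refine (norm_integral_le_integral_norm _).trans ?_
    rw [L1.norm_eq_integral_norm, ← integral_mul_const]
    refine integral_mono (ts_int (L1.integrable_coeFn _) h).norm
      ((L1.integrable_coeFn (U (Q g))).norm.mul_const b) fun ω => ?_
    show ‖U (Q g) ω * (h : Ω → ℝ) ω‖ ≤ ‖U (Q g) ω‖ * b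
    rw [norm_mul]
    exact mul_le_mul_of_nonneg_left (hh ω) (norm_nonneg _)
  have h2 : ‖U (Q g)‖ ≤ ‖U‖ * (|D| * a) := by
    refine (U.le_opNorm _).trans (mul_le_mul_of_nonneg_left ?_ (norm_nonneg _))
    refine (hQ g a hg).trans ?_
    rw [abs_of_nonneg ha]
    exact mul_le_mul_of_nonneg_right (le_abs_self D) ha
  calc |tsβ μ U Q g h| ≤ ‖U (Q g)‖ * b := h1
    _ ≤ ‖U‖ * (|D| * a) * b := mul_le_mul_of_nonneg_right h2 hb
    _ = ‖U‖ * |D| * (a * b) := by ring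

private theorem ts_one {X : Type*} [NormedAddCommGroup X] [NormedSpace ℝ X] {Ω : Type*}
    [MeasurableSpace Ω] (μ : Measure Ω) [IsFiniteMeasure μ] (U : X →L[ℝ] (Ω →₁[μ] ℝ)) (c : ℝ)
    (hc : 0 < c) (hU : ∀ x : X, c * ‖x‖ ≤ ‖U x‖) (Q : BM Ω →ₗ[ℝ] X) (D : ℝ)
    (hQ : ∀ (g : BM Ω) (a : ℝ), (∀ ω, |(g : Ω → ℝ) ω| ≤ a) → ‖Q g‖ ≤ D * |a|) (n : ℕ)
    (g : Fin n → BM Ω) (hg : ∀ ω, ∑ k, (g k : Ω → ℝ) ω ^ 2 ≤ 1) :
    ∑ k, ‖Q (g k)‖ ^ 2 ≤ (100 * (‖U‖ * |D|) / c) ^ 2 := by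
  obtain ⟨u, hu⟩ : ∃ u : Fin n → Ω → ℝ, u = fun k => ⇑(U (Q (g k))) := ⟨_, rfl⟩
  have hum : ∀ k, Measurable (u k) := by
    intro k
    rw [hu]
    exact (Lp.stronglyMeasurable _).measurable
  have hui : ∀ k, Integrable (u k) μ := by
    intro k
    rw [hu]
    exact L1.integrable_coeFn _
  obtain ⟨s, hs⟩ : ∃ s : Ω → ℝ, s = fun ω => Real.sqrt (∑ k, u k ω ^ 2) := ⟨_, rfl⟩
  have hsm : Measurable s := by
    rw [hs]
    exact (Finset.measurable_fun_sum _ fun k _ => (hum k).pow_const 2).sqrt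
  have hs0 : ∀ ω, 0 ≤ s ω := by
    intro ω
    rw [hs]
    exact Real.sqrt_nonneg _
  have hs2 : ∀ ω, s ω ^ 2 = ∑ k, u k ω ^ 2 := by
    intro ω
    rw [hs]
    exact Real.sq_sqrt (Finset.sum_nonneg fun k _ => sq_nonneg _)
  have hh1 : ∀ ω, ∑ k, (u k ω / s ω) ^ 2 ≤ 1 := by
    intro ω
    simp only [div_pow]
    rw [← Finset.sum_div, ← hs2]
    by_cases h : s ω = 0
    · rw [h]
      norm_num
    · rw [div_self (pow_ne_zero 2 h)]
  obtain ⟨h, hh⟩ : ∃ h : Fin n → BM Ω, h = fun k => ⟨fun ω => u k ω / s ω, (hum k).div hsm, 1,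
    fun ω => (sq_le_one_iff_abs_le_one _).1 ((Finset.single_le_sum
      (f := fun k => (u k ω / s ω) ^ 2) (fun i _ => sq_nonneg _) (Finset.mem_univ k)).trans
        (hh1 ω))⟩ := ⟨_, rfl⟩
  have hhv : ∀ k ω, (h k : Ω → ℝ) ω = u k ω / s ω := by
    intro k ω
    rw [hh]
  have hG := groth_fun (tsβ μ U Q) (‖U‖ * |D|) (ts_bd μ U Q D hQ) n g h hg (fun ω => by
    simp only [hhv]
    exact hh1 ω)
  have hpt : ∀ ω, ∑ k, u k ω * (h k : Ω → ℝ) ω = s ω := by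
    intro ω
    have h1 : ∑ k, u k ω * (h k : Ω → ℝ) ω = (∑ k, u k ω ^ 2) / s ω := by
      rw [Finset.sum_div]
      refine Finset.sum_congr rfl fun k _ => ?_
      rw [hhv]
      ring
    rw [h1, ← hs2, sq]
    exact mul_self_div_self _
  have hsi : Integrable s μ := by
    have h1 : s = fun ω => ∑ k, u k ω * (h k : Ω → ℝ) ω := funext fun ω => (hpt ω).symm
    rw [h1]
    exact integrable_finsetSum _ fun k _ => ts_int (hui k) (h k)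
  have hS : ∑ k, tsβ μ U Q (g k) (h k) = ∫ ω, s ω ∂μ := by
    have h1 : ∫ ω, s ω ∂μ = ∫ ω, ∑ k, u k ω * (h k : Ω → ℝ) ω ∂μ := by
      refine integral_congr_ae (Filter.Eventually.of_forall fun ω => ?_)
      exact (hpt ω).symm
    rw [h1, integral_finsetSum _ fun k _ => ts_int (hui k) (h k)]
    refine Finset.sum_congr rfl fun k _ => ?_
    rw [tsβ_apply, hu]
  rw [hS] at hG
  have hG' : ∫ ω, s ω ∂μ ≤ 100 * (‖U‖ * |D|) := (le_abs_self _).trans hG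
  obtain ⟨b, hb⟩ : ∃ b : Fin n → ℝ, b = fun k => ‖U (Q (g k))‖ := ⟨_, rfl⟩
  have hb1 : ∀ k, b k = ∫ ω, |u k ω| ∂μ := by
    intro k
    rw [hb, hu]
    show ‖U (Q (g k))‖ = _
    rw [L1.norm_eq_integral_norm]
    rfl
  obtain ⟨B, hB⟩ : ∃ B : ℝ, B = Real.sqrt (∑ k, b k ^ 2) := ⟨_, rfl⟩
  have hB0 : 0 ≤ B := by
    rw [hB]
    exact Real.sqrt_nonneg _
  have hB2 : B ^ 2 = ∑ k, b k ^ 2 := by
    rw [hB]
    exact Real.sq_sqrt (Finset.sum_nonneg fun k _ => sq_nonneg _)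
  have hBs : B ^ 2 ≤ B * ∫ ω, s ω ∂μ := by
    have h1 : B ^ 2 = ∫ ω, ∑ k, b k * |u k ω| ∂μ := by
      rw [integral_finsetSum _ fun k _ => (hui k).abs.const_mul _, hB2]
      refine Finset.sum_congr rfl fun k _ => ?_
      rw [integral_const_mul, ← hb1, sq]
    rw [h1, ← integral_const_mul]
    refine integral_mono (integrable_finsetSum _ fun k _ => (hui k).abs.const_mul _)
      (hsi.const_mul B) fun ω => ?_
    show ∑ k, b k * |u k ω| ≤ B * s ω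
    rw [hB, hs]
    have h2 := Real.sum_mul_le_sqrt_mul_sqrt Finset.univ b fun k => |u k ω|
    simp only [sq_abs] at h2
    exact h2
  have hBK : B ≤ 100 * (‖U‖ * |D|) := by
    rcases hB0.eq_or_lt with h1 | h1
    · rw [← h1]
      positivity
    · have h2 : B ≤ ∫ ω, s ω ∂μ := by
        rw [sq] at hBs
        exact le_of_mul_le_mul_left hBs h1
      exact h2.trans hG'
  have hfin : ∑ k, ‖Q (g k)‖ ^ 2 ≤ ∑ k, b k ^ 2 / c ^ 2 := by
    refine Finset.sum_le_sum fun k _ => ?_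
    rw [le_div_iff₀ (by positivity), ← mul_pow]
    refine pow_le_pow_left₀ (by positivity) ?_ 2
    rw [hb, mul_comm]
    exact hU _
  refine hfin.trans ?_
  rw [← Finset.sum_div, ← hB2, div_pow]
  gcongr

theorem two_summing {X : Type*} [NormedAddCommGroup X] [NormedSpace ℝ X] {Ω : Type*}
    [MeasurableSpace Ω] (μ : Measure Ω) [IsFiniteMeasure μ] (U : X →L[ℝ] (Ω →₁[μ] ℝ)) (c : ℝ)
    (hc : 0 < c) (hU : ∀ x : X, c * ‖x‖ ≤ ‖U x‖) (Q : BM Ω →ₗ[ℝ] X) (D : ℝ)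
    (hQ : ∀ (g : BM Ω) (a : ℝ), (∀ ω, |(g : Ω → ℝ) ω| ≤ a) → ‖Q g‖ ≤ D * |a|) :
    ∃ K : ℝ, 0 ≤ K ∧ ∀ (n : ℕ) (g : Fin n → BM Ω) (M : ℝ), 0 ≤ M →
      (∀ ω, ∑ k, (g k : Ω → ℝ) ω ^ 2 ≤ M) → ∑ k, ‖Q (g k)‖ ^ 2 ≤ K * M := by
  refine ⟨(100 * (‖U‖ * |D|) / c) ^ 2, sq_nonneg _, ?_⟩
  intro n g M hM hg
  rcases hM.eq_or_lt with h0 | h0
  · rw [← h0, mul_zero]
    refine (Finset.sum_eq_zero fun k _ => ?_).le
    have h1 : g k = 0 := by
      refine Subtype.ext (funext fun ω => ?_)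
      have h2 := hg ω
      rw [← h0] at h2
      have h3 : (g k : Ω → ℝ) ω ^ 2 ≤ 0 :=
        (Finset.single_le_sum (f := fun k => (g k : Ω → ℝ) ω ^ 2) (fun i _ => sq_nonneg _)
          (Finset.mem_univ k)).trans h2
      exact pow_eq_zero_iff (two_ne_zero) |>.1 (le_antisymm h3 (sq_nonneg _))
    rw [h1, map_zero, norm_zero, zero_pow two_ne_zero]
  · obtain ⟨r, hr⟩ : ∃ r : ℝ, r = Real.sqrt M := ⟨_, rfl⟩
    have hr0 : 0 < r := by
      rw [hr]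
      exact Real.sqrt_pos.2 h0
    have hr2 : r ^ 2 = M := by
      rw [hr]
      exact Real.sq_sqrt h0.le
    have h1 := ts_one μ U c hc hU Q D hQ n (fun k => r⁻¹ • g k) (fun ω => by
      have h2 : ∀ k, ((r⁻¹ • g k : BM Ω) : Ω → ℝ) ω ^ 2 = (g k : Ω → ℝ) ω ^ 2 / M := by
        intro k
        show (r⁻¹ * (g k : Ω → ℝ) ω) ^ 2 = _
        rw [mul_pow, inv_pow, hr2]
        ring
      rw [Finset.sum_congr rfl fun k _ => h2 k, ← Finset.sum_div, div_le_one h0]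
      exact hg ω)
    have h2 : ∀ k, ‖Q (r⁻¹ • g k)‖ ^ 2 = ‖Q (g k)‖ ^ 2 / M := by
      intro k
      rw [map_smul, norm_smul, mul_pow, Real.norm_eq_abs, sq_abs, inv_pow, hr2]
      ring
    rw [Finset.sum_congr rfl fun k _ => h2 k, ← Finset.sum_div, div_le_iff₀ h0] at h1
    exact h1

end Pool.H30.RG
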