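import Pool.Agent.H30.RG.LB
import Pool.Agent.H30.RG.QL
import Pool.Agent.H30.RG.TS
import Pool.Agent.H30.RG.PI
import Pool.Agent.H30.RG.HQ
import Pool.Agent.H30.RG.HP

/-!
# H30/RG/TB: spaces represented by functions
-/

namespace Pool.H30.RG

open MeasureTheory

/-- If all operators on the separable space `X` attain their norm and `X`, `X*` are represented by
integrable functions with the duality given by integration, then `X` is finite dimensional. -/
theorem finite_of_rep {X : Type*} [NormedAddCommGroup X] [NormedSpace ℝ X] [CompleteSpace X]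
    [TopologicalSpace.SeparableSpace X] (h : AllAttain ℝ X) {Ω : Type*} [MeasurableSpace Ω]
    (μ : Measure Ω) [IsFiniteMeasure μ] (U : X →L[ℝ] (Ω →₁[μ] ℝ))
    (V : (X →L[ℝ] ℝ) →L[ℝ] (Ω →₁[μ] ℝ)) (C : ℝ) (hrep : IsRep μ U V C) :
    FiniteDimensional ℝ X := by
  obtain ⟨c, hc, hU, hV⟩ := lower_bounds h μ U V C hrep
  obtain ⟨Q, hQs, -, hQb⟩ := exists_Q (reflexive_of_allAttain h) μ V c hc hV
  obtain ⟨K, hK0, hK⟩ := two_summing μ U c hc hU Q ‖V‖ hQb
  obtain ⟨ν, hν, hνQ⟩ := pietsch Q K hK0 hK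
  let b : BM Ω →ₗ[ℝ] BM Ω →ₗ[ℝ] ℝ := LinearMap.mk₂ ℝ (fun g h => ν (BM.mul g h))
    (by intro g g' h; rw [← map_add]; congr 1; ext ω; simp [BM.mul, add_mul])
    (by intro r g h; rw [smul_eq_mul, ← smul_eq_mul, ← map_smul]; congr 1; ext ω
        simp [BM.mul, mul_assoc])
    (by intro g h h'; rw [← map_add]; congr 1; ext ω; simp [BM.mul, mul_add])
    (by intro r g h; rw [smul_eq_mul, ← smul_eq_mul, ← map_smul]; congr 1; ext ω
        simp [BM.mul]; ring)
  obtain ⟨G, i1, i2, i3, ⟨Φ⟩⟩ := hilbert_of_quotient b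
    (by intro g h; show ν (BM.mul g h) = ν (BM.mul h g); congr 1; ext ω; simp [BM.mul, mul_comm])
    (by intro g
        show 0 ≤ ν (BM.mul g g)
        exact hν _ (fun ω => mul_self_nonneg _)) Q hQs K
    (by intro g
        have h1 : b g g = ν (BM.sq g) := by
          show ν (BM.mul g g) = ν (BM.sq g)
          congr 1
          ext ω
          simp [BM.mul, BM.sq, sq]
        rw [h1]
        exact hνQ g)
  exact finite_of_hilbert h Φ

end Pool.H30.RG
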