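import Pool.Agent.H93.RG.Stp

/-!
# FG for blocks of size `r`: the tower (port of H3/MPG/Tow)
-/

set_option autoImplicit false
set_option linter.unusedSectionVars false

namespace Pool.Agent.H30.RG

open Finset
open Pool.Agent.H3.Frg hiding ind
open Pool.Agent.H3.Ac (ldep SubCl)
open Pool.Agent.H67.FG (ind Alg Fo tr orAll orF IsRef Few)
open Pool.Agent.H93.RG

/-- the block variables describe a partial partition of the points of `Fin N`, the constants are right -/
structure VarOK (r : ℕ) {N : ℕ} {V : Type} [Fintype V]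
    (val : Fm (Finset (Fin N) ⊕ Bool) → Finset (Finset V) → Option Bool) : Prop where
  /-- constants -/
  const : ∀ b M, val (Fm.var (Sum.inr b)) M = some b
  /-- no point is in two blocks -/
  func : ∀ (a : Fin N) (B C : Finset (Fin N)), a ∈ B → a ∈ C → B ≠ C → ∀ M, IsM r M →
    val (Fm.var (Sum.inl B)) M = some true → val (Fm.var (Sum.inl C)) M ≠ some true
  /-- every point gets a block by one more block -/
  ext : ∀ (a : Fin N) M, IsM r M → r * M.card + r ≤ Fintype.card V → ∃ M', IsM r M' ∧ M ⊆ M' ∧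
    M'.card ≤ M.card + 1 ∧ ∃ e : Finset (Fin N), e.card = r ∧ a ∈ e ∧ val (Fm.var (Sum.inl e)) M' = some true

/-! ### the levels -/

section Levels

variable {N r : ℕ}

theorem VarOK.step (hr : 1 ≤ r) {V : Type} [Fintype V] [DecidableEq V] {w i : ℕ}
    {val : Fm (Finset (Fin N) ⊕ Bool) → Finset (Finset V) → Option Bool} (h : VarOK r val)
    {ρ : Finset (Finset V)} (hρ : IsM r ρ) : VarOK r (nval r 0 i w val ρ) := by
  have hv : ∀ x M, nval r 0 i w val ρ (Fm.var x) M = val (Fm.var x) (lft ρ M) := fun x M =>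
    stp_nval_old (C := Fm.var x) (Nat.zero_le _) M
  have hU := card_Unc hρ
  constructor
  · intro b M
    rw [hv]
    exact h.const b _
  · intro a B C hB hC hne M hM h1
    rw [hv] at h1 ⊢
    exact h.func a B C hB hC hne _ (isM_lft hρ hM) h1
  · intro a M hM hroom
    have hc := card_lft hr hρ hM
    obtain ⟨K, h1, h2, h3, e, h4, h4', h5⟩ := h.ext a _ (isM_lft hρ hM) (by rw [hc, Nat.mul_add]; omega)
    have h6 : lft ρ (rst ρ K) = K := lft_rst h1 ((sub_lft M).trans h2)
    have h7 := card_lft hr hρ (isM_rst (ρ := ρ) h1)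
    rw [h6] at h7
    refine ⟨rst ρ K, isM_rst h1, ?_, by omega, e, h4, h4', ?_⟩
    · calc M = rst ρ (lft ρ M) := (rst_lft hr hρ hM).symm
        _ ⊆ rst ρ K := rst_mono h2
    · rw [hv, h6]
      exact h5

theorem lev_mod (w c i : ℕ) : lev r w c i % r = c % r := by
  induction i with
  | zero => rfl
  | succ i ih =>
    have h1 : lev r w c (i + 1) = r * (2 ^ (r + 2) * w * (lev r w c i) ^ (r * r)) + lev r w c i := rfl
    rw [h1, Nat.mul_add_mod]
    exact ih

/-- the number of blocks of the base -/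
theorem base_num (hr : 1 ≤ r) {n ℓ X : ℕ} (h : r * X + ℓ ≤ n) (hmod : n % r = ℓ % r) :
    ∃ m, r * m + ℓ = n ∧ X ≤ m + 1 := by
  have h1 : ℓ ≤ n := by omega
  have h2 : (n - ℓ) % r = 0 := Nat.sub_mod_eq_zero_of_mod_eq hmod
  have h3 : r * ((n - ℓ) / r) = n - ℓ := Nat.mul_div_cancel' (Nat.dvd_of_mod_eq_zero h2)
  refine ⟨(n - ℓ) / r, by omega, ?_⟩
  have h4 : r * X ≤ r * ((n - ℓ) / r) := by rw [h3]; omega
  have := Nat.le_of_mul_le_mul_left h4 (by omega)
  omega

theorem tower_aux (hr : 1 ≤ r) (w c : ℕ) (S : List (Fm (Finset (Fin N) ⊕ Bool)))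
    (hS : SubCl {A | A ∈ S}) (hS2 : S.length ≤ 2 ^ w) (e : ℕ) :
    ∀ (i : ℕ) (V : Type) [Fintype V] [DecidableEq V]
      (val : Fm (Finset (Fin N) ⊕ Bool) → Finset (Finset V) → Option Bool),
      (∀ A ∈ S, ldep 0 A ≤ i → Val r w (2 * r * r * w) (val A)) →
      Coh r val {A | A ∈ S ∧ ldep 0 A ≤ i} → VarOK r val →
      lev r w c (e + 1) ≤ Fintype.card V → Fintype.card V % r = c % r →
      ∃ (V' : Type) (_ : Fintype V') (_ : DecidableEq V')
        (val' : Fm (Finset (Fin N) ⊕ Bool) → Finset (Finset V') → Option Bool),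
        Fintype.card V' = c ∧
        (∀ A ∈ S, ldep 0 A ≤ i + e + 1 → Val r w (2 * r * r * w) (val' A)) ∧
        Coh r val' {A | A ∈ S ∧ ldep 0 A ≤ i + e + 1} ∧ VarOK r val' := by
  induction e with
  | zero =>
    intro i V _ _ val hval hcoh hok hV hpar
    have h1 : lev r w c (0 + 1) = r * (2 ^ (r + 2) * w * c ^ (r * r)) + c := rfl
    rw [h1] at hV
    obtain ⟨m, hm1, hm2⟩ := base_num hr hV hpar
    obtain ⟨ρ, hρ, hρm, h6, h7⟩ := ac_step_base hr 0 i w c m S hS val hval
      hcoh hm1 hm2 hS2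
    have hU := card_Unc hρ
    exact ⟨Unc ρ, inferInstance, inferInstance, nval r 0 i w val ρ, by rw [hρm] at hU; omega, h6, h7,
      hok.step hr hρ⟩
  | succ e ih =>
    intro i V _ _ val hval hcoh hok hV hpar
    have h1 : lev r w c (e + 1 + 1) =
      r * (2 ^ (r + 2) * w * (lev r w c (e + 1)) ^ (r * r)) + lev r w c (e + 1) := rfl
    have h2 := lev_mod (r := r) w c (e + 1)
    rw [h1] at hV
    obtain ⟨m, hm1, hm2⟩ := base_num hr hV (hpar.trans h2.symm)
    obtain ⟨ρ, hρ, hρm, h6, h7⟩ := ac_step_base hr 0 i w (lev r w c (e + 1))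
      m S hS val hval hcoh hm1 hm2 hS2
    have hU := card_Unc hρ
    rw [hρm] at hU
    have hcard : Fintype.card (Unc ρ) = lev r w c (e + 1) := by omega
    obtain ⟨V'', hF2, hD2, val'', k1, k2, k3, k4⟩ :=
      ih (i + 1) (Unc ρ) (nval r 0 i w val ρ) h6 h7 (hok.step hr hρ) (by rw [hcard])
        (by rw [hcard]; exact h2)
    have e1 : i + 1 + e + 1 = i + (e + 1) + 1 := by omega
    rw [e1] at k2 k3
    exact ⟨V'', hF2, hD2, val'', k1, k2, k3, k4⟩

end Levels

/-! ### the values of the variables at the start -/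

section Start

variable {V : Type} [Fintype V] [DecidableEq V] {r : ℕ}

open scoped Classical in
/-- the value of the block variable `e` at a partial partition -/
noncomputable def evl (e : Finset V) (M : Finset (Finset V)) : Option Bool :=
  if e ∈ M then some true else if ∃ v ∈ e, v ∈ cov M then some false else none

theorem evl_true {e : Finset V} {M : Finset (Finset V)} : evl e M = some true ↔ e ∈ M := by
  unfold evl
  split_ifs with h1 h2 <;> simp [h1]

theorem evl_false {e : Finset V} {M : Finset (Finset V)} :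
    evl e M = some false ↔ e ∉ M ∧ ∃ v ∈ e, v ∈ cov M := by
  unfold evl
  by_cases h1 : e ∈ M
  · rw [if_pos h1]
    simp [h1]
  · rw [if_neg h1]
    by_cases h2 : ∃ v ∈ e, v ∈ cov M
    · rw [if_pos h2]
      exact ⟨fun _ => ⟨h1, h2⟩, fun _ => rfl⟩
    · rw [if_neg h2]
      exact ⟨fun h => absurd h (by simp), fun h => absurd h.2 h2⟩

theorem evl_Val (hr : 1 ≤ r) {e : Finset V} (he : e.card = r) (w R : ℕ) (hw : 1 ≤ w) :
    Val r w R (evl e) := by
  constructor
  · intro M M' hM' h b hb
    cases b with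
    | true => exact evl_true.2 (h (evl_true.1 hb))
    | false =>
      obtain ⟨h1, v, hv, hc⟩ := evl_false.1 hb
      refine evl_false.2 ⟨fun h2 => ?_, v, hv, cov_mono h hc⟩
      obtain ⟨f, hf, hvf⟩ := mem_cov.1 hc
      rw [hM'.2 e h2 f (h hf) v hv hvf] at h1
      exact h1 hf
  · intro M hM b hb
    cases b with
    | true =>
      refine ⟨{e}, by simpa using evl_true.1 hb, by simpa using hw, evl_true.2 (by simp)⟩
    | false =>
      obtain ⟨h1, v, hv, hc⟩ := evl_false.1 hb
      obtain ⟨f, hf, hvf⟩ := mem_cov.1 hc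
      refine ⟨{f}, by simpa using hf, by simpa using hw, evl_false.2 ⟨?_, v, hv, ?_⟩⟩
      · rw [Finset.mem_singleton]
        rintro rfl
        exact h1 hf
      · exact mem_cov.2 ⟨f, by simp, hvf⟩
  · intro M hM _
    by_cases h : ∃ v ∈ e, v ∈ cov M
    · refine ⟨M, hM, Finset.Subset.refl _, Nat.le_add_right _ _, ?_⟩
      by_cases h1 : e ∈ M
      · rw [evl_true.2 h1]; simp
      · rw [evl_false.2 ⟨h1, h⟩]; simp
    · have hd : Disjoint e (cov M) := by
        rw [Finset.disjoint_left]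
        exact fun v hv hc => h ⟨v, hv, hc⟩
      obtain ⟨hI, _, hcard⟩ := isM_insert hr hM he hd
      refine ⟨insert e M, hI, Finset.subset_insert _ _, by omega, ?_⟩
      rw [evl_true.2 (Finset.mem_insert_self _ _)]
      simp

/-- constants -/
theorem const_Val (b : Bool) (w R : ℕ) : Val r w R (fun _ : Finset (Finset V) => some b) :=
  ⟨fun _ _ _ _ _ h => h, fun _ _ _ h => ⟨∅, Finset.empty_subset _, by simp, h⟩,
    fun M hM _ => ⟨M, hM, Finset.Subset.refl _, Nat.le_add_right _ _, by simp⟩⟩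

variable {N : ℕ}

open scoped Classical in
/-- the values at the start -/
noncomputable def val0 (r N : ℕ) : Fm (Finset (Fin N) ⊕ Bool) → Finset (Finset (Fin N)) → Option Bool
  | Fm.var (Sum.inl e), M => if e.card = r then evl e M else some false
  | Fm.var (Sum.inr b), _ => some b
  | Fm.neg _, _ => none
  | Fm.imp _ _, _ => none

theorem val0_true {B : Finset (Fin N)} {M : Finset (Finset (Fin N))} (hM : IsM r M) :
    val0 r N (Fm.var (Sum.inl B)) M = some true ↔ B ∈ M := by
  classical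
  simp only [val0]
  by_cases h : B.card = r
  · rw [if_pos h]
    exact evl_true
  · rw [if_neg h]
    exact ⟨fun h1 => absurd h1 (by simp), fun h1 => absurd (hM.1 _ h1) h⟩

theorem val0_OK (hr : 1 ≤ r) : VarOK r (val0 r N) := by
  classical
  constructor
  · intro b M
    rfl
  · intro a B C hB hC hne M hM h1 h2
    rw [val0_true hM] at h1 h2
    exact hne (hM.2 _ h1 _ h2 a hB hC)
  · intro a M hM hroom
    obtain ⟨M', h1, h2, h3, h4, _⟩ := cover hr {a} hM (by rw [Finset.card_singleton]; omega)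
    rw [Finset.card_singleton] at h4
    obtain ⟨e, he, hae⟩ := mem_cov.1 (h3 (Finset.mem_singleton_self a))
    exact ⟨M', h1, h2, h4, e, h1.1 e he, hae, (val0_true h1).2 he⟩

theorem ldep_zero_pos {W : Type} (A : Fm W) (h : ldep 0 A ≤ 0) : ∃ x, A = Fm.var x := by
  cases A with
  | var x => exact ⟨x, rfl⟩
  | neg A =>
    simp only [ldep] at h
    rw [if_neg (by omega)] at h
    omega
  | imp A B =>
    simp only [ldep] at h
    rw [if_neg (by omega)] at h
    omega

theorem val0_Val (hr : 1 ≤ r) (w R : ℕ) (hw : 1 ≤ w) (A : Fm (Finset (Fin N) ⊕ Bool)) (h : ldep 0 A ≤ 0) :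
    Val r w R (val0 r N A) := by
  classical
  obtain ⟨x, rfl⟩ := ldep_zero_pos A h
  rcases x with e | b
  · by_cases he : e.card = r
    · have h1 : val0 r N (Fm.var (Sum.inl e)) = evl e := by
        funext M
        simp only [val0, if_pos he]
      rw [h1]
      exact evl_Val hr he w R hw
    · have h1 : val0 r N (Fm.var (Sum.inl e)) = fun _ => some false := by
        funext M
        simp only [val0, if_neg he]
      rw [h1]
      exact const_Val false w R
  · exact const_Val b w R

end Start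

/-! ### transport to a given set -/

section Transport

variable {A B : Type} {r : ℕ}

/-- transport of a set of blocks -/
def psh (φ : A ≃ B) (M : Finset (Finset A)) : Finset (Finset B) :=
  M.map ⟨Finset.map φ.toEmbedding, Finset.map_injective _⟩

theorem mem_psh {φ : A ≃ B} {M : Finset (Finset A)} {e : Finset B} :
    e ∈ psh φ M ↔ ∃ f ∈ M, f.map φ.toEmbedding = e := by
  unfold psh
  rw [Finset.mem_map]
  rfl

theorem map_symm_map (φ : A ≃ B) (e : Finset A) : (e.map φ.toEmbedding).map φ.symm.toEmbedding = e := by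
  ext x
  simp

theorem map_map_symm (φ : A ≃ B) (e : Finset B) : (e.map φ.symm.toEmbedding).map φ.toEmbedding = e := by
  ext x
  simp

theorem psh_symm (φ : A ≃ B) (M : Finset (Finset A)) : psh φ.symm (psh φ M) = M := by
  ext e
  rw [mem_psh]
  constructor
  · rintro ⟨f, hf, rfl⟩
    obtain ⟨g, hg, rfl⟩ := mem_psh.1 hf
    rw [map_symm_map]
    exact hg
  · intro he
    exact ⟨e.map φ.toEmbedding, mem_psh.2 ⟨e, he, rfl⟩, map_symm_map φ e⟩

theorem psh_symm' (φ : A ≃ B) (M : Finset (Finset B)) : psh φ (psh φ.symm M) = M := by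
  have h := psh_symm φ.symm M
  rwa [Equiv.symm_symm] at h

theorem psh_mono {φ : A ≃ B} {M M' : Finset (Finset A)} (h : M ⊆ M') : psh φ M ⊆ psh φ M' :=
  Finset.map_subset_map.2 h

theorem card_psh (φ : A ≃ B) (M : Finset (Finset A)) : (psh φ M).card = M.card :=
  Finset.card_map _

theorem isM_psh {φ : A ≃ B} {M : Finset (Finset A)} (hM : IsM r M) : IsM r (psh φ M) := by
  constructor
  · intro e he
    obtain ⟨f, hf, rfl⟩ := mem_psh.1 he
    rw [Finset.card_map]
    exact hM.1 f hf
  · intro e he f hf v hve hvf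
    obtain ⟨e', he', rfl⟩ := mem_psh.1 he
    obtain ⟨f', hf', rfl⟩ := mem_psh.1 hf
    obtain ⟨x, hx, rfl⟩ := Finset.mem_map.1 hve
    obtain ⟨y, hy, hxy⟩ := Finset.mem_map.1 hvf
    rw [φ.toEmbedding.injective hxy] at hy
    rw [hM.2 e' he' f' hf' x hx hy]

variable [Fintype A] [Fintype B]

theorem Val_psh {φ : A ≃ B} {w R : ℕ} {f : Finset (Finset B) → Option Bool} (h : Val r w R f) :
    Val r w R (fun M => f (psh φ M)) := by
  have hc : Fintype.card A = Fintype.card B := Fintype.card_congr φ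
  constructor
  · intro M M' hM' hs b hb
    exact h.mono _ _ (isM_psh hM') (psh_mono hs) b hb
  · intro M hM b hb
    obtain ⟨t, h1, h2, h3⟩ := h.wit _ (isM_psh hM) b hb
    refine ⟨psh φ.symm t, ?_, by rw [card_psh]; exact h2, by rw [psh_symm']; exact h3⟩
    have h4 := psh_mono (φ := φ.symm) h1
    rwa [psh_symm] at h4
  · intro M hM hroom
    obtain ⟨K, h1, h2, h3, h4⟩ := h.tot _ (isM_psh (φ := φ) hM) (by rw [card_psh, ← hc]; exact hroom)
    refine ⟨psh φ.symm K, isM_psh h1, ?_, ?_, by rw [psh_symm']; exact h4⟩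
    · have h5 := psh_mono (φ := φ.symm) h2
      rwa [psh_symm] at h5
    · rw [card_psh]
      rw [card_psh] at h3
      exact h3

theorem Coh_psh {W : Type} {φ : A ≃ B} {val : Fm W → Finset (Finset B) → Option Bool}
    {S : Set (Fm W)} (h : Coh r val S) : Coh r (fun F (M : Finset (Finset A)) => val F (psh φ M)) S :=
  ⟨fun F hF M hM a b ha hb => h.neg F hF _ (isM_psh hM) a b ha hb,
    fun F G hF M hM a b c ha hb hc => h.imp F G hF _ (isM_psh hM) a b c ha hb hc⟩

theorem VarOK_psh {N : ℕ} {φ : A ≃ B}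
    {val : Fm (Finset (Fin N) ⊕ Bool) → Finset (Finset B) → Option Bool} (h : VarOK r val) :
    VarOK r (fun F (M : Finset (Finset A)) => val F (psh φ M)) := by
  have hc : Fintype.card A = Fintype.card B := Fintype.card_congr φ
  constructor
  · intro b M
    exact h.const b _
  · intro a B C hB hC hne M hM h1
    exact h.func a B C hB hC hne _ (isM_psh hM) h1
  · intro a M hM hroom
    obtain ⟨K, h1, h2, h3, e, h4, h4', h5⟩ :=
      h.ext a _ (isM_psh (φ := φ) hM) (by rw [card_psh, ← hc]; exact hroom)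
    refine ⟨psh φ.symm K, isM_psh h1, ?_, ?_, e, h4, h4', ?_⟩
    · have h6 := psh_mono (φ := φ.symm) h2
      rwa [psh_symm] at h6
    · rw [card_psh]
      rw [card_psh] at h3
      exact h3
    · show val _ (psh φ (psh φ.symm K)) = some true
      rw [psh_symm']
      exact h5

end Transport

/-! ### clauses -/

section Clause

variable {W V : Type} [Fintype V] [DecidableEq V] {r : ℕ}

theorem orF_mem {S : Set (Fm W)} (hS : SubCl S) (l : List (Fm W)) (B : Fm W) (h : orF l B ∈ S) :
    ∀ x ∈ B :: l, x ∈ S := by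
  induction l with
  | nil =>
    intro x hx
    rw [List.mem_singleton] at hx
    rw [hx]
    exact h
  | cons C l ih =>
    have h1 := hS.2 (Fm.neg C) (orF l B) h
    intro x hx
    rcases List.mem_cons.1 hx with rfl | hx
    · exact ih h1.2 x List.mem_cons_self
    · rcases List.mem_cons.1 hx with rfl | hx
      · exact hS.1 x h1.1
      · exact ih h1.2 x (List.mem_cons_of_mem _ hx)

theorem orF_bool {a b : Bool} (h : false = (!a || b)) : a = true ∧ b = false := by
  revert h
  cases a <;> cases b <;> decide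

theorem orF_bool2 {c : Bool} (h : true = !c) : c = false := by
  revert h
  cases c <;> decide

/-- room for three more extensions -/
theorem room {w c x n : ℕ} (hr : 1 ≤ r) (hx : x ≤ c * w) (hc : c ≤ 4) (hV : 6 * r * r * w ≤ n) :
    r * x + 2 * r * r * w ≤ n := by
  have h1 : r * x ≤ r * (4 * w) := Nat.mul_le_mul_left _ (hx.trans (Nat.mul_le_mul_right _ hc))
  have h2 : r * (4 * w) ≤ r * (4 * (r * w)) :=
    Nat.mul_le_mul_left _ (Nat.mul_le_mul_left _ (Nat.le_mul_of_pos_left _ hr))
  have h3 : r * (4 * (r * w)) + 2 * r * r * w = 6 * r * r * w := by ring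
  omega

/-- a disjunction with a true member is not false at a small matching -/
theorem orF_true (hr : 1 ≤ r) {S : Set (Fm W)} (hS : SubCl S) {w : ℕ}
    {val : Fm W → Finset (Finset V) → Option Bool} (hval : ∀ A ∈ S, Val r w (2 * r * r * w) (val A))
    (hcoh : Coh r val S) (hV : 6 * r * r * w ≤ Fintype.card V) {x : Fm W} {t0 : Finset (Finset V)}
    (ht0 : t0.card ≤ w) (hx : val x t0 = some true) (B : Fm W) :
    ∀ (l : List (Fm W)), orF l B ∈ S → x ∈ B :: l → ∀ M, IsM r M → M.card ≤ 2 * w → t0 ⊆ M →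
      val (orF l B) M ≠ some false := by
  intro l
  induction l with
  | nil =>
    intro hB hxB M hM _ ht hf
    rw [List.mem_singleton] at hxB
    rw [hxB] at hx
    have h1 := (hval B hB).mono _ _ hM ht true hx
    rw [show orF [] B = B from rfl, h1] at hf
    exact absurd hf (by simp)
  | cons C l ih =>
    intro hC hxC M hM hMw ht hf
    obtain ⟨h1, h2⟩ := hS.2 (Fm.neg C) (orF l B) hC
    have h3 := hS.1 C h1
    obtain ⟨M1, a1, a2, a3, a4⟩ := (hval _ h1).tot M hM (room hr hMw (by norm_num) hV)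
    obtain ⟨M2, b1, b2, b3, b4⟩ := (hval _ h2).tot M1 a1
      (room (c := 3) hr (by omega) (by norm_num) hV)
    obtain ⟨M3, c1, c2, c3, c4⟩ := (hval _ h3).tot M2 b1
      (room (c := 4) hr (by omega) (by norm_num) hV)
    obtain ⟨va, hva⟩ := Option.ne_none_iff_exists'.1 a4
    obtain ⟨vb, hvb⟩ := Option.ne_none_iff_exists'.1 b4
    obtain ⟨vc, hvc⟩ := Option.ne_none_iff_exists'.1 c4
    have d1 := (hval _ h1).mono _ _ c1 (b2.trans c2) va hva
    have d2 := (hval _ h2).mono _ _ c1 c2 vb hvb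
    have d3 : val (orF (C :: l) B) M3 = some false :=
      (hval _ hC).mono _ _ c1 ((a2.trans b2).trans c2) false hf
    have e1 : false = (!va || vb) := hcoh.imp (Fm.neg C) (orF l B) hC M3 c1 va vb false d1 d2 d3
    have e2 : va = !vc := hcoh.neg C h1 M3 c1 vc va hvc d1
    obtain ⟨e5, e3⟩ := orF_bool e1
    have e4 : vc = false := by
      rw [e5] at e2
      exact orF_bool2 e2
    have hMM : M ⊆ M3 := (a2.trans b2).trans c2
    have hxm : x ∈ C :: (B :: l) := by
      rcases List.mem_cons.1 hxC with h | h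
      · rw [h]; simp
      · rcases List.mem_cons.1 h with h | h
        · rw [h]; simp
        · exact List.mem_cons_of_mem _ (List.mem_cons_of_mem _ h)
    rcases List.mem_cons.1 hxm with h | h
    · rw [h] at hx
      have h5 := (hval C h3).mono _ _ c1 (ht.trans hMM) true hx
      rw [h5, e4] at hvc
      exact absurd hvc (by simp)
    · rw [e3] at d2
      obtain ⟨t, f1, f2, f3⟩ := (hval _ h2).wit M3 c1 false d2
      have g1 : t ∪ t0 ⊆ M3 := Finset.union_subset f1 (ht.trans hMM)
      refine ih h2 h (t ∪ t0) (isM_sub c1 g1) ((Finset.card_union_le _ _).trans (by omega))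
        Finset.subset_union_right ?_
      exact (hval _ h2).mono _ _ (isM_sub c1 g1) Finset.subset_union_left false f3

/-- clauses `a is covered` are never false -/
theorem VarOK.clause (hr : 1 ≤ r) {N : ℕ} {S : Set (Fm (Finset (Fin N) ⊕ Bool))} (hS : SubCl S) {w : ℕ}
    (hw : 1 ≤ w) {val : Fm (Finset (Fin N) ⊕ Bool) → Finset (Finset V) → Option Bool}
    (hval : ∀ A ∈ S, Val r w (2 * r * r * w) (val A)) (hcoh : Coh r val S) (hok : VarOK r val)
    (hV : 6 * r * r * w ≤ Fintype.card V) (a : Fin N) (l : List (Fm (Finset (Fin N) ⊕ Bool)))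
    (B : Fm (Finset (Fin N) ⊕ Bool)) (hC : orF l B ∈ S)
    (hall : ∀ e : Finset (Fin N), e.card = r → a ∈ e → Fm.var (Sum.inl e) ∈ B :: l) (M : Finset (Finset V))
    (hM : IsM r M) : val (orF l B) M ≠ some false := by
  intro hf
  obtain ⟨t, h1, h2, h3⟩ := (hval _ hC).wit M hM false hf
  have hroom : r * t.card + r ≤ Fintype.card V := by
    have e1 : r * t.card ≤ r * w := Nat.mul_le_mul_left _ h2
    have e2 : r * w ≤ r * (r * w) := Nat.mul_le_mul_left _ (Nat.le_mul_of_pos_left _ hr)
    have e3 : r ≤ r * (r * w) := Nat.le_mul_of_pos_right _ (Nat.mul_pos hr hw)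
    have e4 : r * (r * w) + r * (r * w) ≤ 6 * r * r * w := by
      have : 6 * r * r * w = 6 * (r * (r * w)) := by ring
      omega
    omega
  obtain ⟨M', k1, k2, k3, e, k4, k4', k5⟩ := hok.ext a t (isM_sub hM h1) hroom
  have hxS := orF_mem hS l B hC _ (hall e k4 k4')
  obtain ⟨t0, m1, m2, m3⟩ := (hval _ hxS).wit M' k1 true k5
  have g1 : t ∪ t0 ⊆ M' := Finset.union_subset k2 m1
  exact orF_true hr hS hval hcoh hV m2 m3 B l hC (hall e k4 k4') (t ∪ t0) (isM_sub k1 g1)
    ((Finset.card_union_le _ _).trans (by omega)) Finset.subset_union_right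
    ((hval _ hC).mono _ _ (isM_sub k1 g1) Finset.subset_union_left false h3)

end Clause

/-- values for all formulas of a list on a given point set `V'` -/
theorem tower {r d w : ℕ} (hr : 2 ≤ r) (hd : 1 ≤ d) (hw : 1 ≤ w) {V' : Type} [Fintype V'] [DecidableEq V']
    (hLw : 100 * r ^ 2 * (w + 1) ^ 2 ≤ Fintype.card V') {N : ℕ} (hN : N % r = Fintype.card V' % r)
    (hNL : lev r w (Fintype.card V') d ≤ N) (S : List (Fm (Finset (Fin N) ⊕ Bool))) (hS : SubCl {A | A ∈ S})
    (hdep : ∀ A ∈ S, ldep 0 A ≤ d) (hlen : S.length ≤ 2 ^ w) :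
    ∃ val : Fm (Finset (Fin N) ⊕ Bool) → Finset (Finset V') → Option Bool,
      (∀ A ∈ S, Val r w (2 * r * r * w) (val A)) ∧ Coh r val {A | A ∈ S} ∧
      (∀ b M, val (.var (Sum.inr b)) M = some b) ∧
      (∀ (a : Fin N) (B C : Finset (Fin N)), a ∈ B → a ∈ C → B ≠ C → ∀ M, IsM r M →
        ¬ (val (.var (Sum.inl B)) M = some true ∧ val (.var (Sum.inl C)) M = some true)) ∧
      ∀ (a : Fin N) (l : List (Fm (Finset (Fin N) ⊕ Bool))) (B : Fm (Finset (Fin N) ⊕ Bool)), orF l B ∈ S →
        (∀ e : Finset (Fin N), e.card = r → a ∈ e → .var (Sum.inl e) ∈ B :: l) →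
        ∀ M, IsM r M → val (orF l B) M ≠ some false := by
  have hr1 : 1 ≤ r := by omega
  obtain ⟨e, rfl⟩ : ∃ e, d = e + 1 := ⟨d - 1, by omega⟩
  obtain ⟨V₁, hF, hD, val', h1, h2, h3, h4⟩ :=
    tower_aux hr1 w (Fintype.card V') S hS hlen e 0 (Fin N) (val0 r N)
      (fun A _ hA => val0_Val hr1 w (2 * r * r * w) hw A hA)
      ⟨fun A hA => by
        obtain ⟨x, hx⟩ := ldep_zero_pos _ hA.2
        exact absurd hx (by simp), fun A B hA => by
        obtain ⟨x, hx⟩ := ldep_zero_pos _ hA.2
        exact absurd hx (by simp)⟩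
      (val0_OK hr1) (by rw [Fintype.card_fin]; exact hNL) (by rw [Fintype.card_fin]; exact hN)
  obtain ⟨φ⟩ := Fintype.card_eq.1 h1.symm
  have hset : {A : Fm (Finset (Fin N) ⊕ Bool) | A ∈ S ∧ ldep 0 A ≤ 0 + e + 1} = {A | A ∈ S} := by
    ext A
    exact ⟨fun h => h.1, fun h => ⟨h, by have := hdep A h; omega⟩⟩
  rw [hset] at h3
  have k1 : ∀ A ∈ {A | A ∈ S}, Val r w (2 * r * r * w) (fun M : Finset (Finset V') => val' A (psh φ M)) :=
    fun A hA => Val_psh (h2 A hA (by have := hdep A hA; omega))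
  have k2 := Coh_psh (φ := φ) h3
  have k3 := VarOK_psh (φ := φ) h4
  have hV : 6 * r * r * w ≤ Fintype.card V' := by
    have e1 : w ≤ (w + 1) ^ 2 := by nlinarith
    have e2 : 6 * r * r * w ≤ 100 * r ^ 2 * (w + 1) ^ 2 := by
      calc 6 * r * r * w = 6 * r ^ 2 * w := by ring
        _ ≤ 100 * r ^ 2 * (w + 1) ^ 2 := Nat.mul_le_mul (Nat.mul_le_mul_right _ (by norm_num)) e1
    exact e2.trans hLw
  exact ⟨fun F M => val' F (psh φ M), k1, k2, k3.const,
    fun a B C hB hC hne M hM h => k3.func a B C hB hC hne M hM h.1 h.2,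
    fun a l B hC hall M hM => k3.clause hr1 hS hw k1 k2 hV a l B hC hall M hM⟩

end Pool.Agent.H30.RG
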