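import Pool.Agent.H30.RG.ME

/-!
# [H30 RG UG] Power bounded operators are uniformly ergodic

If every operator on the separable Banach space `X` attains its norm and `T` is power bounded then
`avgOp T n` converges in the operator norm.

PROOF.  `X` is reflexive (`reflexive_of_allAttain`); take `E` from `mean_ergodic`. Let `ε > 0`. Apply
`mazur_wot` to the sequence `n ↦ avgOp T (n+1)` with limit `E` (strong convergence implies weak; norms
bounded by `C`): weights `w` on a finite set `s` with `D = ∑ w n avgOp T (n+1)`, `‖D - E‖ < ε / (C + 1)`.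
For fixed `n`: `‖avgOp T N * avgOp T (n+1) - avgOp T N‖ → 0` as `N → ∞`: indeed
`1 - avgOp T (n+1) = (1 - T) * q` for a polynomial `q` in `T` (`1 - T^j = (1 - T) ∑_{i<j} T^i`,
`mul_geom_sum`/`geom_sum_mul`) and `avgOp T N * (1 - T) = N⁻¹ (1 - T^N)` has norm `≤ (1 + C)/N`. Hence
`‖avgOp T N * D - avgOp T N‖ → 0`. Finally `avgOp T N * E = E` for `N ≥ 1` (as `T E = E`), so
`avgOp T N - E = (avgOp T N - avgOp T N * D) + avgOp T N * (D - E)` and the last term has norm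
`≤ C ε / (C + 1) < ε`.
-/

namespace Pool.H30.RG

open Filter Topology

section

variable {𝕜 : Type*} [RCLike 𝕜] {X : Type*} [NormedAddCommGroup X] [NormedSpace 𝕜 X]

private theorem avg_le (T : X →L[𝕜] X) (C : ℝ) (hC : ∀ n : ℕ, ‖T ^ n‖ ≤ C) (n : ℕ) :
    ‖Pool.H30.PM.avgOp T n‖ ≤ C := by
  have hC0 : 0 ≤ C := (norm_nonneg _).trans (hC 0)
  unfold Pool.H30.PM.avgOp
  rcases Nat.eq_zero_or_pos n with h0 | h0
  · subst h0
    simpa using hC0
  · have hn : (0 : ℝ) < n := by exact_mod_cast h0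
    rw [norm_smul, norm_inv, RCLike.norm_natCast]
    have h1 : ‖∑ j ∈ Finset.range n, T ^ j‖ ≤ n * C := by
      refine (norm_sum_le _ _).trans ?_
      refine (Finset.sum_le_card_nsmul _ _ C fun j _ => hC j).trans ?_
      rw [Finset.card_range, nsmul_eq_mul]
    calc (n : ℝ)⁻¹ * ‖∑ j ∈ Finset.range n, T ^ j‖ ≤ (n : ℝ)⁻¹ * (n * C) :=
          mul_le_mul_of_nonneg_left h1 (inv_nonneg.2 hn.le)
      _ = C := by rw [← mul_assoc, inv_mul_cancel₀ hn.ne', one_mul]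

private theorem avg_mul_sub (T : X →L[𝕜] X) (n : ℕ) :
    Pool.H30.PM.avgOp T n * (1 - T) = ((n : 𝕜)⁻¹) • (1 - T ^ n) := by
  unfold Pool.H30.PM.avgOp
  rw [smul_mul_assoc, geom_sum_mul_neg]

private theorem small (T : X →L[𝕜] X) (C : ℝ) (hC : ∀ n : ℕ, ‖T ^ n‖ ≤ C) :
    Tendsto (fun n : ℕ => ((n : 𝕜)⁻¹) • ((1 : X →L[𝕜] X) - T ^ n)) atTop (𝓝 0) := by
  have h1 : Tendsto (fun n : ℕ => (n : ℝ)⁻¹ * (C + C)) atTop (𝓝 0) := by
    have := (tendsto_inv_atTop_nhds_zero_nat (𝕜 := ℝ)).mul_const (C + C)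
    rwa [zero_mul] at this
  refine squeeze_zero_norm (fun n => ?_) h1
  rw [norm_smul, norm_inv, RCLike.norm_natCast]
  refine mul_le_mul_of_nonneg_left ?_ (inv_nonneg.2 (Nat.cast_nonneg n))
  have h2 : ‖(1 : X →L[𝕜] X)‖ ≤ C := by
    have := hC 0
    rwa [pow_zero] at this
  exact (norm_sub_le _ _).trans (add_le_add h2 (hC n))

private theorem one_sub_avg (T : X →L[𝕜] X) (n : ℕ) (hn : n ≠ 0) :
    ∃ q : X →L[𝕜] X, 1 - Pool.H30.PM.avgOp T n = (1 - T) * q := by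
  refine ⟨((n : 𝕜)⁻¹) • ∑ j ∈ Finset.range n, ∑ i ∈ Finset.range j, T ^ i, ?_⟩
  rw [mul_smul_comm, Finset.mul_sum]
  rw [Finset.sum_congr rfl fun j _ => mul_neg_geom_sum T j, Finset.sum_sub_distrib,
    Finset.sum_const, Finset.card_range, ← Nat.cast_smul_eq_nsmul 𝕜, smul_sub, smul_smul,
    inv_mul_cancel₀ (by exact_mod_cast hn), one_smul]
  rfl

private theorem avg_mul_E (T E : X →L[𝕜] X) (hE : T * E = E) (n : ℕ) (hn : n ≠ 0) :
    Pool.H30.PM.avgOp T n * E = E := by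
  have h1 : ∀ j : ℕ, T ^ j * E = E := by
    intro j
    induction j with
    | zero => rw [pow_zero, one_mul]
    | succ j ih => rw [pow_succ, mul_assoc, hE, ih]
  unfold Pool.H30.PM.avgOp
  rw [smul_mul_assoc, Finset.sum_mul, Finset.sum_congr rfl fun j _ => h1 j, Finset.sum_const,
    Finset.card_range, ← Nat.cast_smul_eq_nsmul 𝕜, smul_smul,
    inv_mul_cancel₀ (by exact_mod_cast hn), one_smul]

end

theorem uniform_ergodic {𝕜 : Type*} [RCLike 𝕜] {X : Type*} [NormedAddCommGroup X]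
    [NormedSpace 𝕜 X] [CompleteSpace X] [TopologicalSpace.SeparableSpace X]
    (h : AllAttain 𝕜 X) (T : X →L[𝕜] X) (C : ℝ) (hC : ∀ n : ℕ, ‖T ^ n‖ ≤ C) :
    ∃ E : X →L[𝕜] X, Tendsto (fun n => Pool.H30.PM.avgOp T n) atTop (𝓝 E) ∧
      T * E = E ∧ E * T = E ∧ E * E = E := by
  have hC0 : 0 ≤ C := (norm_nonneg _).trans (hC 0)
  obtain ⟨E, hE, hTE, hET, hEE⟩ := mean_ergodic (reflexive_of_allAttain h) T C hC
  refine ⟨E, ?_, hTE, hET, hEE⟩
  rw [Metric.tendsto_atTop]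
  intro ε hε
  obtain ⟨s, w, -, hw0, hw1, hD⟩ := mazur_wot h (fun n => Pool.H30.PM.avgOp T (n + 1)) E C
    (fun n => avg_le T C hC (n + 1))
    (fun x f => (f.continuous.tendsto _).comp ((hE x).comp (tendsto_add_atTop_nat 1)))
    (ε / (2 * (C + 1))) (by positivity) 0
  set D : X →L[𝕜] X := ∑ n ∈ s, ((w n : ℝ) : 𝕜) • Pool.H30.PM.avgOp T (n + 1) with hDdef
  have hw1' : ∑ n ∈ s, ((w n : ℝ) : 𝕜) = 1 := by
    rw [← RCLike.ofReal_sum, hw1, RCLike.ofReal_one]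
  have h1 : Tendsto (fun N : ℕ => Pool.H30.PM.avgOp T N - Pool.H30.PM.avgOp T N * D) atTop
      (𝓝 0) := by
    have h2 : ∀ n : ℕ, Tendsto (fun N : ℕ => Pool.H30.PM.avgOp T N *
        (1 - Pool.H30.PM.avgOp T (n + 1))) atTop (𝓝 0) := by
      intro n
      obtain ⟨q, hq⟩ := one_sub_avg T (n + 1) (Nat.succ_ne_zero n)
      have h3 := (small T C hC).mul_const q
      rw [zero_mul] at h3
      refine h3.congr fun N => ?_
      rw [hq, ← mul_assoc, avg_mul_sub]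
    have h4 : Tendsto (fun N : ℕ => ∑ n ∈ s, ((w n : ℝ) : 𝕜) • (Pool.H30.PM.avgOp T N *
        (1 - Pool.H30.PM.avgOp T (n + 1)))) atTop (𝓝 (∑ n ∈ s, ((w n : ℝ) : 𝕜) •
          (0 : X →L[𝕜] X))) := tendsto_finset_sum s fun n _ => (h2 n).const_smul _
    simp only [smul_zero, Finset.sum_const_zero] at h4
    refine h4.congr fun N => ?_
    simp only [mul_sub, mul_one, smul_sub, Finset.sum_sub_distrib]
    rw [← Finset.sum_smul, hw1', one_smul, hDdef, Finset.mul_sum]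
    simp only [mul_smul_comm]
  rw [Metric.tendsto_atTop] at h1
  obtain ⟨N, hN⟩ := h1 (ε / 2) (by positivity)
  refine ⟨N + 1, fun n hn => ?_⟩
  have h2 := hN n (by omega)
  rw [dist_zero_right] at h2
  rw [dist_eq_norm]
  have h3 : Pool.H30.PM.avgOp T n - E = (Pool.H30.PM.avgOp T n - Pool.H30.PM.avgOp T n * D) +
      Pool.H30.PM.avgOp T n * (D - E) := by
    rw [mul_sub, avg_mul_E T E hTE n (by omega)]
    abel
  rw [h3]
  have h4 : ‖Pool.H30.PM.avgOp T n * (D - E)‖ ≤ ε / 2 := by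
    calc ‖Pool.H30.PM.avgOp T n * (D - E)‖ ≤ ‖Pool.H30.PM.avgOp T n‖ * ‖D - E‖ := norm_mul_le _ _
      _ ≤ (C + 1) * (ε / (2 * (C + 1))) :=
          mul_le_mul ((avg_le T C hC n).trans (by linarith)) hD.le (norm_nonneg _) (by linarith)
      _ = ε / 2 := by field_simp
  calc _ ≤ ‖Pool.H30.PM.avgOp T n - Pool.H30.PM.avgOp T n * D‖ +
        ‖Pool.H30.PM.avgOp T n * (D - E)‖ := norm_add_le _ _
    _ < ε / 2 + ε / 2 := add_lt_add_of_lt_of_le h2 h4
    _ = ε := by ring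

end Pool.H30.RG
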