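import Pool.Agent.H30.RG.Basic

/-!
# H30/RG/VL: vector lattices, the order ideal of an element
-/

namespace Pool.H30.RG

section abs

variable {E : Type*} [AddCommGroup E] [Lattice E] [IsOrderedAddMonoid E] [Module ℝ E]
  [PosSMulMono ℝ E]

theorem vl_smul_sup {r : ℝ} (hr : 0 ≤ r) (a b : E) : r • (a ⊔ b) = r • a ⊔ r • b := by
  rcases hr.eq_or_lt with h | h
  · rw [← h]
    simp
  · apply le_antisymm
    · have h1 : a ⊔ b ≤ r⁻¹ • (r • a ⊔ r • b) := by
        have hi : 0 ≤ r⁻¹ := (inv_pos.mpr h).le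
        refine sup_le ?_ ?_
        · have := smul_le_smul_of_nonneg_left (le_sup_left : r • a ≤ r • a ⊔ r • b) hi
          rwa [smul_smul, inv_mul_cancel₀ h.ne', one_smul] at this
        · have := smul_le_smul_of_nonneg_left (le_sup_right : r • b ≤ r • a ⊔ r • b) hi
          rwa [smul_smul, inv_mul_cancel₀ h.ne', one_smul] at this
      have h2 := smul_le_smul_of_nonneg_left h1 hr
      rwa [smul_smul, mul_inv_cancel₀ h.ne', one_smul] at h2
    · exact sup_le (smul_le_smul_of_nonneg_left le_sup_left hr)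
        (smul_le_smul_of_nonneg_left le_sup_right hr)

theorem vl_abs_smul (r : ℝ) (a : E) : |r • a| = |r| • |a| := by
  rcases le_total 0 r with h | h
  · rw [abs_of_nonneg h]
    show r • a ⊔ -(r • a) = r • (a ⊔ -a)
    rw [vl_smul_sup h, smul_neg]
  · rw [abs_of_nonpos h]
    have h' : 0 ≤ -r := by linarith
    show r • a ⊔ -(r • a) = (-r) • (a ⊔ -a)
    rw [vl_smul_sup h', smul_neg, neg_smul, neg_neg, sup_comm]

theorem vl_smul_le_smul {r s : ℝ} (h : r ≤ s) {a : E} (ha : 0 ≤ a) : r • a ≤ s • a := by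
  have h1 : 0 ≤ (s - r) • a := smul_nonneg (by linarith) ha
  rw [sub_smul] at h1
  exact sub_nonneg.mp h1

end abs

section ideal

variable {L : Type*} [NormedAddCommGroup L] [Lattice L] [IsOrderedAddMonoid L] [HasSolidNorm L]
  [NormedSpace ℝ L] [PosSMulMono ℝ L]

/-- The order ideal generated by `e` in a Banach lattice, as a linear subspace. -/
def ordIdeal (e : L) : Submodule ℝ L where
  carrier := {z | ∃ c : ℝ, |z| ≤ c • e}
  add_mem' := by
    rintro a b ⟨c, hc⟩ ⟨d, hd⟩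
    exact ⟨c + d, (abs_add_le a b).trans (by rw [add_smul]; exact add_le_add hc hd)⟩
  zero_mem' := ⟨0, by simp⟩
  smul_mem' := by
    rintro r a ⟨c, hc⟩
    refine ⟨|r| * c, ?_⟩
    rw [vl_abs_smul, mul_smul]
    exact smul_le_smul_of_nonneg_left hc (abs_nonneg r)

theorem mem_ordIdeal {e z : L} : z ∈ ordIdeal e ↔ ∃ c : ℝ, |z| ≤ c • e := Iff.rfl

theorem ordIdeal_of_abs_le {e z w : L} (hw : w ∈ ordIdeal e) (h : |z| ≤ |w|) : z ∈ ordIdeal e := by
  obtain ⟨c, hc⟩ := hw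
  exact ⟨c, h.trans hc⟩

theorem ordIdeal_abs {e z : L} (hz : z ∈ ordIdeal e) : |z| ∈ ordIdeal e :=
  ordIdeal_of_abs_le hz (by rw [abs_abs])

theorem vl_abs_sup_le (a b : L) : |a ⊔ b| ≤ |a| + |b| := by
  have ha := abs_nonneg a
  have hb := abs_nonneg b
  refine abs_le'.mpr ⟨sup_le ?_ ?_, ?_⟩
  · exact (le_abs_self a).trans (le_add_of_nonneg_right hb)
  · exact (le_abs_self b).trans (le_add_of_nonneg_left ha)
  · rw [neg_sup]
    exact inf_le_left.trans ((neg_le_abs a).trans (le_add_of_nonneg_right hb))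

theorem vl_abs_inf_le (a b : L) : |a ⊓ b| ≤ |a| + |b| := by
  have h := vl_abs_sup_le (-a) (-b)
  rwa [← neg_inf, abs_neg, abs_neg, abs_neg] at h

theorem ordIdeal_sup {e a b : L} (ha : a ∈ ordIdeal e) (hb : b ∈ ordIdeal e) :
    a ⊔ b ∈ ordIdeal e := by
  obtain ⟨c, hc⟩ := ha
  obtain ⟨d, hd⟩ := hb
  exact ⟨c + d, (vl_abs_sup_le a b).trans (by rw [add_smul]; exact add_le_add hc hd)⟩

theorem ordIdeal_inf {e a b : L} (ha : a ∈ ordIdeal e) (hb : b ∈ ordIdeal e) :
    a ⊓ b ∈ ordIdeal e := by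
  obtain ⟨c, hc⟩ := ha
  obtain ⟨d, hd⟩ := hb
  exact ⟨c + d, (vl_abs_inf_le a b).trans (by rw [add_smul]; exact add_le_add hc hd)⟩

instance instLatticeOrdIdeal (e : L) : Lattice (ordIdeal e) :=
  Subtype.lattice (P := fun z => z ∈ ordIdeal e) (fun _ _ => ordIdeal_sup)
    (fun _ _ => ordIdeal_inf)

@[simp] theorem coe_sup_ordIdeal {e : L} (a b : ordIdeal e) : ((a ⊔ b : ordIdeal e) : L) = a ⊔ b :=
  rfl

@[simp] theorem coe_inf_ordIdeal {e : L} (a b : ordIdeal e) : ((a ⊓ b : ordIdeal e) : L) = a ⊓ b :=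
  rfl

@[simp] theorem coe_abs_ordIdeal {e : L} (a : ordIdeal e) : ((|a| : ordIdeal e) : L) = |(a : L)| :=
  rfl

theorem coe_le_ordIdeal {e : L} (a b : ordIdeal e) : (a : L) ≤ b ↔ a ≤ b := Iff.rfl

instance instIsOrderedAddMonoidOrdIdeal (e : L) : IsOrderedAddMonoid (ordIdeal e) where
  add_le_add_left a b h c := by
    have h1 : (a : L) ≤ b := h
    show ((a + c : ordIdeal e) : L) ≤ (b + c : ordIdeal e)
    exact add_le_add h1 le_rfl

instance instPosSMulMonoOrdIdeal (e : L) : PosSMulMono ℝ (ordIdeal e) where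
  smul_le_smul_of_nonneg_left r hr a b h := by
    have h1 : (a : L) ≤ b := h
    show ((r • a : ordIdeal e) : L) ≤ (r • b : ordIdeal e)
    exact smul_le_smul_of_nonneg_left h1 hr

/-- `e` as an element of its order ideal. -/
def unitOf (e : L) (he : 0 ≤ e) : ordIdeal e := ⟨e, 1, by rw [abs_of_nonneg he, one_smul]⟩

@[simp] theorem coe_unitOf (e : L) (he : 0 ≤ e) : (unitOf e he : L) = e := rfl

/-- `e` is an order unit of its ideal. -/
theorem ordIdeal_unit (e : L) (he : 0 ≤ e) (z : ordIdeal e) : ∃ c : ℝ, |z| ≤ c • unitOf e he := by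
  obtain ⟨c, hc⟩ := z.2
  exact ⟨c, hc⟩

/-- The order ideal is Archimedean. -/
theorem ordIdeal_arch (e : L) (he : 0 ≤ e) (z : ordIdeal e)
    (h : ∀ n : ℕ, n • z ≤ unitOf e he) : z ≤ 0 := by
  have h1 : ∀ n : ℕ, 0 < n → (z : L) ≤ (n : ℝ)⁻¹ • e := by
    intro n hn
    have hn' : (0 : ℝ) < n := by exact_mod_cast hn
    have h2 : ((n • z : ordIdeal e) : L) ≤ e := h n
    have h3 : ((n • z : ordIdeal e) : L) = (n : ℝ) • (z : L) := by
      rw [Submodule.coe_smul_of_tower, Nat.cast_smul_eq_nsmul]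
    rw [h3] at h2
    have h4 := smul_le_smul_of_nonneg_left h2 (inv_pos.mpr hn').le
    rwa [smul_smul, inv_mul_cancel₀ hn'.ne', one_smul] at h4
  have h5 : Filter.Tendsto (fun n : ℕ => ((n : ℝ)⁻¹) • e) Filter.atTop (nhds ((0 : ℝ) • e)) :=
    tendsto_inv_atTop_nhds_zero_nat.smul_const e
  rw [zero_smul] at h5
  have h6 : (z : L) ≤ 0 := by
    refine ge_of_tendsto h5 ?_
    filter_upwards [Filter.eventually_gt_atTop 0] with n hn
    exact h1 n hn
  exact h6

end ideal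

end Pool.H30.RG
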