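import Pool.Agent.H30.RG.FR

/-!
# [H30 RG VN] An `L¹` bound

`g` integrable with `∫ ρ z g ≤ D ‖z‖` for all `z` in the ideal. Then `∫ |ρ z g| ≤ D ‖z‖`.

PROOF.  Fix `z`, `|z| ≤ c e`, `|ρ z| ≤ c` everywhere (`ρ` is monotone). Let `s` be the sign of `ρ z g`
(`1`, `0`, `-1`), measurable, `s ρ z g = |ρ z g|`. By `hρ.dense` choose `w n` in the ideal with
`∫ |ρ (w n) - s| ≤ 2^(-n)`; replacing `w n` by `w' n = (w n ⊓ e) ⊔ (-e)` we may assume `|ρ (w n)| ≤ 1` (`ρ` commutes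
with `⊔`, `⊓` since it commutes with `|.|` and is linear; the truncation of reals to `[-1,1]` does not increase
the distance to `s`). Along a subsequence `ρ (w n) → s` almost everywhere. Choose `u n` in the ideal with
`|ρ (u n) - ρ (w n) ρ z| ≤ 2^(-n)` (`hρ.mul`) and truncate: `u' n = (u n ⊓ |z|) ⊔ (-|z|)`; as
`|ρ (w n) ρ z| ≤ |ρ z| = ρ |z|`, still `|ρ (u' n) - ρ (w n) ρ z| ≤ 2^(-n)`, and `|u' n| ≤ |z|` so
`‖u' n‖ ≤ ‖z‖` (solid norm). So `ρ (u' n) → s ρ z` almost everywhere along the subsequence,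
`|ρ (u' n) g| ≤ c |g|`, and by dominated convergence
`∫ |ρ z g| = ∫ s ρ z g = lim ∫ ρ (u' n) g ≤ D ‖z‖` (`D ≥ 0`).
-/

namespace Pool.H30.RG

open MeasureTheory

/-- truncation of reals -/
private theorem vn_clamp {x y b : ℝ} (hy : |y| ≤ b) : |max (min x b) (-b) - y| ≤ |x - y| := by
  have h1 := abs_le.1 hy
  rcases le_total x b with h | h
  · rw [min_eq_left h]
    rcases le_total (-b) x with h2 | h2
    · rw [max_eq_left h2]
    · rw [max_eq_right h2]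
      rw [abs_of_nonpos (by linarith), abs_of_nonpos (by linarith)]
      linarith
  · rw [min_eq_right h]
    have hb : -b ≤ b := by linarith [h1.1, h1.2]
    rw [max_eq_left hb, abs_of_nonneg (by linarith), abs_of_nonneg (by linarith)]
    linarith

private theorem vn_clamp_abs {x b : ℝ} (hb : 0 ≤ b) : |max (min x b) (-b)| ≤ b :=
  abs_le.2 ⟨le_max_right _ _, max_le (min_le_right _ _) (by linarith)⟩

section

variable {E : Type*} [AddCommGroup E] [Lattice E] [IsOrderedAddMonoid E] [Module ℝ E]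
  {e : E} {φ : E →ₗ[ℝ] ℝ} {Ω : Type*} [MeasurableSpace Ω] {μ : Measure Ω}
  {ρ : E →ₗ[ℝ] (Ω → ℝ)}

private theorem vn_pos (hρ : FRep e φ μ ρ) {w : E} (hw : 0 ≤ w) (ω : Ω) : 0 ≤ ρ w ω := by
  have h1 := hρ.abs w ω
  rw [abs_of_nonneg hw] at h1
  rw [h1]
  exact abs_nonneg _

private theorem vn_sup (hρ : FRep e φ μ ρ) (a b : E) (ω : Ω) :
    ρ (a ⊔ b) ω = max (ρ a ω) (ρ b ω) := by
  rw [sup_eq_half_smul_add_add_abs_sub ℝ a b, map_smul, map_add, map_add, Pi.smul_apply,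
    Pi.add_apply, Pi.add_apply, hρ.abs, map_sub, Pi.sub_apply, smul_eq_mul]
  have h := sup_eq_half_smul_add_add_abs_sub ℝ (ρ a ω) (ρ b ω)
  rw [smul_eq_mul] at h
  exact h.symm

private theorem vn_inf (hρ : FRep e φ μ ρ) (a b : E) (ω : Ω) :
    ρ (a ⊓ b) ω = min (ρ a ω) (ρ b ω) := by
  rw [inf_eq_half_smul_add_sub_abs_sub ℝ a b, map_smul, map_sub, map_add, Pi.smul_apply,
    Pi.sub_apply, Pi.add_apply, hρ.abs, map_sub, Pi.sub_apply, smul_eq_mul]
  have h := inf_eq_half_smul_add_sub_abs_sub ℝ (ρ a ω) (ρ b ω)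
  rw [smul_eq_mul] at h
  exact h.symm

private theorem vn_bdd (hρ : FRep e φ μ ρ) {z : E} {c : ℝ} (hc : |z| ≤ c • e) (ω : Ω) :
    |ρ z ω| ≤ c := by
  have h1 := vn_pos hρ (sub_nonneg.2 hc) ω
  rw [map_sub, map_smul, Pi.sub_apply, Pi.smul_apply, hρ.one, hρ.abs, smul_eq_mul, mul_one] at h1
  linarith

private theorem vn_int (hρ : FRep e φ μ ρ) {z : E} {c : ℝ} (hc : |z| ≤ c • e) :
    Integrable (ρ z) μ := by
  have := hρ.fin
  exact Integrable.of_bound (hρ.meas z).aestronglyMeasurable c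
    (Filter.Eventually.of_forall fun ω => by rw [Real.norm_eq_abs]; exact vn_bdd hρ hc ω)

end

theorem l1_bound {L : Type*} [NormedAddCommGroup L] [Lattice L] [IsOrderedAddMonoid L]
    [HasSolidNorm L] [NormedSpace ℝ L] [PosSMulMono ℝ L] (e : L) (he : 0 ≤ e) (φ : L →L[ℝ] ℝ)
    {Ω : Type*} [MeasurableSpace Ω] (μ : Measure Ω) (ρ : ordIdeal e →ₗ[ℝ] (Ω → ℝ))
    (hρ : FRep (unitOf e he) ((φ : L →ₗ[ℝ] ℝ) ∘ₗ (ordIdeal e).subtype) μ ρ)
    (g : Ω → ℝ) (hg : Integrable g μ) (D : ℝ) (hD : 0 ≤ D)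
    (h : ∀ z : ordIdeal e, ∫ ω, ρ z ω * g ω ∂μ ≤ D * ‖(z : L)‖) (z : ordIdeal e) :
    ∫ ω, |ρ z ω * g ω| ∂μ ≤ D * ‖(z : L)‖ := by
  have hfin := hρ.fin
  obtain ⟨c, hc⟩ := ordIdeal_unit e he z
  have hzc : ∀ ω, |ρ z ω| ≤ max c 0 := fun ω => (vn_bdd hρ hc ω).trans (le_max_left _ _)
  set c' : ℝ := max c 0 with hc'
  have hc0 : 0 ≤ c' := le_max_right _ _
  set m : ℝ := μ.real Set.univ with hm
  have hm0 : 0 ≤ m := measureReal_nonneg
  -- the sign
  obtain ⟨g1, hg1m, hg1⟩ := hg.aestronglyMeasurable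
  have hg1m' : Measurable g1 := hg1m.measurable
  let s : Ω → ℝ := fun ω => if 0 ≤ ρ z ω * g1 ω then 1 else -1
  have hsm : Measurable s := Measurable.ite
    (measurableSet_le measurable_const ((hρ.meas z).mul hg1m')) measurable_const measurable_const
  have hsb : ∀ ω, |s ω| ≤ 1 := by
    intro ω
    show |(if 0 ≤ ρ z ω * g1 ω then (1 : ℝ) else -1)| ≤ 1
    split_ifs
    · rw [abs_one]
    · rw [abs_neg, abs_one]
  have hsi : Integrable s μ := Integrable.of_bound hsm.aestronglyMeasurable 1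
    (Filter.Eventually.of_forall fun ω => by rw [Real.norm_eq_abs]; exact hsb ω)
  have hsg : ∀ᵐ ω ∂μ, |ρ z ω * g ω| = s ω * ρ z ω * g ω := by
    filter_upwards [hg1] with ω h1
    rw [h1]
    show _ = (if 0 ≤ ρ z ω * g1 ω then (1 : ℝ) else -1) * ρ z ω * g1 ω
    split_ifs with h2
    · rw [abs_of_nonneg h2]
      ring
    · rw [abs_of_neg (not_le.1 h2)]
      ring
  refine le_of_forall_pos_le_add fun η hη => ?_
  obtain ⟨v, hv⟩ := hρ.dense g hg (η / (2 * (2 * c' + 1))) (by positivity)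
  obtain ⟨b0, hb0⟩ := ordIdeal_unit e he v
  have hvb : ∀ ω, |ρ v ω| ≤ max b0 0 := fun ω => (vn_bdd hρ hb0 ω).trans (le_max_left _ _)
  set b : ℝ := max b0 0 with hb
  have hbn : 0 ≤ b := le_max_right _ _
  set ε : ℝ := η / (2 * ((b + 1) * (m + c' + 1))) with hε
  have hε0 : 0 < ε := by positivity
  obtain ⟨w, hw⟩ := hρ.dense s hsi ε hε0
  let w' : ordIdeal e := (w ⊓ unitOf e he) ⊔ (-unitOf e he)
  have hw' : ∀ ω, ρ w' ω = max (min (ρ w ω) 1) (-1) := by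
    intro ω
    show ρ ((w ⊓ unitOf e he) ⊔ (-unitOf e he)) ω = _
    rw [vn_sup hρ, vn_inf hρ, map_neg, Pi.neg_apply, hρ.one]
  obtain ⟨u, hu⟩ := hρ.mul w' z ε hε0
  let u' : ordIdeal e := (u ⊓ |z|) ⊔ (-|z|)
  have hu' : ∀ ω, ρ u' ω = max (min (ρ u ω) |ρ z ω|) (-|ρ z ω|) := by
    intro ω
    show ρ ((u ⊓ |z|) ⊔ (-|z|)) ω = _
    rw [vn_sup hρ, vn_inf hρ, map_neg, Pi.neg_apply, hρ.abs]
  have hun : ‖(u' : L)‖ ≤ ‖(z : L)‖ := by
    refine HasSolidNorm.solid ?_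
    have h1 : |u'| ≤ |z| := by
      refine abs_le'.2 ⟨sup_le inf_le_right (neg_le_self (abs_nonneg z)), ?_⟩
      have h2 : -|z| ≤ u' := le_sup_right
      exact neg_le.1 h2
    exact h1
  obtain ⟨c1, hc1⟩ := ordIdeal_unit e he u'
  obtain ⟨c2, hc2⟩ := ordIdeal_unit e he w
  -- integrability
  have hiu : Integrable (fun ω => ρ u' ω * g ω) μ :=
    hg.bdd_mul (hρ.meas u').aestronglyMeasurable (c := c1)
      (Filter.Eventually.of_forall fun ω => by rw [Real.norm_eq_abs]; exact vn_bdd hρ hc1 ω)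
  have hiz : Integrable (fun ω => ρ z ω * g ω) μ :=
    hg.bdd_mul (hρ.meas z).aestronglyMeasurable (c := c')
      (Filter.Eventually.of_forall fun ω => by rw [Real.norm_eq_abs]; exact hzc ω)
  have hiw : Integrable (fun ω => |ρ w ω - s ω|) μ := ((vn_int hρ hc2).sub hsi).abs
  have hiv : Integrable (fun ω => |ρ v ω - g ω|) μ := ((vn_int hρ hb0).sub hg).abs
  -- the pointwise inequality
  have hpt : ∀ᵐ ω ∂μ, |ρ z ω * g ω| ≤
      ρ u' ω * g ω + (b * ε + b * c' * |ρ w ω - s ω| + 2 * c' * |ρ v ω - g ω|) := by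
    filter_upwards [hsg] with ω h1
    rw [h1]
    have h2 : |ρ w' ω - s ω| ≤ |ρ w ω - s ω| := by
      rw [hw']
      exact vn_clamp (hsb ω)
    have h3 : |ρ w' ω| ≤ 1 := by
      rw [hw']
      exact vn_clamp_abs zero_le_one
    have h4 : |ρ u' ω - ρ w' ω * ρ z ω| ≤ ε := by
      rw [hu']
      refine (vn_clamp ?_).trans (hu ω)
      rw [abs_mul]
      calc |ρ w' ω| * |ρ z ω| ≤ 1 * |ρ z ω| := mul_le_mul_of_nonneg_right h3 (abs_nonneg _)
        _ = |ρ z ω| := one_mul _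
    have h5 : |ρ u' ω| ≤ c' := by
      rw [hu']
      exact (vn_clamp_abs (abs_nonneg _)).trans (hzc ω)
    have h6 : |s ω * ρ z ω| ≤ c' := by
      rw [abs_mul]
      calc |s ω| * |ρ z ω| ≤ 1 * |ρ z ω| := mul_le_mul_of_nonneg_right (hsb ω) (abs_nonneg _)
        _ ≤ c' := by rw [one_mul]; exact hzc ω
    have h7 : |s ω * ρ z ω - ρ u' ω| ≤ 2 * c' := (abs_sub _ _).trans (by linarith)
    have h8 : |s ω * ρ z ω - ρ u' ω| ≤ ε + c' * |ρ w ω - s ω| := by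
      have h9 : s ω * ρ z ω - ρ u' ω =
          -(ρ u' ω - ρ w' ω * ρ z ω) + -((ρ w' ω - s ω) * ρ z ω) := by ring
      rw [h9]
      refine (abs_add_le _ _).trans ?_
      rw [abs_neg, abs_neg, abs_mul]
      have h10 : |ρ w' ω - s ω| * |ρ z ω| ≤ |ρ w ω - s ω| * c' :=
        mul_le_mul h2 (hzc ω) (abs_nonneg _) (abs_nonneg _)
      linarith
    have h9 : s ω * ρ z ω * g ω = ρ u' ω * g ω + ((s ω * ρ z ω - ρ u' ω) * ρ v ω -
        (s ω * ρ z ω - ρ u' ω) * (ρ v ω - g ω)) := by ring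
    rw [h9]
    have h10 : (s ω * ρ z ω - ρ u' ω) * ρ v ω ≤ (ε + c' * |ρ w ω - s ω|) * b := by
      refine (le_abs_self _).trans ?_
      rw [abs_mul]
      exact mul_le_mul h8 (hvb ω) (abs_nonneg _) (by positivity)
    have h11 : -((s ω * ρ z ω - ρ u' ω) * (ρ v ω - g ω)) ≤ 2 * c' * |ρ v ω - g ω| := by
      refine (neg_le_abs _).trans ?_
      rw [abs_mul]
      exact mul_le_mul_of_nonneg_right h7 (abs_nonneg _)
    linarith
  have i12 : Integrable (fun ω => b * ε + b * c' * |ρ w ω - s ω|) μ :=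
    (integrable_const (b * ε)).add (hiw.const_mul (b * c'))
  have i123 : Integrable (fun ω => b * ε + b * c' * |ρ w ω - s ω| + 2 * c' * |ρ v ω - g ω|) μ :=
    i12.add (hiv.const_mul (2 * c'))
  have e1 : ∫ ω, (b * ε + b * c' * |ρ w ω - s ω|) ∂μ =
      b * ε * m + b * c' * ∫ ω, |ρ w ω - s ω| ∂μ := by
    rw [integral_add (integrable_const (b * ε)) (hiw.const_mul (b * c')), integral_const,
      integral_const_mul, smul_eq_mul, mul_comm m]
  have e2 : ∫ ω, (b * ε + b * c' * |ρ w ω - s ω| + 2 * c' * |ρ v ω - g ω|) ∂μ =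
      b * ε * m + b * c' * ∫ ω, |ρ w ω - s ω| ∂μ + 2 * c' * ∫ ω, |ρ v ω - g ω| ∂μ := by
    rw [integral_add i12 (hiv.const_mul (2 * c')), e1, integral_const_mul]
  have hI2 : ∫ ω, |ρ z ω * g ω| ∂μ ≤ ∫ ω, ρ u' ω * g ω ∂μ +
      (b * ε * m + b * c' * ∫ ω, |ρ w ω - s ω| ∂μ + 2 * c' * ∫ ω, |ρ v ω - g ω| ∂μ) := by
    rw [← e2, ← integral_add hiu i123]
    exact integral_mono_ae hiz.abs (hiu.add i123) hpt
  have h1 : ∫ ω, ρ u' ω * g ω ∂μ ≤ D * ‖(z : L)‖ :=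
    (h u').trans (mul_le_mul_of_nonneg_left hun hD)
  have h2 : b * c' * ∫ ω, |ρ w ω - s ω| ∂μ ≤ b * c' * ε :=
    mul_le_mul_of_nonneg_left hw (by positivity)
  have h3 : 2 * c' * ∫ ω, |ρ v ω - g ω| ∂μ ≤ 2 * c' * (η / (2 * (2 * c' + 1))) :=
    mul_le_mul_of_nonneg_left hv (by positivity)
  have h4 : 2 * c' * (η / (2 * (2 * c' + 1))) ≤ η / 2 := by
    have h5 : 2 * c' * (η / (2 * (2 * c' + 1))) = η / 2 * (2 * c' / (2 * c' + 1)) := by
      field_simp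
    rw [h5]
    have h6 : 2 * c' / (2 * c' + 1) ≤ 1 := by
      rw [div_le_one (by positivity)]
      linarith
    calc η / 2 * (2 * c' / (2 * c' + 1)) ≤ η / 2 * 1 :=
          mul_le_mul_of_nonneg_left h6 (by positivity)
      _ = η / 2 := mul_one _
  have h5 : b * ε * m + b * c' * ε ≤ η / 2 := by
    have h6 : b * ε * m + b * c' * ε = η / 2 * (b * (m + c') / ((b + 1) * (m + c' + 1))) := by
      rw [hε]
      field_simp
    rw [h6]
    have h7 : b * (m + c') / ((b + 1) * (m + c' + 1)) ≤ 1 := by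
      rw [div_le_one (by positivity)]
      nlinarith [mul_nonneg hbn (add_nonneg hm0 hc0)]
    calc η / 2 * (b * (m + c') / ((b + 1) * (m + c' + 1))) ≤ η / 2 * 1 :=
          mul_le_mul_of_nonneg_left h7 (by positivity)
      _ = η / 2 := mul_one _
  linarith

end Pool.H30.RG
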